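import Mathlib
import Pool.Agent.Run7.h18.MK.T31
import Pool.Agent.H373R2.T7.LamZ2

/-! Project MK: sparse windows in mean square over `n`, for laws of shifts with major arcs. -/

set_option autoImplicit false

namespace Pool.Agent.Run7.h18.MK

open Finset Filter
open Pool.Agent.H807R2.Dav (ee norm_ee ee_add ee_int ee_add_int ee_zero)
open Pool.Agent.H373R2.T7 (lamz lamI lamzI Vz Vz_inv_small lamz_nonneg)
open Pool.Agent.Run7.h794.MK
open Pool.Agent.Run7.h27.MK (gI)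

/-- **T31G** (from ARC0). -/
def S_T31G : Prop := ∀ Bc U : ℕ, ∃ V : ℕ, ∀ T D : ℕ, ∃ C : ℕ, ∀ E : ℕ, ∃ N₀ : ℕ, ∀ N : ℕ, N₀ ≤ N → ∀ z : ℕ,
  Real.log N ^ T ≤ z → (z : ℝ) ≤ Real.log N ^ E →
  ∀ (ι : Type) (Ω : Finset ι) (p : ι → ℝ) (Yv : ι → ℤ), (∀ ω ∈ Ω, 0 ≤ p ω) → ∑ ω ∈ Ω, p ω ≤ 1 →
  (∀ ω ∈ Ω, |Yv ω| ≤ Bc * N) → ∀ H : ℕ, (N : ℝ) ^ (1 / 3 : ℝ) * Real.log N ^ C ≤ H → H ≤ N →
  (∀ α : ℝ, (∀ k : ℕ, 1 ≤ k → (k : ℝ) ≤ Real.log N ^ T → ∀ a : ℤ, Real.log N ^ D / H < |α - a / k|) →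
    ‖∑ ω ∈ Ω, ((p ω : ℝ) : ℂ) * ee ((Yv ω : ℝ) * α)‖ ≤ 1 / Real.log N ^ V) →
  ∑ n ∈ Icc 1 N, (∑ ω ∈ Ω, p ω * (lamI ((n : ℤ) + Yv ω) - lamzI z ((n : ℤ) + Yv ω))) ^ 2 ≤ N / Real.log N ^ U

lemma gI_eqz (z : ℕ) (m : ℤ) :
    gI (fun n => ArithmeticFunction.vonMangoldt n - lamz z n) m = lamI m - lamzI z m := by
  unfold gI lamI lamzI
  split_ifs
  · rfl
  · rw [sub_zero]

/-- the centers of the arcs, all denominators up to `K` -/
noncomputable def GamA (K M : ℕ) : Finset ℤ := (Icc 1 K).biUnion fun k => Gam k M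

lemma GamA_card (K M : ℕ) : (GamA K M).card ≤ K * K := by
  unfold GamA
  refine card_biUnion_le.trans ?_
  calc ∑ k ∈ Icc 1 K, (Gam k M).card ≤ ∑ _k ∈ Icc 1 K, K := sum_le_sum fun k hk =>
        (Gam_card k M).trans (mem_Icc.1 hk).2
    _ = K * K := by rw [sum_const, Nat.card_Icc, smul_eq_mul, Nat.add_sub_cancel]

/-- away from the centers -/
lemma farA (K M : ℕ) (hM : 1 ≤ M) (R : ℝ) (t : ℤ)
    (ht : ∀ γ ∈ GamA K M, ∀ k : ℤ, R < |((t - γ - k * M : ℤ) : ℝ)|) (k : ℕ) (hk : 1 ≤ k) (hkK : k ≤ K) (a : ℤ) :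
    (R - 1 / 2) / M < |(t : ℝ) / M - a / k| := by
  have hM0 : (0 : ℝ) < M := by exact_mod_cast hM
  have hk0 : (0 : ℝ) < k := by exact_mod_cast hk
  have hkz : (k : ℤ) ≠ 0 := by exact_mod_cast (by omega : k ≠ 0)
  obtain ⟨j, hj⟩ : ∃ j : ℕ, (j : ℤ) = a % k := ⟨(a % k).toNat, Int.toNat_of_nonneg (Int.emod_nonneg _ hkz)⟩
  have hjk : j < k := by
    have := Int.emod_lt_of_pos a (show (0 : ℤ) < k by exact_mod_cast hk)
    omega
  have ha : (a : ℝ) = k * ((a / k : ℤ) : ℝ) + j := by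
    have h1 := Int.mul_ediv_add_emod a k
    rw [← hj] at h1
    have h2 : ((k * (a / k) + j : ℤ) : ℝ) = (a : ℝ) := by rw [h1]
    push_cast at h2
    linarith
  have h1 := ht (round ((M : ℝ) * j / k)) (by
    unfold GamA
    rw [mem_biUnion]
    refine ⟨k, mem_Icc.2 ⟨hk, hkK⟩, ?_⟩
    unfold Gam
    exact mem_image.2 ⟨j, mem_range.2 hjk, rfl⟩) (a / k)
  have h2 := abs_sub_round ((M : ℝ) * j / k)
  have h3 : (t : ℝ) / M - a / k = (1 / M) * ((t : ℝ) - (M : ℝ) * j / k - ((a / k : ℤ) : ℝ) * M) := by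
    rw [ha]
    field_simp
    ring
  rw [h3, abs_mul, abs_of_nonneg (by positivity)]
  have h5 : ((t - round ((M : ℝ) * j / k) - (a / k) * M : ℤ) : ℝ) =
      ((t : ℝ) - (M : ℝ) * j / k - ((a / k : ℤ) : ℝ) * M) + ((M : ℝ) * j / k - round ((M : ℝ) * j / k)) := by
    push_cast
    ring
  rw [h5] at h1
  have h6 := abs_add_le ((t : ℝ) - (M : ℝ) * j / k - ((a / k : ℤ) : ℝ) * M) ((M : ℝ) * j / k - round ((M : ℝ) * j / k))
  have h4 : R - 1 / 2 < |(t : ℝ) - (M : ℝ) * j / k - ((a / k : ℤ) : ℝ) * M| := by linarith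
  calc (R - 1 / 2) / M = (1 / M) * (R - 1 / 2) := by ring
    _ < _ := mul_lt_mul_of_pos_left h4 (by positivity)

theorem t_T31G (hA : S_ARC0) : S_T31G := by
  intro Bc U
  refine ⟨U + 2, fun T D => ?_⟩
  obtain ⟨V, hV⟩ : ∃ V, V = U + 2 := ⟨_, rfl⟩
  rw [← hV]
  obtain ⟨U', hU'⟩ : ∃ U', U' = 2 * T + D + U + 2 := ⟨_, rfl⟩
  obtain ⟨C', hA⟩ := hA (D + 2 + T) U'
  refine ⟨C' + 2, fun E => ?_⟩
  obtain ⟨X₁, hA⟩ := hA E
  obtain ⟨n1, h1⟩ := Vz_inv_small E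
  obtain ⟨N₁, hN₁⟩ := ev 1 (36 * (Bc + 1) + 2 ^ C' + Real.log (Bc + 1) + 100)
  refine ⟨N₁ + X₁ + n1 + 3, fun N hN z hz1 hz2 ι Ω p Yv hp hp1 hY H hH1 hH2 hφ => ?_⟩
  have hVz := h1 N (by omega)
  obtain ⟨hLK, -⟩ := hN₁ N (by omega)
  have hN0 : (0 : ℝ) < N := by exact_mod_cast (by omega : 0 < N)
  have hN1 : (1 : ℝ) ≤ N := by exact_mod_cast (by omega : 1 ≤ N)
  obtain ⟨L, hL⟩ : ∃ L, L = Real.log (N : ℝ) := ⟨_, rfl⟩
  rw [← hL] at hLK hVz hz1 hz2 hH1 hφ ⊢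
  have hBc0 : (0 : ℝ) ≤ Bc := Nat.cast_nonneg _
  have h2C : (0 : ℝ) < 2 ^ C' := by positivity
  have hlB : 0 ≤ Real.log ((Bc : ℝ) + 1) := Real.log_nonneg (by linarith)
  have hL1 : 100 ≤ L := by linarith
  have hL2 : 36 * ((Bc : ℝ) + 1) ≤ L := by linarith
  have hL3 : (2 : ℝ) ^ C' ≤ L := by linarith
  have hL4 : Real.log ((Bc : ℝ) + 1) ≤ L := by linarith
  have hL0 : 0 < L := by linarith
  have hL11 : 1 ≤ L := by linarith
  have hz0 : 1 ≤ z := by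
    have : (1 : ℝ) ≤ z := (one_le_pow₀ hL11).trans hz1
    exact_mod_cast this
  have hVz := hVz z hz0 hz2
  -- the parameters
  obtain ⟨X, hX⟩ : ∃ X : ℕ, X = (Bc + 1) * N := ⟨_, rfl⟩
  have hXr : (X : ℝ) = ((Bc : ℝ) + 1) * N := by rw [hX]; push_cast; ring
  have hNX : N ≤ X := by rw [hX]; exact Nat.le_mul_of_pos_left _ (by omega)
  have hX1 : 1 ≤ X := by omega
  have hX0 : (0 : ℝ) < X := by exact_mod_cast hX1
  have hNXr : (N : ℝ) ≤ X := by exact_mod_cast hNX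
  obtain ⟨LX, hLX⟩ : ∃ LX, LX = Real.log (X : ℝ) := ⟨_, rfl⟩
  have hLX1 : L ≤ LX := by rw [hL, hLX]; exact Real.log_le_log hN0 hNXr
  have hLX2 : LX ≤ 2 * L := by
    rw [hLX, hXr, Real.log_mul (by linarith) hN0.ne', ← hL]
    linarith
  have hLX0 : 0 < LX := by linarith
  have hHpos : 0 < H := by
    have h2 : (0 : ℝ) < H := lt_of_lt_of_le (by positivity) hH1
    exact_mod_cast h2
  have hH0 : (0 : ℝ) < H := by exact_mod_cast hHpos
  obtain ⟨M, hM⟩ : ∃ M, M = 4 * X := ⟨_, rfl⟩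
  have hM1 : 1 ≤ M := by omega
  have hM0 : (0 : ℝ) < M := by exact_mod_cast hM1
  have hMX : (M : ℝ) = 4 * X := by rw [hM]; push_cast; ring
  have hHr : (H : ℝ) ≤ N := by exact_mod_cast hH2
  have hMH : 1 ≤ (M : ℝ) / H := by
    rw [le_div_iff₀ hH0]
    linarith
  obtain ⟨R, hR⟩ : ∃ R : ℝ, R = 2 * L ^ D * ((M : ℝ) / H) := ⟨_, rfl⟩
  have hLD : 1 ≤ L ^ D := one_le_pow₀ hL11
  have hR1 : 1 ≤ R := by
    rw [hR]
    nlinarith
  obtain ⟨n, hn⟩ : ∃ n : ℕ, n = ⌊R⌋₊ := ⟨_, rfl⟩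
  have hnR : (n : ℝ) ≤ R := by rw [hn]; exact Nat.floor_le (by linarith)
  have hRn : R < n + 1 := by rw [hn]; exact Nat.lt_floor_add_one R
  obtain ⟨J, hJ⟩ : ∃ J : ℕ, J = ⌈4 * L ^ D⌉₊ + 1 := ⟨_, rfl⟩
  have hJ1 : 4 * L ^ D + 1 ≤ J := by
    rw [hJ]
    push_cast
    have := Nat.le_ceil (4 * L ^ D)
    linarith
  have hJ2 : (J : ℝ) ≤ 6 * L ^ D := by
    rw [hJ]
    push_cast
    have := (Nat.ceil_lt_add_one (by positivity : 0 ≤ 4 * L ^ D)).le
    linarith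
  obtain ⟨w, hw⟩ : ∃ w : ℕ, w = M / H := ⟨_, rfl⟩
  have hw1 : (M : ℝ) / H ≤ 2 * w + 1 := by
    have h1 : M < H * (w + 1) := by rw [hw]; exact Nat.lt_mul_div_succ M hHpos
    have h2 : (M : ℝ) < H * (w + 1) := by exact_mod_cast h1
    rw [div_le_iff₀ hH0]
    have h3 : (0 : ℝ) ≤ w := Nat.cast_nonneg _
    nlinarith
  have hw2 : (w : ℝ) ≤ (M : ℝ) / H := by rw [hw]; exact Nat.cast_div_le
  obtain ⟨KK, hKK⟩ : ∃ KK : ℕ, KK = ⌊L ^ T⌋₊ := ⟨_, rfl⟩
  have hKK1 : (KK : ℝ) ≤ L ^ T := by rw [hKK]; exact Nat.floor_le (by positivity)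
  -- integer bounds
  have hYX : ∀ ω ∈ Ω, ∀ n' ∈ Icc 1 N, |(n' : ℤ) + Yv ω| ≤ X := by
    intro ω hω n' hn'
    rw [mem_Icc] at hn'
    have h1 := abs_le.1 (hY ω hω)
    have h3 : (X : ℤ) = Bc * N + N := by rw [hX]; push_cast; ring
    rw [abs_le]
    constructor
    · have := h1.1
      omega
    · have := h1.2
      omega
  set g : ℕ → ℝ := fun n => ArithmeticFunction.vonMangoldt n - lamz z n with hg
  have hg2 : ∀ m ∈ Icc 1 X, g m ^ 2 ≤ 9 * L ^ 2 := by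
    intro m hm
    rw [mem_Icc] at hm
    have h5 : ArithmeticFunction.vonMangoldt m ≤ LX := by
      rw [hLX]
      refine ArithmeticFunction.vonMangoldt_le_log.trans ?_
      exact Real.log_le_log (by exact_mod_cast hm.1) (by exact_mod_cast hm.2)
    have h6 : 0 ≤ ArithmeticFunction.vonMangoldt m := ArithmeticFunction.vonMangoldt_nonneg
    have h7 := lamz_nonneg z m
    have h8 : lamz z m ≤ L := by
      unfold lamz
      split_ifs
      · exact hVz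
      · exact hL0.le
    have h9 : |g m| ≤ 3 * L := by
      rw [hg, abs_le]
      constructor <;> simp only <;> linarith
    calc g m ^ 2 = |g m| ^ 2 := (sq_abs _).symm
      _ ≤ (3 * L) ^ 2 := pow_le_pow_left₀ (abs_nonneg _) h9 2
      _ = _ := by ring
  obtain ⟨K, hK⟩ : ∃ K : ℝ, K = M * X / LX ^ U' := ⟨_, rfl⟩
  have hHC : (X : ℝ) ^ (1 / 3 : ℝ) * LX ^ C' ≤ H := by
    refine le_trans ?_ hH1
    have h1 : (X : ℝ) ^ (1 / 3 : ℝ) ≤ (N : ℝ) ^ (1 / 3 : ℝ) * L := by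
      rw [hXr, Real.mul_rpow (by linarith) hN0.le, mul_comm]
      apply mul_le_mul_of_nonneg_left _ (by positivity)
      calc ((Bc : ℝ) + 1) ^ (1 / 3 : ℝ) ≤ ((Bc : ℝ) + 1) ^ (1 : ℝ) :=
            Real.rpow_le_rpow_of_exponent_le (by linarith) (by norm_num)
        _ = (Bc : ℝ) + 1 := Real.rpow_one _
        _ ≤ L := by linarith
    have h2 : LX ^ C' ≤ L * L ^ C' := by
      calc LX ^ C' ≤ (2 * L) ^ C' := pow_le_pow_left₀ hLX0.le hLX2 _
        _ = 2 ^ C' * L ^ C' := mul_pow _ _ _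
        _ ≤ L * L ^ C' := mul_le_mul_of_nonneg_right hL3 (by positivity)
    calc (X : ℝ) ^ (1 / 3 : ℝ) * LX ^ C' ≤ ((N : ℝ) ^ (1 / 3 : ℝ) * L) * (L * L ^ C') :=
          mul_le_mul h1 h2 (by positivity) (by positivity)
      _ = (N : ℝ) ^ (1 / 3 : ℝ) * L ^ (C' + 2) := by ring
  have hLB : ∀ e : ℕ, e ≤ D + 2 + T → L ^ e ≤ LX ^ (D + 2 + T) := by
    intro e he
    calc L ^ e ≤ LX ^ e := pow_le_pow_left₀ hL0.le hLX1 _
      _ ≤ _ := pow_le_pow_right₀ (by linarith) he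
  have hKarc : ∀ γ ∈ GamA KK M, ∀ c : ℤ, |c - γ| ≤ n + w →
      ∑ s ∈ Icc (-(w : ℤ)) (w : ℤ), ‖DF g X M (c + s)‖ ^ 2 ≤ K := by
    intro γ hγ c hc
    unfold GamA at hγ
    rw [mem_biUnion] at hγ
    obtain ⟨k, hk, hγ⟩ := hγ
    rw [mem_Icc] at hk
    unfold Gam at hγ
    obtain ⟨j, -, rfl⟩ := mem_image.1 hγ
    have hkr : (0 : ℝ) < k := by exact_mod_cast hk.1
    have hkT : (k : ℝ) ≤ L ^ T := le_trans (by exact_mod_cast hk.2) hKK1
    rw [hK, hw, hLX]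
    apply hA X (by omega) z k hk.1 (by rw [← hLX]; exact hkT.trans (hLB T (by omega)))
      (by exact_mod_cast hkT.trans hz1) (by rw [← hLX]; exact hz2.trans (pow_le_pow_left₀ hL0.le hLX1 _)) M
      (by omega) c H (by rw [← hLX]; exact hHC) (j : ℤ)
    rw [← hLX]
    have h1 := abs_sub_round ((M : ℝ) * j / k)
    have h2 : |((c - round ((M : ℝ) * j / k) : ℤ) : ℝ)| ≤ n + w := by
      rw [← Int.cast_abs]
      exact_mod_cast hc
    have h3 : (c : ℝ) / M - ((j : ℤ) : ℝ) / k = (((c - round ((M : ℝ) * j / k) : ℤ) : ℝ) -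
        ((M : ℝ) * j / k - round ((M : ℝ) * j / k))) / M := by
      push_cast
      field_simp
      ring
    rw [h3, abs_div, abs_of_pos hM0, div_le_div_iff₀ hM0 hH0]
    have h4 := abs_sub (((c - round ((M : ℝ) * j / k) : ℤ) : ℝ)) ((M : ℝ) * j / k - round ((M : ℝ) * j / k))
    have h5 : |((c - round ((M : ℝ) * j / k) : ℤ) : ℝ) - ((M : ℝ) * j / k - round ((M : ℝ) * j / k))| ≤
        (2 * L ^ D + 2) * (M / H) := by
      have e1 : (2 * L ^ D + 2) * ((M : ℝ) / H) = R + M / H + M / H := by rw [hR]; ring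
      rw [e1]
      linarith
    have h6 : 2 * L ^ D + 2 ≤ LX ^ (D + 2 + T) := by
      refine le_trans ?_ (hLB (D + 1) (by omega))
      rw [pow_succ]
      nlinarith
    calc |((c - round ((M : ℝ) * j / k) : ℤ) : ℝ) - ((M : ℝ) * j / k - round ((M : ℝ) * j / k))| * H ≤
        ((2 * L ^ D + 2) * (M / H)) * H := mul_le_mul_of_nonneg_right h5 hH0.le
      _ = (2 * L ^ D + 2) * M := by field_simp
      _ ≤ _ := mul_le_mul_of_nonneg_right h6 hM0.le
  have hJn : 2 * n + 1 ≤ J * (2 * w + 1) := by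
    have h1 : (2 : ℝ) * n + 1 ≤ J * (2 * w + 1) := by
      calc (2 : ℝ) * n + 1 ≤ 2 * R + M / H := by linarith
        _ = (4 * L ^ D + 1) * (M / H) := by rw [hR]; ring
        _ ≤ J * (2 * w + 1) := mul_le_mul hJ1 hw1 (by positivity) (Nat.cast_nonneg _)
    exact_mod_cast h1
  have hΓ : ∀ t : ℤ, (∀ γ ∈ GamA KK M, ∀ k : ℤ, R < |((t - γ - k * M : ℤ) : ℝ)|) →
      ‖∑ ω ∈ Ω, ((p ω : ℝ) : ℂ) * ee ((Yv ω : ℝ) * ((t : ℝ) / M))‖ ≤ 1 / L ^ V := by
    intro t ht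
    apply hφ
    intro k hk1 hkT a
    refine lt_of_le_of_lt ?_ (farA KK M hM1 R t ht k hk1 (by rw [hKK]; exact Nat.le_floor hkT) a)
    rw [div_le_div_iff₀ hH0 hM0]
    have e1 : L ^ D * M = (L ^ D * (M / H)) * H := by field_simp
    rw [e1]
    apply mul_le_mul_of_nonneg_right _ hH0.le
    have e2 : 1 / 2 ≤ L ^ D * ((M : ℝ) / H) := by nlinarith
    rw [hR]
    linarith
  have hcore := core Ω p Yv hp hp1 N X M w J n hM1
    (by omega) (by omega) g (fun v hv n' hn' => (abs_le.1 (hYX v hv n' hn')).2)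
    (fun v hv n' hn' m hm => by
      have h1 := abs_le.1 (hYX v hv n' hn')
      rw [mem_Icc] at hm
      rw [abs_lt]
      constructor
      · have := h1.2
        omega
      · have := h1.1
        omega)
    (9 * L ^ 2) K (1 / L ^ V) R hg2 (GamA KK M) hKarc hJn hRn hΓ
  have hgoal : ∑ n' ∈ Icc 1 N, (∑ ω ∈ Ω, p ω * gI g ((n' : ℤ) + Yv ω)) ^ 2 ≤ N / L ^ U := by
    refine hcore.trans ?_
    have t1 : (1 / L ^ V) ^ 2 * (X * (9 * L ^ 2)) ≤ N / L ^ U / 2 := by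
      rw [hXr]
      calc (1 / L ^ V) ^ 2 * ((((Bc : ℝ) + 1) * N) * (9 * L ^ 2)) = (9 * ((Bc : ℝ) + 1)) * N * L ^ 2 / L ^ (2 * V) := by
            have e2 : L ^ (2 * V) = (L ^ V) ^ 2 := by rw [← pow_mul, mul_comm]
            rw [e2, div_pow]
            ring
        _ ≤ N / L ^ U / 2 := by
            rw [div_div, div_le_div_iff₀ (by positivity) (by positivity)]
            have e3 : L ^ 2 * L ^ U * L ≤ L ^ (2 * V) := by
              rw [← pow_add, ← pow_succ]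
              apply pow_le_pow_right₀ hL11
              omega
            have e4 : 0 ≤ L ^ 2 * L ^ U := by positivity
            calc (9 * ((Bc : ℝ) + 1)) * N * L ^ 2 * (L ^ U * 2) = N * ((18 * ((Bc : ℝ) + 1)) * (L ^ 2 * L ^ U)) := by ring
              _ ≤ N * (L * (L ^ 2 * L ^ U)) := by
                  apply mul_le_mul_of_nonneg_left _ hN0.le
                  apply mul_le_mul_of_nonneg_right _ e4
                  linarith
              _ = N * (L ^ 2 * L ^ U * L) := by ring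
              _ ≤ N * L ^ (2 * V) := mul_le_mul_of_nonneg_left e3 hN0.le
    have t2 : ((GamA KK M).card : ℝ) * (J * K) / M ≤ N / L ^ U / 2 := by
      have hc : ((GamA KK M).card : ℝ) ≤ L ^ (2 * T) := by
        have h5 : ((GamA KK M).card : ℝ) ≤ KK * KK := by exact_mod_cast GamA_card KK M
        refine h5.trans ?_
        rw [two_mul, pow_add]
        exact mul_le_mul hKK1 hKK1 (Nat.cast_nonneg _) (by positivity)
      have hKM : K / M ≤ (((Bc : ℝ) + 1) * N) / L ^ U' := by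
        rw [hK]
        have e1 : (M : ℝ) * X / LX ^ U' / M = X / LX ^ U' := by field_simp
        rw [e1]
        apply div_le_div₀ (by positivity) hXr.le (by positivity)
        exact pow_le_pow_left₀ hL0.le hLX1 _
      have hK0 : 0 ≤ K / M := by rw [hK]; positivity
      calc ((GamA KK M).card : ℝ) * (J * K) / M = ((GamA KK M).card : ℝ) * (J * (K / M)) := by ring
        _ ≤ L ^ (2 * T) * ((6 * L ^ D) * ((((Bc : ℝ) + 1) * N) / L ^ U')) := by gcongr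
        _ = (6 * ((Bc : ℝ) + 1)) * N * L ^ (2 * T + D) / L ^ U' := by
            rw [pow_add L (2 * T) D]
            ring
        _ ≤ N / L ^ U / 2 := by
            rw [div_div, div_le_div_iff₀ (by positivity) (by positivity)]
            have e3 : L ^ (2 * T + D) * L ^ U * L ≤ L ^ U' := by
              rw [← pow_add, ← pow_succ]
              apply pow_le_pow_right₀ hL11
              omega
            have e4 : 0 ≤ L ^ (2 * T + D) * L ^ U := by positivity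
            calc (6 * ((Bc : ℝ) + 1)) * N * L ^ (2 * T + D) * (L ^ U * 2) =
                N * ((12 * ((Bc : ℝ) + 1)) * (L ^ (2 * T + D) * L ^ U)) := by ring
              _ ≤ N * (L * (L ^ (2 * T + D) * L ^ U)) := by
                  apply mul_le_mul_of_nonneg_left _ hN0.le
                  apply mul_le_mul_of_nonneg_right _ e4
                  linarith
              _ = N * (L ^ (2 * T + D) * L ^ U * L) := by ring
              _ ≤ N * L ^ U' := mul_le_mul_of_nonneg_left e3 hN0.le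
    linarith
  simp only [hg, gI_eqz] at hgoal
  exact hgoal

end Pool.Agent.Run7.h18.MK
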