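import Mathlib
import Pool.Agent.Run7.h18.MK.T31G
import Pool.Agent.H373R2.NB.WeylSum
import Pool.Agent.H373R2.T7.BilLam

/-! Project MK: primes along short polynomial sequences, for almost every constant term. Part 1: the mean square. -/

set_option autoImplicit false

namespace Pool.Agent.Run7.h18.MK

open Finset Filter Polynomial
open Pool.Agent.H807R2.Dav (ee norm_ee ee_add ee_int ee_add_int ee_zero)
open Pool.Agent.H373R2.T7 (lamz lamI lamzI mk_ee)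
open Pool.Agent.H373R2.NB (IW IW_all Ph_poly Ph_succ sum_Icc_one)

/-- the inverse theorem for Weyl sums, uniformly in the polynomial -/
lemma iw_one (e : ℕ) (he : 1 ≤ e) : ∃ c m : ℕ, 1 ≤ c ∧ ∀ (x : ℕ) (u α : ℝ) (f : ℤ[X]), 1 ≤ x → 1 ≤ u →
    f.natDegree = e → (x : ℝ) ≤ u * ‖∑ n ∈ Icc 1 x, ee (((f.eval (n : ℤ) : ℤ) : ℝ) * α)‖ →
    ∃ k : ℕ, 1 ≤ k ∧ (k : ℝ) ≤ c * u ^ m * (f.coeff e).natAbs ∧
      ∃ a : ℤ, |α - a / k| ≤ c * u ^ m / (x : ℝ) ^ e := by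
  obtain ⟨c, m, hc, hI⟩ := IW_all e he
  refine ⟨c * e.factorial, m, Nat.mul_pos hc (Nat.factorial_pos e), fun x u α f hx hu hf hS => ?_⟩
  have hx0 : (0 : ℝ) < x := by exact_mod_cast hx
  have hc1 : (1 : ℝ) ≤ c := by exact_mod_cast hc
  have hf1 : (1 : ℝ) ≤ (e.factorial : ℝ) := by exact_mod_cast Nat.factorial_pos e
  have hce : f.coeff e ≠ 0 := by
    rw [← hf]
    intro h0
    have h1 : f.leadingCoeff = 0 := h0
    rw [leadingCoeff_eq_zero] at h1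
    rw [h1, natDegree_zero] at hf
    omega
  have hph := Ph_succ _ _ _ (Ph_poly e f hf.le α)
  have hsum : ∑ n ∈ Icc 1 x, ee (((f.eval (n : ℤ) : ℤ) : ℝ) * α) =
      ∑ n ∈ range x, Pool.Agent.Helper602.MK.ee ((fun n : ℕ => (fun n : ℕ => α * ((f.eval (n : ℤ) : ℤ) : ℝ)) (n + 1)) n) := by
    rw [sum_Icc_one]
    apply sum_congr rfl
    intro n _
    rw [mk_ee]
    congr 1
    ring
  rw [hsum] at hS
  obtain ⟨q, hq1, hq2, a, ha⟩ := hI x u _ _ hx hu hph hS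
  have hna : (1 : ℝ) ≤ ((f.coeff e).natAbs : ℝ) := by exact_mod_cast Int.natAbs_pos.2 hce
  have hq1r : (1 : ℝ) ≤ q := by exact_mod_cast hq1
  obtain ⟨k, hk⟩ : ∃ k : ℕ, k = q * e.factorial * (f.coeff e).natAbs := ⟨_, rfl⟩
  have hkr : (k : ℝ) = q * e.factorial * (f.coeff e).natAbs := by rw [hk]; push_cast; ring
  have hk1 : (1 : ℝ) ≤ k := by
    rw [hkr]
    have : (1 : ℝ) ≤ q * e.factorial := by nlinarith
    nlinarith
  have hbound : c * u ^ m / (x : ℝ) ^ e ≤ ((c * e.factorial : ℕ) : ℝ) * u ^ m / (x : ℝ) ^ e := by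
    push_cast
    apply div_le_div_of_nonneg_right _ (by positivity)
    have : (0 : ℝ) ≤ u ^ m := by positivity
    nlinarith
  refine ⟨k, by exact_mod_cast hk1, ?_, ?_⟩
  · rw [hkr]
    push_cast
    calc (q : ℝ) * e.factorial * (f.coeff e).natAbs ≤ (c * u ^ m) * e.factorial * (f.coeff e).natAbs := by gcongr
      _ = _ := by ring
  · have key : ∀ s : ℝ, (s = 1 ∨ s = -1) → ((f.coeff e : ℤ) : ℝ) = s * (f.coeff e).natAbs →
        |q * (α * ((e.factorial : ℝ) * ((f.coeff e : ℤ) : ℝ))) - a| = k * |α - (s * a) / k| := by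
      intro s hs hcs
      have h0 : (k : ℝ) ≠ 0 := by linarith
      have h1 : q * (α * ((e.factorial : ℝ) * ((f.coeff e : ℤ) : ℝ))) - a = s * (k * (α - (s * a) / k)) := by
        rw [hcs, hkr]
        have hss : s * s = 1 := by rcases hs with h | h <;> rw [h] <;> ring
        have hne : (q : ℝ) * e.factorial * (f.coeff e).natAbs ≠ 0 := by rw [← hkr]; exact h0
        have h2 : (q : ℝ) * e.factorial * (f.coeff e).natAbs * (α - s * a / (q * e.factorial * (f.coeff e).natAbs)) =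
            (q : ℝ) * e.factorial * (f.coeff e).natAbs * α - s * a := by
          rw [mul_sub, mul_div_cancel₀ _ hne]
        rw [h2]
        linear_combination (a : ℝ) * hss
      rw [h1, abs_mul, abs_mul]
      have h3 : |s| = 1 := by rcases hs with h | h <;> rw [h] <;> simp
      rw [h3, one_mul, Nat.abs_cast]
    have fin : ∀ s : ℝ, (s = 1 ∨ s = -1) → ((f.coeff e : ℤ) : ℝ) = s * (f.coeff e).natAbs →
        |α - (s * a) / k| ≤ ((c * e.factorial : ℕ) : ℝ) * u ^ m / (x : ℝ) ^ e := by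
      intro s hs hcs
      rw [key s hs hcs] at ha
      refine le_trans ?_ (ha.trans hbound)
      exact le_mul_of_one_le_left (abs_nonneg _) hk1
    rcases Int.natAbs_eq (f.coeff e) with h | h
    · refine ⟨a, ?_⟩
      have := fin 1 (Or.inl rfl) (by rw [one_mul, ← Int.cast_natCast, ← h])
      rwa [one_mul] at this
    · refine ⟨-a, ?_⟩
      have := fin (-1) (Or.inr rfl) (by rw [neg_one_mul, ← Int.cast_natCast, ← Int.cast_neg, ← h])
      rw [Int.cast_neg]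
      rwa [neg_one_mul] at this

lemma iw_unif (d : ℕ) : ∃ c m : ℕ, 1 ≤ c ∧ ∀ e : ℕ, 1 ≤ e → e ≤ d → ∀ (x : ℕ) (u α : ℝ) (f : ℤ[X]), 1 ≤ x → 1 ≤ u →
    f.natDegree = e → (x : ℝ) ≤ u * ‖∑ n ∈ Icc 1 x, ee (((f.eval (n : ℤ) : ℤ) : ℝ) * α)‖ →
    ∃ k : ℕ, 1 ≤ k ∧ (k : ℝ) ≤ c * u ^ m * (f.coeff e).natAbs ∧
      ∃ a : ℤ, |α - a / k| ≤ c * u ^ m / (x : ℝ) ^ e := by
  induction d with
  | zero => exact ⟨1, 1, le_rfl, fun e he1 he2 => by omega⟩
  | succ d ih =>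
    obtain ⟨c, m, hc, h⟩ := ih
    obtain ⟨c', m', hc', h'⟩ := iw_one (d + 1) (by omega)
    refine ⟨c + c', m + m', by omega, fun e he1 he2 x u α f hx hu hf hS => ?_⟩
    have hx0 : (0 : ℝ) < x := by exact_mod_cast hx
    have hu0 : (0 : ℝ) < u := by linarith
    have b1 : (c : ℝ) * u ^ m ≤ ((c + c' : ℕ) : ℝ) * u ^ (m + m') := by
      push_cast
      have h1 : u ^ m ≤ u ^ (m + m') := pow_le_pow_right₀ hu (by omega)
      have h2 : (0 : ℝ) ≤ c' := Nat.cast_nonneg _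
      have h3 : (0 : ℝ) ≤ c := Nat.cast_nonneg _
      have h4 : 0 ≤ u ^ (m + m') := by positivity
      nlinarith [mul_le_mul_of_nonneg_left h1 h3, mul_nonneg h2 h4]
    have b2 : (c' : ℝ) * u ^ m' ≤ ((c + c' : ℕ) : ℝ) * u ^ (m + m') := by
      push_cast
      have h1 : u ^ m' ≤ u ^ (m + m') := pow_le_pow_right₀ hu (by omega)
      have h2 : (0 : ℝ) ≤ c' := Nat.cast_nonneg _
      have h3 : (0 : ℝ) ≤ c := Nat.cast_nonneg _
      have h4 : 0 ≤ u ^ (m + m') := by positivity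
      nlinarith [mul_le_mul_of_nonneg_left h1 h2, mul_nonneg h3 h4]
    rcases Nat.lt_or_ge d e with hde | hde
    · have he : e = d + 1 := by omega
      subst he
      obtain ⟨k, hk1, hk2, a, ha⟩ := h' x u α f hx hu hf hS
      exact ⟨k, hk1, hk2.trans (mul_le_mul_of_nonneg_right b2 (Nat.cast_nonneg _)), a,
        ha.trans (div_le_div_of_nonneg_right b2 (by positivity))⟩
    · obtain ⟨k, hk1, hk2, a, ha⟩ := h e he1 hde x u α f hx hu hf hS
      exact ⟨k, hk1, hk2.trans (mul_le_mul_of_nonneg_right b1 (Nat.cast_nonneg _)), a,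
        ha.trans (div_le_div_of_nonneg_right b1 (by positivity))⟩

/-- the size of the values -/
lemma eval_le (f : ℤ[X]) (d : ℕ) (hd : f.natDegree ≤ d) (h : ℝ) (hc : ∀ i, |((f.coeff i : ℤ) : ℝ)| ≤ h) (x m : ℕ)
    (hm : m ∈ Icc 1 x) : |((f.eval (m : ℤ) : ℤ) : ℝ)| ≤ (d + 1) * h * (x : ℝ) ^ f.natDegree := by
  rw [mem_Icc] at hm
  have hh : 0 ≤ h := (abs_nonneg _).trans (hc 0)
  have hm1 : (1 : ℝ) ≤ m := by exact_mod_cast hm.1
  have hmx : (m : ℝ) ≤ x := by exact_mod_cast hm.2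
  rw [eval_eq_sum_range]
  push_cast
  refine (abs_sum_le_sum_abs _ _).trans ?_
  have h1 : ∀ i ∈ range (f.natDegree + 1), |((f.coeff i : ℤ) : ℝ) * (m : ℝ) ^ i| ≤ h * (x : ℝ) ^ f.natDegree := by
    intro i hi
    rw [mem_range] at hi
    rw [abs_mul, abs_pow, Nat.abs_cast]
    apply mul_le_mul (hc i) _ (by positivity) hh
    calc (m : ℝ) ^ i ≤ (m : ℝ) ^ f.natDegree := pow_le_pow_right₀ hm1 (by omega)
      _ ≤ _ := pow_le_pow_left₀ (by linarith) hmx _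
  refine (sum_le_sum h1).trans ?_
  rw [sum_const, card_range, nsmul_eq_mul]
  push_cast
  have h2 : (f.natDegree : ℝ) + 1 ≤ d + 1 := by
    have : (f.natDegree : ℝ) ≤ d := by exact_mod_cast hd
    linarith
  have h3 : 0 ≤ h * (x : ℝ) ^ f.natDegree := by positivity
  nlinarith

/-- **The mean square.** -/
theorem ms_poly (hG : S_T31G) (d T U : ℕ) : ∃ C B : ℕ, ∀ E : ℕ, ∃ N₀ : ℕ, ∀ N : ℕ, N₀ ≤ N → ∀ z : ℕ,
    Real.log N ^ B ≤ z → (z : ℝ) ≤ Real.log N ^ E → ∀ f : ℤ[X], 1 ≤ f.natDegree → f.natDegree ≤ d →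
    (∀ i, |((f.coeff i : ℤ) : ℝ)| ≤ Real.log N ^ T) → ∀ x : ℕ,
    (N : ℝ) ^ (1 / 3 : ℝ) * Real.log N ^ C ≤ (x : ℝ) ^ f.natDegree → (x : ℝ) ^ f.natDegree * Real.log N ^ (T + 1) ≤ N →
    ∑ n ∈ Icc 1 N, (∑ m ∈ Icc 1 x, (lamI ((n : ℤ) + f.eval (m : ℤ)) - lamzI z ((n : ℤ) + f.eval (m : ℤ)))) ^ 2 ≤
      (x : ℝ) ^ 2 * (N / Real.log N ^ U) := by
  obtain ⟨c, m, hc, hI⟩ := iw_unif d
  obtain ⟨V, hG⟩ := hG 1 U
  obtain ⟨C, hG⟩ := hG (V * m + T + 1) (V * m + 1)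
  refine ⟨C, V * m + T + 1, fun E => ?_⟩
  obtain ⟨N₁, hG⟩ := hG E
  obtain ⟨N₂, hN₂⟩ := ev 1 (c + d + 2)
  refine ⟨N₁ + N₂ + 3, fun N hN z hz1 hz2 f hf1 hf2 hcf x hx1 hx2 => ?_⟩
  obtain ⟨hLK, -⟩ := hN₂ N (by omega)
  have hN0 : (0 : ℝ) < N := by exact_mod_cast (by omega : 0 < N)
  obtain ⟨L, hL⟩ : ∃ L, L = Real.log (N : ℝ) := ⟨_, rfl⟩
  have hc1 : (1 : ℝ) ≤ c := by exact_mod_cast hc
  have hd0 : (0 : ℝ) ≤ d := Nat.cast_nonneg _
  have hL1 : (1 : ℝ) ≤ L := by rw [hL]; linarith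
  have hL0 : 0 < L := by linarith
  have hLc : (c : ℝ) ≤ L := by rw [hL]; linarith
  have hLd : (d : ℝ) + 1 ≤ L := by rw [hL]; linarith
  have hG := hG N (by omega) z hz1 hz2
  rw [← hL] at hG hcf hx1 hx2 ⊢
  have hxe : (0 : ℝ) < (x : ℝ) ^ f.natDegree := lt_of_lt_of_le (by positivity) hx1
  have hx : 1 ≤ x := by
    rcases Nat.eq_zero_or_pos x with h | h
    · rw [h, Nat.cast_zero, zero_pow (by omega)] at hxe
      exact absurd hxe (lt_irrefl _)
    · exact h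
  have hx0 : (0 : ℝ) < x := by exact_mod_cast hx
  have hval : ∀ m ∈ Icc 1 x, |((f.eval (m : ℤ) : ℤ) : ℝ)| ≤ N := by
    intro m hm
    refine (eval_le f d hf2 (L ^ T) hcf x m hm).trans (le_trans ?_ hx2)
    rw [pow_succ]
    calc ((d : ℝ) + 1) * L ^ T * (x : ℝ) ^ f.natDegree = ((x : ℝ) ^ f.natDegree * L ^ T) * (d + 1) := by ring
      _ ≤ ((x : ℝ) ^ f.natDegree * L ^ T) * L := mul_le_mul_of_nonneg_left hLd (by positivity)
      _ = _ := by ring
  have hkey := hG ℕ (Icc 1 x) (fun _ => 1 / (x : ℝ)) (fun m => f.eval (m : ℤ)) (fun _ _ => by positivity)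
    (by
      rw [sum_const, Nat.card_Icc, nsmul_eq_mul, Nat.add_sub_cancel]
      rw [mul_one_div_cancel hx0.ne'])
    (fun m hm => by
      have h1 := hval m hm
      have h2 : ((|f.eval (m : ℤ)| : ℤ) : ℝ) ≤ ((1 * N : ℤ) : ℝ) := by
        rw [Int.cast_abs]
        push_cast
        rw [one_mul]
        exact h1
      exact_mod_cast h2) (x ^ f.natDegree) (by push_cast; exact hx1)
    (by
      have h1 : (x : ℝ) ^ f.natDegree ≤ N := by
        refine le_trans ?_ hx2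
        exact le_mul_of_one_le_right hxe.le (one_le_pow₀ hL1)
      exact_mod_cast h1)
    (by
      intro α hα
      by_contra hcon
      push Not at hcon
      have hu1 : 1 ≤ L ^ V := one_le_pow₀ hL1
      have e1 : ∑ ω ∈ Icc 1 x, (((1 / (x : ℝ)) : ℝ) : ℂ) * ee (((f.eval (ω : ℤ) : ℤ) : ℝ) * α) =
          (((1 / (x : ℝ)) : ℝ) : ℂ) * ∑ n ∈ Icc 1 x, ee (((f.eval (n : ℤ) : ℤ) : ℝ) * α) := by
        rw [mul_sum]
      rw [e1, norm_mul, Complex.norm_real, Real.norm_of_nonneg (by positivity)] at hcon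
      have hS : (x : ℝ) ≤ L ^ V * ‖∑ n ∈ Icc 1 x, ee (((f.eval (n : ℤ) : ℤ) : ℝ) * α)‖ := by
        rw [div_lt_iff₀ (by positivity)] at hcon
        have h1 : 1 * (x : ℝ) ≤ (1 / (x : ℝ) * ‖∑ n ∈ Icc 1 x, ee (((f.eval (n : ℤ) : ℤ) : ℝ) * α)‖ * L ^ V) * x :=
          mul_le_mul_of_nonneg_right hcon.le hx0.le
        rw [one_mul] at h1
        refine h1.trans (le_of_eq ?_)
        generalize ‖∑ n ∈ Icc 1 x, ee (((f.eval (n : ℤ) : ℤ) : ℝ) * α)‖ = S
        field_simp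
      obtain ⟨k, hk1, hk2, a, ha⟩ := hI f.natDegree hf1 hf2 x (L ^ V) α f hx hu1 rfl hS
      have h3 : (c : ℝ) * (L ^ V) ^ m ≤ L ^ (V * m + 1) := by
        rw [← pow_mul, pow_succ, mul_comm]
        exact mul_le_mul_of_nonneg_left hLc (by positivity)
      have h4 : (k : ℝ) ≤ L ^ (V * m + T + 1) := by
        have h5 : ((f.coeff f.natDegree).natAbs : ℝ) ≤ L ^ T := by
          have := hcf f.natDegree
          rwa [← Int.cast_abs, Int.abs_eq_natAbs, Int.cast_natCast] at this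
        refine hk2.trans ?_
        calc (c : ℝ) * (L ^ V) ^ m * (f.coeff f.natDegree).natAbs ≤ L ^ (V * m + 1) * L ^ T :=
              mul_le_mul h3 h5 (Nat.cast_nonneg _) (by positivity)
          _ = _ := by rw [← pow_add]; congr 1; ring
      have h6 := hα k hk1 h4 a
      have h7 : |α - a / k| ≤ L ^ (V * m + 1) / ((x ^ f.natDegree : ℕ) : ℝ) := by
        refine ha.trans ?_
        push_cast
        exact div_le_div_of_nonneg_right h3 hxe.le
      linarith)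
  have e2 : ∀ n ∈ Icc 1 N, (∑ m ∈ Icc 1 x, (lamI ((n : ℤ) + f.eval (m : ℤ)) - lamzI z ((n : ℤ) + f.eval (m : ℤ)))) ^ 2 =
      (x : ℝ) ^ 2 * (∑ m ∈ Icc 1 x, 1 / (x : ℝ) * (lamI ((n : ℤ) + f.eval (m : ℤ)) - lamzI z ((n : ℤ) + f.eval (m : ℤ)))) ^ 2 := by
    intro n _
    rw [← mul_sum]
    field_simp
  rw [sum_congr rfl e2, ← mul_sum]
  exact mul_le_mul_of_nonneg_left hkey (by positivity)

end Pool.Agent.Run7.h18.MK
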