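import Mathlib
import Pool.Agent.Run7.h18.MK.Poly1
import Pool.Agent.H373R2.T7.SysCount
import Pool.Agent.R460.SQ.Main

/-! Project MK: primes along short polynomial sequences. Part 2: the sieve model, prime powers, the grid. -/

set_option autoImplicit false

namespace Pool.Agent.Run7.h18.MK

open Finset Filter Polynomial
open Pool.Agent.H373R2.T7 (lamz lamI lamzI Vz pz mem_pz Vz_pos nuB PerB nuB_le sys_count)
open Pool.Agent.R460.SQ (thp ppw vm_split ppw_nn sum_ppw)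

/-- the local condition -/
def Rt (f : ℤ[X]) (n : ℤ) (p m : ℕ) : Prop := (p : ℤ) ∣ n + f.eval (m : ℤ)

lemma Rt_per (f : ℤ[X]) (n : ℤ) (p m : ℕ) : Rt f n p m ↔ Rt f n p (m % p) := by
  unfold Rt
  have h1 : ((m : ℤ) - ((m % p : ℕ) : ℤ)) ∣ f.eval (m : ℤ) - f.eval ((m % p : ℕ) : ℤ) := sub_dvd_eval_sub _ _ _
  have h2 : (p : ℤ) ∣ (m : ℤ) - ((m % p : ℕ) : ℤ) := by
    push_cast
    exact Int.dvd_self_sub_emod
  apply dvd_iff_dvd_of_dvd_sub
  have h3 := h2.trans h1
  have h4 : n + f.eval (m : ℤ) - (n + f.eval ((m % p : ℕ) : ℤ)) = f.eval (m : ℤ) - f.eval ((m % p : ℕ) : ℤ) := by ring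
  rw [h4]
  exact h3

lemma nuB_or (f : ℤ[X]) (n : ℤ) (p : ℕ) (hp : p.Prime) :
    nuB (Rt f n) p = p ∨ nuB (Rt f n) p ≤ f.natDegree := by
  classical
  have := Fact.mk hp
  have hn : nuB (Rt f n) p = ((range p).filter (fun r : ℕ => (p : ℤ) ∣ n + f.eval (r : ℤ))).card := by
    unfold nuB Rt
    congr 1
    ext r
    simp only [mem_filter]
  rw [hn]
  set Q : (ZMod p)[X] := (C n + f).map (Int.castRingHom (ZMod p)) with hQ
  have hev : ∀ r : ℕ, eval (r : ZMod p) Q = ((n + f.eval (r : ℤ) : ℤ) : ZMod p) := by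
    intro r
    rw [hQ]
    simp
  by_cases hQ0 : Q = 0
  · left
    rw [filter_true_of_mem, card_range]
    intro r _
    have h1 := hev r
    rw [hQ0, eval_zero] at h1
    exact (ZMod.intCast_zmod_eq_zero_iff_dvd _ _).1 h1.symm
  · right
    have h1 : ((range p).filter (fun r : ℕ => (p : ℤ) ∣ n + f.eval (r : ℤ))).card ≤ Q.roots.toFinset.card := by
      apply card_le_card_of_injOn (fun r : ℕ => (r : ZMod p))
      · intro r hr
        rw [mem_coe, mem_filter] at hr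
        rw [mem_coe, Multiset.mem_toFinset, mem_roots hQ0, IsRoot.def, hev]
        exact (ZMod.intCast_zmod_eq_zero_iff_dvd _ _).2 hr.2
      · intro r hr s hs hrs
        rw [mem_coe, mem_filter, mem_range] at hr hs
        have := (ZMod.natCast_eq_natCast_iff' r s p).1 hrs
        rwa [Nat.mod_eq_of_lt hr.1, Nat.mod_eq_of_lt hs.1] at this
    refine h1.trans ((Multiset.toFinset_card_le _).trans ((card_roots' Q).trans ?_))
    refine natDegree_map_le.trans ((natDegree_add_le _ _).trans ?_)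
    rw [natDegree_C]
    exact max_le (by omega) le_rfl

/-- the truncated singular series -/
noncomputable def Sg (f : ℤ[X]) (n : ℤ) (z : ℕ) : ℝ := (Vz z)⁻¹ * ∏ p ∈ pz z, (1 - (nuB (Rt f n) p : ℝ) / p)

lemma prod_bd (f : ℤ[X]) (n : ℤ) (z : ℕ) : 0 ≤ ∏ p ∈ pz z, (1 - (nuB (Rt f n) p : ℝ) / p) ∧
    ∏ p ∈ pz z, (1 - (nuB (Rt f n) p : ℝ) / p) ≤ 1 := by
  have h : ∀ p ∈ pz z, 0 ≤ 1 - (nuB (Rt f n) p : ℝ) / p ∧ 1 - (nuB (Rt f n) p : ℝ) / p ≤ 1 := by
    intro p hp
    have hp0 : (0 : ℝ) < p := by exact_mod_cast (mem_pz.1 hp).2.pos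
    have h1 : (nuB (Rt f n) p : ℝ) / p ≤ 1 := by
      rw [div_le_one hp0]
      exact_mod_cast nuB_le _ _
    have h2 : 0 ≤ (nuB (Rt f n) p : ℝ) / p := by positivity
    constructor <;> linarith
  exact ⟨prod_nonneg fun p hp => (h p hp).1, prod_le_one (fun p hp => (h p hp).1) fun p hp => (h p hp).2⟩

lemma Sg_bd (f : ℤ[X]) (n : ℤ) (z : ℕ) : 0 ≤ Sg f n z ∧ Sg f n z ≤ (Vz z)⁻¹ := by
  obtain ⟨h1, h2⟩ := prod_bd f n z
  have hV := inv_pos.2 (Vz_pos z)
  unfold Sg
  constructor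
  · positivity
  · calc (Vz z)⁻¹ * ∏ p ∈ pz z, (1 - (nuB (Rt f n) p : ℝ) / p) ≤ (Vz z)⁻¹ * 1 := by gcongr
      _ = _ := mul_one _

open Classical in
theorem det_poly (d E U : ℕ) (hd : 1 ≤ d) : ∃ X₀ : ℕ, ∀ x : ℕ, X₀ ≤ x → ∀ z : ℕ, 1 ≤ z →
    (z : ℝ) ≤ Real.log x ^ E → ∀ f : ℤ[X], f.natDegree ≤ d → ∀ n : ℤ,
    |(((Icc 1 x).filter (fun m : ℕ => ∀ p ∈ pz z, ¬ Rt f n p m)).card : ℝ) -
      x * ∏ p ∈ pz z, (1 - (nuB (Rt f n) p : ℝ) / p)| ≤ x / Real.log x ^ U := by
  obtain ⟨X₀, h0⟩ := sys_count d E U hd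
  refine ⟨X₀ + 1, fun x hx z hz hzE f hf n => ?_⟩
  by_cases hex : ∃ p ∈ pz z, nuB (Rt f n) p = p
  · obtain ⟨p, hp, hpe⟩ := hex
    have hpp := (mem_pz.1 hp).2
    have hp0 : (p : ℝ) ≠ 0 := by exact_mod_cast hpp.ne_zero
    have h1 : ∏ p ∈ pz z, (1 - (nuB (Rt f n) p : ℝ) / p) = 0 := by
      apply prod_eq_zero hp
      rw [hpe, div_self hp0, sub_self]
    have h2 : (Icc 1 x).filter (fun m : ℕ => ∀ p ∈ pz z, ¬ Rt f n p m) = ∅ := by
      apply filter_eq_empty_iff.2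
      intro m _ hcon
      apply hcon p hp
      rw [Rt_per]
      have h3 : (range p).filter (fun r => Rt f n p r) = range p := by
        apply eq_of_subset_of_card_le (filter_subset _ _)
        have h4 : ((range p).filter (fun r => Rt f n p r)).card = p := by
          have h5 := hpe
          unfold nuB at h5
          convert h5
        rw [h4, card_range]
      have h4 : m % p ∈ (range p).filter (fun r => Rt f n p r) := by
        rw [h3, mem_range]
        exact Nat.mod_lt _ hpp.pos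
      exact (mem_filter.1 h4).2
    rw [h1, h2, card_empty, Nat.cast_zero, mul_zero, sub_zero, abs_zero]
    have : 0 ≤ Real.log (x : ℝ) := Real.log_natCast_nonneg _
    positivity
  · push Not at hex
    obtain ⟨Q, hQ⟩ : ∃ Q : ℕ → ℕ → Prop, Q = fun p m => p ≤ z ∧ Rt f n p m := ⟨_, rfl⟩
    have hnu : ∀ p ∈ pz z, nuB Q p = nuB (Rt f n) p := by
      intro p hp
      have hpz := (mem_pz.1 hp).1
      unfold nuB
      congr 1
      ext r
      rw [mem_filter, mem_filter, hQ]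
      simp only [hpz, true_and]
    have hPer : PerB Q d := by
      constructor
      · intro p m
        rw [hQ]
        simp only
        rw [Rt_per f n p m]
      · intro p hp
        by_cases hpz : p ≤ z
        · have hpm : p ∈ pz z := mem_pz.2 ⟨hpz, hp⟩
          rw [hnu p hpm]
          rcases nuB_or f n p hp with h | h
          · exact absurd h (hex p hpm)
          · exact h.trans hf
        · have h3 : nuB Q p = 0 := by
            unfold nuB
            rw [card_eq_zero, filter_eq_empty_iff]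
            intro r _ hcon
            rw [hQ] at hcon
            exact hpz hcon.1
          omega
    have h4 := h0 x (by omega) z hz hzE Q hPer
    have h5 : ∏ p ∈ pz z, (1 - (nuB Q p : ℝ) / p) = ∏ p ∈ pz z, (1 - (nuB (Rt f n) p : ℝ) / p) :=
      prod_congr rfl fun p hp => by rw [hnu p hp]
    have h6 : (Icc 1 x).filter (fun m : ℕ => ∀ p ∈ pz z, ¬ Q p m) =
        (Icc 1 x).filter (fun m : ℕ => ∀ p ∈ pz z, ¬ Rt f n p m) := by
      apply filter_congr
      intro m _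
      rw [hQ]
      constructor
      · intro h p hp hc
        exact h p hp ⟨(mem_pz.1 hp).1, hc⟩
      · intro h p hp hc
        exact h p hp hc.2
    rw [h5] at h4
    rw [← h6]
    convert h4

/-- the sum of the sieve model -/
lemma lamz_sum (f : ℤ[X]) (n : ℤ) (x z : ℕ) (h : ∀ m ∈ Icc 1 x, 1 ≤ n + f.eval (m : ℤ)) :
    ∑ m ∈ Icc 1 x, lamzI z (n + f.eval (m : ℤ)) =
      (Vz z)⁻¹ * ((open Classical in (Icc 1 x).filter (fun m : ℕ => ∀ p ∈ pz z, ¬ Rt f n p m)).card : ℝ) := by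
  classical
  rw [← nsmul_eq_mul', ← sum_const, sum_filter]
  refine sum_congr rfl fun m hm => ?_
  have h1 := h m hm
  unfold lamzI lamz
  rw [if_pos h1]
  have h2 : (∀ p ∈ pz z, ¬ p ∣ (n + f.eval (m : ℤ)).toNat) ↔ (∀ p ∈ pz z, ¬ Rt f n p m) := by
    refine forall₂_congr fun p _ => not_congr ?_
    unfold Rt
    constructor
    · intro h3
      have h4 := Int.natCast_dvd_natCast.2 h3
      rwa [Int.toNat_of_nonneg (by omega)] at h4
    · intro h3
      apply Int.natCast_dvd_natCast.1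
      rwa [Int.toNat_of_nonneg (by omega)]
  by_cases h3 : ∀ p ∈ pz z, ¬ Rt f n p m
  · rw [if_pos (h2.2 h3), if_pos h3]
  · rw [if_neg (fun h4 => h3 (h2.1 h4)), if_neg h3]

/-- prime powers -/
lemma ppw_sum (N x : ℕ) (hN : 1 ≤ N) (v : ℕ → ℤ) (hv : ∀ m ∈ Icc 1 x, |v m| ≤ N) :
    ∑ n ∈ Icc 1 N, ∑ m ∈ Icc 1 x, ppw ((n : ℤ) + v m).toNat ≤
      x * (2 * Real.sqrt ((2 * N : ℕ) : ℝ) * Real.log ((2 * N : ℕ) : ℝ)) := by
  classical
  rw [sum_comm]
  have h1 : ∀ m ∈ Icc 1 x, ∑ n ∈ Icc 1 N, ppw ((n : ℤ) + v m).toNat ≤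
      2 * Real.sqrt ((2 * N : ℕ) : ℝ) * Real.log ((2 * N : ℕ) : ℝ) := by
    intro m hm
    have hvm := abs_le.1 (hv m hm)
    refine le_trans ?_ (sum_ppw (N := 2 * N) (by omega))
    have h2 : ∑ n ∈ Icc 1 N, ppw ((n : ℤ) + v m).toNat =
        ∑ n ∈ (Icc 1 N).filter (fun n : ℕ => 1 ≤ (n : ℤ) + v m), ppw ((n : ℤ) + v m).toNat := by
      symm
      apply sum_subset (filter_subset _ _)
      intro n hn hn2
      rw [mem_filter, not_and] at hn2
      have h3 := hn2 hn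
      have h4 : ((n : ℤ) + v m).toNat = 0 := by omega
      rw [h4]
      unfold ppw
      simp
    rw [h2, ← sum_image (f := fun l => ppw l) (g := fun n : ℕ => ((n : ℤ) + v m).toNat)
      (s := (Icc 1 N).filter (fun n : ℕ => 1 ≤ (n : ℤ) + v m))]
    · apply sum_le_sum_of_subset_of_nonneg
      · intro l hl
        obtain ⟨n, hn, rfl⟩ := mem_image.1 hl
        rw [mem_filter, mem_Icc] at hn
        rw [mem_Icc]
        have := hn.1.2
        have := hn.2
        have h5 : (n : ℤ) ≤ N := by exact_mod_cast hn.1.2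
        constructor <;> omega
      · intro _ _ _
        exact ppw_nn _
    · intro a ha b hb hab
      rw [mem_coe, mem_filter] at ha hb
      simp only at hab
      have := ha.2
      have := hb.2
      omega
  refine (sum_le_sum h1).trans ?_
  rw [sum_const, Nat.card_Icc, nsmul_eq_mul, Nat.add_sub_cancel]

/-- the grid -/
lemma grid (x K : ℕ) (hK : 1 ≤ K) (hx : K ≤ x) : ∃ a b : ℕ, K ≤ a ∧ a ≤ 2 * K ∧ a * 2 ^ b ≤ x ∧
    (x - a * 2 ^ b) * K ≤ x ∧ 2 ^ b ≤ x := by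
  obtain ⟨y, hy⟩ : ∃ y, y = x / K := ⟨_, rfl⟩
  have hy1 : 1 ≤ y := by
    rw [hy]
    exact (Nat.one_le_div_iff hK).2 hx
  have hyK : y * K ≤ x := by rw [hy]; exact Nat.div_mul_le_self x K
  have hyK2 : x < K * (y + 1) := by rw [hy]; exact Nat.lt_mul_div_succ x hK
  have hb1 : 2 ^ Nat.log 2 y ≤ y := Nat.pow_log_le_self 2 (by omega)
  have hb2 : y < 2 ^ (Nat.log 2 y + 1) := Nat.lt_pow_succ_log_self (by norm_num) y
  obtain ⟨s, hs⟩ : ∃ s, s = 2 ^ Nat.log 2 y := ⟨_, rfl⟩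
  have hs1 : 1 ≤ s := by rw [hs]; exact Nat.one_le_two_pow
  rw [pow_succ] at hb2
  rw [← hs] at hb1 hb2
  refine ⟨x / s, Nat.log 2 y, ?_, ?_, ?_, ?_, ?_⟩
  · rw [Nat.le_div_iff_mul_le hs1]
    calc K * s ≤ K * y := Nat.mul_le_mul_left _ hb1
      _ = y * K := Nat.mul_comm _ _
      _ ≤ x := hyK
  · apply Nat.le_of_lt
    rw [Nat.div_lt_iff_lt_mul hs1]
    calc x < K * (y + 1) := hyK2
      _ ≤ K * (s * 2) := Nat.mul_le_mul_left _ (by omega)
      _ = 2 * K * s := by ring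
  · rw [← hs]
    exact Nat.div_mul_le_self x s
  · rw [← hs]
    have h1 : x - x / s * s ≤ s := by
      have := Nat.div_add_mod x s
      have h2 := Nat.mod_lt x hs1
      have h3 : s * (x / s) = x / s * s := Nat.mul_comm _ _
      omega
    calc (x - x / s * s) * K ≤ s * K := Nat.mul_le_mul_right _ h1
      _ ≤ y * K := Nat.mul_le_mul_right _ hb1
      _ ≤ x := hyK
  · rw [← hs]
    refine hb1.trans ?_
    exact (Nat.le_mul_of_pos_right _ hK).trans hyK

end Pool.Agent.Run7.h18.MK
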