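import Mathlib
import Pool.Agent.Run7.h18.MK.Poly2
import Pool.Agent.H373R2.T7.Sys8

/-! Project MK: primes along short polynomial sequences. Part 3: all polynomials and all lengths at once. -/

set_option autoImplicit false

namespace Pool.Agent.Run7.h18.MK

open Finset Filter Polynomial
open Pool.Agent.H373R2.T7 (lamz lamI lamzI Vz pz mem_pz Vz_pos nuB PerB nuB_le Vz_inv_small lamI_nonneg)
open Pool.Agent.R460.SQ (thp ppw vm_split ppw_nn)

lemma cheb {ι : Type} (S : Finset ι) (g : ι → ℝ) (M t : ℝ) (ht : 0 < t) (h : ∑ n ∈ S, g n ^ 2 ≤ M) :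
    ((S.filter (fun n => t < |g n|)).card : ℝ) ≤ M / t ^ 2 := by
  rw [le_div_iff₀ (by positivity)]
  calc ((S.filter (fun n => t < |g n|)).card : ℝ) * t ^ 2 = ∑ _n ∈ S.filter (fun n => t < |g n|), t ^ 2 := by
        rw [sum_const, nsmul_eq_mul]
    _ ≤ ∑ n ∈ S.filter (fun n => t < |g n|), g n ^ 2 := by
        refine sum_le_sum fun n hn => ?_
        rw [← sq_abs (g n)]
        exact pow_le_pow_left₀ ht.le (mem_filter.1 hn).2.le 2
    _ ≤ ∑ n ∈ S, g n ^ 2 := sum_le_sum_of_subset_of_nonneg (filter_subset _ _) fun _ _ _ => sq_nonneg _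
    _ ≤ M := h

lemma mark {ι : Type} (S : Finset ι) (g : ι → ℝ) (M t : ℝ) (ht : 0 < t) (hg : ∀ n ∈ S, 0 ≤ g n) (h : ∑ n ∈ S, g n ≤ M) :
    ((S.filter (fun n => t < g n)).card : ℝ) ≤ M / t := by
  rw [le_div_iff₀ ht]
  calc ((S.filter (fun n => t < g n)).card : ℝ) * t = ∑ _n ∈ S.filter (fun n => t < g n), t := by
        rw [sum_const, nsmul_eq_mul]
    _ ≤ ∑ n ∈ S.filter (fun n => t < g n), g n := sum_le_sum fun n hn => (mem_filter.1 hn).2.le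
    _ ≤ ∑ n ∈ S, g n := sum_le_sum_of_subset_of_nonneg (filter_subset _ _) fun n hn _ => hg n hn
    _ ≤ M := h

lemma union_bd {ι : Type} (S : Finset ι) (t : ι → Finset ℕ) (M : ℝ) (h : ∀ i ∈ S, ((t i).card : ℝ) ≤ M) :
    ((S.biUnion t).card : ℝ) ≤ S.card * M := by
  calc ((S.biUnion t).card : ℝ) ≤ ((∑ i ∈ S, (t i).card : ℕ) : ℝ) := by exact_mod_cast card_biUnion_le
    _ = ∑ i ∈ S, ((t i).card : ℝ) := by push_cast; rfl
    _ ≤ ∑ _i ∈ S, M := sum_le_sum h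
    _ = _ := by rw [sum_const, nsmul_eq_mul]

/-- finitely many polynomials -/
lemma polys (d : ℕ) (h : ℝ) (hh : 1 ≤ h) : ∃ P : Finset ℤ[X], (P.card : ℝ) ≤ (3 * h) ^ (d + 1) ∧
    ∀ f : ℤ[X], f.natDegree ≤ d → (∀ i, |((f.coeff i : ℤ) : ℝ)| ≤ h) → f ∈ P := by
  classical
  obtain ⟨s, hs⟩ : ∃ s : ℕ, s = ⌊h⌋₊ := ⟨_, rfl⟩
  have hsh : (s : ℝ) ≤ h := by rw [hs]; exact Nat.floor_le (by linarith)
  refine ⟨(Fintype.piFinset (fun _ : Fin (d + 1) => Icc (-(s : ℤ)) s)).image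
    (fun c => ∑ i : Fin (d + 1), C (c i) * X ^ (i : ℕ)), ?_, ?_⟩
  · refine (Nat.cast_le.2 card_image_le).trans ?_
    rw [Fintype.card_piFinset, prod_const, card_univ, Fintype.card_fin, Int.card_Icc, Nat.cast_pow]
    apply pow_le_pow_left₀ (Nat.cast_nonneg _)
    have h1 : ((s : ℤ) + 1 - -(s : ℤ)).toNat = 2 * s + 1 := by omega
    rw [h1]
    push_cast
    linarith
  · intro f hf hc
    rw [mem_image]
    refine ⟨fun i => f.coeff i, ?_, ?_⟩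
    · rw [Fintype.mem_piFinset]
      intro i
      have h1 := hc i
      have h2 : (f.coeff i).natAbs ≤ s := by
        rw [hs]
        apply Nat.le_floor
        rwa [← Int.cast_abs, Int.abs_eq_natAbs, Int.cast_natCast] at h1
      rw [mem_Icc]
      omega
    · conv_rhs => rw [f.as_sum_range' (d + 1) (by omega)]
      rw [Finset.sum_range]
      refine sum_congr rfl fun i _ => ?_
      rw [C_mul_X_pow_eq_monomial]

lemma rpow_third_ge {N a : ℝ} (ha : 0 ≤ a) (h : a ^ 3 ≤ N) : a ≤ N ^ (1 / 3 : ℝ) := by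
  have h1 : (a ^ 3) ^ (1 / 3 : ℝ) = a := by
    rw [← Real.rpow_natCast, ← Real.rpow_mul ha]
    norm_num
  rw [← h1]
  exact Real.rpow_le_rpow (by positivity) h (by norm_num)

lemma thp_nonneg (l : ℕ) : 0 ≤ thp l := by
  unfold thp
  split_ifs with h
  · exact Real.log_nonneg (by exact_mod_cast h.one_lt.le)
  · exact le_rfl

lemma thp_le {l M : ℕ} (h : l ≤ M) : thp l ≤ Real.log M := by
  unfold thp
  split_ifs with hp
  · exact Real.log_le_log (by exact_mod_cast hp.pos) (by exact_mod_cast h)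
  · exact Real.log_natCast_nonneg _

open Classical in
/-- the deterministic part -/
lemma fin_n (f : ℤ[X]) (n : ℤ) (x x' z N U : ℕ) (L : ℝ) (hL : L = Real.log N) (hL6 : 6 ≤ L) (hN : 2 ≤ N)
    (hpos : ∀ m ∈ Icc 1 x, 1 ≤ n + f.eval (m : ℤ)) (hle : ∀ m ∈ Icc 1 x, n + f.eval (m : ℤ) ≤ 2 * N)
    (hV : (Vz z)⁻¹ ≤ L) (hx : x' ≤ x) (hx2 : ((x : ℝ) - x') * L ^ (U + 4) ≤ x)
    (h1 : |∑ m ∈ Icc 1 x', (lamI (n + f.eval (m : ℤ)) - lamzI z (n + f.eval (m : ℤ)))| ≤ x' / L ^ (U + 2))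
    (h2 : ∑ m ∈ Icc 1 x', ppw (n + f.eval (m : ℤ)).toNat ≤ x' / L ^ (U + 2))
    (h3 : |(((Icc 1 x').filter (fun m : ℕ => ∀ p ∈ pz z, ¬ Rt f n p m)).card : ℝ) -
      x' * ∏ p ∈ pz z, (1 - (nuB (Rt f n) p : ℝ) / p)| ≤ x' / L ^ (U + 3)) :
    |∑ m ∈ Icc 1 x, thp (n + f.eval (m : ℤ)).toNat - x * Sg f n z| ≤ x / L ^ U := by
  have hL0 : 0 < L := by linarith
  have hVp := Vz_pos z
  have hsub : Icc 1 x' ⊆ Icc 1 x := Icc_subset_Icc le_rfl hx
  have hxr : (x' : ℝ) ≤ x := by exact_mod_cast hx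
  obtain ⟨hS0, hS1⟩ := Sg_bd f n z
  have hSL : Sg f n z ≤ L := hS1.trans hV
  -- the model
  have e1 : ∑ m ∈ Icc 1 x', lamzI z (n + f.eval (m : ℤ)) =
      (Vz z)⁻¹ * (((Icc 1 x').filter (fun m : ℕ => ∀ p ∈ pz z, ¬ Rt f n p m)).card : ℝ) := by
    have := lamz_sum f n x' z (fun m hm => hpos m (hsub hm))
    convert this
  have e2 : |∑ m ∈ Icc 1 x', lamzI z (n + f.eval (m : ℤ)) - x' * Sg f n z| ≤ x' / L ^ (U + 2) := by
    rw [e1]
    have e3 : (Vz z)⁻¹ * (((Icc 1 x').filter (fun m : ℕ => ∀ p ∈ pz z, ¬ Rt f n p m)).card : ℝ) - x' * Sg f n z =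
        (Vz z)⁻¹ * ((((Icc 1 x').filter (fun m : ℕ => ∀ p ∈ pz z, ¬ Rt f n p m)).card : ℝ) -
          x' * ∏ p ∈ pz z, (1 - (nuB (Rt f n) p : ℝ) / p)) := by
      unfold Sg
      ring
    rw [e3, abs_mul, abs_of_pos (inv_pos.2 hVp)]
    calc (Vz z)⁻¹ * |(((Icc 1 x').filter (fun m : ℕ => ∀ p ∈ pz z, ¬ Rt f n p m)).card : ℝ) -
          x' * ∏ p ∈ pz z, (1 - (nuB (Rt f n) p : ℝ) / p)| ≤ L * (x' / L ^ (U + 3)) := by gcongr
      _ = _ := by
        rw [pow_succ L (U + 2)]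
        field_simp
  -- the primes
  have e4 : ∑ m ∈ Icc 1 x', lamI (n + f.eval (m : ℤ)) =
      ∑ m ∈ Icc 1 x', thp (n + f.eval (m : ℤ)).toNat + ∑ m ∈ Icc 1 x', ppw (n + f.eval (m : ℤ)).toNat := by
    rw [← sum_add_distrib]
    refine sum_congr rfl fun m hm => ?_
    unfold lamI
    rw [if_pos (hpos m (hsub hm)), vm_split]
  have e5 : 0 ≤ ∑ m ∈ Icc 1 x', ppw (n + f.eval (m : ℤ)).toNat := sum_nonneg fun _ _ => ppw_nn _
  rw [sum_sub_distrib] at h1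
  have e6 : |∑ m ∈ Icc 1 x', thp (n + f.eval (m : ℤ)).toNat - x' * Sg f n z| ≤ 3 * (x' / L ^ (U + 2)) := by
    have a1 := abs_le.1 h1
    have a2 := abs_le.1 e2
    rw [abs_le]
    constructor <;> linarith [a1.1, a1.2, a2.1, a2.2]
  -- the rest
  have e7 : ∑ m ∈ Icc 1 x, thp (n + f.eval (m : ℤ)).toNat =
      ∑ m ∈ Icc 1 x', thp (n + f.eval (m : ℤ)).toNat + ∑ m ∈ Icc 1 x \ Icc 1 x', thp (n + f.eval (m : ℤ)).toNat := by
    rw [add_comm, sum_sdiff hsub]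
  have e8 : 0 ≤ ∑ m ∈ Icc 1 x \ Icc 1 x', thp (n + f.eval (m : ℤ)).toNat := sum_nonneg fun _ _ => thp_nonneg _
  have hlog : Real.log ((2 * N : ℕ) : ℝ) ≤ 2 * L := by
    have h5 : (2 : ℝ) ≤ N := by exact_mod_cast hN
    have h6 : Real.log ((2 * N : ℕ) : ℝ) ≤ Real.log ((N : ℝ) ^ 2) := by
      apply Real.log_le_log (by push_cast; linarith)
      push_cast
      nlinarith
    rw [Real.log_pow] at h6
    rw [hL]
    exact_mod_cast h6
  have e9 : ∑ m ∈ Icc 1 x \ Icc 1 x', thp (n + f.eval (m : ℤ)).toNat ≤ ((x : ℝ) - x') * (2 * L) := by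
    calc ∑ m ∈ Icc 1 x \ Icc 1 x', thp (n + f.eval (m : ℤ)).toNat ≤ ∑ _m ∈ Icc 1 x \ Icc 1 x', 2 * L := by
          refine sum_le_sum fun m hm => (thp_le (M := 2 * N) ?_).trans hlog
          have h5 := hle m (mem_sdiff.1 hm).1
          omega
      _ = _ := by
          rw [sum_const, nsmul_eq_mul, card_sdiff_of_subset hsub, Nat.card_Icc, Nat.card_Icc, Nat.add_sub_cancel,
            Nat.add_sub_cancel, Nat.cast_sub hx]
  have e10 : ((x : ℝ) - x') * L ≤ x / L ^ (U + 3) := by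
    rw [le_div_iff₀ (by positivity)]
    calc ((x : ℝ) - x') * L * L ^ (U + 3) = ((x : ℝ) - x') * L ^ (U + 4) := by ring
      _ ≤ _ := hx2
  have e11 : ((x : ℝ) - x') * Sg f n z ≤ x / L ^ (U + 3) :=
    (mul_le_mul_of_nonneg_left hSL (by linarith)).trans e10
  have e12 : 0 ≤ ((x : ℝ) - x') * Sg f n z := mul_nonneg (by linarith) hS0
  have e13 : (x : ℝ) / L ^ (U + 3) ≤ x / L ^ (U + 2) := by
    apply div_le_div_of_nonneg_left (Nat.cast_nonneg _) (by positivity)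
    exact pow_le_pow_right₀ (by linarith) (by omega)
  have e14 : (x' : ℝ) / L ^ (U + 2) ≤ x / L ^ (U + 2) := by gcongr
  have e15 : 6 * ((x : ℝ) / L ^ (U + 2)) ≤ x / L ^ U := by
    rw [← mul_div_assoc, div_le_div_iff₀ (by positivity) (by positivity), pow_add]
    have a0 : (0 : ℝ) ≤ x := Nat.cast_nonneg _
    have a1 : 0 < L ^ U := by positivity
    have a2 : 6 ≤ L ^ 2 := by nlinarith
    calc 6 * (x : ℝ) * L ^ U = (x * L ^ U) * 6 := by ring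
      _ ≤ (x * L ^ U) * L ^ 2 := mul_le_mul_of_nonneg_left a2 (by positivity)
      _ = _ := by ring
  rw [e7]
  have a6 := abs_le.1 e6
  rw [abs_le]
  constructor <;> nlinarith [a6.1, a6.2]

lemma grid_card (N K U : ℕ) (L : ℝ) (hL : L = Real.log N) (hL6 : 6 ≤ L) (hN : 1 ≤ N) (hK : (K : ℝ) ≤ L ^ (U + 4) + 1) :
    ((((Icc K (2 * K)) ×ˢ range (Nat.log 2 N + 1)).image (fun ab : ℕ × ℕ => ab.1 * 2 ^ ab.2)).card : ℝ) ≤ L ^ (U + 7) := by
  refine (Nat.cast_le.2 card_image_le).trans ?_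
  rw [card_product, Nat.card_Icc, card_range]
  have h1 : 2 * K + 1 - K = K + 1 := by omega
  rw [h1]
  push_cast
  have hL0 : 0 < L := by linarith
  have hlog : (Nat.log 2 N : ℝ) ≤ 2 * L := by
    have h2 : ((2 ^ Nat.log 2 N : ℕ) : ℝ) ≤ N := by exact_mod_cast Nat.pow_log_le_self 2 (by omega)
    have h3 := Real.log_le_log (by positivity) h2
    push_cast at h3
    rw [Real.log_pow, ← hL] at h3
    have h4 := Real.log_two_gt_d9
    have h5 : (0 : ℝ) ≤ (Nat.log 2 N : ℝ) := Nat.cast_nonneg _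
    nlinarith
  have h2 : (Nat.log 2 N : ℝ) + 1 ≤ L ^ 2 := by nlinarith
  have h3 : (1 : ℝ) ≤ L ^ (U + 4) := one_le_pow₀ (by linarith)
  have h4 : (K : ℝ) + 1 ≤ L ^ (U + 5) := by
    rw [pow_succ L (U + 4)]
    nlinarith
  calc ((K : ℝ) + 1) * ((Nat.log 2 N : ℝ) + 1) ≤ L ^ (U + 5) * L ^ 2 := mul_le_mul h4 h2 (by positivity) (by positivity)
    _ = _ := by rw [← pow_add]

lemma log_low (N x e d : ℕ) (hx : 1 ≤ x) (he : e ≤ d) (hd : 1 ≤ d) (hN : 1 ≤ N) (h : (N : ℝ) ^ (1 / 3 : ℝ) ≤ (x : ℝ) ^ e) :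
    Real.log N / (3 * d) ≤ Real.log x := by
  have hN0 : (0 : ℝ) < N := by exact_mod_cast hN
  have hd0 : (0 : ℝ) < d := by exact_mod_cast hd
  have h1 := Real.log_le_log (by positivity) h
  rw [Real.log_rpow hN0, Real.log_pow] at h1
  have h2 : 0 ≤ Real.log (x : ℝ) := Real.log_natCast_nonneg _
  have h3 : (e : ℝ) ≤ d := by exact_mod_cast he
  rw [div_le_iff₀ (by positivity)]
  nlinarith [mul_le_mul_of_nonneg_right h3 h2]

/-- **All polynomials and all lengths at once.** -/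
theorem poly_all (hG : S_T31G) (d T U : ℕ) (hd : 1 ≤ d) : ∃ C B : ℕ, ∀ E : ℕ, ∃ N₀ : ℕ, ∀ N : ℕ, N₀ ≤ N → ∀ z : ℕ,
    Real.log N ^ B ≤ z → (z : ℝ) ≤ Real.log N ^ E → ∃ Ex : Finset ℕ, (Ex.card : ℝ) ≤ N / Real.log N ^ U ∧
    ∀ n ∈ Icc 1 N, n ∉ Ex → ∀ f : ℤ[X], 1 ≤ f.natDegree → f.natDegree ≤ d →
      (∀ i, |((f.coeff i : ℤ) : ℝ)| ≤ Real.log N ^ T) → ∀ x : ℕ,
      (N : ℝ) ^ (1 / 3 : ℝ) * Real.log N ^ C ≤ (x : ℝ) ^ f.natDegree → (x : ℝ) ^ f.natDegree * Real.log N ^ C ≤ N →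
      (∀ m ∈ Icc 1 x, 1 ≤ (n : ℤ) + f.eval (m : ℤ)) ∧
      |∑ m ∈ Icc 1 x, thp ((n : ℤ) + f.eval (m : ℤ)).toNat - x * Sg f n z| ≤ x / Real.log N ^ U := by
  classical
  obtain ⟨W, hW⟩ : ∃ W, W = (T + 1) * (d + 1) + (U + 7) := ⟨_, rfl⟩
  obtain ⟨U1, hU1⟩ : ∃ U1, U1 = W + 2 * (U + 2) + (U + 2) := ⟨_, rfl⟩
  obtain ⟨C1, B, hms⟩ := ms_poly hG d T U1
  obtain ⟨C, hC⟩ : ∃ C, C = C1 + T + U + 5 := ⟨_, rfl⟩
  refine ⟨C, B, fun E => ?_⟩
  obtain ⟨N₁, hms⟩ := hms E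
  obtain ⟨X₀, hdet⟩ := det_poly d (2 * E) (U + 4) hd
  obtain ⟨N₂, hVz⟩ := Vz_inv_small E
  obtain ⟨N₃, hev⟩ := ev (3 * ((U + 5) * d)) (9 + d + 2 ^ d + 3 * d * X₀ + (3 * d) ^ (U + 4) + 9 * d ^ 2)
  obtain ⟨N₄, hev4⟩ := ev (2 * (W + (U + 2) + (U + 2) + 2)) 1
  refine ⟨N₁ + N₂ + N₃ + N₄ + 3, fun N hN z hz1 hz2 => ?_⟩
  have hms := hms N (by omega) z hz1 hz2
  obtain ⟨hLK, hLp⟩ := hev N (by omega)
  obtain ⟨-, hLp4⟩ := hev4 N (by omega)
  have hN2 : 2 ≤ N := by omega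
  have hN0 : (0 : ℝ) < N := by exact_mod_cast (by omega : 0 < N)
  have hVz := hVz N (by omega)
  obtain ⟨L, hL⟩ : ∃ L, L = Real.log (N : ℝ) := ⟨_, rfl⟩
  rw [← hL] at hms hLK hLp hLp4 hz1 hz2 hVz ⊢
  have hd0 : (1 : ℝ) ≤ d := by exact_mod_cast hd
  have hX0 : (0 : ℝ) ≤ X₀ := Nat.cast_nonneg _
  have q1 : (0 : ℝ) ≤ (2 : ℝ) ^ d := by positivity
  have q2 : (0 : ℝ) ≤ 3 * d * X₀ := by positivity
  have q3 : (0 : ℝ) ≤ (3 * d : ℝ) ^ (U + 4) := by positivity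
  have q4 : (0 : ℝ) ≤ 9 * (d : ℝ) ^ 2 := by positivity
  have hL6 : 6 ≤ L := by linarith
  have hL1 : 1 ≤ L := by linarith
  have hL0 : 0 < L := by linarith
  have hLd : (d : ℝ) + 1 ≤ L := by linarith
  have hL2d : (2 : ℝ) ^ d ≤ L := by linarith
  have hLX : 3 * d * X₀ ≤ L := by linarith
  have hL3d : (3 * d : ℝ) ^ (U + 4) ≤ L := by linarith
  have hL9 : 9 * (d : ℝ) ^ 2 ≤ L := by linarith
  have hz : 1 ≤ z := by
    have h1 : (1 : ℝ) ≤ z := (one_le_pow₀ hL1).trans hz1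
    exact_mod_cast h1
  have hVz := hVz z hz hz2
  have hT1 : (1 : ℝ) ≤ L ^ T := one_le_pow₀ hL1
  -- the grid
  obtain ⟨K, hKd⟩ : ∃ K : ℕ, K = ⌈L ^ (U + 4)⌉₊ := ⟨_, rfl⟩
  have hK1 : L ^ (U + 4) ≤ K := by rw [hKd]; exact Nat.le_ceil _
  have hK2 : (K : ℝ) ≤ L ^ (U + 4) + 1 := by rw [hKd]; exact (Nat.ceil_lt_add_one (by positivity)).le
  have hKtwo : 2 ≤ K := by
    have h1 : L ≤ L ^ (U + 4) := le_self_pow₀ hL1 (by omega)
    have : (2 : ℝ) ≤ K := by linarith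
    exact_mod_cast this
  obtain ⟨G, hGd⟩ : ∃ G : Finset ℕ, G = ((Icc K (2 * K)) ×ˢ range (Nat.log 2 N + 1)).image (fun ab : ℕ × ℕ => ab.1 * 2 ^ ab.2) :=
    ⟨_, rfl⟩
  have hGc : (G.card : ℝ) ≤ L ^ (U + 7) := by rw [hGd]; exact grid_card N K U L hL hL6 (by omega) hK2
  obtain ⟨P, hPc, hP⟩ := polys d (L ^ T) hT1
  have hPc2 : (P.card : ℝ) ≤ L ^ ((T + 1) * (d + 1)) := by
    refine hPc.trans ?_
    rw [pow_mul]
    apply pow_le_pow_left₀ (by positivity)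
    rw [pow_succ, mul_comm]
    exact mul_le_mul_of_nonneg_left (by linarith) (by positivity)
  obtain ⟨Q, hQ⟩ : ∃ Q : Finset (ℤ[X] × ℕ), Q = (P ×ˢ G).filter (fun fx => (1 ≤ fx.1.natDegree ∧ fx.1.natDegree ≤ d ∧
    (∀ i, |((fx.1.coeff i : ℤ) : ℝ)| ≤ L ^ T)) ∧ (N : ℝ) ^ (1 / 3 : ℝ) * L ^ C1 ≤ (fx.2 : ℝ) ^ fx.1.natDegree ∧
    (fx.2 : ℝ) ^ fx.1.natDegree * L ^ (T + 1) ≤ N) := ⟨_, rfl⟩
  have hQc : (Q.card : ℝ) ≤ L ^ W := by
    have h1 : Q.card ≤ P.card * G.card := by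
      rw [hQ, ← card_product]
      exact card_filter_le _ _
    calc (Q.card : ℝ) ≤ (P.card : ℝ) * G.card := by exact_mod_cast h1
      _ ≤ L ^ ((T + 1) * (d + 1)) * L ^ (U + 7) := mul_le_mul hPc2 hGc (Nat.cast_nonneg _) (by positivity)
      _ = L ^ W := by rw [← pow_add, hW]
  have hQx : ∀ fx ∈ Q, 0 < (fx.2 : ℝ) := by
    intro fx hfx
    rw [hQ, mem_filter] at hfx
    obtain ⟨-, ⟨h1, -, -⟩, h2, -⟩ := hfx
    have h3 : (0 : ℝ) < (fx.2 : ℝ) ^ fx.1.natDegree := lt_of_lt_of_le (by positivity) h2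
    rcases Nat.eq_zero_or_pos fx.2 with h | h
    · rw [h, Nat.cast_zero, zero_pow (by omega)] at h3
      exact absurd h3 (lt_irrefl _)
    · exact_mod_cast h
  obtain ⟨B1, hB1⟩ : ∃ B1 : ℤ[X] × ℕ → Finset ℕ, B1 = fun fx => (Icc 1 N).filter (fun n : ℕ => (fx.2 : ℝ) / L ^ (U + 2) <
    |∑ m ∈ Icc 1 fx.2, (lamI ((n : ℤ) + fx.1.eval (m : ℤ)) - lamzI z ((n : ℤ) + fx.1.eval (m : ℤ)))|) := ⟨_, rfl⟩
  obtain ⟨B2, hB2⟩ : ∃ B2 : ℤ[X] × ℕ → Finset ℕ, B2 = fun fx => (Icc 1 N).filter (fun n : ℕ => (fx.2 : ℝ) / L ^ (U + 2) <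
    ∑ m ∈ Icc 1 fx.2, ppw ((n : ℤ) + fx.1.eval (m : ℤ)).toNat) := ⟨_, rfl⟩
  have hb1 : ∀ fx ∈ Q, ((B1 fx).card : ℝ) ≤ N / L ^ (W + (U + 2)) := by
    intro fx hfx
    have hx0 := hQx fx hfx
    rw [hQ, mem_filter] at hfx
    obtain ⟨-, ⟨h1, h2, h3⟩, h4, h5⟩ := hfx
    have h6 := hms fx.1 h1 h2 h3 fx.2 h4 h5
    have h7 := cheb (Icc 1 N) (fun n : ℕ => ∑ m ∈ Icc 1 fx.2, (lamI ((n : ℤ) + fx.1.eval (m : ℤ)) -
      lamzI z ((n : ℤ) + fx.1.eval (m : ℤ)))) _ ((fx.2 : ℝ) / L ^ (U + 2)) (by positivity) h6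
    rw [hB1]
    refine h7.trans (le_of_eq ?_)
    rw [hU1, pow_add L (W + 2 * (U + 2)) (U + 2), pow_add L W (2 * (U + 2)), pow_add L W (U + 2)]
    have e1 : L ^ (2 * (U + 2)) = (L ^ (U + 2)) ^ 2 := by rw [← pow_mul]; congr 1; ring
    rw [e1]
    field_simp
  have hb2 : ∀ fx ∈ Q, ((B2 fx).card : ℝ) ≤ N / L ^ (W + (U + 2)) := by
    intro fx hfx
    have hx0 := hQx fx hfx
    rw [hQ, mem_filter] at hfx
    obtain ⟨-, ⟨h1, h2, h3⟩, h4, h5⟩ := hfx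
    have hval : ∀ m ∈ Icc 1 fx.2, |fx.1.eval (m : ℤ)| ≤ (N : ℤ) := by
      intro m hm
      have h6 := eval_le fx.1 d h2 (L ^ T) h3 fx.2 m hm
      have h7 : |((fx.1.eval (m : ℤ) : ℤ) : ℝ)| ≤ N := by
        refine h6.trans (le_trans ?_ h5)
        rw [pow_succ]
        calc ((d : ℝ) + 1) * L ^ T * (fx.2 : ℝ) ^ fx.1.natDegree = ((fx.2 : ℝ) ^ fx.1.natDegree * L ^ T) * (d + 1) := by ring
          _ ≤ ((fx.2 : ℝ) ^ fx.1.natDegree * L ^ T) * L := mul_le_mul_of_nonneg_left hLd (by positivity)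
          _ = _ := by ring
      rw [← Int.cast_abs] at h7
      exact_mod_cast h7
    have h6 := ppw_sum N fx.2 (by omega) (fun m => fx.1.eval (m : ℤ)) hval
    have h7 := mark (Icc 1 N) (fun n : ℕ => ∑ m ∈ Icc 1 fx.2, ppw ((n : ℤ) + fx.1.eval (m : ℤ)).toNat) _
      ((fx.2 : ℝ) / L ^ (U + 2)) (by positivity) (fun n _ => sum_nonneg fun _ _ => ppw_nn _) h6
    rw [hB2]
    refine h7.trans ?_
    have e1 : (fx.2 : ℝ) * (2 * Real.sqrt ((2 * N : ℕ) : ℝ) * Real.log ((2 * N : ℕ) : ℝ)) / ((fx.2 : ℝ) / L ^ (U + 2)) =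
        (2 * Real.sqrt ((2 * N : ℕ) : ℝ) * Real.log ((2 * N : ℕ) : ℝ)) * L ^ (U + 2) := by
      field_simp
    rw [e1, le_div_iff₀ (by positivity)]
    have e2 : Real.log ((2 * N : ℕ) : ℝ) ≤ 2 * L := by
      have h8 : (2 : ℝ) ≤ N := by exact_mod_cast hN2
      have h9 : Real.log ((2 * N : ℕ) : ℝ) ≤ Real.log ((N : ℝ) ^ 2) := by
        apply Real.log_le_log (by push_cast; linarith)
        push_cast
        nlinarith
      rw [Real.log_pow] at h9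
      rw [hL]
      exact_mod_cast h9
    have e3 : Real.sqrt ((2 * N : ℕ) : ℝ) ≤ 2 * Real.sqrt N := by
      rw [show (2 : ℝ) * Real.sqrt N = Real.sqrt (4 * N) by
        rw [Real.sqrt_mul (by norm_num), show (4 : ℝ) = 2 ^ 2 by norm_num, Real.sqrt_sq (by norm_num)]]
      apply Real.sqrt_le_sqrt
      push_cast
      linarith
    have e4 : L ^ (W + (U + 2) + (U + 2) + 2) ≤ Real.sqrt N := by
      apply Real.le_sqrt_of_sq_le
      rw [← pow_mul, mul_comm]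
      exact hLp4
    have e5 : Real.sqrt N * Real.sqrt N = N := Real.mul_self_sqrt hN0.le
    have e6 : 0 ≤ Real.log ((2 * N : ℕ) : ℝ) := Real.log_natCast_nonneg _
    calc 2 * Real.sqrt ((2 * N : ℕ) : ℝ) * Real.log ((2 * N : ℕ) : ℝ) * L ^ (U + 2) * L ^ (W + (U + 2)) ≤
        2 * (2 * Real.sqrt N) * (2 * L) * L ^ (U + 2) * L ^ (W + (U + 2)) := by gcongr
      _ = (8 * L) * (Real.sqrt N * (L ^ (W + (U + 2)) * L ^ (U + 2))) := by ring
      _ ≤ (L ^ 2) * (Real.sqrt N * (L ^ (W + (U + 2)) * L ^ (U + 2))) := by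
        apply mul_le_mul_of_nonneg_right _ (by positivity)
        nlinarith
      _ = Real.sqrt N * L ^ (W + (U + 2) + (U + 2) + 2) := by
        rw [pow_add L (W + (U + 2) + (U + 2)) 2, pow_add L (W + (U + 2)) (U + 2)]
        ring
      _ ≤ Real.sqrt N * Real.sqrt N := mul_le_mul_of_nonneg_left e4 (Real.sqrt_nonneg _)
      _ = N := e5
  obtain ⟨S0, hS0⟩ : ∃ S0 : Finset ℕ, S0 = (Icc 1 N).filter (fun n : ℕ => (n : ℝ) ≤ N / L ^ (U + 2)) := ⟨_, rfl⟩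
  have hS0c : (S0.card : ℝ) ≤ N / L ^ (U + 2) := by
    have h1 : S0 ⊆ Icc 1 ⌊(N : ℝ) / L ^ (U + 2)⌋₊ := by
      intro n hn
      rw [hS0, mem_filter, mem_Icc] at hn
      exact mem_Icc.2 ⟨hn.1.1, Nat.le_floor hn.2⟩
    have h2 := card_le_card h1
    rw [Nat.card_Icc, Nat.add_sub_cancel] at h2
    exact (Nat.cast_le.2 h2).trans (Nat.floor_le (by positivity))
  refine ⟨S0 ∪ (Q.biUnion B1 ∪ Q.biUnion B2), ?_, ?_⟩
  · have h1 := card_union_le S0 (Q.biUnion B1 ∪ Q.biUnion B2)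
    have h2 := card_union_le (Q.biUnion B1) (Q.biUnion B2)
    have h3 := union_bd Q B1 _ hb1
    have h4 := union_bd Q B2 _ hb2
    have h5 : (Q.card : ℝ) * (N / L ^ (W + (U + 2))) ≤ N / L ^ (U + 2) := by
      rw [pow_add L W]
      calc (Q.card : ℝ) * (N / (L ^ W * L ^ (U + 2))) ≤ L ^ W * (N / (L ^ W * L ^ (U + 2))) := by gcongr
        _ = _ := by field_simp
    have h6 : ((S0 ∪ (Q.biUnion B1 ∪ Q.biUnion B2)).card : ℝ) ≤ S0.card + (Q.biUnion B1).card + (Q.biUnion B2).card := by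
      exact_mod_cast (by omega : (S0 ∪ (Q.biUnion B1 ∪ Q.biUnion B2)).card ≤ S0.card + (Q.biUnion B1).card + (Q.biUnion B2).card)
    have h7 : 3 * ((N : ℝ) / L ^ (U + 2)) ≤ N / L ^ U := by
      rw [← mul_div_assoc, div_le_div_iff₀ (by positivity) (by positivity), pow_add]
      have a2 : 3 ≤ L ^ 2 := by nlinarith
      calc 3 * (N : ℝ) * L ^ U = (N * L ^ U) * 3 := by ring
        _ ≤ (N * L ^ U) * L ^ 2 := mul_le_mul_of_nonneg_left a2 (by positivity)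
        _ = _ := by ring
    linarith
  · intro n hn hnE f hf1 hf2 hcf x hx1 hx2
    rw [mem_union, mem_union, not_or, not_or] at hnE
    obtain ⟨hnS, hnB1, hnB2⟩ := hnE
    have hn1 := hn
    rw [mem_Icc] at hn1
    obtain ⟨e, he⟩ : ∃ e, e = f.natDegree := ⟨_, rfl⟩
    have hxe : (0 : ℝ) < (x : ℝ) ^ f.natDegree := lt_of_lt_of_le (by positivity) hx1
    have hx : 1 ≤ x := by
      rcases Nat.eq_zero_or_pos x with h | h
      · rw [h, Nat.cast_zero, zero_pow (by omega)] at hxe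
        exact absurd hxe (lt_irrefl _)
      · exact h
    have hxr : (1 : ℝ) ≤ x := by exact_mod_cast hx
    have hcube : (N : ℝ) ^ (1 / 3 : ℝ) ≤ (x : ℝ) ^ f.natDegree := by
      refine le_trans ?_ hx1
      exact le_mul_of_one_le_right (by positivity) (one_le_pow₀ hL1)
    -- the values
    have hnS2 : (N : ℝ) / L ^ (U + 2) < n := by
      by_contra hcon
      push Not at hcon
      exact hnS (by rw [hS0]; exact mem_filter.2 ⟨hn, hcon⟩)
    have hval : ∀ m ∈ Icc 1 x, |((f.eval (m : ℤ) : ℤ) : ℝ)| ≤ N / L ^ (U + 2) := by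
      intro m hm
      have h6 := eval_le f d hf2 (L ^ T) hcf x m hm
      rw [le_div_iff₀ (by positivity)]
      calc |((f.eval (m : ℤ) : ℤ) : ℝ)| * L ^ (U + 2) ≤ ((d : ℝ) + 1) * L ^ T * (x : ℝ) ^ f.natDegree * L ^ (U + 2) := by gcongr
        _ ≤ L * L ^ T * (x : ℝ) ^ f.natDegree * L ^ (U + 2) := by gcongr
        _ = (x : ℝ) ^ f.natDegree * L ^ (T + U + 3) := by ring
        _ ≤ (x : ℝ) ^ f.natDegree * L ^ C := by
          apply mul_le_mul_of_nonneg_left _ hxe.le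
          exact pow_le_pow_right₀ hL1 (by omega)
        _ ≤ N := hx2
    have hpos : ∀ m ∈ Icc 1 x, 1 ≤ (n : ℤ) + f.eval (m : ℤ) := by
      intro m hm
      have h6 := (abs_le.1 (hval m hm)).1
      have h7 : (0 : ℝ) < (((n : ℤ) + f.eval (m : ℤ) : ℤ) : ℝ) := by
        push_cast
        linarith
      have h8 : (0 : ℤ) < (n : ℤ) + f.eval (m : ℤ) := by exact_mod_cast h7
      omega
    have hle : ∀ m ∈ Icc 1 x, (n : ℤ) + f.eval (m : ℤ) ≤ 2 * N := by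
      intro m hm
      have h6 := (abs_le.1 (hval m hm)).2
      have h7 : (N : ℝ) / L ^ (U + 2) ≤ N := div_le_self hN0.le (one_le_pow₀ hL1)
      have h8 : (n : ℝ) ≤ N := by exact_mod_cast hn1.2
      have h9 : (((n : ℤ) + f.eval (m : ℤ) : ℤ) : ℝ) ≤ ((2 * N : ℤ) : ℝ) := by
        push_cast
        linarith
      exact_mod_cast h9
    refine ⟨hpos, ?_⟩
    -- the grid point
    have hxL : L ^ (U + 5) ≤ x := by
      by_contra hcon
      push Not at hcon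
      have h1 : (x : ℝ) ^ f.natDegree < N ^ (1 / 3 : ℝ) := by
        calc (x : ℝ) ^ f.natDegree < (L ^ (U + 5)) ^ f.natDegree := pow_lt_pow_left₀ hcon (by linarith) (by omega)
          _ ≤ (L ^ (U + 5)) ^ d := pow_le_pow_right₀ (one_le_pow₀ hL1) hf2
          _ = L ^ ((U + 5) * d) := by rw [← pow_mul]
          _ ≤ _ := rpow_third_ge (by positivity) (by rw [← pow_mul, mul_comm]; exact hLp)
      linarith
    have hKx : K ≤ x := by
      have h1 : (K : ℝ) ≤ x := by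
        refine hK2.trans (le_trans ?_ hxL)
        rw [pow_succ L (U + 4)]
        have : (1 : ℝ) ≤ L ^ (U + 4) := one_le_pow₀ hL1
        nlinarith
      exact_mod_cast h1
    obtain ⟨a, b, ha1, ha2, hab1, hab2, hb⟩ := grid x K (by omega) hKx
    obtain ⟨x', hx'⟩ : ∃ x', x' = a * 2 ^ b := ⟨_, rfl⟩
    rw [← hx'] at hab1 hab2
    have hxN : x ≤ N := by
      have h1 : (x : ℝ) ≤ (x : ℝ) ^ f.natDegree := le_self_pow₀ hxr (by omega)
      have h2 : (x : ℝ) ^ f.natDegree ≤ (x : ℝ) ^ f.natDegree * L ^ C := le_mul_of_one_le_right hxe.le (one_le_pow₀ hL1)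
      exact_mod_cast (h1.trans h2).trans hx2
    have hmemG : x' ∈ G := by
      rw [hGd, mem_image]
      refine ⟨(a, b), ?_, hx'.symm⟩
      rw [mem_product, mem_Icc, mem_range]
      refine ⟨⟨ha1, ha2⟩, ?_⟩
      have := Nat.le_log_of_pow_le (by norm_num : 1 < 2) (hb.trans hxN)
      exact Nat.lt_succ_of_le this
    have h2x : x ≤ 2 * x' := by
      have h1 : (x - x') * 2 ≤ (x - x') * K := Nat.mul_le_mul_left _ hKtwo
      omega
    have h2xr : (x : ℝ) ≤ 2 * x' := by exact_mod_cast h2x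
    have hx'x : (x' : ℝ) ≤ x := by exact_mod_cast hab1
    have hx'1 : 1 ≤ x' := by omega
    have hx'e : (x' : ℝ) ^ f.natDegree ≤ (x : ℝ) ^ f.natDegree := pow_le_pow_left₀ (Nat.cast_nonneg _) hx'x _
    have hc1 : (N : ℝ) ^ (1 / 3 : ℝ) * L ^ C1 ≤ (x' : ℝ) ^ f.natDegree := by
      have h1 : (x : ℝ) ^ f.natDegree ≤ L * (x' : ℝ) ^ f.natDegree := by
        calc (x : ℝ) ^ f.natDegree ≤ (2 * (x' : ℝ)) ^ f.natDegree := pow_le_pow_left₀ (Nat.cast_nonneg _) h2xr _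
          _ = 2 ^ f.natDegree * (x' : ℝ) ^ f.natDegree := mul_pow _ _ _
          _ ≤ 2 ^ d * (x' : ℝ) ^ f.natDegree := by
            apply mul_le_mul_of_nonneg_right _ (by positivity)
            exact pow_le_pow_right₀ (by norm_num) hf2
          _ ≤ _ := mul_le_mul_of_nonneg_right hL2d (by positivity)
      have h2 : (N : ℝ) ^ (1 / 3 : ℝ) * L ^ C1 * L ≤ (N : ℝ) ^ (1 / 3 : ℝ) * L ^ C := by
        rw [mul_assoc, ← pow_succ]
        apply mul_le_mul_of_nonneg_left _ (by positivity)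
        exact pow_le_pow_right₀ hL1 (by omega)
      have h3 : (N : ℝ) ^ (1 / 3 : ℝ) * L ^ C1 * L ≤ (x' : ℝ) ^ f.natDegree * L := by
        rw [mul_comm ((x' : ℝ) ^ f.natDegree) L]
        exact h2.trans (hx1.trans h1)
      exact le_of_mul_le_mul_right h3 hL0
    have hc2 : (x' : ℝ) ^ f.natDegree * L ^ (T + 1) ≤ N := by
      refine le_trans ?_ hx2
      apply mul_le_mul hx'e _ (by positivity) (by positivity)
      exact pow_le_pow_right₀ hL1 (by omega)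
    have hmemQ : (f, x') ∈ Q := by
      rw [hQ, mem_filter, mem_product]
      exact ⟨⟨hP f hf2 hcf, hmemG⟩, ⟨hf1, hf2, hcf⟩, hc1, hc2⟩
    have g1 : |∑ m ∈ Icc 1 x', (lamI ((n : ℤ) + f.eval (m : ℤ)) - lamzI z ((n : ℤ) + f.eval (m : ℤ)))| ≤ x' / L ^ (U + 2) := by
      by_contra hcon
      push Not at hcon
      apply hnB1
      rw [mem_biUnion]
      refine ⟨(f, x'), hmemQ, ?_⟩
      rw [hB1]
      exact mem_filter.2 ⟨hn, hcon⟩
    have g2 : ∑ m ∈ Icc 1 x', ppw ((n : ℤ) + f.eval (m : ℤ)).toNat ≤ x' / L ^ (U + 2) := by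
      by_contra hcon
      push Not at hcon
      apply hnB2
      rw [mem_biUnion]
      refine ⟨(f, x'), hmemQ, ?_⟩
      rw [hB2]
      exact mem_filter.2 ⟨hn, hcon⟩
    have hcube' : (N : ℝ) ^ (1 / 3 : ℝ) ≤ (x' : ℝ) ^ f.natDegree := by
      refine le_trans ?_ hc1
      exact le_mul_of_one_le_right (by positivity) (one_le_pow₀ hL1)
    have hlx := log_low N x' f.natDegree d hx'1 hf2 hd (by omega) hcube'
    rw [← hL] at hlx
    have hlx0 : 0 < Real.log (x' : ℝ) := lt_of_lt_of_le (by positivity) hlx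
    have hX : X₀ ≤ x' := by
      have h1 : (X₀ : ℝ) ≤ x' := by
        have h2 : (X₀ : ℝ) ≤ L / (3 * d) := by
          rw [le_div_iff₀ (by positivity)]
          linarith
        have h3 : Real.log (x' : ℝ) ≤ x' := (Real.log_le_self (Nat.cast_nonneg _))
        linarith
      exact_mod_cast h1
    have hzx : (z : ℝ) ≤ Real.log (x' : ℝ) ^ (2 * E) := by
      refine hz2.trans ?_
      rw [pow_mul]
      apply pow_le_pow_left₀ hL0.le
      calc L ≤ (L / (3 * d)) ^ 2 := by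
            rw [div_pow, le_div_iff₀ (by positivity)]
            calc L * (3 * (d : ℝ)) ^ 2 = L * (9 * (d : ℝ) ^ 2) := by ring
              _ ≤ L * L := mul_le_mul_of_nonneg_left hL9 hL0.le
              _ = L ^ 2 := by ring
        _ ≤ _ := pow_le_pow_left₀ (by positivity) hlx 2
    have g3 := hdet x' hX z hz hzx f hf2 n
    have g4 : (x' : ℝ) / Real.log (x' : ℝ) ^ (U + 4) ≤ x' / L ^ (U + 3) := by
      apply div_le_div_of_nonneg_left (Nat.cast_nonneg _) (by positivity)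
      calc L ^ (U + 3) ≤ (L / (3 * d)) ^ (U + 4) := by
            rw [div_pow, le_div_iff₀ (by positivity), pow_succ L (U + 3)]
            exact mul_le_mul_of_nonneg_left hL3d (by positivity)
        _ ≤ _ := pow_le_pow_left₀ (by positivity) hlx _
    apply fin_n f n x x' z N U L hL hL6 hN2 hpos hle hVz hab1 _ g1 g2
    · refine le_trans (le_of_eq ?_) (g3.trans g4)
      congr!
    · have h1 : (((x - x') * K : ℕ) : ℝ) ≤ x := by exact_mod_cast hab2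
      rw [Nat.cast_mul, Nat.cast_sub hab1] at h1
      refine le_trans ?_ h1
      exact mul_le_mul_of_nonneg_left hK1 (by linarith)

end Pool.Agent.Run7.h18.MK
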