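import Mathlib
import Pool.Agent.Run7.h18.MK.Poly3
import Pool.Agent.Run7.h777.MK.Maj
import Pool.Agent.Run7.h18.MK.Arc0
import Pool.Agent.Run7.h794.MK.SiaAll

/-! Project MK: primes along short polynomial sequences. Part 4: lower bound for the singular series. -/

set_option autoImplicit false

namespace Pool.Agent.Run7.h18.MK

open Finset Filter Polynomial
open Pool.Agent.H373R2.T7 (Vz pz mem_pz Vz_pos nuB PerB nuB_le Vz_inv_small sing_low)

open Classical in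
lemma Sg_low (f : ℤ[X]) (d : ℕ) (hd : 1 ≤ d) (hf : f.natDegree ≤ d) (n : ℤ) (z : ℕ) (L : ℝ) (hL : 1 ≤ L)
    (hL2 : (3 * d : ℝ) ^ (3 * d) * Real.exp (2 * (d : ℝ) ^ 2) ≤ L) (hV : (Vz z)⁻¹ ≤ L)
    (hfix : ∀ p : ℕ, p.Prime → ∃ m : ℤ, ¬ (p : ℤ) ∣ n + f.eval m) : 1 / L ^ (d + 1) ≤ Sg f n z := by
  have hd0 : (1 : ℝ) ≤ d := by exact_mod_cast hd
  have hL0 : 0 < L := by linarith
  obtain ⟨Q, hQ⟩ : ∃ Q : ℕ → ℕ → Prop, Q = fun p m => p ≤ z ∧ Rt f n p m := ⟨_, rfl⟩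
  have hnu : ∀ p ∈ pz z, nuB Q p = nuB (Rt f n) p := by
    intro p hp
    have hpz := (mem_pz.1 hp).1
    unfold nuB
    congr 1
    ext r
    rw [mem_filter, mem_filter, hQ]
    simp only [hpz, true_and]
  have hne : ∀ p ∈ pz z, nuB (Rt f n) p ≠ p := by
    intro p hp h
    have hpp := (mem_pz.1 hp).2
    obtain ⟨m, hm⟩ := hfix p hpp
    apply hm
    have h3 : (range p).filter (fun r => Rt f n p r) = range p := by
      apply eq_of_subset_of_card_le (filter_subset _ _)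
      have h4 : ((range p).filter (fun r => Rt f n p r)).card = p := by
        have h5 := h
        unfold nuB at h5
        convert h5
      rw [h4, card_range]
    have hp0 : (0 : ℤ) < p := by exact_mod_cast hpp.pos
    obtain ⟨r, hr⟩ : ∃ r : ℕ, (r : ℤ) = m % p := ⟨(m % p).toNat, Int.toNat_of_nonneg (Int.emod_nonneg _ hp0.ne')⟩
    have hr2 : r ∈ range p := by
      rw [mem_range]
      have := Int.emod_lt_of_pos m hp0
      omega
    rw [← h3, mem_filter] at hr2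
    have h5 := hr2.2
    unfold Rt at h5
    have h6 : (m - (r : ℤ)) ∣ f.eval m - f.eval (r : ℤ) := sub_dvd_eval_sub _ _ _
    have h7 : (p : ℤ) ∣ m - (r : ℤ) := by
      rw [hr]
      exact Int.dvd_self_sub_emod
    have h8 : n + f.eval m = (n + f.eval (r : ℤ)) + (f.eval m - f.eval (r : ℤ)) := by ring
    rw [h8]
    exact dvd_add h5 (h7.trans h6)
  have hPer : PerB Q d := by
    constructor
    · intro p m
      rw [hQ]
      simp only
      rw [Rt_per f n p m]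
    · intro p hp
      by_cases hpz : p ≤ z
      · have hpm : p ∈ pz z := mem_pz.2 ⟨hpz, hp⟩
        rw [hnu p hpm]
        rcases nuB_or f n p hp with h | h
        · exact absurd h (hne p hpm)
        · exact h.trans hf
      · have h3 : nuB Q p = 0 := by
          unfold nuB
          rw [card_eq_zero, filter_eq_empty_iff]
          intro r _ hcon
          rw [hQ] at hcon
          exact hpz hcon.1
        omega
  have h5 : ∏ p ∈ pz z, (1 - (nuB Q p : ℝ) / p) = ∏ p ∈ pz z, (1 - (nuB (Rt f n) p : ℝ) / p) :=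
    prod_congr rfl fun p hp => by rw [hnu p hp]
  have h0 : ((Vz z)⁻¹) ^ 1 * ∏ p ∈ pz z, (1 - (nuB Q p : ℝ) / p) ≠ 0 := by
    have hVp := Vz_pos z
    apply mul_ne_zero (by positivity)
    rw [h5, prod_ne_zero_iff]
    intro p hp h
    have hp0 : (p : ℝ) ≠ 0 := by exact_mod_cast (mem_pz.1 hp).2.ne_zero
    apply hne p hp
    have h6 : (nuB (Rt f n) p : ℝ) / p = 1 := by linarith
    rw [div_eq_one_iff_eq hp0] at h6
    exact_mod_cast h6
  have h6 := sing_low (k := 1) Q d hd hPer z L hL hV h0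
  rw [h5, pow_one] at h6
  refine le_trans ?_ h6
  rw [div_pow, one_pow, one_div_mul_eq_div, Real.exp_neg, div_div, div_le_div_iff₀ (by positivity) (by positivity), one_mul,
    pow_succ L d]
  have e1 : 0 < Real.exp (2 * (d : ℝ) ^ 2) := Real.exp_pos _
  calc (3 * (d : ℝ)) ^ (3 * d) * L ^ d = ((3 * (d : ℝ)) ^ (3 * d) * Real.exp (2 * (d : ℝ) ^ 2)) * L ^ d * (Real.exp (2 * (d : ℝ) ^ 2))⁻¹ := by
        field_simp
    _ ≤ L * L ^ d * (Real.exp (2 * (d : ℝ) ^ 2))⁻¹ := by gcongr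
    _ = _ := by ring

/-- everything, with the lower bound for the singular series and without hypotheses -/
theorem poly_fin (d T U : ℕ) (hd : 1 ≤ d) : ∃ C B : ℕ, ∀ E : ℕ, ∃ N₀ : ℕ, ∀ N : ℕ, N₀ ≤ N → ∀ z : ℕ,
    Real.log N ^ B ≤ z → (z : ℝ) ≤ Real.log N ^ E → ∃ Ex : Finset ℕ, (Ex.card : ℝ) ≤ N / Real.log N ^ U ∧
    ∀ n ∈ Icc 1 N, n ∉ Ex → ∀ f : ℤ[X], 1 ≤ f.natDegree → f.natDegree ≤ d →
      (∀ i, |((f.coeff i : ℤ) : ℝ)| ≤ Real.log N ^ T) →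
      ((∀ p : ℕ, p.Prime → ∃ m : ℤ, ¬ (p : ℤ) ∣ (n : ℤ) + f.eval m) → 1 / Real.log N ^ (d + 1) ≤ Sg f n z) ∧ ∀ x : ℕ,
      (N : ℝ) ^ (1 / 3 : ℝ) * Real.log N ^ C ≤ (x : ℝ) ^ f.natDegree → (x : ℝ) ^ f.natDegree * Real.log N ^ C ≤ N →
      (∀ m ∈ Icc 1 x, 1 ≤ (n : ℤ) + f.eval (m : ℤ)) ∧
      |∑ m ∈ Icc 1 x, Pool.Agent.R460.SQ.thp ((n : ℤ) + f.eval (m : ℤ)).toNat - x * Sg f n z| ≤ x / Real.log N ^ U := by
  obtain ⟨C, B, h⟩ := poly_all (t_T31G (t_ARC0 (Pool.Agent.Run7.h777.MK.t_MAJ Pool.Agent.Run7.h794.MK.sia_all))) d T U hd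
  refine ⟨C, B, fun E => ?_⟩
  obtain ⟨N₁, h⟩ := h E
  obtain ⟨N₂, hVz⟩ := Vz_inv_small E
  obtain ⟨N₃, hev⟩ := ev 1 ((3 * d : ℝ) ^ (3 * d) * Real.exp (2 * (d : ℝ) ^ 2) + 1)
  refine ⟨N₁ + N₂ + N₃, fun N hN z hz1 hz2 => ?_⟩
  obtain ⟨Ex, h1, h2⟩ := h N (by omega) z hz1 hz2
  obtain ⟨hLK, -⟩ := hev N (by omega)
  have hq : 0 < (3 * d : ℝ) ^ (3 * d) * Real.exp (2 * (d : ℝ) ^ 2) := by
    have : (1 : ℝ) ≤ d := by exact_mod_cast hd
    positivity
  have hL1 : 1 ≤ Real.log (N : ℝ) := by linarith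
  have hz : 1 ≤ z := by
    have h1 : (1 : ℝ) ≤ z := (one_le_pow₀ hL1).trans hz1
    exact_mod_cast h1
  refine ⟨Ex, h1, fun n hn hnE f hf1 hf2 hcf => ⟨fun hfix => ?_, fun x hx1 hx2 => h2 n hn hnE f hf1 hf2 hcf x hx1 hx2⟩⟩
  exact Sg_low f d hd hf2 n z (Real.log N) hL1 (by linarith) (hVz N (by omega) z hz hz2) hfix

end Pool.Agent.Run7.h18.MK
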