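import Mathlib
import Pool.Agent.Run7.h18.MK.Poly1
import Pool.Agent.Run7.h931.MK.Law

/-! Project MK: primes `n + f(m)` with arbitrary weights of the arguments `m`. Part 1: the mean square. -/

set_option autoImplicit false

namespace Pool.Agent.Run7.h18.MK

open Finset Filter Polynomial
open Pool.Agent.H807R2.Dav (ee norm_ee ee_add ee_int ee_add_int ee_zero)
open Pool.Agent.H373R2.T7 (lamz lamI lamzI Vz Vz_pos Vz_inv_small lamz_nonneg)
open Pool.Agent.Run7.h794.MK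

/-- the difference of the primes and the model on the integers -/
noncomputable def Dz (z : ℕ) (k : ℤ) : ℝ := lamI k - lamzI z k

lemma log_two_N (N : ℕ) (hN : 2 ≤ N) : Real.log ((2 * N : ℕ) : ℝ) ≤ 2 * Real.log N := by
  have h5 : (2 : ℝ) ≤ N := by exact_mod_cast hN
  have h6 : Real.log ((2 * N : ℕ) : ℝ) ≤ Real.log ((N : ℝ) ^ 2) := by
    apply Real.log_le_log (by push_cast; linarith)
    push_cast
    nlinarith
  rw [Real.log_pow] at h6
  exact_mod_cast h6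

lemma Dz_bd (z N : ℕ) (L : ℝ) (hL : L = Real.log N) (hN : 2 ≤ N) (hV : (Vz z)⁻¹ ≤ L) (k : ℤ) (hk : k ≤ 2 * N) :
    |Dz z k| ≤ 2 * L := by
  have hN1 : (1 : ℝ) ≤ N := by exact_mod_cast (by omega : 1 ≤ N)
  have hL0 : 0 ≤ L := by rw [hL]; exact Real.log_nonneg hN1
  unfold Dz lamI lamzI
  by_cases h1 : 1 ≤ k
  · rw [if_pos h1, if_pos h1]
    have h2 : k.toNat ≤ 2 * N := by omega
    have h3 : 1 ≤ k.toNat := by omega
    have h4 : ArithmeticFunction.vonMangoldt k.toNat ≤ 2 * L := by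
      refine ArithmeticFunction.vonMangoldt_le_log.trans ?_
      rw [hL]
      refine le_trans ?_ (log_two_N N hN)
      exact Real.log_le_log (by exact_mod_cast h3) (by exact_mod_cast h2)
    have h5 : 0 ≤ ArithmeticFunction.vonMangoldt k.toNat := ArithmeticFunction.vonMangoldt_nonneg
    have h6 := lamz_nonneg z k.toNat
    have h7 : lamz z k.toNat ≤ L := by
      unfold lamz
      split_ifs
      · exact hV
      · exact hL0
    rw [abs_le]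
    constructor <;> linarith
  · rw [if_neg h1, if_neg h1, sub_zero, abs_zero]
    linarith

lemma shift_sum (F : ℤ → ℝ) (K : ℝ) (N : ℕ) (a : ℤ) (hK : 0 ≤ K) (hF : ∀ k : ℤ, k ≤ N + |a| → |F k| ≤ K) :
    |∑ n ∈ Icc 1 N, F ((n : ℤ) + a) - ∑ n ∈ Icc 1 N, F (n : ℤ)| ≤ 2 * |(a : ℝ)| * K := by
  classical
  obtain ⟨A, hA⟩ : ∃ A : Finset ℤ, A = (Icc 1 N).image (fun n : ℕ => (n : ℤ) + a) := ⟨_, rfl⟩
  obtain ⟨B, hB⟩ : ∃ B : Finset ℤ, B = (Icc 1 N).image (fun n : ℕ => (n : ℤ)) := ⟨_, rfl⟩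
  have e1 : ∑ n ∈ Icc 1 N, F ((n : ℤ) + a) = ∑ k ∈ A, F k := by
    rw [hA, sum_image]
    intro x _ y _ h
    simp only at h
    omega
  have e2 : ∑ n ∈ Icc 1 N, F (n : ℤ) = ∑ k ∈ B, F k := by
    rw [hB, sum_image]
    intro x _ y _ h
    simp only at h
    omega
  have hAm : ∀ k : ℤ, k ∈ A ↔ 1 + a ≤ k ∧ k ≤ N + a := by
    intro k
    rw [hA, mem_image]
    constructor
    · rintro ⟨n, hn, rfl⟩
      rw [mem_Icc] at hn
      omega
    · intro h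
      refine ⟨(k - a).toNat, ?_, ?_⟩
      · rw [mem_Icc]
        omega
      · omega
  have hBm : ∀ k : ℤ, k ∈ B ↔ 1 ≤ k ∧ k ≤ N := by
    intro k
    rw [hB, mem_image]
    constructor
    · rintro ⟨n, hn, rfl⟩
      rw [mem_Icc] at hn
      omega
    · intro h
      refine ⟨k.toNat, ?_, ?_⟩
      · rw [mem_Icc]
        omega
      · omega
  have hc1 : ((A \ B).card : ℝ) ≤ |(a : ℝ)| := by
    have h1 : A \ B ⊆ Icc ((N : ℤ) + 1) (N + a) ∪ Icc (1 + a) 0 := by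
      intro k hk
      rw [Finset.mem_sdiff, hAm, hBm] at hk
      rw [mem_union, mem_Icc, mem_Icc]
      omega
    have h2 := (card_le_card h1).trans (card_union_le _ _)
    rw [Int.card_Icc, Int.card_Icc] at h2
    have h3 : (A \ B).card ≤ a.natAbs := by omega
    rw [← Int.cast_abs, Int.abs_eq_natAbs, Int.cast_natCast]
    exact_mod_cast h3
  have hc2 : ((B \ A).card : ℝ) ≤ |(a : ℝ)| := by
    have h1 : B \ A ⊆ Icc 1 a ∪ Icc ((N : ℤ) + a + 1) N := by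
      intro k hk
      rw [Finset.mem_sdiff, hAm, hBm] at hk
      rw [mem_union, mem_Icc, mem_Icc]
      omega
    have h2 := (card_le_card h1).trans (card_union_le _ _)
    rw [Int.card_Icc, Int.card_Icc] at h2
    have h3 : (B \ A).card ≤ a.natAbs := by omega
    rw [← Int.cast_abs, Int.abs_eq_natAbs, Int.cast_natCast]
    exact_mod_cast h3
  have hb : ∀ S : Finset ℤ, (∀ k ∈ S, k ≤ N + |a|) → (S.card : ℝ) ≤ |(a : ℝ)| → |∑ k ∈ S, F k| ≤ |(a : ℝ)| * K := by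
    intro S hS hc
    refine (abs_sum_le_sum_abs _ _).trans ((sum_le_sum fun k hk => hF k (hS k hk)).trans ?_)
    rw [sum_const, nsmul_eq_mul]
    exact mul_le_mul_of_nonneg_right hc hK
  have ha0 := abs_nonneg a
  have ha1 := le_abs_self a
  have h1 := hb (A \ B) (fun k hk => by
    rw [Finset.mem_sdiff, hAm] at hk
    omega) hc1
  have h2 := hb (B \ A) (fun k hk => by
    rw [Finset.mem_sdiff, hBm] at hk
    omega) hc2
  rw [e1, e2, ← sum_sdiff_sub_sum_sdiff]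
  refine (abs_sub _ _).trans ?_
  linarith

/-- **The mean square with weights.** -/
theorem ms_w (hlaw : S_LAW') (d T U : ℕ) : ∃ C B : ℕ, ∀ E : ℕ, ∃ N₀ : ℕ, ∀ N : ℕ, N₀ ≤ N → ∀ z : ℕ,
    Real.log N ^ B ≤ z → (z : ℝ) ≤ Real.log N ^ E → ∀ f : ℤ[X], 1 ≤ f.natDegree → f.natDegree ≤ d →
    |((f.leadingCoeff : ℤ) : ℝ)| ≤ Real.log N ^ T → ∀ x : ℕ,
    (N : ℝ) ^ (1 / 3 : ℝ) * Real.log N ^ C ≤ (x : ℝ) ^ f.natDegree → (x : ℝ) ^ f.natDegree ≤ N →
    (∀ m ∈ Icc 1 x, |((f.eval (m : ℤ) : ℤ) : ℝ)| * Real.log N ^ C ≤ N) →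
    ∀ w : ℕ → ℝ, (∀ m ∈ Icc 1 x, |w m| ≤ 1) →
    ∑ n ∈ Icc 1 N, (∑ m ∈ Icc 1 x, w m * Dz z ((n : ℤ) + f.eval (m : ℤ))) ^ 2 ≤ (x : ℝ) ^ 2 * (N / Real.log N ^ U) := by
  obtain ⟨c, m, hc, hI⟩ := iw_unif d
  obtain ⟨V, hlaw⟩ := hlaw 1 (U + 2)
  obtain ⟨C1, B1, hlaw⟩ := hlaw (2 * (V * m + T + 1)) (V * m + 2)
  refine ⟨C1 + U + 4, B1, fun E => ?_⟩
  obtain ⟨N₁, hlaw⟩ := hlaw E
  obtain ⟨N₂, hVz⟩ := Vz_inv_small E
  obtain ⟨N₃, hev⟩ := ev 1 (c + 20)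
  refine ⟨N₁ + N₂ + N₃ + 6, fun N hN z hz1 hz2 f hf1 hf2 hlc x hx1 hx2 hv w hw => ?_⟩
  obtain ⟨hLK, -⟩ := hev N (by omega)
  have hN0 : (0 : ℝ) < N := by exact_mod_cast (by omega : 0 < N)
  have hVz := hVz N (by omega) z
  obtain ⟨L, hL⟩ : ∃ L, L = Real.log (N : ℝ) := ⟨_, rfl⟩
  have hlaw := hlaw N (by omega) z hz1 hz2
  rw [← hL] at hlaw hlc hx1 hv hz1 hz2 hVz hLK ⊢
  have hc1 : (1 : ℝ) ≤ c := by exact_mod_cast hc
  have hL20 : 20 ≤ L := by linarith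
  have hL1 : 1 ≤ L := by linarith
  have hL0 : 0 < L := by linarith
  have hLc : (c : ℝ) ≤ L := by linarith
  have hz : 1 ≤ z := by
    have h1 : (1 : ℝ) ≤ z := (one_le_pow₀ hL1).trans hz1
    exact_mod_cast h1
  have hVz := hVz hz hz2
  have hxe : (0 : ℝ) < (x : ℝ) ^ f.natDegree := lt_of_lt_of_le (by positivity) hx1
  have hx : 1 ≤ x := by
    rcases Nat.eq_zero_or_pos x with h | h
    · rw [h, Nat.cast_zero, zero_pow (by omega)] at hxe
      exact absurd hxe (lt_irrefl _)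
    · exact h
  have hx0 : (0 : ℝ) < x := by exact_mod_cast hx
  -- the values
  have hvr : ∀ m ∈ Icc 1 x, |((f.eval (m : ℤ) : ℤ) : ℝ)| ≤ N / L ^ (C1 + U + 4) := by
    intro m hm
    rw [le_div_iff₀ (by positivity)]
    exact hv m hm
  have hv2 : ∀ m ∈ Icc 1 x, 4 * |f.eval (m : ℤ)| ≤ N := by
    intro m hm
    have h1 : 4 * |((f.eval (m : ℤ) : ℤ) : ℝ)| ≤ N := by
      have h2 : (4 : ℝ) ≤ L ^ (C1 + U + 4) := by
        calc (4 : ℝ) ≤ L := by linarith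
          _ ≤ _ := le_self_pow₀ hL1 (by omega)
      have h3 := hv m hm
      nlinarith [abs_nonneg ((f.eval (m : ℤ) : ℤ) : ℝ)]
    rw [← Int.cast_abs] at h1
    exact_mod_cast h1
  -- the law
  obtain ⟨M, hM⟩ : ∃ M : ℕ, M = 6 * N := ⟨_, rfl⟩
  have hM1 : 1 ≤ M := by omega
  have hM0 : (0 : ℝ) < M := by exact_mod_cast hM1
  have hMr : (M : ℝ) = 6 * N := by rw [hM]; push_cast; ring
  obtain ⟨K, hK⟩ : ∃ K : ℕ, K = ⌊L ^ (V * m + T + 1)⌋₊ := ⟨_, rfl⟩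
  have hKr : (K : ℝ) ≤ L ^ (V * m + T + 1) := by rw [hK]; exact Nat.floor_le (by positivity)
  have hΓc : ((GamA K M).card : ℝ) ≤ L ^ (2 * (V * m + T + 1)) := by
    have h5 : ((GamA K M).card : ℝ) ≤ K * K := by exact_mod_cast GamA_card K M
    refine h5.trans ?_
    rw [two_mul, pow_add]
    exact mul_le_mul hKr hKr (Nat.cast_nonneg _) (by positivity)
  have hkey := hlaw M (by omega) (by rw [hM, sq]; exact Nat.mul_le_mul_right _ (by omega)) (ℕ × ℕ) (Icc 1 x ×ˢ Icc 1 x)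
    (fun _ => 1 / (x : ℝ) ^ 2) (fun ω => f.eval (ω.2 : ℤ) - f.eval (ω.1 : ℤ)) (fun _ _ => by positivity)
    (by
      rw [sum_const, card_product, Nat.card_Icc, nsmul_eq_mul, Nat.add_sub_cancel]
      push_cast
      rw [mul_one_div, ← sq, div_self (by positivity)])
    (fun ω hω => by
      rw [mem_product] at hω
      have h1 := hv2 _ hω.1
      have h2 := hv2 _ hω.2
      have h3 := abs_sub (f.eval (ω.2 : ℤ)) (f.eval (ω.1 : ℤ))
      push_cast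
      linarith) (x ^ f.natDegree) (by
      push_cast
      refine le_trans ?_ hx1
      apply mul_le_mul_of_nonneg_left _ (by positivity)
      exact pow_le_pow_right₀ hL1 (by omega))
    (GamA K M) hΓc
    (by
      intro t ht
      by_contra hcon
      push Not at hcon
      push_cast at ht
      obtain ⟨S, hS⟩ : ∃ S : ℂ, S = ∑ n ∈ Icc 1 x, ee (((f.eval (n : ℤ) : ℤ) : ℝ) * ((t : ℝ) / M)) := ⟨_, rfl⟩
      have e1 : ∑ ω ∈ Icc 1 x ×ˢ Icc 1 x, (((1 / (x : ℝ) ^ 2) : ℝ) : ℂ) *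
          ee (((f.eval (ω.2 : ℤ) - f.eval (ω.1 : ℤ) : ℤ) : ℝ) * ((t : ℝ) / M)) =
          (((1 / (x : ℝ) ^ 2) : ℝ) : ℂ) * ((∑ n ∈ Icc 1 x, ee (-(((f.eval (n : ℤ) : ℤ) : ℝ) * ((t : ℝ) / M)))) * S) := by
        rw [← mul_sum, sum_product, hS, sum_mul_sum]
        congr 1
        refine sum_congr rfl fun i _ => sum_congr rfl fun j _ => ?_
        rw [← ee_add]
        congr 1
        push_cast
        ring
      have e2 : ‖∑ n ∈ Icc 1 x, ee (-(((f.eval (n : ℤ) : ℤ) : ℝ) * ((t : ℝ) / M)))‖ ≤ x := by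
        refine (norm_sum_le _ _).trans ?_
        rw [sum_congr rfl fun n _ => norm_ee _, sum_const, Nat.card_Icc, nsmul_eq_mul, Nat.add_sub_cancel, mul_one]
      have e3 : 1 / L ^ V < ‖S‖ / x := by
        refine hcon.trans_le ?_
        rw [e1, norm_mul, norm_mul, Complex.norm_real, Real.norm_of_nonneg (by positivity)]
        calc 1 / (x : ℝ) ^ 2 * (‖∑ n ∈ Icc 1 x, ee (-(((f.eval (n : ℤ) : ℤ) : ℝ) * ((t : ℝ) / M)))‖ * ‖S‖) ≤
            1 / (x : ℝ) ^ 2 * (x * ‖S‖) := by gcongr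
          _ = ‖S‖ / x := by field_simp
      have hSx : (x : ℝ) ≤ L ^ V * ‖S‖ := by
        rw [div_lt_div_iff₀ (by positivity) hx0] at e3
        linarith
      rw [hS] at hSx
      obtain ⟨k, hk1, hk2, a, ha⟩ := hI f.natDegree hf1 hf2 x (L ^ V) _ f hx (one_le_pow₀ hL1) rfl hSx
      have h3 : (c : ℝ) * (L ^ V) ^ m ≤ L ^ (V * m + 1) := by
        rw [← pow_mul, pow_succ, mul_comm]
        exact mul_le_mul_of_nonneg_left hLc (by positivity)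
      have h4 : (k : ℝ) ≤ L ^ (V * m + T + 1) := by
        have h5 : ((f.coeff f.natDegree).natAbs : ℝ) ≤ L ^ T := by
          have h6 := hlc
          rw [leadingCoeff] at h6
          rwa [← Int.cast_abs, Int.abs_eq_natAbs, Int.cast_natCast] at h6
        refine hk2.trans ?_
        calc (c : ℝ) * (L ^ V) ^ m * (f.coeff f.natDegree).natAbs ≤ L ^ (V * m + 1) * L ^ T :=
              mul_le_mul h3 h5 (Nat.cast_nonneg _) (by positivity)
          _ = _ := by rw [← pow_add]; congr 1; ring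
      have h6 := farA K M hM1 (L ^ (V * m + 2) * (M / (x : ℝ) ^ f.natDegree)) t (by
        intro γ hγ k'
        have := ht γ hγ k'
        push_cast at this ⊢
        exact this) k hk1 (by rw [hK]; exact Nat.le_floor h4) a
      have h7 : |(t : ℝ) / M - a / k| ≤ L ^ (V * m + 1) / (x : ℝ) ^ f.natDegree := by
        refine ha.trans ?_
        exact div_le_div_of_nonneg_right h3 hxe.le
      have h8 : L ^ (V * m + 1) / (x : ℝ) ^ f.natDegree ≤ (L ^ (V * m + 2) * (M / (x : ℝ) ^ f.natDegree) - 1 / 2) / M := by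
        rw [le_div_iff₀ hM0]
        have g1 : 1 ≤ (M : ℝ) / (x : ℝ) ^ f.natDegree := by
          rw [le_div_iff₀ hxe]
          linarith
        have g2 : L ^ (V * m + 1) / (x : ℝ) ^ f.natDegree * M = L ^ (V * m + 1) * (M / (x : ℝ) ^ f.natDegree) := by ring
        rw [g2, pow_succ L (V * m + 1)]
        have g3 : (1 : ℝ) ≤ L ^ (V * m + 1) := one_le_pow₀ hL1
        have g4 : 1 ≤ L ^ (V * m + 1) * ((M : ℝ) / (x : ℝ) ^ f.natDegree) := by nlinarith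
        have g5 : L ^ (V * m + 1) * L * ((M : ℝ) / (x : ℝ) ^ f.natDegree) =
            L * (L ^ (V * m + 1) * ((M : ℝ) / (x : ℝ) ^ f.natDegree)) := by ring
        rw [g5]
        nlinarith
      linarith)
    (2 * L) (by linarith) (fun n => Dz z n) (fun n hn => Dz_bd z N L hL (by omega) hVz n (by
      rw [mem_Icc] at hn
      have : (n : ℤ) ≤ N := by exact_mod_cast hn.2
      linarith [Int.natCast_nonneg N]))
  -- expansion of the square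
  have e0 : ∑ n ∈ Icc 1 N, (∑ m ∈ Icc 1 x, w m * Dz z ((n : ℤ) + f.eval (m : ℤ))) ^ 2 =
      ∑ ω ∈ Icc 1 x ×ˢ Icc 1 x, w ω.1 * w ω.2 *
        ∑ n ∈ Icc 1 N, Dz z ((n : ℤ) + f.eval (ω.1 : ℤ)) * Dz z ((n : ℤ) + f.eval (ω.2 : ℤ)) := by
    have e1 : ∀ n ∈ Icc 1 N, (∑ m ∈ Icc 1 x, w m * Dz z ((n : ℤ) + f.eval (m : ℤ))) ^ 2 =
        ∑ ω ∈ Icc 1 x ×ˢ Icc 1 x, w ω.1 * w ω.2 * (Dz z ((n : ℤ) + f.eval (ω.1 : ℤ)) * Dz z ((n : ℤ) + f.eval (ω.2 : ℤ))) := by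
      intro n _
      rw [sq, sum_mul_sum, sum_product]
      refine sum_congr rfl fun i _ => sum_congr rfl fun j _ => ?_
      ring
    rw [sum_congr rfl e1, sum_comm]
    refine sum_congr rfl fun ω _ => ?_
    rw [mul_sum]
  rw [e0]
  have hin : ∀ ω ∈ Icc 1 x ×ˢ Icc 1 x, w ω.1 * w ω.2 *
        ∑ n ∈ Icc 1 N, Dz z ((n : ℤ) + f.eval (ω.1 : ℤ)) * Dz z ((n : ℤ) + f.eval (ω.2 : ℤ)) ≤
      |∑ n ∈ Icc 1 N, Dz z (n : ℤ) * (lamI ((n : ℤ) + (f.eval (ω.2 : ℤ) - f.eval (ω.1 : ℤ))) -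
        lamzI z ((n : ℤ) + (f.eval (ω.2 : ℤ) - f.eval (ω.1 : ℤ))))| + 8 * (N / L ^ (U + 2)) := by
    intro ω hω
    rw [mem_product] at hω
    obtain ⟨F, hF⟩ : ∃ F : ℤ → ℝ, F = fun k => Dz z k * Dz z (k + (f.eval (ω.2 : ℤ) - f.eval (ω.1 : ℤ))) := ⟨_, rfl⟩
    have h1 := hv2 _ hω.1
    have h2 := hv2 _ hω.2
    have a1 := abs_le.1 (show |f.eval (ω.1 : ℤ)| ≤ |f.eval (ω.1 : ℤ)| from le_rfl)
    have a2 := abs_le.1 (show |f.eval (ω.2 : ℤ)| ≤ |f.eval (ω.2 : ℤ)| from le_rfl)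
    have h3 := shift_sum F ((2 * L) * (2 * L)) N (f.eval (ω.1 : ℤ)) (by positivity) (by
      intro k hk
      rw [hF]
      simp only
      rw [abs_mul]
      apply mul_le_mul (Dz_bd z N L hL (by omega) hVz k (by linarith)) _ (abs_nonneg _) (by positivity)
      apply Dz_bd z N L hL (by omega) hVz
      linarith [a1.1, a2.2])
    have h4 : ∑ n ∈ Icc 1 N, F ((n : ℤ) + f.eval (ω.1 : ℤ)) =
        ∑ n ∈ Icc 1 N, Dz z ((n : ℤ) + f.eval (ω.1 : ℤ)) * Dz z ((n : ℤ) + f.eval (ω.2 : ℤ)) := by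
      refine sum_congr rfl fun n _ => ?_
      rw [hF]
      simp only
      congr 2
      ring
    rw [h4] at h3
    have h5 : 2 * |((f.eval (ω.1 : ℤ) : ℤ) : ℝ)| * (2 * L * (2 * L)) ≤ 8 * (N / L ^ (U + 2)) := by
      have h6 := hvr _ hω.1
      have h7 : (N : ℝ) / L ^ (C1 + U + 4) ≤ N / L ^ (U + 4) := by
        apply div_le_div_of_nonneg_left hN0.le (by positivity)
        exact pow_le_pow_right₀ hL1 (by omega)
      calc 2 * |((f.eval (ω.1 : ℤ) : ℤ) : ℝ)| * (2 * L * (2 * L)) = (8 * L ^ 2) * |((f.eval (ω.1 : ℤ) : ℤ) : ℝ)| := by ring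
        _ ≤ (8 * L ^ 2) * (N / L ^ (U + 4)) := mul_le_mul_of_nonneg_left (h6.trans h7) (by positivity)
        _ = 8 * (N / L ^ (U + 2)) := by
          rw [pow_add L (U + 2) 2]
          field_simp
    have h6 : |w ω.1 * w ω.2| ≤ 1 := by
      rw [abs_mul]
      exact mul_le_one₀ (hw _ hω.1) (abs_nonneg _) (hw _ hω.2)
    calc w ω.1 * w ω.2 * ∑ n ∈ Icc 1 N, Dz z ((n : ℤ) + f.eval (ω.1 : ℤ)) * Dz z ((n : ℤ) + f.eval (ω.2 : ℤ)) ≤
        |w ω.1 * w ω.2 * ∑ n ∈ Icc 1 N, Dz z ((n : ℤ) + f.eval (ω.1 : ℤ)) * Dz z ((n : ℤ) + f.eval (ω.2 : ℤ))| :=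
          le_abs_self _
      _ = |w ω.1 * w ω.2| * |∑ n ∈ Icc 1 N, Dz z ((n : ℤ) + f.eval (ω.1 : ℤ)) * Dz z ((n : ℤ) + f.eval (ω.2 : ℤ))| :=
          abs_mul _ _
      _ ≤ 1 * |∑ n ∈ Icc 1 N, Dz z ((n : ℤ) + f.eval (ω.1 : ℤ)) * Dz z ((n : ℤ) + f.eval (ω.2 : ℤ))| :=
          mul_le_mul_of_nonneg_right h6 (abs_nonneg _)
      _ ≤ |∑ n ∈ Icc 1 N, F (n : ℤ)| + 2 * |((f.eval (ω.1 : ℤ) : ℤ) : ℝ)| * (2 * L * (2 * L)) := by
          have h8 := abs_sub_abs_le_abs_sub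
            (∑ n ∈ Icc 1 N, Dz z ((n : ℤ) + f.eval (ω.1 : ℤ)) * Dz z ((n : ℤ) + f.eval (ω.2 : ℤ))) (∑ n ∈ Icc 1 N, F (n : ℤ))
          linarith
      _ ≤ _ := by
          have h9 : ∑ n ∈ Icc 1 N, F (n : ℤ) = ∑ n ∈ Icc 1 N, Dz z (n : ℤ) *
              (lamI ((n : ℤ) + (f.eval (ω.2 : ℤ) - f.eval (ω.1 : ℤ))) -
                lamzI z ((n : ℤ) + (f.eval (ω.2 : ℤ) - f.eval (ω.1 : ℤ)))) := by
            rw [hF]
            rfl
          rw [← h9]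
          linarith
  refine (sum_le_sum hin).trans ?_
  rw [sum_add_distrib, sum_const, card_product, Nat.card_Icc, nsmul_eq_mul, Nat.add_sub_cancel]
  rw [← mul_sum] at hkey
  have h10 : ∑ ω ∈ Icc 1 x ×ˢ Icc 1 x, |∑ n ∈ Icc 1 N, Dz z (n : ℤ) * (lamI ((n : ℤ) + (f.eval (ω.2 : ℤ) - f.eval (ω.1 : ℤ))) -
        lamzI z ((n : ℤ) + (f.eval (ω.2 : ℤ) - f.eval (ω.1 : ℤ))))| ≤ (x : ℝ) ^ 2 * (2 * L * (N / L ^ (U + 2))) := by
    rw [one_div, inv_mul_le_iff₀ (by positivity)] at hkey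
    exact hkey
  have h11 : 2 * L * ((N : ℝ) / L ^ (U + 2)) + 8 * (N / L ^ (U + 2)) ≤ N / L ^ U := by
    have e1 : (N : ℝ) / L ^ U = L ^ 2 * (N / L ^ (U + 2)) := by
      rw [pow_add L U 2]
      field_simp
    rw [e1]
    have e2 : 0 ≤ (N : ℝ) / L ^ (U + 2) := by positivity
    have e3 : 2 * L + 8 ≤ L ^ 2 := by nlinarith
    calc 2 * L * ((N : ℝ) / L ^ (U + 2)) + 8 * (N / L ^ (U + 2)) = (2 * L + 8) * (N / L ^ (U + 2)) := by ring
      _ ≤ _ := mul_le_mul_of_nonneg_right e3 e2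
  push_cast
  calc _ ≤ (x : ℝ) ^ 2 * (2 * L * (N / L ^ (U + 2))) + (x : ℝ) * x * (8 * (N / L ^ (U + 2))) := by linarith
    _ = (x : ℝ) ^ 2 * (2 * L * (N / L ^ (U + 2)) + 8 * (N / L ^ (U + 2))) := by ring
    _ ≤ _ := mul_le_mul_of_nonneg_left h11 (by positivity)

end Pool.Agent.Run7.h18.MK
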