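import Mathlib
import Pool.Agent.Run7.h18.MK.Poly3
import Pool.Agent.Run7.h18.MK.Arb1

/-! Project MK: primes `n + f(m)` with arbitrary weights of the arguments `m`. Part 2: all polynomials and lengths at once. -/

set_option autoImplicit false

namespace Pool.Agent.Run7.h18.MK

open Finset Filter Polynomial
open Pool.Agent.H373R2.T7 (lamz lamI lamzI Vz pz mem_pz Vz_pos nuB PerB nuB_le Vz_inv_small lamI_nonneg lamz_nonneg)
open Pool.Agent.R460.SQ (thp ppw vm_split ppw_nn)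
open Pool.Agent.Run7.h794.MK

lemma lamzI_bd (z : ℕ) (L : ℝ) (hL : 0 ≤ L) (hV : (Vz z)⁻¹ ≤ L) (k : ℤ) : 0 ≤ lamzI z k ∧ lamzI z k ≤ L := by
  unfold lamzI
  split_ifs
  · refine ⟨lamz_nonneg z _, ?_⟩
    unfold lamz
    split_ifs
    · exact hV
    · exact hL
  · exact ⟨le_rfl, hL⟩

/-- the deterministic part -/
lemma fin_w (f : ℤ[X]) (n : ℤ) (x x' z N U : ℕ) (w : ℕ → ℝ) (hw : ∀ m, |w m| ≤ 1) (L : ℝ) (hL : L = Real.log N)
    (hL6 : 6 ≤ L) (hN : 2 ≤ N)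
    (hpos : ∀ m ∈ Icc 1 x, 1 ≤ n + f.eval (m : ℤ)) (hle : ∀ m ∈ Icc 1 x, n + f.eval (m : ℤ) ≤ 2 * N)
    (hV : (Vz z)⁻¹ ≤ L) (hx : x' ≤ x) (hx2 : ((x : ℝ) - x') * L ^ (U + 4) ≤ x)
    (h1 : |∑ m ∈ Icc 1 x', w m * Dz z (n + f.eval (m : ℤ))| ≤ x' / L ^ (U + 2))
    (h2 : ∑ m ∈ Icc 1 x', ppw (n + f.eval (m : ℤ)).toNat ≤ x' / L ^ (U + 2)) :
    |∑ m ∈ Icc 1 x, w m * thp (n + f.eval (m : ℤ)).toNat - ∑ m ∈ Icc 1 x, w m * lamzI z (n + f.eval (m : ℤ))| ≤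
      x / L ^ U := by
  classical
  have hL0 : 0 < L := by linarith
  have hsub : Icc 1 x' ⊆ Icc 1 x := Icc_subset_Icc le_rfl hx
  have hxr : (x' : ℝ) ≤ x := by exact_mod_cast hx
  have e7 : ∑ m ∈ Icc 1 x, w m * thp (n + f.eval (m : ℤ)).toNat - ∑ m ∈ Icc 1 x, w m * lamzI z (n + f.eval (m : ℤ)) =
      ∑ m ∈ Icc 1 x', w m * Dz z (n + f.eval (m : ℤ)) - ∑ m ∈ Icc 1 x', w m * ppw (n + f.eval (m : ℤ)).toNat +
        ∑ m ∈ Icc 1 x \ Icc 1 x', w m * (thp (n + f.eval (m : ℤ)).toNat - lamzI z (n + f.eval (m : ℤ))) := by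
    rw [← sum_sub_distrib, ← sum_sdiff hsub, add_comm]
    congr 1
    · rw [← sum_sub_distrib]
      refine sum_congr rfl fun m hm => ?_
      unfold Dz lamI
      rw [if_pos (hpos m (hsub hm)), vm_split]
      ring
    · refine sum_congr rfl fun m _ => ?_
      ring
  have e1 : |∑ m ∈ Icc 1 x', w m * ppw (n + f.eval (m : ℤ)).toNat| ≤ x' / L ^ (U + 2) := by
    refine (abs_sum_le_sum_abs _ _).trans (le_trans (sum_le_sum fun m _ => ?_) h2)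
    rw [abs_mul, abs_of_nonneg (ppw_nn _)]
    exact mul_le_of_le_one_left (ppw_nn _) (hw m)
  have hlog : Real.log ((2 * N : ℕ) : ℝ) ≤ 2 * L := by
    rw [hL]
    exact log_two_N N hN
  have e9 : |∑ m ∈ Icc 1 x \ Icc 1 x', w m * (thp (n + f.eval (m : ℤ)).toNat - lamzI z (n + f.eval (m : ℤ)))| ≤
      ((x : ℝ) - x') * (2 * L) := by
    refine (abs_sum_le_sum_abs _ _).trans ?_
    calc ∑ m ∈ Icc 1 x \ Icc 1 x', |w m * (thp (n + f.eval (m : ℤ)).toNat - lamzI z (n + f.eval (m : ℤ)))| ≤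
          ∑ _m ∈ Icc 1 x \ Icc 1 x', 2 * L := by
          refine sum_le_sum fun m hm => ?_
          have h5 := hle m (Finset.mem_sdiff.1 hm).1
          have h6 : thp (n + f.eval (m : ℤ)).toNat ≤ 2 * L := (thp_le (M := 2 * N) (by omega)).trans hlog
          have h7 := thp_nonneg (n + f.eval (m : ℤ)).toNat
          obtain ⟨h8, h9⟩ := lamzI_bd z L hL0.le hV (n + f.eval (m : ℤ))
          rw [abs_mul]
          have h10 : |thp (n + f.eval (m : ℤ)).toNat - lamzI z (n + f.eval (m : ℤ))| ≤ 2 * L := by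
            rw [abs_le]
            constructor <;> linarith
          calc |w m| * |thp (n + f.eval (m : ℤ)).toNat - lamzI z (n + f.eval (m : ℤ))| ≤ 1 * (2 * L) :=
                mul_le_mul (hw m) h10 (abs_nonneg _) zero_le_one
            _ = _ := one_mul _
      _ = _ := by
          rw [sum_const, nsmul_eq_mul, card_sdiff_of_subset hsub, Nat.card_Icc, Nat.card_Icc, Nat.add_sub_cancel,
            Nat.add_sub_cancel, Nat.cast_sub hx]
  have e10 : ((x : ℝ) - x') * L ≤ x / L ^ (U + 3) := by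
    rw [le_div_iff₀ (by positivity)]
    calc ((x : ℝ) - x') * L * L ^ (U + 3) = ((x : ℝ) - x') * L ^ (U + 4) := by ring
      _ ≤ _ := hx2
  have e13 : (x : ℝ) / L ^ (U + 3) ≤ x / L ^ (U + 2) := by
    apply div_le_div_of_nonneg_left (Nat.cast_nonneg _) (by positivity)
    exact pow_le_pow_right₀ (by linarith) (by omega)
  have e14 : (x' : ℝ) / L ^ (U + 2) ≤ x / L ^ (U + 2) := by gcongr
  have e15 : 6 * ((x : ℝ) / L ^ (U + 2)) ≤ x / L ^ U := by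
    rw [← mul_div_assoc, div_le_div_iff₀ (by positivity) (by positivity), pow_add]
    have a0 : (0 : ℝ) ≤ x := Nat.cast_nonneg _
    have a1 : 0 < L ^ U := by positivity
    have a2 : 6 ≤ L ^ 2 := by nlinarith
    calc 6 * (x : ℝ) * L ^ U = (x * L ^ U) * 6 := by ring
      _ ≤ (x * L ^ U) * L ^ 2 := mul_le_mul_of_nonneg_left a2 (by positivity)
      _ = _ := by ring
  rw [e7]
  have hx0 : (0 : ℝ) ≤ x / L ^ (U + 2) := by positivity
  refine (abs_add_le _ _).trans ?_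
  have h3 := abs_sub (∑ m ∈ Icc 1 x', w m * Dz z (n + f.eval (m : ℤ))) (∑ m ∈ Icc 1 x', w m * ppw (n + f.eval (m : ℤ)).toNat)
  linarith

/-- **All polynomials and all lengths at once, arbitrary weights.** -/
theorem arb_all (hlaw : S_LAW') (d T U : ℕ) (hd : 1 ≤ d) : ∃ C B : ℕ, ∀ E : ℕ, ∃ N₀ : ℕ, ∀ N : ℕ, N₀ ≤ N → ∀ z : ℕ,
    Real.log N ^ B ≤ z → (z : ℝ) ≤ Real.log N ^ E → ∀ w : ℕ → ℝ, (∀ m, |w m| ≤ 1) → ∃ Ex : Finset ℕ, (Ex.card : ℝ) ≤ N / Real.log N ^ U ∧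
    ∀ n ∈ Icc 1 N, n ∉ Ex → ∀ f : ℤ[X], 1 ≤ f.natDegree → f.natDegree ≤ d →
      (∀ i, |((f.coeff i : ℤ) : ℝ)| ≤ Real.log N ^ T) → ∀ x : ℕ,
      (N : ℝ) ^ (1 / 3 : ℝ) * Real.log N ^ C ≤ (x : ℝ) ^ f.natDegree → (x : ℝ) ^ f.natDegree * Real.log N ^ C ≤ N →
      (∀ m ∈ Icc 1 x, 1 ≤ (n : ℤ) + f.eval (m : ℤ)) ∧
      |∑ m ∈ Icc 1 x, w m * thp ((n : ℤ) + f.eval (m : ℤ)).toNat -
        ∑ m ∈ Icc 1 x, w m * lamzI z ((n : ℤ) + f.eval (m : ℤ))| ≤ x / Real.log N ^ U := by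
  classical
  obtain ⟨W, hW⟩ : ∃ W, W = (T + 1) * (d + 1) + (U + 7) := ⟨_, rfl⟩
  obtain ⟨U1, hU1⟩ : ∃ U1, U1 = W + 2 * (U + 2) + (U + 2) := ⟨_, rfl⟩
  obtain ⟨C1, B, hms⟩ := ms_w hlaw d T U1
  obtain ⟨C, hC⟩ : ∃ C, C = C1 + T + U + 6 := ⟨_, rfl⟩
  refine ⟨C, B, fun E => ?_⟩
  obtain ⟨N₁, hms⟩ := hms E
  obtain ⟨N₂, hVz⟩ := Vz_inv_small E
  obtain ⟨N₃, hev⟩ := ev (3 * ((U + 5) * d)) (9 + d + 2 ^ d)
  obtain ⟨N₄, hev4⟩ := ev (2 * (W + (U + 2) + (U + 2) + 2)) 1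
  refine ⟨N₁ + N₂ + N₃ + N₄ + 3, fun N hN z hz1 hz2 w hw => ?_⟩
  have hms := hms N (by omega) z hz1 hz2
  obtain ⟨hLK, hLp⟩ := hev N (by omega)
  obtain ⟨-, hLp4⟩ := hev4 N (by omega)
  have hN2 : 2 ≤ N := by omega
  have hN0 : (0 : ℝ) < N := by exact_mod_cast (by omega : 0 < N)
  have hVz := hVz N (by omega)
  obtain ⟨L, hL⟩ : ∃ L, L = Real.log (N : ℝ) := ⟨_, rfl⟩
  rw [← hL] at hms hLK hLp hLp4 hz1 hz2 hVz ⊢
  have hd0 : (1 : ℝ) ≤ d := by exact_mod_cast hd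
  have q1 : (0 : ℝ) ≤ (2 : ℝ) ^ d := by positivity
  have hL6 : 6 ≤ L := by linarith
  have hL1 : 1 ≤ L := by linarith
  have hL0 : 0 < L := by linarith
  have hLd : (d : ℝ) + 1 ≤ L := by linarith
  have hL2d : (2 : ℝ) ^ d ≤ L := by linarith
  have hz : 1 ≤ z := by
    have h1 : (1 : ℝ) ≤ z := (one_le_pow₀ hL1).trans hz1
    exact_mod_cast h1
  have hVz := hVz z hz hz2
  have hT1 : (1 : ℝ) ≤ L ^ T := one_le_pow₀ hL1
  -- the grid
  obtain ⟨K, hKd⟩ : ∃ K : ℕ, K = ⌈L ^ (U + 4)⌉₊ := ⟨_, rfl⟩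
  have hK1 : L ^ (U + 4) ≤ K := by rw [hKd]; exact Nat.le_ceil _
  have hK2 : (K : ℝ) ≤ L ^ (U + 4) + 1 := by rw [hKd]; exact (Nat.ceil_lt_add_one (by positivity)).le
  have hKtwo : 2 ≤ K := by
    have h1 : L ≤ L ^ (U + 4) := le_self_pow₀ hL1 (by omega)
    have : (2 : ℝ) ≤ K := by linarith
    exact_mod_cast this
  obtain ⟨G, hGd⟩ : ∃ G : Finset ℕ, G = ((Icc K (2 * K)) ×ˢ range (Nat.log 2 N + 1)).image (fun ab : ℕ × ℕ => ab.1 * 2 ^ ab.2) :=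
    ⟨_, rfl⟩
  have hGc : (G.card : ℝ) ≤ L ^ (U + 7) := by rw [hGd]; exact grid_card N K U L hL hL6 (by omega) hK2
  obtain ⟨P, hPc, hP⟩ := polys d (L ^ T) hT1
  have hPc2 : (P.card : ℝ) ≤ L ^ ((T + 1) * (d + 1)) := by
    refine hPc.trans ?_
    rw [pow_mul]
    apply pow_le_pow_left₀ (by positivity)
    rw [pow_succ, mul_comm]
    exact mul_le_mul_of_nonneg_left (by linarith) (by positivity)
  obtain ⟨Q, hQ⟩ : ∃ Q : Finset (ℤ[X] × ℕ), Q = (P ×ˢ G).filter (fun fx => (1 ≤ fx.1.natDegree ∧ fx.1.natDegree ≤ d ∧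
    (∀ i, |((fx.1.coeff i : ℤ) : ℝ)| ≤ L ^ T)) ∧ (N : ℝ) ^ (1 / 3 : ℝ) * L ^ C1 ≤ (fx.2 : ℝ) ^ fx.1.natDegree ∧
    (fx.2 : ℝ) ^ fx.1.natDegree * L ^ (C1 + T + 1) ≤ N) := ⟨_, rfl⟩
  have hQc : (Q.card : ℝ) ≤ L ^ W := by
    have h1 : Q.card ≤ P.card * G.card := by
      rw [hQ, ← card_product]
      exact card_filter_le _ _
    calc (Q.card : ℝ) ≤ (P.card : ℝ) * G.card := by exact_mod_cast h1
      _ ≤ L ^ ((T + 1) * (d + 1)) * L ^ (U + 7) := mul_le_mul hPc2 hGc (Nat.cast_nonneg _) (by positivity)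
      _ = L ^ W := by rw [← pow_add, hW]
  have hQx : ∀ fx ∈ Q, 0 < (fx.2 : ℝ) := by
    intro fx hfx
    rw [hQ, mem_filter] at hfx
    obtain ⟨-, ⟨h1, -, -⟩, h2, -⟩ := hfx
    have h3 : (0 : ℝ) < (fx.2 : ℝ) ^ fx.1.natDegree := lt_of_lt_of_le (by positivity) h2
    rcases Nat.eq_zero_or_pos fx.2 with h | h
    · rw [h, Nat.cast_zero, zero_pow (by omega)] at h3
      exact absurd h3 (lt_irrefl _)
    · exact_mod_cast h
  obtain ⟨B1, hB1⟩ : ∃ B1 : ℤ[X] × ℕ → Finset ℕ, B1 = fun fx => (Icc 1 N).filter (fun n : ℕ => (fx.2 : ℝ) / L ^ (U + 2) <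
    |∑ m ∈ Icc 1 fx.2, w m * Dz z ((n : ℤ) + fx.1.eval (m : ℤ))|) := ⟨_, rfl⟩
  have hvC : ∀ fx ∈ Q, ∀ m ∈ Icc 1 fx.2, |((fx.1.eval (m : ℤ) : ℤ) : ℝ)| * L ^ C1 ≤ N := by
    intro fx hfx m hm
    rw [hQ, mem_filter] at hfx
    obtain ⟨-, ⟨h1, h2, h3⟩, h4, h5⟩ := hfx
    have h6 := eval_le fx.1 d h2 (L ^ T) h3 fx.2 m hm
    refine le_trans ?_ h5
    calc |((fx.1.eval (m : ℤ) : ℤ) : ℝ)| * L ^ C1 ≤ ((d + 1) * L ^ T * (fx.2 : ℝ) ^ fx.1.natDegree) * L ^ C1 := by gcongr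
      _ ≤ (L * L ^ T * (fx.2 : ℝ) ^ fx.1.natDegree) * L ^ C1 := by gcongr
      _ = _ := by ring
  obtain ⟨B2, hB2⟩ : ∃ B2 : ℤ[X] × ℕ → Finset ℕ, B2 = fun fx => (Icc 1 N).filter (fun n : ℕ => (fx.2 : ℝ) / L ^ (U + 2) <
    ∑ m ∈ Icc 1 fx.2, ppw ((n : ℤ) + fx.1.eval (m : ℤ)).toNat) := ⟨_, rfl⟩
  have hb1 : ∀ fx ∈ Q, ((B1 fx).card : ℝ) ≤ N / L ^ (W + (U + 2)) := by
    intro fx hfx
    have hfx' := hfx
    have hx0 := hQx fx hfx
    rw [hQ, mem_filter] at hfx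
    obtain ⟨-, ⟨h1, h2, h3⟩, h4, h5⟩ := hfx
    have h5' : (fx.2 : ℝ) ^ fx.1.natDegree ≤ N :=
      (le_mul_of_one_le_right (by positivity) (one_le_pow₀ hL1)).trans h5
    have h6 := hms fx.1 h1 h2 (h3 _) fx.2 h4 h5' (hvC fx hfx') w (fun m _ => hw m)
    have h7 := cheb (Icc 1 N) (fun n : ℕ => ∑ m ∈ Icc 1 fx.2, w m * Dz z ((n : ℤ) + fx.1.eval (m : ℤ)))
      _ ((fx.2 : ℝ) / L ^ (U + 2)) (by positivity) h6
    rw [hB1]
    refine h7.trans (le_of_eq ?_)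
    rw [hU1, pow_add L (W + 2 * (U + 2)) (U + 2), pow_add L W (2 * (U + 2)), pow_add L W (U + 2)]
    have e1 : L ^ (2 * (U + 2)) = (L ^ (U + 2)) ^ 2 := by rw [← pow_mul]; congr 1; ring
    rw [e1]
    field_simp
  have hb2 : ∀ fx ∈ Q, ((B2 fx).card : ℝ) ≤ N / L ^ (W + (U + 2)) := by
    intro fx hfx
    have hfx' := hfx
    have hx0 := hQx fx hfx
    rw [hQ, mem_filter] at hfx
    obtain ⟨-, ⟨h1, h2, h3⟩, h4, h5⟩ := hfx
    have hval : ∀ m ∈ Icc 1 fx.2, |fx.1.eval (m : ℤ)| ≤ (N : ℤ) := by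
      intro m hm
      have h7 : |((fx.1.eval (m : ℤ) : ℤ) : ℝ)| ≤ N :=
        (le_mul_of_one_le_right (abs_nonneg _) (one_le_pow₀ hL1)).trans (hvC fx hfx' m hm)
      rw [← Int.cast_abs] at h7
      exact_mod_cast h7
    have h6 := ppw_sum N fx.2 (by omega) (fun m => fx.1.eval (m : ℤ)) hval
    have h7 := mark (Icc 1 N) (fun n : ℕ => ∑ m ∈ Icc 1 fx.2, ppw ((n : ℤ) + fx.1.eval (m : ℤ)).toNat) _
      ((fx.2 : ℝ) / L ^ (U + 2)) (by positivity) (fun n _ => sum_nonneg fun _ _ => ppw_nn _) h6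
    rw [hB2]
    refine h7.trans ?_
    have e1 : (fx.2 : ℝ) * (2 * Real.sqrt ((2 * N : ℕ) : ℝ) * Real.log ((2 * N : ℕ) : ℝ)) / ((fx.2 : ℝ) / L ^ (U + 2)) =
        (2 * Real.sqrt ((2 * N : ℕ) : ℝ) * Real.log ((2 * N : ℕ) : ℝ)) * L ^ (U + 2) := by
      field_simp
    rw [e1, le_div_iff₀ (by positivity)]
    have e2 : Real.log ((2 * N : ℕ) : ℝ) ≤ 2 * L := by
      have h8 : (2 : ℝ) ≤ N := by exact_mod_cast hN2
      have h9 : Real.log ((2 * N : ℕ) : ℝ) ≤ Real.log ((N : ℝ) ^ 2) := by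
        apply Real.log_le_log (by push_cast; linarith)
        push_cast
        nlinarith
      rw [Real.log_pow] at h9
      rw [hL]
      exact_mod_cast h9
    have e3 : Real.sqrt ((2 * N : ℕ) : ℝ) ≤ 2 * Real.sqrt N := by
      rw [show (2 : ℝ) * Real.sqrt N = Real.sqrt (4 * N) by
        rw [Real.sqrt_mul (by norm_num), show (4 : ℝ) = 2 ^ 2 by norm_num, Real.sqrt_sq (by norm_num)]]
      apply Real.sqrt_le_sqrt
      push_cast
      linarith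
    have e4 : L ^ (W + (U + 2) + (U + 2) + 2) ≤ Real.sqrt N := by
      apply Real.le_sqrt_of_sq_le
      rw [← pow_mul, mul_comm]
      exact hLp4
    have e5 : Real.sqrt N * Real.sqrt N = N := Real.mul_self_sqrt hN0.le
    have e6 : 0 ≤ Real.log ((2 * N : ℕ) : ℝ) := Real.log_natCast_nonneg _
    calc 2 * Real.sqrt ((2 * N : ℕ) : ℝ) * Real.log ((2 * N : ℕ) : ℝ) * L ^ (U + 2) * L ^ (W + (U + 2)) ≤
        2 * (2 * Real.sqrt N) * (2 * L) * L ^ (U + 2) * L ^ (W + (U + 2)) := by gcongr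
      _ = (8 * L) * (Real.sqrt N * (L ^ (W + (U + 2)) * L ^ (U + 2))) := by ring
      _ ≤ (L ^ 2) * (Real.sqrt N * (L ^ (W + (U + 2)) * L ^ (U + 2))) := by
        apply mul_le_mul_of_nonneg_right _ (by positivity)
        nlinarith
      _ = Real.sqrt N * L ^ (W + (U + 2) + (U + 2) + 2) := by
        rw [pow_add L (W + (U + 2) + (U + 2)) 2, pow_add L (W + (U + 2)) (U + 2)]
        ring
      _ ≤ Real.sqrt N * Real.sqrt N := mul_le_mul_of_nonneg_left e4 (Real.sqrt_nonneg _)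
      _ = N := e5
  obtain ⟨S0, hS0⟩ : ∃ S0 : Finset ℕ, S0 = (Icc 1 N).filter (fun n : ℕ => (n : ℝ) ≤ N / L ^ (U + 2)) := ⟨_, rfl⟩
  have hS0c : (S0.card : ℝ) ≤ N / L ^ (U + 2) := by
    have h1 : S0 ⊆ Icc 1 ⌊(N : ℝ) / L ^ (U + 2)⌋₊ := by
      intro n hn
      rw [hS0, mem_filter, mem_Icc] at hn
      exact mem_Icc.2 ⟨hn.1.1, Nat.le_floor hn.2⟩
    have h2 := card_le_card h1
    rw [Nat.card_Icc, Nat.add_sub_cancel] at h2
    exact (Nat.cast_le.2 h2).trans (Nat.floor_le (by positivity))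
  refine ⟨S0 ∪ (Q.biUnion B1 ∪ Q.biUnion B2), ?_, ?_⟩
  · have h1 := card_union_le S0 (Q.biUnion B1 ∪ Q.biUnion B2)
    have h2 := card_union_le (Q.biUnion B1) (Q.biUnion B2)
    have h3 := union_bd Q B1 _ hb1
    have h4 := union_bd Q B2 _ hb2
    have h5 : (Q.card : ℝ) * (N / L ^ (W + (U + 2))) ≤ N / L ^ (U + 2) := by
      rw [pow_add L W]
      calc (Q.card : ℝ) * (N / (L ^ W * L ^ (U + 2))) ≤ L ^ W * (N / (L ^ W * L ^ (U + 2))) := by gcongr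
        _ = _ := by field_simp
    have h6 : ((S0 ∪ (Q.biUnion B1 ∪ Q.biUnion B2)).card : ℝ) ≤ S0.card + (Q.biUnion B1).card + (Q.biUnion B2).card := by
      exact_mod_cast (by omega : (S0 ∪ (Q.biUnion B1 ∪ Q.biUnion B2)).card ≤ S0.card + (Q.biUnion B1).card + (Q.biUnion B2).card)
    have h7 : 3 * ((N : ℝ) / L ^ (U + 2)) ≤ N / L ^ U := by
      rw [← mul_div_assoc, div_le_div_iff₀ (by positivity) (by positivity), pow_add]
      have a2 : 3 ≤ L ^ 2 := by nlinarith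
      calc 3 * (N : ℝ) * L ^ U = (N * L ^ U) * 3 := by ring
        _ ≤ (N * L ^ U) * L ^ 2 := mul_le_mul_of_nonneg_left a2 (by positivity)
        _ = _ := by ring
    linarith
  · intro n hn hnE f hf1 hf2 hcf x hx1 hx2
    rw [mem_union, mem_union, not_or, not_or] at hnE
    obtain ⟨hnS, hnB1, hnB2⟩ := hnE
    have hn1 := hn
    rw [mem_Icc] at hn1
    obtain ⟨e, he⟩ : ∃ e, e = f.natDegree := ⟨_, rfl⟩
    have hxe : (0 : ℝ) < (x : ℝ) ^ f.natDegree := lt_of_lt_of_le (by positivity) hx1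
    have hx : 1 ≤ x := by
      rcases Nat.eq_zero_or_pos x with h | h
      · rw [h, Nat.cast_zero, zero_pow (by omega)] at hxe
        exact absurd hxe (lt_irrefl _)
      · exact h
    have hxr : (1 : ℝ) ≤ x := by exact_mod_cast hx
    have hcube : (N : ℝ) ^ (1 / 3 : ℝ) ≤ (x : ℝ) ^ f.natDegree := by
      refine le_trans ?_ hx1
      exact le_mul_of_one_le_right (by positivity) (one_le_pow₀ hL1)
    -- the values
    have hnS2 : (N : ℝ) / L ^ (U + 2) < n := by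
      by_contra hcon
      push Not at hcon
      exact hnS (by rw [hS0]; exact mem_filter.2 ⟨hn, hcon⟩)
    have hval : ∀ m ∈ Icc 1 x, |((f.eval (m : ℤ) : ℤ) : ℝ)| ≤ N / L ^ (U + 2) := by
      intro m hm
      have h6 := eval_le f d hf2 (L ^ T) hcf x m hm
      rw [le_div_iff₀ (by positivity)]
      calc |((f.eval (m : ℤ) : ℤ) : ℝ)| * L ^ (U + 2) ≤ ((d : ℝ) + 1) * L ^ T * (x : ℝ) ^ f.natDegree * L ^ (U + 2) := by gcongr
        _ ≤ L * L ^ T * (x : ℝ) ^ f.natDegree * L ^ (U + 2) := by gcongr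
        _ = (x : ℝ) ^ f.natDegree * L ^ (T + U + 3) := by ring
        _ ≤ (x : ℝ) ^ f.natDegree * L ^ C := by
          apply mul_le_mul_of_nonneg_left _ hxe.le
          exact pow_le_pow_right₀ hL1 (by omega)
        _ ≤ N := hx2
    have hpos : ∀ m ∈ Icc 1 x, 1 ≤ (n : ℤ) + f.eval (m : ℤ) := by
      intro m hm
      have h6 := (abs_le.1 (hval m hm)).1
      have h7 : (0 : ℝ) < (((n : ℤ) + f.eval (m : ℤ) : ℤ) : ℝ) := by
        push_cast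
        linarith
      have h8 : (0 : ℤ) < (n : ℤ) + f.eval (m : ℤ) := by exact_mod_cast h7
      omega
    have hle : ∀ m ∈ Icc 1 x, (n : ℤ) + f.eval (m : ℤ) ≤ 2 * N := by
      intro m hm
      have h6 := (abs_le.1 (hval m hm)).2
      have h7 : (N : ℝ) / L ^ (U + 2) ≤ N := div_le_self hN0.le (one_le_pow₀ hL1)
      have h8 : (n : ℝ) ≤ N := by exact_mod_cast hn1.2
      have h9 : (((n : ℤ) + f.eval (m : ℤ) : ℤ) : ℝ) ≤ ((2 * N : ℤ) : ℝ) := by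
        push_cast
        linarith
      exact_mod_cast h9
    refine ⟨hpos, ?_⟩
    -- the grid point
    have hxL : L ^ (U + 5) ≤ x := by
      by_contra hcon
      push Not at hcon
      have h1 : (x : ℝ) ^ f.natDegree < N ^ (1 / 3 : ℝ) := by
        calc (x : ℝ) ^ f.natDegree < (L ^ (U + 5)) ^ f.natDegree := pow_lt_pow_left₀ hcon (by linarith) (by omega)
          _ ≤ (L ^ (U + 5)) ^ d := pow_le_pow_right₀ (one_le_pow₀ hL1) hf2
          _ = L ^ ((U + 5) * d) := by rw [← pow_mul]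
          _ ≤ _ := rpow_third_ge (by positivity) (by rw [← pow_mul, mul_comm]; exact hLp)
      linarith
    have hKx : K ≤ x := by
      have h1 : (K : ℝ) ≤ x := by
        refine hK2.trans (le_trans ?_ hxL)
        rw [pow_succ L (U + 4)]
        have : (1 : ℝ) ≤ L ^ (U + 4) := one_le_pow₀ hL1
        nlinarith
      exact_mod_cast h1
    obtain ⟨a, b, ha1, ha2, hab1, hab2, hb⟩ := grid x K (by omega) hKx
    obtain ⟨x', hx'⟩ : ∃ x', x' = a * 2 ^ b := ⟨_, rfl⟩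
    rw [← hx'] at hab1 hab2
    have hxN : x ≤ N := by
      have h1 : (x : ℝ) ≤ (x : ℝ) ^ f.natDegree := le_self_pow₀ hxr (by omega)
      have h2 : (x : ℝ) ^ f.natDegree ≤ (x : ℝ) ^ f.natDegree * L ^ C := le_mul_of_one_le_right hxe.le (one_le_pow₀ hL1)
      exact_mod_cast (h1.trans h2).trans hx2
    have hmemG : x' ∈ G := by
      rw [hGd, mem_image]
      refine ⟨(a, b), ?_, hx'.symm⟩
      rw [mem_product, mem_Icc, mem_range]
      refine ⟨⟨ha1, ha2⟩, ?_⟩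
      have := Nat.le_log_of_pow_le (by norm_num : 1 < 2) (hb.trans hxN)
      exact Nat.lt_succ_of_le this
    have h2x : x ≤ 2 * x' := by
      have h1 : (x - x') * 2 ≤ (x - x') * K := Nat.mul_le_mul_left _ hKtwo
      omega
    have h2xr : (x : ℝ) ≤ 2 * x' := by exact_mod_cast h2x
    have hx'x : (x' : ℝ) ≤ x := by exact_mod_cast hab1
    have hx'1 : 1 ≤ x' := by omega
    have hx'e : (x' : ℝ) ^ f.natDegree ≤ (x : ℝ) ^ f.natDegree := pow_le_pow_left₀ (Nat.cast_nonneg _) hx'x _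
    have hc1 : (N : ℝ) ^ (1 / 3 : ℝ) * L ^ C1 ≤ (x' : ℝ) ^ f.natDegree := by
      have h1 : (x : ℝ) ^ f.natDegree ≤ L * (x' : ℝ) ^ f.natDegree := by
        calc (x : ℝ) ^ f.natDegree ≤ (2 * (x' : ℝ)) ^ f.natDegree := pow_le_pow_left₀ (Nat.cast_nonneg _) h2xr _
          _ = 2 ^ f.natDegree * (x' : ℝ) ^ f.natDegree := mul_pow _ _ _
          _ ≤ 2 ^ d * (x' : ℝ) ^ f.natDegree := by
            apply mul_le_mul_of_nonneg_right _ (by positivity)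
            exact pow_le_pow_right₀ (by norm_num) hf2
          _ ≤ _ := mul_le_mul_of_nonneg_right hL2d (by positivity)
      have h2 : (N : ℝ) ^ (1 / 3 : ℝ) * L ^ C1 * L ≤ (N : ℝ) ^ (1 / 3 : ℝ) * L ^ C := by
        rw [mul_assoc, ← pow_succ]
        apply mul_le_mul_of_nonneg_left _ (by positivity)
        exact pow_le_pow_right₀ hL1 (by omega)
      have h3 : (N : ℝ) ^ (1 / 3 : ℝ) * L ^ C1 * L ≤ (x' : ℝ) ^ f.natDegree * L := by
        rw [mul_comm ((x' : ℝ) ^ f.natDegree) L]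
        exact h2.trans (hx1.trans h1)
      exact le_of_mul_le_mul_right h3 hL0
    have hc2 : (x' : ℝ) ^ f.natDegree * L ^ (C1 + T + 1) ≤ N := by
      refine le_trans ?_ hx2
      apply mul_le_mul hx'e _ (by positivity) (by positivity)
      exact pow_le_pow_right₀ hL1 (by omega)
    have hmemQ : (f, x') ∈ Q := by
      rw [hQ, mem_filter, mem_product]
      exact ⟨⟨hP f hf2 hcf, hmemG⟩, ⟨hf1, hf2, hcf⟩, hc1, hc2⟩
    have g1 : |∑ m ∈ Icc 1 x', w m * Dz z ((n : ℤ) + f.eval (m : ℤ))| ≤ x' / L ^ (U + 2) := by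
      by_contra hcon
      push Not at hcon
      apply hnB1
      rw [mem_biUnion]
      refine ⟨(f, x'), hmemQ, ?_⟩
      rw [hB1]
      exact mem_filter.2 ⟨hn, hcon⟩
    have g2 : ∑ m ∈ Icc 1 x', ppw ((n : ℤ) + f.eval (m : ℤ)).toNat ≤ x' / L ^ (U + 2) := by
      by_contra hcon
      push Not at hcon
      apply hnB2
      rw [mem_biUnion]
      refine ⟨(f, x'), hmemQ, ?_⟩
      rw [hB2]
      exact mem_filter.2 ⟨hn, hcon⟩
    apply fin_w f n x x' z N U w hw L hL hL6 hN2 hpos hle hVz hab1 _ g1 g2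
    have h1 : (((x - x') * K : ℕ) : ℝ) ≤ x := by exact_mod_cast hab2
    rw [Nat.cast_mul, Nat.cast_sub hab1] at h1
    refine le_trans ?_ h1
    exact mul_le_mul_of_nonneg_left hK1 (by linarith)

end Pool.Agent.Run7.h18.MK
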