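import Mathlib
import Pool.Agent.Run7.h18.MK.Arb2
import Pool.Agent.Run7.h18.MK.Poly4

/-! Project MK: primes `n + f(p)`. The singular series for prime arguments. -/

set_option autoImplicit false

namespace Pool.Agent.Run7.h18.MK

open Finset Filter Polynomial
open Pool.Agent.H373R2.T7 (lamz lamI lamzI Vz pz mem_pz Vz_pos Vz_le_one nuB PerB nuB_le Vz_inv_small rhoA rhoA_le PerA sys_main)
open Pool.Agent.R460.SQ (thp ppw vm_split ppw_nn sum_ppw)
open Pool.Agent.Run7.h794.MK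

/-- the truncated singular series for the pair `X`, `n + f` -/
noncomputable def Sg2 (f : ℤ[X]) (n : ℤ) (z : ℕ) : ℝ := (Vz z)⁻¹ * Sg (X * (C n + f)) 0 z

lemma nu_two (f : ℤ[X]) (n : ℤ) (p : ℕ) (hp : p.Prime) : nuB (Rt (X * (C n + f)) 0) p = rhoA (Rt f n) p + 1 := by
  classical
  have hpi : Prime (p : ℤ) := Nat.prime_iff_prime_int.1 hp
  have h1 : ((range p).filter (fun r => Rt (X * (C n + f)) 0 p r)) =
      insert 0 ((range p).filter (fun r => ¬ p ∣ r ∧ Rt f n p r)) := by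
    ext r
    rw [mem_filter, mem_insert, mem_filter, mem_range]
    unfold Rt
    rw [zero_add, eval_mul, eval_X, eval_add, eval_C, hpi.dvd_mul, Int.natCast_dvd_natCast]
    constructor
    · rintro ⟨h1, h2⟩
      by_cases hr : r = 0
      · exact Or.inl hr
      · right
        have h3 : ¬ p ∣ r := fun h => by
          have := Nat.le_of_dvd (Nat.pos_of_ne_zero hr) h
          omega
        exact ⟨h1, h3, h2.resolve_left h3⟩
    · rintro (h | ⟨h1, -, h2⟩)
      · rw [h]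
        exact ⟨hp.pos, Or.inl (dvd_zero _)⟩
      · exact ⟨h1, Or.inr h2⟩
  have h2 : nuB (Rt (X * (C n + f)) 0) p = ((range p).filter (fun r => Rt (X * (C n + f)) 0 p r)).card := by
    unfold nuB
    congr!
  have h3 : rhoA (Rt f n) p = ((range p).filter (fun r => ¬ p ∣ r ∧ Rt f n p r)).card := by
    unfold rhoA
    congr!
  rw [h2, h1, h3, card_insert_of_notMem]
  rw [mem_filter]
  intro h
  exact h.2.1 (dvd_zero p)

lemma prod_two (f : ℤ[X]) (n : ℤ) (z : ℕ) :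
    (Vz z)⁻¹ * ∏ p ∈ pz z, (1 - (rhoA (Rt f n) p : ℝ) / (p - 1 : ℝ)) = Sg2 f n z := by
  unfold Sg2 Sg
  congr 1
  rw [eq_inv_mul_iff_mul_eq₀ (Vz_pos z).ne']
  unfold Vz
  rw [← prod_mul_distrib]
  refine prod_congr rfl fun p hp => ?_
  have hpp := (mem_pz.1 hp).2
  rw [nu_two f n p hpp]
  have h1 : (2 : ℝ) ≤ p := by exact_mod_cast hpp.two_le
  have h2 : (p : ℝ) - 1 ≠ 0 := by linarith
  have h3 : (p : ℝ) ≠ 0 := by linarith
  push_cast
  field_simp
  ring

open Classical in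
theorem det_prime (d E U : ℕ) (hd : 1 ≤ d) : ∃ X₀ : ℕ, ∀ x : ℕ, X₀ ≤ x → ∀ z : ℕ, 1 ≤ z →
    (z : ℝ) ≤ Real.log x ^ E → ∀ f : ℤ[X], f.natDegree ≤ d → ∀ n : ℤ,
    |∑ m ∈ (Icc 1 x).filter (fun m : ℕ => ∀ p ∈ pz z, ¬ Rt f n p m), ArithmeticFunction.vonMangoldt m -
      x * ∏ p ∈ pz z, (1 - (rhoA (Rt f n) p : ℝ) / (p - 1 : ℝ))| ≤ x / Real.log x ^ U := by
  obtain ⟨X₀, h0⟩ := sys_main d E U hd
  refine ⟨X₀ + 1, fun x hx z hz hzE f hf n => ?_⟩
  by_cases hex : ∃ p ∈ pz z, nuB (Rt f n) p = p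
  · obtain ⟨p, hp, hpe⟩ := hex
    have hpp := (mem_pz.1 hp).2
    have h3 : (range p).filter (fun r => Rt f n p r) = range p := by
      apply eq_of_subset_of_card_le (filter_subset _ _)
      have h4 : ((range p).filter (fun r => Rt f n p r)).card = p := by
        have h5 := hpe
        unfold nuB at h5
        convert h5
      rw [h4, card_range]
    have hall : ∀ r < p, Rt f n p r := by
      intro r hr
      have h4 : r ∈ (range p).filter (fun r => Rt f n p r) := by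
        rw [h3, mem_range]
        exact hr
      exact (mem_filter.1 h4).2
    have hrho : rhoA (Rt f n) p = p - 1 := by
      unfold rhoA
      have h5 : (range p).filter (fun r => ¬ p ∣ r ∧ Rt f n p r) = (range p).erase 0 := by
        ext r
        rw [mem_filter, mem_erase, mem_range]
        constructor
        · rintro ⟨h1, h2, -⟩
          refine ⟨fun h => h2 (by rw [h]; exact dvd_zero p), h1⟩
        · rintro ⟨h1, h2⟩
          refine ⟨h2, fun h => ?_, hall r h2⟩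
          have := Nat.le_of_dvd (Nat.pos_of_ne_zero h1) h
          omega
      have h6 : ((range p).filter (fun r => ¬ p ∣ r ∧ Rt f n p r)).card = p - 1 := by
        rw [h5, card_erase_of_mem (mem_range.2 hpp.pos), card_range]
      convert h6
    have h1 : ∏ p ∈ pz z, (1 - (rhoA (Rt f n) p : ℝ) / (p - 1 : ℝ)) = 0 := by
      apply prod_eq_zero hp
      rw [hrho, Nat.cast_sub hpp.one_le]
      have h7 : (2 : ℝ) ≤ p := by exact_mod_cast hpp.two_le
      push_cast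
      rw [div_self (by linarith), sub_self]
    have h2 : (Icc 1 x).filter (fun m : ℕ => ∀ p ∈ pz z, ¬ Rt f n p m) = ∅ := by
      apply filter_eq_empty_iff.2
      intro m _ hcon
      apply hcon p hp
      rw [Rt_per]
      exact hall _ (Nat.mod_lt _ hpp.pos)
    rw [h1, h2, sum_empty, mul_zero, sub_zero, abs_zero]
    have : 0 ≤ Real.log (x : ℝ) := Real.log_natCast_nonneg _
    positivity
  · push Not at hex
    obtain ⟨Q, hQ⟩ : ∃ Q : ℕ → ℕ → Prop, Q = fun p m => p ≤ z ∧ Rt f n p m := ⟨_, rfl⟩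
    have hnu : ∀ p ∈ pz z, rhoA Q p = rhoA (Rt f n) p := by
      intro p hp
      have hpz := (mem_pz.1 hp).1
      unfold rhoA
      congr 1
      ext r
      rw [mem_filter, mem_filter, hQ]
      simp only [hpz, true_and]
    have hPer : PerA Q d := by
      constructor
      · intro p m
        rw [hQ]
        simp only
        rw [Rt_per f n p m]
      · intro p hp
        by_cases hpz : p ≤ z
        · have hpm : p ∈ pz z := mem_pz.2 ⟨hpz, hp⟩
          rw [hnu p hpm]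
          have h6 : rhoA (Rt f n) p ≤ nuB (Rt f n) p := by
            unfold rhoA nuB
            apply card_le_card
            intro r hr
            rw [mem_filter] at hr ⊢
            exact ⟨hr.1, hr.2.2⟩
          rcases nuB_or f n p hp with h | h
          · exact absurd h (hex p hpm)
          · exact h6.trans (h.trans hf)
        · have h3 : rhoA Q p = 0 := by
            unfold rhoA
            rw [card_eq_zero, filter_eq_empty_iff]
            intro r _ hcon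
            rw [hQ] at hcon
            exact hpz hcon.2.1
          omega
    have h4 := h0 x (by omega) z hz hzE Q hPer
    have h5 : ∏ p ∈ pz z, (1 - (rhoA Q p : ℝ) / (p - 1 : ℝ)) = ∏ p ∈ pz z, (1 - (rhoA (Rt f n) p : ℝ) / (p - 1 : ℝ)) :=
      prod_congr rfl fun p hp => by rw [hnu p hp]
    have h6 : (Icc 1 x).filter (fun m : ℕ => ∀ p ∈ pz z, ¬ Q p m) =
        (Icc 1 x).filter (fun m : ℕ => ∀ p ∈ pz z, ¬ Rt f n p m) := by
      apply filter_congr
      intro m _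
      rw [hQ]
      constructor
      · intro h p hp hc
        exact h p hp ⟨(mem_pz.1 hp).1, hc⟩
      · intro h p hp hc
        exact h p hp hc.2
    rw [h5] at h4
    rw [← h6]
    convert h4

/-- the sum of the sieve model with weights -/
lemma lamz_sum_w (f : ℤ[X]) (n : ℤ) (x z : ℕ) (g : ℕ → ℝ) (h : ∀ m ∈ Icc 1 x, 1 ≤ n + f.eval (m : ℤ)) :
    ∑ m ∈ Icc 1 x, g m * lamzI z (n + f.eval (m : ℤ)) =
      (Vz z)⁻¹ * (∑ m ∈ (open Classical in (Icc 1 x).filter (fun m : ℕ => ∀ p ∈ pz z, ¬ Rt f n p m)), g m) := by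
  classical
  rw [mul_sum, sum_filter]
  refine sum_congr rfl fun m hm => ?_
  have h1 := h m hm
  unfold lamzI lamz
  rw [if_pos h1]
  have h2 : (∀ p ∈ pz z, ¬ p ∣ (n + f.eval (m : ℤ)).toNat) ↔ (∀ p ∈ pz z, ¬ Rt f n p m) := by
    refine forall₂_congr fun p _ => not_congr ?_
    unfold Rt
    constructor
    · intro h3
      have h4 := Int.natCast_dvd_natCast.2 h3
      rwa [Int.toNat_of_nonneg (by omega)] at h4
    · intro h3
      apply Int.natCast_dvd_natCast.1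
      rwa [Int.toNat_of_nonneg (by omega)]
  by_cases h3 : ∀ p ∈ pz z, ¬ Rt f n p m
  · rw [if_pos (h2.2 h3), if_pos h3]
    ring
  · rw [if_neg (fun h4 => h3 (h2.1 h4)), if_neg h3, mul_zero]

/-- lower bound for the singular series of the pair -/
lemma Sg2_low (f : ℤ[X]) (d : ℕ) (hf : f.natDegree ≤ d) (n : ℤ) (z : ℕ) (L : ℝ) (hL : 1 ≤ L)
    (hL2 : (3 * (d + 1 : ℕ) : ℝ) ^ (3 * (d + 1)) * Real.exp (2 * ((d + 1 : ℕ) : ℝ) ^ 2) ≤ L) (hV : (Vz z)⁻¹ ≤ L)
    (hfix : ∀ p : ℕ, p.Prime → ∃ m : ℤ, ¬ (p : ℤ) ∣ m * (n + f.eval m)) : 1 / L ^ (d + 2) ≤ Sg2 f n z := by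
  have hdeg : (X * (C n + f)).natDegree ≤ d + 1 := by
    refine natDegree_mul_le.trans ?_
    have h1 := natDegree_add_le (C n) f
    rw [natDegree_C] at h1
    have h2 := natDegree_X_le (R := ℤ)
    omega
  have h1 := Sg_low (X * (C n + f)) (d + 1) (by omega) hdeg 0 z L hL hL2 hV (fun p hp => by
    obtain ⟨m, hm⟩ := hfix p hp
    refine ⟨m, ?_⟩
    rw [zero_add, eval_mul, eval_X, eval_add, eval_C]
    exact hm)
  have h2 : 1 ≤ (Vz z)⁻¹ := by
    rw [one_le_inv₀ (Vz_pos z)]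
    exact Vz_le_one z
  have h3 := (Sg_bd (X * (C n + f)) 0 z).1
  unfold Sg2
  calc 1 / L ^ (d + 2) ≤ Sg (X * (C n + f)) 0 z := h1
    _ ≤ _ := le_mul_of_one_le_left h3 h2

/-- **Prime arguments.** -/
theorem prime_all (hlaw : S_LAW') (d T U : ℕ) (hd : 1 ≤ d) : ∃ C B : ℕ, ∀ E : ℕ, ∃ N₀ : ℕ, ∀ N : ℕ, N₀ ≤ N → ∀ z : ℕ,
    Real.log N ^ B ≤ z → (z : ℝ) ≤ Real.log N ^ E → ∃ Ex : Finset ℕ, (Ex.card : ℝ) ≤ N / Real.log N ^ U ∧
    ∀ n ∈ Icc 1 N, n ∉ Ex → ∀ f : ℤ[X], 1 ≤ f.natDegree → f.natDegree ≤ d →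
      (∀ i, |((f.coeff i : ℤ) : ℝ)| ≤ Real.log N ^ T) →
      ((∀ p : ℕ, p.Prime → ∃ m : ℤ, ¬ (p : ℤ) ∣ m * ((n : ℤ) + f.eval m)) → 1 / Real.log N ^ (d + 2) ≤ Sg2 f n z) ∧ ∀ x : ℕ,
      (N : ℝ) ^ (1 / 3 : ℝ) * Real.log N ^ C ≤ (x : ℝ) ^ f.natDegree → (x : ℝ) ^ f.natDegree * Real.log N ^ C ≤ N →
      (∀ m ∈ Icc 1 x, 1 ≤ (n : ℤ) + f.eval (m : ℤ)) ∧
      |∑ m ∈ Icc 1 x, thp m * thp ((n : ℤ) + f.eval (m : ℤ)).toNat - x * Sg2 f n z| ≤ x / Real.log N ^ U := by
  classical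
  obtain ⟨C, B, hall⟩ := arb_all hlaw d T (U + 3) hd
  refine ⟨C + T + 1, B, fun E => ?_⟩
  obtain ⟨N₁, hall⟩ := hall E
  obtain ⟨X₀, hdet⟩ := det_prime d (2 * E) (U + 4) hd
  obtain ⟨N₂, hVz⟩ := Vz_inv_small E
  obtain ⟨N₃, hev⟩ := ev (3 * ((2 * U + 12) * d)) (9 + d + 3 * d * X₀ + (3 * d) ^ (U + 4) + 9 * d ^ 2 +
    (3 * (d + 1 : ℕ) : ℝ) ^ (3 * (d + 1)) * Real.exp (2 * ((d + 1 : ℕ) : ℝ) ^ 2))
  refine ⟨N₁ + N₂ + N₃ + 3, fun N hN z hz1 hz2 => ?_⟩
  obtain ⟨hLK, hLp⟩ := hev N (by omega)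
  have hN2 : 2 ≤ N := by omega
  have hN0 : (0 : ℝ) < N := by exact_mod_cast (by omega : 0 < N)
  have hVz := hVz N (by omega)
  obtain ⟨L, hL⟩ : ∃ L, L = Real.log (N : ℝ) := ⟨_, rfl⟩
  have hall := hall N (by omega) z hz1 hz2
  rw [← hL] at hall hLK hLp hz1 hz2 hVz ⊢
  have hd0 : (1 : ℝ) ≤ d := by exact_mod_cast hd
  have hX0 : (0 : ℝ) ≤ X₀ := Nat.cast_nonneg _
  have q2 : (0 : ℝ) ≤ 3 * d * X₀ := by positivity
  have q3 : (0 : ℝ) ≤ (3 * d : ℝ) ^ (U + 4) := by positivity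
  have q4 : (0 : ℝ) ≤ 9 * (d : ℝ) ^ 2 := by positivity
  have q5 : (0 : ℝ) ≤ (3 * (d + 1 : ℕ) : ℝ) ^ (3 * (d + 1)) * Real.exp (2 * ((d + 1 : ℕ) : ℝ) ^ 2) := by positivity
  have hL8 : 8 ≤ L := by linarith
  have hL1 : 1 ≤ L := by linarith
  have hL0 : 0 < L := by linarith
  have hLX : 3 * d * X₀ ≤ L := by linarith
  have hL3d : (3 * d : ℝ) ^ (U + 4) ≤ L := by linarith
  have hL9 : 9 * (d : ℝ) ^ 2 ≤ L := by linarith
  have hLq : (3 * (d + 1 : ℕ) : ℝ) ^ (3 * (d + 1)) * Real.exp (2 * ((d + 1 : ℕ) : ℝ) ^ 2) ≤ L := by linarith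
  have hz : 1 ≤ z := by
    have h1 : (1 : ℝ) ≤ z := (one_le_pow₀ hL1).trans hz1
    exact_mod_cast h1
  have hVz := hVz z hz hz2
  obtain ⟨w, hwd⟩ : ∃ w : ℕ → ℝ, w = fun m => if m ≤ N then ArithmeticFunction.vonMangoldt m / L else 0 := ⟨_, rfl⟩
  have hw : ∀ m, |w m| ≤ 1 := by
    intro m
    rw [hwd]
    simp only
    split_ifs with h
    · rw [abs_div, abs_of_nonneg ArithmeticFunction.vonMangoldt_nonneg, abs_of_pos hL0, div_le_one hL0, hL]
      rcases Nat.eq_zero_or_pos m with h0 | h0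
      · rw [h0, ArithmeticFunction.map_zero]
        exact Real.log_natCast_nonneg _
      · exact ArithmeticFunction.vonMangoldt_le_log.trans (Real.log_le_log (by exact_mod_cast h0) (by exact_mod_cast h))
    · rw [abs_zero]
      exact zero_le_one
  obtain ⟨Ex, hE1, hE2⟩ := hall w hw
  refine ⟨Ex, hE1.trans ?_, ?_⟩
  · apply div_le_div_of_nonneg_left hN0.le (by positivity)
    exact pow_le_pow_right₀ hL1 (by omega)
  intro n hn hnE f hf1 hf2 hcf
  refine ⟨fun hfix => Sg2_low f d hf2 n z L hL1 hLq hVz hfix, fun x hx1' hx2' => ?_⟩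
  have hx1 : (N : ℝ) ^ (1 / 3 : ℝ) * L ^ C ≤ (x : ℝ) ^ f.natDegree := by
    refine le_trans ?_ hx1'
    apply mul_le_mul_of_nonneg_left _ (by positivity)
    exact pow_le_pow_right₀ hL1 (by omega)
  have hx2 : (x : ℝ) ^ f.natDegree * L ^ C ≤ N := by
    refine le_trans ?_ hx2'
    apply mul_le_mul_of_nonneg_left _ (by positivity)
    exact pow_le_pow_right₀ hL1 (by omega)
  obtain ⟨hpos, hmain⟩ := hE2 n hn hnE f hf1 hf2 hcf x hx1 hx2
  refine ⟨hpos, ?_⟩
  have hn1 := hn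
  rw [mem_Icc] at hn1
  have hxe : (0 : ℝ) < (x : ℝ) ^ f.natDegree := lt_of_lt_of_le (by positivity) hx1
  have hx : 1 ≤ x := by
    rcases Nat.eq_zero_or_pos x with h | h
    · rw [h, Nat.cast_zero, zero_pow (by omega)] at hxe
      exact absurd hxe (lt_irrefl _)
    · exact h
  have hxr : (1 : ℝ) ≤ x := by exact_mod_cast hx
  have hx0 : (0 : ℝ) < x := by linarith
  have hcube : (N : ℝ) ^ (1 / 3 : ℝ) ≤ (x : ℝ) ^ f.natDegree := by
    refine le_trans ?_ hx1
    exact le_mul_of_one_le_right (by positivity) (one_le_pow₀ hL1)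
  have hxN : x ≤ N := by
    have h1 : (x : ℝ) ≤ (x : ℝ) ^ f.natDegree := le_self_pow₀ hxr (by omega)
    have h2 : (x : ℝ) ^ f.natDegree ≤ (x : ℝ) ^ f.natDegree * L ^ C := le_mul_of_one_le_right hxe.le (one_le_pow₀ hL1)
    exact_mod_cast (h1.trans h2).trans hx2
  have hxL : L ^ (2 * U + 12) ≤ x := by
    by_contra hcon
    push Not at hcon
    have h1 : (x : ℝ) ^ f.natDegree < N ^ (1 / 3 : ℝ) := by
      calc (x : ℝ) ^ f.natDegree < (L ^ (2 * U + 12)) ^ f.natDegree := pow_lt_pow_left₀ hcon (by linarith) (by omega)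
        _ ≤ (L ^ (2 * U + 12)) ^ d := pow_le_pow_right₀ (one_le_pow₀ hL1) hf2
        _ = L ^ ((2 * U + 12) * d) := by rw [← pow_mul]
        _ ≤ _ := rpow_third_ge (by positivity) (by rw [← pow_mul, mul_comm]; exact hLp)
    linarith
  have hlx := log_low N x f.natDegree d hx hf2 hd (by omega) hcube
  rw [← hL] at hlx
  have hlx2 : Real.log (x : ℝ) ≤ L := by
    rw [hL]
    exact Real.log_le_log hx0 (by exact_mod_cast hxN)
  have hX : X₀ ≤ x := by
    have h1 : (X₀ : ℝ) ≤ x := by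
      have h2 : (X₀ : ℝ) ≤ L / (3 * d) := by
        rw [le_div_iff₀ (by positivity)]
        linarith
      have h3 : Real.log (x : ℝ) ≤ x := (Real.log_le_self (Nat.cast_nonneg _))
      linarith
    exact_mod_cast h1
  have hzx : (z : ℝ) ≤ Real.log (x : ℝ) ^ (2 * E) := by
    refine hz2.trans ?_
    rw [pow_mul]
    apply pow_le_pow_left₀ hL0.le
    calc L ≤ (L / (3 * d)) ^ 2 := by
          rw [div_pow, le_div_iff₀ (by positivity)]
          calc L * (3 * (d : ℝ)) ^ 2 = L * (9 * (d : ℝ) ^ 2) := by ring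
            _ ≤ L * L := mul_le_mul_of_nonneg_left hL9 hL0.le
            _ = L ^ 2 := by ring
      _ ≤ _ := pow_le_pow_left₀ (by positivity) hlx 2
  have g3 := hdet x hX z hz hzx f hf2 n
  have g4 : (x : ℝ) / Real.log (x : ℝ) ^ (U + 4) ≤ x / L ^ (U + 3) := by
    apply div_le_div_of_nonneg_left (Nat.cast_nonneg _) (by positivity)
    calc L ^ (U + 3) ≤ (L / (3 * d)) ^ (U + 4) := by
          rw [div_pow, le_div_iff₀ (by positivity), pow_succ L (U + 3)]
          exact mul_le_mul_of_nonneg_left hL3d (by positivity)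
      _ ≤ _ := pow_le_pow_left₀ (by positivity) hlx _
  -- the three errors
  have s1 : ∀ h : ℕ → ℝ, ∑ m ∈ Icc 1 x, w m * h m = (1 / L) * ∑ m ∈ Icc 1 x, ArithmeticFunction.vonMangoldt m * h m := by
    intro h
    rw [mul_sum]
    refine sum_congr rfl fun m hm => ?_
    rw [mem_Icc] at hm
    rw [hwd]
    simp only
    rw [if_pos (hm.2.trans hxN)]
    ring
  have t1 : |∑ m ∈ Icc 1 x, ArithmeticFunction.vonMangoldt m * thp ((n : ℤ) + f.eval (m : ℤ)).toNat -
      ∑ m ∈ Icc 1 x, ArithmeticFunction.vonMangoldt m * lamzI z ((n : ℤ) + f.eval (m : ℤ))| ≤ x / L ^ (U + 2) := by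
    rw [s1, s1, ← mul_sub, abs_mul, abs_of_pos (by positivity)] at hmain
    have h1 := mul_le_mul_of_nonneg_left hmain hL0.le
    have h2 : L * (x / L ^ (U + 3)) = x / L ^ (U + 2) := by
      rw [pow_succ L (U + 2)]
      field_simp
    rw [h2] at h1
    refine le_trans (le_of_eq ?_) h1
    rw [← mul_assoc, mul_one_div_cancel hL0.ne', one_mul]
  have t2 : |∑ m ∈ Icc 1 x, ArithmeticFunction.vonMangoldt m * lamzI z ((n : ℤ) + f.eval (m : ℤ)) - x * Sg2 f n z| ≤
      x / L ^ (U + 2) := by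
    rw [lamz_sum_w f n x z _ hpos, ← prod_two]
    have e1 : (Vz z)⁻¹ * (∑ m ∈ (Icc 1 x).filter (fun m : ℕ => ∀ p ∈ pz z, ¬ Rt f n p m), ArithmeticFunction.vonMangoldt m) -
        x * ((Vz z)⁻¹ * ∏ p ∈ pz z, (1 - (rhoA (Rt f n) p : ℝ) / (p - 1 : ℝ))) =
        (Vz z)⁻¹ * (∑ m ∈ (Icc 1 x).filter (fun m : ℕ => ∀ p ∈ pz z, ¬ Rt f n p m), ArithmeticFunction.vonMangoldt m -
          x * ∏ p ∈ pz z, (1 - (rhoA (Rt f n) p : ℝ) / (p - 1 : ℝ))) := by ring
    have e2 : |(Vz z)⁻¹ * (∑ m ∈ (Icc 1 x).filter (fun m : ℕ => ∀ p ∈ pz z, ¬ Rt f n p m), ArithmeticFunction.vonMangoldt m -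
          x * ∏ p ∈ pz z, (1 - (rhoA (Rt f n) p : ℝ) / (p - 1 : ℝ)))| ≤ x / L ^ (U + 2) := by
      rw [abs_mul, abs_of_pos (inv_pos.2 (Vz_pos z))]
      calc (Vz z)⁻¹ * |∑ m ∈ (Icc 1 x).filter (fun m : ℕ => ∀ p ∈ pz z, ¬ Rt f n p m), ArithmeticFunction.vonMangoldt m -
          x * ∏ p ∈ pz z, (1 - (rhoA (Rt f n) p : ℝ) / (p - 1 : ℝ))| ≤ L * (x / L ^ (U + 3)) := by
            apply mul_le_mul hVz (g3.trans g4) (abs_nonneg _) hL0.le
        _ = _ := by
          rw [pow_succ L (U + 2)]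
          field_simp
    rw [← e1] at e2
    exact e2
  have t3 : |∑ m ∈ Icc 1 x, ArithmeticFunction.vonMangoldt m * thp ((n : ℤ) + f.eval (m : ℤ)).toNat -
      ∑ m ∈ Icc 1 x, thp m * thp ((n : ℤ) + f.eval (m : ℤ)).toNat| ≤ x / L ^ (U + 2) := by
    have e1 : ∑ m ∈ Icc 1 x, ArithmeticFunction.vonMangoldt m * thp ((n : ℤ) + f.eval (m : ℤ)).toNat -
      ∑ m ∈ Icc 1 x, thp m * thp ((n : ℤ) + f.eval (m : ℤ)).toNat =
        ∑ m ∈ Icc 1 x, ppw m * thp ((n : ℤ) + f.eval (m : ℤ)).toNat := by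
      rw [← sum_sub_distrib]
      refine sum_congr rfl fun m _ => ?_
      rw [vm_split]
      ring
    rw [e1, abs_of_nonneg (sum_nonneg fun _ _ => mul_nonneg (ppw_nn _) (thp_nonneg _))]
    have hle : ∀ m ∈ Icc 1 x, thp ((n : ℤ) + f.eval (m : ℤ)).toNat ≤ 2 * L := by
      intro m hm
      refine (thp_le (M := 2 * N) ?_).trans (by rw [hL]; exact log_two_N N hN2)
      have h6 := eval_le f d hf2 (L ^ T) hcf x m hm
      have h7 : |((f.eval (m : ℤ) : ℤ) : ℝ)| ≤ N := by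
        refine h6.trans (le_trans ?_ hx2')
        calc ((d : ℝ) + 1) * L ^ T * (x : ℝ) ^ f.natDegree ≤ L * L ^ T * (x : ℝ) ^ f.natDegree := by
              have : (d : ℝ) + 1 ≤ L := by linarith
              gcongr
          _ = (x : ℝ) ^ f.natDegree * L ^ (T + 1) := by ring
          _ ≤ _ := by
              apply mul_le_mul_of_nonneg_left _ (by positivity)
              exact pow_le_pow_right₀ hL1 (by omega)
      rw [← Int.cast_abs] at h7
      have h8 : |f.eval (m : ℤ)| ≤ N := by exact_mod_cast h7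
      have h9 := (abs_le.1 h8).2
      have h10 := hpos m hm
      omega
    calc ∑ m ∈ Icc 1 x, ppw m * thp ((n : ℤ) + f.eval (m : ℤ)).toNat ≤ ∑ m ∈ Icc 1 x, ppw m * (2 * L) :=
          sum_le_sum fun m hm => mul_le_mul_of_nonneg_left (hle m hm) (ppw_nn _)
      _ = (∑ m ∈ Icc 1 x, ppw m) * (2 * L) := by rw [sum_mul]
      _ ≤ (2 * Real.sqrt x * Real.log x) * (2 * L) := mul_le_mul_of_nonneg_right (sum_ppw hx) (by positivity)
      _ ≤ (2 * Real.sqrt x * L) * (2 * L) := by gcongr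
      _ ≤ x / L ^ (U + 2) := by
        rw [le_div_iff₀ (by positivity)]
        have e2 : L ^ (U + 6) ≤ Real.sqrt x := by
          apply Real.le_sqrt_of_sq_le
          rw [← pow_mul]
          refine le_trans (le_of_eq ?_) hxL
          congr 1
          ring
        have e3 : Real.sqrt x * Real.sqrt x = x := Real.mul_self_sqrt hx0.le
        calc 2 * Real.sqrt x * L * (2 * L) * L ^ (U + 2) = Real.sqrt x * (4 * L ^ (U + 4)) := by ring
          _ ≤ Real.sqrt x * L ^ (U + 6) := by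
            apply mul_le_mul_of_nonneg_left _ (Real.sqrt_nonneg _)
            rw [pow_add L (U + 4) 2, mul_comm]
            apply mul_le_mul_of_nonneg_left _ (by positivity)
            nlinarith
          _ ≤ Real.sqrt x * Real.sqrt x := mul_le_mul_of_nonneg_left e2 (Real.sqrt_nonneg _)
          _ = x := e3
  have e15 : 3 * ((x : ℝ) / L ^ (U + 2)) ≤ x / L ^ U := by
    rw [← mul_div_assoc, div_le_div_iff₀ (by positivity) (by positivity), pow_add]
    have a2 : 3 ≤ L ^ 2 := by nlinarith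
    calc 3 * (x : ℝ) * L ^ U = (x * L ^ U) * 3 := by ring
      _ ≤ (x * L ^ U) * L ^ 2 := mul_le_mul_of_nonneg_left a2 (by positivity)
      _ = _ := by ring
  have b1 := abs_le.1 t1
  have b2 := abs_le.1 t2
  have b3 := abs_le.1 t3
  rw [abs_le]
  constructor <;> linarith [b1.1, b1.2, b2.1, b2.2, b3.1, b3.2]

end Pool.Agent.Run7.h18.MK
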