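import Mathlib
import Pool.Agent.Run7.h18.MK.Arb3
import Pool.Agent.Run7.h777.MK.All
import Pool.Agent.Run7.h788.MK.Min
import Pool.Agent.Run7.h609.MK.Lza
import Pool.Agent.Run7.h477.MK.Arc

/-! Project MK: primes `n + f(m)` with arbitrary or prime arguments `m`: the unconditional theorems. -/

set_option autoImplicit false

namespace Pool.Agent.Run7.h18.MK

open Finset Filter Polynomial
open Pool.Agent.H373R2.T7 (lamzI)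
open Pool.Agent.R460.SQ (thp)
open Pool.Agent.Run7.h794.MK

theorem s_all : S_ALL := Pool.Agent.Run7.h777.MK.t_ALL Pool.Agent.Run7.h609.MK.t_LZA Pool.Agent.Run7.h788.MK.t_MIN
  (Pool.Agent.Run7.h777.MK.t_MAJ sia_all)

theorem law' : S_LAW' := Pool.Agent.Run7.h931.MK.t_LAW' (_root_.Run7.h477.MK.arc s_all)

theorem arb_fin (d T U : ℕ) (hd : 1 ≤ d) : ∃ C B : ℕ, ∀ E : ℕ, ∃ N₀ : ℕ, ∀ N : ℕ, N₀ ≤ N → ∀ z : ℕ,
    Real.log N ^ B ≤ z → (z : ℝ) ≤ Real.log N ^ E → ∀ w : ℕ → ℝ, (∀ m, |w m| ≤ 1) →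
    ∃ Ex : Finset ℕ, (Ex.card : ℝ) ≤ N / Real.log N ^ U ∧
    ∀ n ∈ Icc 1 N, n ∉ Ex → ∀ f : ℤ[X], 1 ≤ f.natDegree → f.natDegree ≤ d →
      (∀ i, |((f.coeff i : ℤ) : ℝ)| ≤ Real.log N ^ T) → ∀ x : ℕ,
      (N : ℝ) ^ (1 / 3 : ℝ) * Real.log N ^ C ≤ (x : ℝ) ^ f.natDegree → (x : ℝ) ^ f.natDegree * Real.log N ^ C ≤ N →
      (∀ m ∈ Icc 1 x, 1 ≤ (n : ℤ) + f.eval (m : ℤ)) ∧
      |∑ m ∈ Icc 1 x, w m * thp ((n : ℤ) + f.eval (m : ℤ)).toNat -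
        ∑ m ∈ Icc 1 x, w m * lamzI z ((n : ℤ) + f.eval (m : ℤ))| ≤ x / Real.log N ^ U :=
  arb_all law' d T U hd

theorem prime_fin (d T U : ℕ) (hd : 1 ≤ d) : ∃ C B : ℕ, ∀ E : ℕ, ∃ N₀ : ℕ, ∀ N : ℕ, N₀ ≤ N → ∀ z : ℕ,
    Real.log N ^ B ≤ z → (z : ℝ) ≤ Real.log N ^ E → ∃ Ex : Finset ℕ, (Ex.card : ℝ) ≤ N / Real.log N ^ U ∧
    ∀ n ∈ Icc 1 N, n ∉ Ex → ∀ f : ℤ[X], 1 ≤ f.natDegree → f.natDegree ≤ d →
      (∀ i, |((f.coeff i : ℤ) : ℝ)| ≤ Real.log N ^ T) →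
      ((∀ p : ℕ, p.Prime → ∃ m : ℤ, ¬ (p : ℤ) ∣ m * ((n : ℤ) + f.eval m)) → 1 / Real.log N ^ (d + 2) ≤ Sg2 f n z) ∧ ∀ x : ℕ,
      (N : ℝ) ^ (1 / 3 : ℝ) * Real.log N ^ C ≤ (x : ℝ) ^ f.natDegree → (x : ℝ) ^ f.natDegree * Real.log N ^ C ≤ N →
      (∀ m ∈ Icc 1 x, 1 ≤ (n : ℤ) + f.eval (m : ℤ)) ∧
      |∑ m ∈ Icc 1 x, thp m * thp ((n : ℤ) + f.eval (m : ℤ)).toNat - x * Sg2 f n z| ≤ x / Real.log N ^ U :=
  prime_all law' d T U hd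

/-- local conditions for admissible quadratics -/
lemma quad_fix (n b c : ℤ) (hn : Odd n) (hbc : Odd (b + c)) (h3 : ¬ (3 : ℤ) ∣ b) (p : ℕ) (hp : p.Prime) :
    ∃ m : ℤ, ¬ (p : ℤ) ∣ m * (n - (m ^ 2 + b * m + c)) := by
  have hpi : Prime (p : ℤ) := Nat.prime_iff_prime_int.1 hp
  by_contra hcon
  push Not at hcon
  have hp0 : (0 : ℤ) < p := by exact_mod_cast hp.pos
  -- differences
  have h1 := hcon 1
  have h2 := hcon (-1)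
  have h4 := hcon 2
  have h5 := hcon (-2)
  -- for p = 2
  by_cases hp2 : p = 2
  · rw [hp2] at h1
    obtain ⟨k, hk⟩ := hn
    obtain ⟨l, hl⟩ := hbc
    obtain ⟨j, hj⟩ := h1
    push_cast at hj
    omega
  by_cases hp3 : p = 3
  · rw [hp3] at h1 h2
    obtain ⟨j, hj⟩ := h1
    obtain ⟨k, hk⟩ := h2
    push_cast at hj hk
    apply h3
    -- j, k: n - 1 - b - c = 3 j ; -(n - 1 + b - c) = 3 k
    refine ⟨j + k + b, ?_⟩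
    linarith
  · -- third difference: m^3 coefficient
    have e1 : (1 : ℤ) * (n - (1 ^ 2 + b * 1 + c)) + (-1) * (n - ((-1) ^ 2 + b * (-1) + c)) = -2 * b := by ring
    have e2 : (2 : ℤ) * (n - (2 ^ 2 + b * 2 + c)) + (-2) * (n - ((-2) ^ 2 + b * (-2) + c)) = -8 * b := by ring
    have e3 : (2 : ℤ) * (n - (2 ^ 2 + b * 2 + c)) - 2 * (1 * (n - (1 ^ 2 + b * 1 + c))) = -6 - 2 * b := by ring
    have d1 : (p : ℤ) ∣ -2 * b := by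
      rw [← e1]
      exact dvd_add h1 h2
    have d2 : (p : ℤ) ∣ -6 - 2 * b := by
      rw [← e3]
      exact dvd_sub h4 (Dvd.dvd.mul_left h1 2)
    have d3 : (p : ℤ) ∣ 6 := by
      have := dvd_sub d1 d2
      ring_nf at this
      exact this
    have d4 : p ∣ 6 := by exact_mod_cast d3
    have d5 : p ∣ 2 * 3 := by exact d4
    rcases (Nat.Prime.dvd_mul hp).1 d5 with h | h
    · exact hp2 ((Nat.prime_dvd_prime_iff_eq hp Nat.prime_two).1 h)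
    · exact hp3 ((Nat.prime_dvd_prime_iff_eq hp Nat.prime_three).1 h)

end Pool.Agent.Run7.h18.MK
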