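import Mathlib
import Pool.Agent.Run7.h18.MK.Arb2

/-! Project MK: systems `a_i + f_i(m)`. Part 1: the mean square over the vectors of constant terms. -/

set_option autoImplicit false

namespace Pool.Agent.Run7.h18.MK

open Finset Filter Polynomial
open Pool.Agent.H373R2.T7 (lamz lamI lamzI Vz Vz_pos Vz_inv_small lamz_nonneg)
open Pool.Agent.R460.SQ (thp ppw vm_split ppw_nn)
open Pool.Agent.Run7.h794.MK

/-- the difference of the primes (without prime powers) and the model on the integers -/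
noncomputable def Dt (z : ℕ) (k : ℤ) : ℝ := thp k.toNat - lamzI z k

lemma Dt_eq (z : ℕ) (k : ℤ) : Dt z k = Dz z k - ppw k.toNat := by
  unfold Dt Dz lamI
  by_cases h : 1 ≤ k
  · rw [if_pos h, vm_split]
    ring
  · rw [if_neg h]
    have h1 : k.toNat = 0 := by omega
    rw [h1]
    unfold thp ppw
    simp

lemma ppw_le {l M : ℕ} (h : l ≤ M) : ppw l ≤ Real.log M := by
  unfold ppw
  split_ifs with hp
  · exact Real.log_natCast_nonneg _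
  · rcases Nat.eq_zero_or_pos l with h0 | h0
    · rw [h0, ArithmeticFunction.map_zero]
      exact Real.log_natCast_nonneg _
    · exact ArithmeticFunction.vonMangoldt_le_log.trans (Real.log_le_log (by exact_mod_cast h0) (by exact_mod_cast h))

/-- the conditions on a polynomial -/
def Adm (N d T C : ℕ) (f : ℤ[X]) (x : ℕ) : Prop := 1 ≤ f.natDegree ∧ f.natDegree ≤ d ∧
  |((f.leadingCoeff : ℤ) : ℝ)| ≤ Real.log N ^ T ∧
  (N : ℝ) ^ (1 / 3 : ℝ) * Real.log N ^ C ≤ (x : ℝ) ^ f.natDegree ∧ (x : ℝ) ^ f.natDegree ≤ N ∧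
  ∀ m ∈ Icc 1 x, |((f.eval (m : ℤ) : ℤ) : ℝ)| * Real.log N ^ C ≤ N

/-- **The mean square with weights, primes only.** -/
theorem ms_wt (hlaw : S_LAW') (d T U : ℕ) : ∃ C B : ℕ, ∀ E : ℕ, ∃ N₀ : ℕ, ∀ N : ℕ, N₀ ≤ N → ∀ z : ℕ,
    Real.log N ^ B ≤ z → (z : ℝ) ≤ Real.log N ^ E → ∀ (f : ℤ[X]) (x : ℕ), Adm N d T C f x →
    ∀ (K : ℝ) (w : ℕ → ℝ), 0 ≤ K → (∀ m ∈ Icc 1 x, |w m| ≤ K) →
    ∑ n ∈ Icc 1 N, (∑ m ∈ Icc 1 x, w m * Dt z ((n : ℤ) + f.eval (m : ℤ))) ^ 2 ≤ K ^ 2 * ((x : ℝ) ^ 2 * (N / Real.log N ^ U)) := by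
  obtain ⟨C, B, h⟩ := ms_w hlaw d T (U + 1)
  refine ⟨C, B, fun E => ?_⟩
  obtain ⟨N₁, h⟩ := h E
  obtain ⟨N₂, hev⟩ := ev (2 * (U + 6)) 8
  refine ⟨N₁ + N₂ + 3, fun N hN z hz1 hz2 f x hadm K w hK hw => ?_⟩
  obtain ⟨hf1, hf2, hlc, hx1, hx2, hv⟩ := hadm
  have h := h N (by omega) z hz1 hz2 f hf1 hf2 hlc x hx1 hx2 hv
  obtain ⟨hLK, hLp⟩ := hev N (by omega)
  have hN2 : 2 ≤ N := by omega
  have hN0 : (0 : ℝ) < N := by exact_mod_cast (by omega : 0 < N)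
  obtain ⟨L, hL⟩ : ∃ L, L = Real.log (N : ℝ) := ⟨_, rfl⟩
  rw [← hL] at h hLK hLp hv ⊢
  have hL1 : 1 ≤ L := by linarith
  have hL0 : 0 < L := by linarith
  -- scaling
  suffices hone : ∀ w : ℕ → ℝ, (∀ m ∈ Icc 1 x, |w m| ≤ 1) →
      ∑ n ∈ Icc 1 N, (∑ m ∈ Icc 1 x, w m * Dt z ((n : ℤ) + f.eval (m : ℤ))) ^ 2 ≤ (x : ℝ) ^ 2 * (N / L ^ U) by
    rcases hK.eq_or_lt with h0 | h0
    · have e1 : ∀ n ∈ Icc 1 N, (∑ m ∈ Icc 1 x, w m * Dt z ((n : ℤ) + f.eval (m : ℤ))) ^ 2 = 0 := by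
        intro n _
        rw [sum_eq_zero, sq, mul_zero]
        intro m hm
        have := hw m hm
        rw [← h0, abs_nonpos_iff] at this
        rw [this, zero_mul]
      rw [sum_congr rfl e1, sum_const_zero]
      positivity
    · have h1 := hone (fun m => w m / K) (fun m hm => by
        rw [abs_div, abs_of_pos h0, div_le_one h0]
        exact hw m hm)
      have e1 : ∀ n ∈ Icc 1 N, (∑ m ∈ Icc 1 x, w m * Dt z ((n : ℤ) + f.eval (m : ℤ))) ^ 2 =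
          K ^ 2 * (∑ m ∈ Icc 1 x, w m / K * Dt z ((n : ℤ) + f.eval (m : ℤ))) ^ 2 := by
        intro n _
        rw [← mul_pow, mul_sum]
        congr 1
        refine sum_congr rfl fun m _ => ?_
        field_simp
      rw [sum_congr rfl e1, ← mul_sum]
      exact mul_le_mul_of_nonneg_left h1 (by positivity)
  intro w hw
  have hle : ∀ n ∈ Icc 1 N, ∀ m ∈ Icc 1 x, |f.eval (m : ℤ)| ≤ N ∧ ((n : ℤ) + f.eval (m : ℤ)).toNat ≤ 2 * N := by
    intro n hn m hm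
    rw [mem_Icc] at hn
    have h7 : |((f.eval (m : ℤ) : ℤ) : ℝ)| ≤ N :=
      (le_mul_of_one_le_right (abs_nonneg _) (one_le_pow₀ hL1)).trans (hv m hm)
    rw [← Int.cast_abs] at h7
    have h8 : |f.eval (m : ℤ)| ≤ N := by exact_mod_cast h7
    refine ⟨h8, ?_⟩
    have h9 := (abs_le.1 h8).2
    omega
  have h2L : Real.log ((2 * N : ℕ) : ℝ) ≤ 2 * L := by
    rw [hL]
    exact log_two_N N hN2
  have hsplit : ∀ n ∈ Icc 1 N, (∑ m ∈ Icc 1 x, w m * Dt z ((n : ℤ) + f.eval (m : ℤ))) ^ 2 ≤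
      2 * (∑ m ∈ Icc 1 x, w m * Dz z ((n : ℤ) + f.eval (m : ℤ))) ^ 2 +
        2 * ((x * (2 * L)) * ∑ m ∈ Icc 1 x, ppw ((n : ℤ) + f.eval (m : ℤ)).toNat) := by
    intro n hn
    have e1 : ∑ m ∈ Icc 1 x, w m * Dt z ((n : ℤ) + f.eval (m : ℤ)) = ∑ m ∈ Icc 1 x, w m * Dz z ((n : ℤ) + f.eval (m : ℤ)) -
        ∑ m ∈ Icc 1 x, w m * ppw ((n : ℤ) + f.eval (m : ℤ)).toNat := by
      rw [← sum_sub_distrib]
      refine sum_congr rfl fun m _ => ?_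
      rw [Dt_eq]
      ring
    rw [e1]
    have hp0 : 0 ≤ ∑ m ∈ Icc 1 x, ppw ((n : ℤ) + f.eval (m : ℤ)).toNat := sum_nonneg fun _ _ => ppw_nn _
    have h1 : |∑ m ∈ Icc 1 x, w m * ppw ((n : ℤ) + f.eval (m : ℤ)).toNat| ≤ ∑ m ∈ Icc 1 x, ppw ((n : ℤ) + f.eval (m : ℤ)).toNat := by
      refine (abs_sum_le_sum_abs _ _).trans (sum_le_sum fun m hm => ?_)
      rw [abs_mul, abs_of_nonneg (ppw_nn _)]
      exact mul_le_of_le_one_left (ppw_nn _) (hw m hm)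
    have h2 : ∑ m ∈ Icc 1 x, ppw ((n : ℤ) + f.eval (m : ℤ)).toNat ≤ x * (2 * L) := by
      calc ∑ m ∈ Icc 1 x, ppw ((n : ℤ) + f.eval (m : ℤ)).toNat ≤ ∑ _m ∈ Icc 1 x, 2 * L :=
            sum_le_sum fun m hm => (ppw_le (hle n hn m hm).2).trans h2L
        _ = _ := by rw [sum_const, Nat.card_Icc, nsmul_eq_mul, Nat.add_sub_cancel]
    have h3 : (∑ m ∈ Icc 1 x, w m * ppw ((n : ℤ) + f.eval (m : ℤ)).toNat) ^ 2 ≤
        (x * (2 * L)) * ∑ m ∈ Icc 1 x, ppw ((n : ℤ) + f.eval (m : ℤ)).toNat := by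
      rw [← sq_abs, sq]
      exact mul_le_mul (h1.trans h2) h1 (abs_nonneg _) (by positivity)
    nlinarith [sq_nonneg (∑ m ∈ Icc 1 x, w m * Dz z ((n : ℤ) + f.eval (m : ℤ)) +
      ∑ m ∈ Icc 1 x, w m * ppw ((n : ℤ) + f.eval (m : ℤ)).toNat)]
  refine (sum_le_sum hsplit).trans ?_
  rw [sum_add_distrib, ← mul_sum, ← mul_sum, ← mul_sum]
  have hA := h w hw
  have hB := ppw_sum N x (by omega) (fun m => f.eval (m : ℤ)) (fun m hm => (hle 1 (mem_Icc.2 ⟨le_rfl, by omega⟩) m hm).1)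
  have e3 : Real.sqrt ((2 * N : ℕ) : ℝ) ≤ 2 * Real.sqrt N := by
    rw [show (2 : ℝ) * Real.sqrt N = Real.sqrt (4 * N) by
      rw [Real.sqrt_mul (by norm_num), show (4 : ℝ) = 2 ^ 2 by norm_num, Real.sqrt_sq (by norm_num)]]
    apply Real.sqrt_le_sqrt
    push_cast
    linarith
  have e4 : L ^ (U + 6) ≤ Real.sqrt N := by
    apply Real.le_sqrt_of_sq_le
    rw [← pow_mul, mul_comm]
    exact hLp
  have e5 : Real.sqrt N * Real.sqrt N = N := Real.mul_self_sqrt hN0.le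
  have e6 : 0 ≤ Real.log ((2 * N : ℕ) : ℝ) := Real.log_natCast_nonneg _
  have hB2 : 2 * ((x * (2 * L)) * ∑ n ∈ Icc 1 N, ∑ m ∈ Icc 1 x, ppw ((n : ℤ) + f.eval (m : ℤ)).toNat) ≤
      (x : ℝ) ^ 2 * (N / L ^ (U + 1)) := by
    calc 2 * ((x * (2 * L)) * ∑ n ∈ Icc 1 N, ∑ m ∈ Icc 1 x, ppw ((n : ℤ) + f.eval (m : ℤ)).toNat) ≤
        2 * ((x * (2 * L)) * (x * (2 * Real.sqrt ((2 * N : ℕ) : ℝ) * Real.log ((2 * N : ℕ) : ℝ)))) := by gcongr
      _ ≤ 2 * ((x * (2 * L)) * (x * (2 * (2 * Real.sqrt N) * (2 * L)))) := by gcongr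
      _ = (x : ℝ) ^ 2 * ((32 * L ^ 2) * Real.sqrt N) := by ring
      _ ≤ (x : ℝ) ^ 2 * (N / L ^ (U + 1)) := by
        apply mul_le_mul_of_nonneg_left _ (by positivity)
        rw [le_div_iff₀ (by positivity)]
        calc 32 * L ^ 2 * Real.sqrt N * L ^ (U + 1) = Real.sqrt N * (32 * L ^ (U + 3)) := by ring
          _ ≤ Real.sqrt N * L ^ (U + 6) := by
            apply mul_le_mul_of_nonneg_left _ (Real.sqrt_nonneg _)
            rw [pow_add L (U + 3) 3, mul_comm]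
            apply mul_le_mul_of_nonneg_left _ (by positivity)
            have : 8 * 8 ≤ L * L := mul_le_mul hLK hLK (by norm_num) hL0.le
            nlinarith
          _ ≤ Real.sqrt N * Real.sqrt N := mul_le_mul_of_nonneg_left e4 (Real.sqrt_nonneg _)
          _ = N := e5
  have e7 : 3 * ((N : ℝ) / L ^ (U + 1)) ≤ N / L ^ U := by
    have e8 : (N : ℝ) / L ^ U = L * (N / L ^ (U + 1)) := by
      rw [pow_succ]
      field_simp
    rw [e8]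
    apply mul_le_mul_of_nonneg_right _ (by positivity)
    linarith
  calc _ ≤ 2 * ((x : ℝ) ^ 2 * (N / L ^ (U + 1))) + (x : ℝ) ^ 2 * (N / L ^ (U + 1)) := by linarith
    _ = (x : ℝ) ^ 2 * (3 * (N / L ^ (U + 1))) := by ring
    _ ≤ _ := mul_le_mul_of_nonneg_left e7 (by positivity)

/-- sums over the vectors -/
lemma sum_pi_succ {k : ℕ} (S : Finset ℕ) (g : (Fin (k + 1) → ℕ) → ℝ) :
    ∑ a ∈ Fintype.piFinset (fun _ : Fin (k + 1) => S), g a =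
      ∑ b ∈ S, ∑ a ∈ Fintype.piFinset (fun _ : Fin k => S), g (Fin.cons b a) := by
  classical
  rw [← sum_product']
  symm
  refine sum_bij' (fun p _ => (Fin.cons p.1 p.2 : Fin (k + 1) → ℕ)) (fun a _ => (a 0, Fin.tail a)) ?_ ?_ ?_ ?_ ?_
  · rintro ⟨b, a⟩ h
    rw [mem_product, Fintype.mem_piFinset] at h
    rw [Fintype.mem_piFinset]
    intro i
    refine Fin.cases ?_ (fun j => ?_) i
    · exact h.1
    · exact h.2 j
  · intro a h
    rw [Fintype.mem_piFinset] at h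
    rw [mem_product, Fintype.mem_piFinset]
    exact ⟨h 0, fun i => h i.succ⟩
  · rintro ⟨b, a⟩ _
    simp
  · intro a _
    exact Fin.cons_self_tail a
  · rintro ⟨b, a⟩ _
    rfl

/-- **The mean square over the vectors of constant terms.** -/
theorem ms_sys (z N x U : ℕ) (L : ℝ) (hL : 1 ≤ L) (P : ℤ[X] → Prop)
    (hms : ∀ f : ℤ[X], P f → ∀ (K : ℝ) (w : ℕ → ℝ), 0 ≤ K → (∀ m ∈ Icc 1 x, |w m| ≤ K) →
      ∑ n ∈ Icc 1 N, (∑ m ∈ Icc 1 x, w m * Dt z ((n : ℤ) + f.eval (m : ℤ))) ^ 2 ≤ K ^ 2 * ((x : ℝ) ^ 2 * (N / L ^ U)))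
    (ht : ∀ f : ℤ[X], P f → ∀ n ∈ Icc 1 N, ∀ m ∈ Icc 1 x, thp ((n : ℤ) + f.eval (m : ℤ)).toNat ≤ 2 * L ∧
      lamzI z ((n : ℤ) + f.eval (m : ℤ)) ≤ 2 * L)
    (k : ℕ) : ∀ (F : Fin k → ℤ[X]), (∀ i, P (F i)) → ∀ (K : ℝ) (w : ℕ → ℝ), 0 ≤ K → (∀ m ∈ Icc 1 x, |w m| ≤ K) →
      ∑ a ∈ Fintype.piFinset (fun _ : Fin k => Icc 1 N),
        (∑ m ∈ Icc 1 x, w m * (∏ i, thp ((a i : ℤ) + (F i).eval (m : ℤ)).toNat - ∏ i, lamzI z ((a i : ℤ) + (F i).eval (m : ℤ)))) ^ 2 ≤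
      K ^ 2 * (4 * L) ^ (2 * k) * ((x : ℝ) ^ 2 * ((N : ℝ) ^ k / L ^ U)) := by
  have hnn : ∀ y : ℤ, 0 ≤ lamzI z y := by
    intro y
    unfold lamzI
    split_ifs
    · exact lamz_nonneg z _
    · exact le_rfl
  induction k with
  | zero =>
    intro F _ K w hK _
    have e1 : ∀ a ∈ Fintype.piFinset (fun _ : Fin 0 => Icc 1 N),
        (∑ m ∈ Icc 1 x, w m * (∏ i, thp ((a i : ℤ) + (F i).eval (m : ℤ)).toNat - ∏ i, lamzI z ((a i : ℤ) + (F i).eval (m : ℤ)))) ^ 2 = 0 := by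
      intro a _
      simp
    rw [sum_congr rfl e1, sum_const_zero]
    positivity
  | succ k ih =>
    intro F hF K w hK hw
    rw [sum_pi_succ]
    obtain ⟨R, hR⟩ : ∃ R : ℝ, R = (x : ℝ) ^ 2 * (N / L ^ U) := ⟨_, rfl⟩
    have hR0 : 0 ≤ R := by rw [hR]; positivity
    -- the two parts
    obtain ⟨A, hA⟩ : ∃ A : ℕ → (Fin k → ℕ) → ℝ, A = fun (b : ℕ) (a : Fin k → ℕ) => ∑ m ∈ Icc 1 x,
      (w m * ∏ i : Fin k, thp ((a i : ℤ) + (F i.succ).eval (m : ℤ)).toNat) * Dt z ((b : ℤ) + (F 0).eval (m : ℤ)) := ⟨_, rfl⟩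
    obtain ⟨Bb, hBb⟩ : ∃ Bb : ℕ → (Fin k → ℕ) → ℝ, Bb = fun (b : ℕ) (a : Fin k → ℕ) => ∑ m ∈ Icc 1 x,
      (w m * lamzI z ((b : ℤ) + (F 0).eval (m : ℤ))) * (∏ i : Fin k, thp ((a i : ℤ) + (F i.succ).eval (m : ℤ)).toNat -
        ∏ i : Fin k, lamzI z ((a i : ℤ) + (F i.succ).eval (m : ℤ))) := ⟨_, rfl⟩
    have hsp : ∀ b ∈ Icc 1 N, ∀ a ∈ Fintype.piFinset (fun _ : Fin k => Icc 1 N),
        (∑ m ∈ Icc 1 x, w m * (∏ i, thp ((((Fin.cons b a : Fin (k + 1) → ℕ) i : ℕ) : ℤ) + (F i).eval (m : ℤ)).toNat -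
          ∏ i, lamzI z ((((Fin.cons b a : Fin (k + 1) → ℕ) i : ℕ) : ℤ) + (F i).eval (m : ℤ)))) ^ 2 ≤
        2 * A b a ^ 2 + 2 * Bb b a ^ 2 := by
      intro b _ a _
      have e1 : ∑ m ∈ Icc 1 x, w m * (∏ i, thp ((((Fin.cons b a : Fin (k + 1) → ℕ) i : ℕ) : ℤ) + (F i).eval (m : ℤ)).toNat -
          ∏ i, lamzI z ((((Fin.cons b a : Fin (k + 1) → ℕ) i : ℕ) : ℤ) + (F i).eval (m : ℤ))) = A b a + Bb b a := by
        rw [hA, hBb]
        simp only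
        rw [← sum_add_distrib]
        refine sum_congr rfl fun m _ => ?_
        rw [Fin.prod_univ_succ, Fin.prod_univ_succ]
        simp only [Fin.cons_zero, Fin.cons_succ]
        unfold Dt
        ring
      rw [e1]
      nlinarith [sq_nonneg (A b a - Bb b a)]
    refine (sum_le_sum fun b hb => sum_le_sum fun a ha => hsp b hb a ha).trans ?_
    have e2 : ∑ b ∈ Icc 1 N, ∑ a ∈ Fintype.piFinset (fun _ : Fin k => Icc 1 N), (2 * A b a ^ 2 + 2 * Bb b a ^ 2) =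
        2 * ∑ a ∈ Fintype.piFinset (fun _ : Fin k => Icc 1 N), ∑ b ∈ Icc 1 N, A b a ^ 2 +
        2 * ∑ b ∈ Icc 1 N, ∑ a ∈ Fintype.piFinset (fun _ : Fin k => Icc 1 N), Bb b a ^ 2 := by
      simp only [sum_add_distrib, ← mul_sum]
      rw [sum_comm]
    rw [e2]
    have hcard : ((Fintype.piFinset (fun _ : Fin k => Icc 1 N)).card : ℝ) = (N : ℝ) ^ k := by
      rw [Fintype.card_piFinset, prod_const, card_univ, Fintype.card_fin, Nat.card_Icc, Nat.add_sub_cancel, Nat.cast_pow]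
    have h1 : ∑ a ∈ Fintype.piFinset (fun _ : Fin k => Icc 1 N), ∑ b ∈ Icc 1 N, A b a ^ 2 ≤
        (N : ℝ) ^ k * ((K * (2 * L) ^ k) ^ 2 * R) := by
      calc ∑ a ∈ Fintype.piFinset (fun _ : Fin k => Icc 1 N), ∑ b ∈ Icc 1 N, A b a ^ 2 ≤
          ∑ _a ∈ Fintype.piFinset (fun _ : Fin k => Icc 1 N), (K * (2 * L) ^ k) ^ 2 * R := by
            refine sum_le_sum fun a ha => ?_
            rw [hA, hR]
            simp only
            apply hms (F 0) (hF 0) (K * (2 * L) ^ k) _ (by positivity)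
            intro m hm
            rw [Fintype.mem_piFinset] at ha
            rw [abs_mul]
            apply mul_le_mul (hw m hm) _ (abs_nonneg _) hK
            rw [abs_of_nonneg (prod_nonneg fun _ _ => thp_nonneg _)]
            calc ∏ i : Fin k, thp ((a i : ℤ) + (F i.succ).eval (m : ℤ)).toNat ≤ ∏ _i : Fin k, (2 * L) :=
                  prod_le_prod (fun _ _ => thp_nonneg _) fun i _ => (ht (F i.succ) (hF _) (a i) (ha i) m hm).1
              _ = _ := by rw [prod_const, card_univ, Fintype.card_fin]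
        _ = _ := by rw [sum_const, nsmul_eq_mul, hcard]
    have h2 : ∑ b ∈ Icc 1 N, ∑ a ∈ Fintype.piFinset (fun _ : Fin k => Icc 1 N), Bb b a ^ 2 ≤
        N * ((K * (2 * L)) ^ 2 * (4 * L) ^ (2 * k) * ((x : ℝ) ^ 2 * ((N : ℝ) ^ k / L ^ U))) := by
      calc ∑ b ∈ Icc 1 N, ∑ a ∈ Fintype.piFinset (fun _ : Fin k => Icc 1 N), Bb b a ^ 2 ≤
          ∑ _b ∈ Icc 1 N, (K * (2 * L)) ^ 2 * (4 * L) ^ (2 * k) * ((x : ℝ) ^ 2 * ((N : ℝ) ^ k / L ^ U)) := by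
            refine sum_le_sum fun b hb => ?_
            rw [hBb]
            simp only
            apply ih (fun i => F i.succ) (fun i => hF _) (K * (2 * L)) _ (by positivity)
            intro m hm
            rw [abs_mul, abs_of_nonneg (hnn _)]
            exact mul_le_mul (hw m hm) (ht (F 0) (hF 0) b hb m hm).2 (hnn _) hK
        _ = _ := by rw [sum_const, Nat.card_Icc, nsmul_eq_mul, Nat.add_sub_cancel]
    have hX : (x : ℝ) ^ 2 * ((N : ℝ) ^ (k + 1) / L ^ U) = (N : ℝ) ^ k * R := by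
      rw [hR, pow_succ]
      ring
    have hY : (N : ℝ) * ((K * (2 * L)) ^ 2 * (4 * L) ^ (2 * k) * ((x : ℝ) ^ 2 * ((N : ℝ) ^ k / L ^ U))) =
        K ^ 2 * (4 * L ^ 2 * (4 * L) ^ (2 * k)) * ((N : ℝ) ^ k * R) := by
      rw [hR]
      ring
    rw [hX]
    rw [hY] at h2
    have hZ : (N : ℝ) ^ k * ((K * (2 * L) ^ k) ^ 2 * R) = K ^ 2 * ((2 * L) ^ k) ^ 2 * ((N : ℝ) ^ k * R) := by ring
    rw [hZ] at h1
    have hNR : 0 ≤ (N : ℝ) ^ k * R := by positivity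
    have hfin : 2 * ((2 * L) ^ k) ^ 2 + 2 * (4 * L ^ 2 * (4 * L) ^ (2 * k)) ≤ (4 * L) ^ (2 * (k + 1)) := by
      have g1 : ((2 * L) ^ k) ^ 2 ≤ (4 * L) ^ (2 * k) := by
        rw [← pow_mul, mul_comm k 2]
        exact pow_le_pow_left₀ (by positivity) (by linarith) _
      have g2 : (4 * L) ^ (2 * (k + 1)) = (4 * L) ^ (2 * k) * (16 * L ^ 2) := by
        rw [mul_add, pow_add]
        ring
      rw [g2]
      have g3 : 0 ≤ (4 * L) ^ (2 * k) := by positivity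
      have g4 : 1 ≤ L ^ 2 := one_le_pow₀ hL
      nlinarith
    calc _ ≤ 2 * (K ^ 2 * ((2 * L) ^ k) ^ 2 * ((N : ℝ) ^ k * R)) + 2 * (K ^ 2 * (4 * L ^ 2 * (4 * L) ^ (2 * k)) * ((N : ℝ) ^ k * R)) := by
          linarith
      _ = K ^ 2 * (2 * ((2 * L) ^ k) ^ 2 + 2 * (4 * L ^ 2 * (4 * L) ^ (2 * k))) * ((N : ℝ) ^ k * R) := by ring
      _ ≤ _ := by
          apply mul_le_mul_of_nonneg_right _ hNR
          exact mul_le_mul_of_nonneg_left hfin (by positivity)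

end Pool.Agent.Run7.h18.MK
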