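import Mathlib
import Pool.Agent.Run7.h18.MK.Sys1

/-! Project MK: systems `a_i + f_i(m)`. Part 2: all systems of polynomials and all lengths at once. -/

set_option autoImplicit false

namespace Pool.Agent.Run7.h18.MK

open Finset Filter Polynomial
open Pool.Agent.H373R2.T7 (lamz lamI lamzI Vz Vz_pos Vz_inv_small lamz_nonneg)
open Pool.Agent.R460.SQ (thp ppw vm_split ppw_nn)
open Pool.Agent.Run7.h794.MK

lemma union_bd' {ι β : Type} [DecidableEq β] (S : Finset ι) (t : ι → Finset β) (M : ℝ) (h : ∀ i ∈ S, ((t i).card : ℝ) ≤ M) :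
    ((S.biUnion t).card : ℝ) ≤ S.card * M := by
  calc ((S.biUnion t).card : ℝ) ≤ ((∑ i ∈ S, (t i).card : ℕ) : ℝ) := by exact_mod_cast card_biUnion_le
    _ = ∑ i ∈ S, ((t i).card : ℝ) := by push_cast; rfl
    _ ≤ ∑ _i ∈ S, M := sum_le_sum h
    _ = _ := by rw [sum_const, nsmul_eq_mul]

lemma small_coord (k N y : ℕ) (i : Fin k) :
    (((Fintype.piFinset (fun _ : Fin k => Icc 1 N)).filter (fun a => a i ≤ y)).card : ℝ) ≤ y * (N : ℝ) ^ (k - 1) := by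
  classical
  have h1 : (Fintype.piFinset (fun _ : Fin k => Icc 1 N)).filter (fun a => a i ≤ y) ⊆
      Fintype.piFinset (fun j : Fin k => if j = i then Icc 1 y else Icc 1 N) := by
    intro a ha
    rw [mem_filter, Fintype.mem_piFinset] at ha
    rw [Fintype.mem_piFinset]
    intro j
    have h2 := ha.1 j
    rw [mem_Icc] at h2
    split_ifs with h
    · rw [mem_Icc]
      refine ⟨h2.1, ?_⟩
      rw [h]
      exact ha.2
    · rw [mem_Icc]
      exact h2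
  have h2 := card_le_card h1
  rw [Fintype.card_piFinset] at h2
  have h3 : ∏ j : Fin k, (if j = i then Icc 1 y else Icc 1 N).card = y * N ^ (k - 1) := by
    rw [← mul_prod_erase univ _ (mem_univ i), if_pos rfl, Nat.card_Icc, Nat.add_sub_cancel]
    congr 1
    have h4 : ∀ j ∈ univ.erase i, (if j = i then Icc 1 y else Icc 1 N).card = N := by
      intro j hj
      rw [if_neg (ne_of_mem_erase hj), Nat.card_Icc, Nat.add_sub_cancel]
    rw [prod_congr rfl h4, prod_const, card_erase_of_mem (mem_univ i), card_univ, Fintype.card_fin]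
  rw [h3] at h2
  exact_mod_cast h2

/-- the deterministic part -/
lemma fin_sys (x x' k U : ℕ) (w u v : ℕ → ℝ) (L : ℝ) (hL6 : 6 ≤ L) (hLk : (2 : ℝ) ^ k ≤ L) (hw : ∀ m, |w m| ≤ 1)
    (hu : ∀ m ∈ Icc 1 x, 0 ≤ u m ∧ u m ≤ (2 * L) ^ k) (hv : ∀ m ∈ Icc 1 x, 0 ≤ v m ∧ v m ≤ (2 * L) ^ k)
    (hx : x' ≤ x) (hx2 : ((x : ℝ) - x') * L ^ (U + k + 4) ≤ x)
    (h1 : |∑ m ∈ Icc 1 x', w m * (u m - v m)| ≤ x' / L ^ (U + 2)) :
    |∑ m ∈ Icc 1 x, w m * u m - ∑ m ∈ Icc 1 x, w m * v m| ≤ x / L ^ U := by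
  classical
  have hL0 : 0 < L := by linarith
  have hsub : Icc 1 x' ⊆ Icc 1 x := Icc_subset_Icc le_rfl hx
  have hxr : (x' : ℝ) ≤ x := by exact_mod_cast hx
  have e7 : ∑ m ∈ Icc 1 x, w m * u m - ∑ m ∈ Icc 1 x, w m * v m =
      ∑ m ∈ Icc 1 x', w m * (u m - v m) + ∑ m ∈ Icc 1 x \ Icc 1 x', w m * (u m - v m) := by
    rw [← sum_sub_distrib, ← sum_sdiff hsub, add_comm]
    congr 1 <;> exact sum_congr rfl fun m _ => by ring
  have e9 : |∑ m ∈ Icc 1 x \ Icc 1 x', w m * (u m - v m)| ≤ ((x : ℝ) - x') * (2 * L) ^ k := by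
    refine (abs_sum_le_sum_abs _ _).trans ?_
    calc ∑ m ∈ Icc 1 x \ Icc 1 x', |w m * (u m - v m)| ≤ ∑ _m ∈ Icc 1 x \ Icc 1 x', (2 * L) ^ k := by
          refine sum_le_sum fun m hm => ?_
          have h5 := hu m (Finset.mem_sdiff.1 hm).1
          have h6 := hv m (Finset.mem_sdiff.1 hm).1
          rw [abs_mul]
          have h10 : |u m - v m| ≤ (2 * L) ^ k := by
            rw [abs_le]
            constructor <;> linarith
          calc |w m| * |u m - v m| ≤ 1 * (2 * L) ^ k := mul_le_mul (hw m) h10 (abs_nonneg _) zero_le_one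
            _ = _ := one_mul _
      _ = _ := by
          rw [sum_const, nsmul_eq_mul, card_sdiff_of_subset hsub, Nat.card_Icc, Nat.card_Icc, Nat.add_sub_cancel,
            Nat.add_sub_cancel, Nat.cast_sub hx]
  have e10 : ((x : ℝ) - x') * (2 * L) ^ k ≤ x / L ^ (U + 2) := by
    rw [le_div_iff₀ (by positivity)]
    have h3 : (2 * L) ^ k * L ^ (U + 2) ≤ L ^ (U + k + 4) := by
      calc (2 * L) ^ k * L ^ (U + 2) = 2 ^ k * (L ^ k * L ^ (U + 2)) := by rw [mul_pow]; ring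
        _ ≤ L * (L ^ k * L ^ (U + 2)) := mul_le_mul_of_nonneg_right hLk (by positivity)
        _ = L ^ (U + k + 3) := by ring
        _ ≤ _ := pow_le_pow_right₀ (by linarith) (by omega)
    calc ((x : ℝ) - x') * (2 * L) ^ k * L ^ (U + 2) = ((x : ℝ) - x') * ((2 * L) ^ k * L ^ (U + 2)) := by ring
      _ ≤ ((x : ℝ) - x') * L ^ (U + k + 4) := mul_le_mul_of_nonneg_left h3 (by linarith)
      _ ≤ _ := hx2
  have e14 : (x' : ℝ) / L ^ (U + 2) ≤ x / L ^ (U + 2) := by gcongr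
  have e15 : 2 * ((x : ℝ) / L ^ (U + 2)) ≤ x / L ^ U := by
    rw [← mul_div_assoc, div_le_div_iff₀ (by positivity) (by positivity), pow_add]
    have a2 : 2 ≤ L ^ 2 := by nlinarith
    calc 2 * (x : ℝ) * L ^ U = (x * L ^ U) * 2 := by ring
      _ ≤ (x * L ^ U) * L ^ 2 := mul_le_mul_of_nonneg_left a2 (by positivity)
      _ = _ := by ring
  rw [e7]
  refine (abs_add_le _ _).trans ?_
  linarith

/-- **All systems of polynomials and all lengths at once, arbitrary weights.** -/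
theorem sys_w (hlaw : S_LAW') (k d T U : ℕ) (hk : 1 ≤ k) : ∃ C B : ℕ, ∀ E : ℕ, ∃ N₀ : ℕ, ∀ N : ℕ, N₀ ≤ N → ∀ z : ℕ,
    Real.log N ^ B ≤ z → (z : ℝ) ≤ Real.log N ^ E → ∀ w : ℕ → ℝ, (∀ m, |w m| ≤ 1) →
    ∃ Ex : Finset (Fin k → ℕ), (Ex.card : ℝ) ≤ (N : ℝ) ^ k / Real.log N ^ U ∧
    ∀ a ∈ Fintype.piFinset (fun _ : Fin k => Icc 1 N), a ∉ Ex → ∀ F : Fin k → ℤ[X],
      (∀ i, 1 ≤ (F i).natDegree ∧ (F i).natDegree ≤ d ∧ ∀ j, |(((F i).coeff j : ℤ) : ℝ)| ≤ Real.log N ^ T) → ∀ x : ℕ,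
      (∀ i, (N : ℝ) ^ (1 / 3 : ℝ) * Real.log N ^ C ≤ (x : ℝ) ^ (F i).natDegree ∧ (x : ℝ) ^ (F i).natDegree * Real.log N ^ C ≤ N) →
      (∀ i, ∀ m ∈ Icc 1 x, 1 ≤ (a i : ℤ) + (F i).eval (m : ℤ)) ∧
      |∑ m ∈ Icc 1 x, w m * ∏ i, thp ((a i : ℤ) + (F i).eval (m : ℤ)).toNat -
        ∑ m ∈ Icc 1 x, w m * ∏ i, lamzI z ((a i : ℤ) + (F i).eval (m : ℤ))| ≤ x / Real.log N ^ U := by
  classical
  obtain ⟨W, hW⟩ : ∃ W, W = (T + 1) * (d + 1) * k + (U + k + 7) := ⟨_, rfl⟩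
  obtain ⟨U1, hU1⟩ : ∃ U1, U1 = 4 * k + W + 2 * (U + 2) + (U + 2) := ⟨_, rfl⟩
  obtain ⟨C1, B, hms⟩ := ms_wt hlaw d T U1
  obtain ⟨C, hC⟩ : ∃ C, C = C1 + T + U + 6 := ⟨_, rfl⟩
  refine ⟨C, B, fun E => ?_⟩
  obtain ⟨N₁, hms⟩ := hms E
  obtain ⟨N₂, hVz⟩ := Vz_inv_small E
  obtain ⟨N₃, hev⟩ := ev (3 * ((U + k + 5) * d)) (9 + d + 2 ^ d + 2 ^ k + k)
  refine ⟨N₁ + N₂ + N₃ + 3, fun N hN z hz1 hz2 w hw => ?_⟩
  have hms := hms N (by omega) z hz1 hz2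
  obtain ⟨hLK, hLp⟩ := hev N (by omega)
  have hN2 : 2 ≤ N := by omega
  have hN0 : (0 : ℝ) < N := by exact_mod_cast (by omega : 0 < N)
  have hVz := hVz N (by omega)
  obtain ⟨L, hL⟩ : ∃ L, L = Real.log (N : ℝ) := ⟨_, rfl⟩
  rw [← hL] at hms hLK hLp hz1 hz2 hVz ⊢
  have hd0 : (0 : ℝ) ≤ d := Nat.cast_nonneg _
  have hk0 : (0 : ℝ) ≤ k := Nat.cast_nonneg _
  have q1 : (0 : ℝ) ≤ (2 : ℝ) ^ d := by positivity
  have q2 : (0 : ℝ) ≤ (2 : ℝ) ^ k := by positivity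
  have hL6 : 6 ≤ L := by linarith
  have hL1 : 1 ≤ L := by linarith
  have hL0 : 0 < L := by linarith
  have hLd : (d : ℝ) + 1 ≤ L := by linarith
  have hLk1 : (k : ℝ) + 1 ≤ L := by linarith
  have hL2d : (2 : ℝ) ^ d ≤ L := by linarith
  have hL2k : (2 : ℝ) ^ k ≤ L := by linarith
  have hz : 1 ≤ z := by
    have h1 : (1 : ℝ) ≤ z := (one_le_pow₀ hL1).trans hz1
    exact_mod_cast h1
  have hVz := hVz z hz hz2
  have hT1 : (1 : ℝ) ≤ L ^ T := one_le_pow₀ hL1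
  have h2L : Real.log ((2 * N : ℕ) : ℝ) ≤ 2 * L := by
    rw [hL]
    exact log_two_N N hN2
  -- the grid
  obtain ⟨K, hKd⟩ : ∃ K : ℕ, K = ⌈L ^ (U + k + 4)⌉₊ := ⟨_, rfl⟩
  have hK1 : L ^ (U + k + 4) ≤ K := by rw [hKd]; exact Nat.le_ceil _
  have hK2 : (K : ℝ) ≤ L ^ (U + k + 4) + 1 := by rw [hKd]; exact (Nat.ceil_lt_add_one (by positivity)).le
  have hKtwo : 2 ≤ K := by
    have h1 : L ≤ L ^ (U + k + 4) := le_self_pow₀ hL1 (by omega)
    have : (2 : ℝ) ≤ K := by linarith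
    exact_mod_cast this
  obtain ⟨G, hGd⟩ : ∃ G : Finset ℕ, G = ((Icc K (2 * K)) ×ˢ range (Nat.log 2 N + 1)).image (fun ab : ℕ × ℕ => ab.1 * 2 ^ ab.2) :=
    ⟨_, rfl⟩
  have hGc : (G.card : ℝ) ≤ L ^ (U + k + 7) := by rw [hGd]; exact grid_card N K (U + k) L hL hL6 (by omega) hK2
  obtain ⟨P, hPc, hP⟩ := polys d (L ^ T) hT1
  have hPc2 : (P.card : ℝ) ≤ L ^ ((T + 1) * (d + 1)) := by
    refine hPc.trans ?_
    rw [pow_mul]
    apply pow_le_pow_left₀ (by positivity)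
    rw [pow_succ, mul_comm]
    exact mul_le_mul_of_nonneg_left (by linarith) (by positivity)
  obtain ⟨Q, hQ⟩ : ∃ Q : Finset ((Fin k → ℤ[X]) × ℕ), Q = ((Fintype.piFinset (fun _ : Fin k => P)) ×ˢ G).filter (fun fx =>
    ∀ i, (1 ≤ (fx.1 i).natDegree ∧ (fx.1 i).natDegree ≤ d ∧ (∀ j, |(((fx.1 i).coeff j : ℤ) : ℝ)| ≤ L ^ T)) ∧
      (N : ℝ) ^ (1 / 3 : ℝ) * L ^ C1 ≤ (fx.2 : ℝ) ^ (fx.1 i).natDegree ∧
      (fx.2 : ℝ) ^ (fx.1 i).natDegree * L ^ (C1 + T + 1) ≤ N) := ⟨_, rfl⟩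
  have hQc : (Q.card : ℝ) ≤ L ^ W := by
    have h1 : Q.card ≤ P.card ^ k * G.card := by
      rw [hQ]
      refine (card_filter_le _ _).trans ?_
      rw [card_product, Fintype.card_piFinset, prod_const, card_univ, Fintype.card_fin]
    calc (Q.card : ℝ) ≤ (P.card : ℝ) ^ k * G.card := by exact_mod_cast h1
      _ ≤ (L ^ ((T + 1) * (d + 1))) ^ k * L ^ (U + k + 7) :=
          mul_le_mul (pow_le_pow_left₀ (Nat.cast_nonneg _) hPc2 k) hGc (Nat.cast_nonneg _) (by positivity)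
      _ = L ^ W := by rw [← pow_mul, ← pow_add, hW]
  have hQx : ∀ fx ∈ Q, 0 < (fx.2 : ℝ) := by
    intro fx hfx
    rw [hQ, mem_filter] at hfx
    obtain ⟨⟨h1, -, -⟩, h2, -⟩ := hfx.2 ⟨0, hk⟩
    have h3 : (0 : ℝ) < (fx.2 : ℝ) ^ (fx.1 ⟨0, hk⟩).natDegree := lt_of_lt_of_le (by positivity) h2
    rcases Nat.eq_zero_or_pos fx.2 with h | h
    · rw [h, Nat.cast_zero, zero_pow (by omega)] at h3
      exact absurd h3 (lt_irrefl _)
    · exact_mod_cast h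
  have hadm : ∀ fx ∈ Q, ∀ i, Adm N d T C1 (fx.1 i) fx.2 := by
    intro fx hfx i
    rw [hQ, mem_filter] at hfx
    obtain ⟨⟨h1, h2, h3⟩, h4, h5⟩ := hfx.2 i
    unfold Adm
    rw [← hL]
    refine ⟨h1, h2, h3 _, h4, (le_mul_of_one_le_right (by positivity) (one_le_pow₀ hL1)).trans h5, fun m hm => ?_⟩
    have h6 := eval_le (fx.1 i) d h2 (L ^ T) h3 fx.2 m hm
    refine le_trans ?_ h5
    calc |(((fx.1 i).eval (m : ℤ) : ℤ) : ℝ)| * L ^ C1 ≤ ((d + 1) * L ^ T * (fx.2 : ℝ) ^ (fx.1 i).natDegree) * L ^ C1 := by gcongr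
      _ ≤ (L * L ^ T * (fx.2 : ℝ) ^ (fx.1 i).natDegree) * L ^ C1 := by gcongr
      _ = _ := by ring
  have hbig : ∀ x : ℕ, ∀ f : ℤ[X], Adm N d T C1 f x → ∀ n ∈ Icc 1 N, ∀ m ∈ Icc 1 x,
      thp ((n : ℤ) + f.eval (m : ℤ)).toNat ≤ 2 * L ∧ lamzI z ((n : ℤ) + f.eval (m : ℤ)) ≤ 2 * L := by
    intro x f hf n hn m hm
    obtain ⟨-, -, -, -, -, h6⟩ := hf
    rw [mem_Icc] at hn
    rw [← hL] at h6
    have h7 : |((f.eval (m : ℤ) : ℤ) : ℝ)| ≤ N :=
      (le_mul_of_one_le_right (abs_nonneg _) (one_le_pow₀ hL1)).trans (h6 m hm)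
    rw [← Int.cast_abs] at h7
    have h8 : |f.eval (m : ℤ)| ≤ N := by exact_mod_cast h7
    have h9 := (abs_le.1 h8).2
    refine ⟨(thp_le (M := 2 * N) (by omega)).trans h2L, ?_⟩
    have := (lamzI_bd z L hL0.le hVz ((n : ℤ) + f.eval (m : ℤ))).2
    linarith
  obtain ⟨S, hSd⟩ : ∃ S : Finset (Fin k → ℕ), S = Fintype.piFinset (fun _ : Fin k => Icc 1 N) := ⟨_, rfl⟩
  obtain ⟨B1, hB1⟩ : ∃ B1 : (Fin k → ℤ[X]) × ℕ → Finset (Fin k → ℕ), B1 = fun fx => S.filter (fun a =>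
    (fx.2 : ℝ) / L ^ (U + 2) < |∑ m ∈ Icc 1 fx.2, w m * (∏ i, thp ((a i : ℤ) + (fx.1 i).eval (m : ℤ)).toNat -
      ∏ i, lamzI z ((a i : ℤ) + (fx.1 i).eval (m : ℤ)))|) := ⟨_, rfl⟩
  have hb1 : ∀ fx ∈ Q, ((B1 fx).card : ℝ) ≤ (N : ℝ) ^ k / L ^ (W + (U + 2)) := by
    intro fx hfx
    have hx0 := hQx fx hfx
    have h6 := ms_sys z N fx.2 U1 L hL1 (fun f => Adm N d T C1 f fx.2) (fun f hf K w hK hw => hms f fx.2 hf K w hK hw)
      (fun f hf n hn m hm => hbig fx.2 f hf n hn m hm) k fx.1 (hadm fx hfx) 1 w zero_le_one (fun m _ => hw m)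
    rw [← hSd] at h6
    have h7 := cheb S (fun a : Fin k → ℕ => ∑ m ∈ Icc 1 fx.2, w m * (∏ i, thp ((a i : ℤ) + (fx.1 i).eval (m : ℤ)).toNat -
      ∏ i, lamzI z ((a i : ℤ) + (fx.1 i).eval (m : ℤ)))) _ ((fx.2 : ℝ) / L ^ (U + 2)) (by positivity) h6
    rw [hB1]
    refine h7.trans ?_
    have e0 : (4 * L) ^ (2 * k) ≤ L ^ (4 * k) := by
      calc (4 * L) ^ (2 * k) ≤ (L ^ 2) ^ (2 * k) := pow_le_pow_left₀ (by positivity) (by nlinarith) _
        _ = L ^ (4 * k) := by rw [← pow_mul]; congr 1; ring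
    rw [one_pow, one_mul, div_le_div_iff₀ (by positivity) (by positivity)]
    have e1 : L ^ U1 = L ^ (4 * k) * L ^ (W + (U + 2)) * (L ^ (U + 2)) ^ 2 := by
      rw [← pow_mul, ← pow_add, ← pow_add, hU1]
      congr 1
      ring
    calc (4 * L) ^ (2 * k) * ((fx.2 : ℝ) ^ 2 * ((N : ℝ) ^ k / L ^ U1)) * L ^ (W + (U + 2)) ≤
        L ^ (4 * k) * ((fx.2 : ℝ) ^ 2 * ((N : ℝ) ^ k / L ^ U1)) * L ^ (W + (U + 2)) := by gcongr
      _ = (N : ℝ) ^ k * ((fx.2 : ℝ) / L ^ (U + 2)) ^ 2 := by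
        rw [e1]
        field_simp
  obtain ⟨S0, hS0⟩ : ∃ S0 : Finset (Fin k → ℕ), S0 = (univ : Finset (Fin k)).biUnion
    (fun i => S.filter (fun a => a i ≤ ⌊(N : ℝ) / L ^ (U + 2)⌋₊)) := ⟨_, rfl⟩
  have hNk : (N : ℝ) * (N : ℝ) ^ (k - 1) = (N : ℝ) ^ k := by
    rw [← pow_succ']
    congr 1
    omega
  have hS0c : (S0.card : ℝ) ≤ k * ((N : ℝ) ^ k / L ^ (U + 2)) := by
    rw [hS0]
    refine (union_bd' univ _ ((N : ℝ) ^ k / L ^ (U + 2)) (fun i _ => ?_)).trans (by rw [card_univ, Fintype.card_fin])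
    rw [hSd]
    refine (small_coord k N _ i).trans ?_
    calc (⌊(N : ℝ) / L ^ (U + 2)⌋₊ : ℝ) * (N : ℝ) ^ (k - 1) ≤ (N : ℝ) / L ^ (U + 2) * (N : ℝ) ^ (k - 1) := by
          apply mul_le_mul_of_nonneg_right (Nat.floor_le (by positivity)) (by positivity)
      _ = _ := by
        rw [← hNk]
        ring
  refine ⟨S0 ∪ Q.biUnion B1, ?_, ?_⟩
  · have h1 := card_union_le S0 (Q.biUnion B1)
    have h3 := union_bd' Q B1 _ hb1
    have h5 : (Q.card : ℝ) * ((N : ℝ) ^ k / L ^ (W + (U + 2))) ≤ (N : ℝ) ^ k / L ^ (U + 2) := by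
      rw [pow_add L W]
      calc (Q.card : ℝ) * ((N : ℝ) ^ k / (L ^ W * L ^ (U + 2))) ≤ L ^ W * ((N : ℝ) ^ k / (L ^ W * L ^ (U + 2))) := by gcongr
        _ = _ := by field_simp
    have h6 : ((S0 ∪ Q.biUnion B1).card : ℝ) ≤ S0.card + (Q.biUnion B1).card := by exact_mod_cast h1
    have h7 : (k + 1) * ((N : ℝ) ^ k / L ^ (U + 2)) ≤ (N : ℝ) ^ k / L ^ U := by
      rw [← mul_div_assoc, div_le_div_iff₀ (by positivity) (by positivity), pow_add]
      have a2 : (k : ℝ) + 1 ≤ L ^ 2 := by nlinarith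
      calc ((k : ℝ) + 1) * (N : ℝ) ^ k * L ^ U = ((N : ℝ) ^ k * L ^ U) * (k + 1) := by ring
        _ ≤ ((N : ℝ) ^ k * L ^ U) * L ^ 2 := mul_le_mul_of_nonneg_left a2 (by positivity)
        _ = _ := by ring
    linarith
  · intro a ha haE F hF x hx12
    rw [mem_union, not_or] at haE
    obtain ⟨haS, haB1⟩ := haE
    have haS' : a ∈ S := by rw [hSd]; exact ha
    have ha1 := ha
    rw [Fintype.mem_piFinset] at ha1
    have hf1 := (hF ⟨0, hk⟩).1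
    have hf2 := (hF ⟨0, hk⟩).2.1
    obtain ⟨hx1, hx2⟩ := hx12 ⟨0, hk⟩
    obtain ⟨f, hfd⟩ : ∃ f, f = F ⟨0, hk⟩ := ⟨_, rfl⟩
    rw [← hfd] at hf1 hf2 hx1 hx2
    have hxe : (0 : ℝ) < (x : ℝ) ^ f.natDegree := lt_of_lt_of_le (by positivity) hx1
    have hx : 1 ≤ x := by
      rcases Nat.eq_zero_or_pos x with h | h
      · rw [h, Nat.cast_zero, zero_pow (by omega)] at hxe
        exact absurd hxe (lt_irrefl _)
      · exact h
    have hxr : (1 : ℝ) ≤ x := by exact_mod_cast hx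
    have hcube : (N : ℝ) ^ (1 / 3 : ℝ) ≤ (x : ℝ) ^ f.natDegree := by
      refine le_trans ?_ hx1
      exact le_mul_of_one_le_right (by positivity) (one_le_pow₀ hL1)
    -- the values
    have hval : ∀ i, ∀ m ∈ Icc 1 x, |(((F i).eval (m : ℤ) : ℤ) : ℝ)| ≤ N / L ^ (C1 + U + 2) := by
      intro i m hm
      obtain ⟨g1, g2, g3⟩ := hF i
      have h6 := eval_le (F i) d g2 (L ^ T) g3 x m hm
      rw [le_div_iff₀ (by positivity)]
      calc |(((F i).eval (m : ℤ) : ℤ) : ℝ)| * L ^ (C1 + U + 2) ≤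
          ((d : ℝ) + 1) * L ^ T * (x : ℝ) ^ (F i).natDegree * L ^ (C1 + U + 2) := by gcongr
        _ ≤ L * L ^ T * (x : ℝ) ^ (F i).natDegree * L ^ (C1 + U + 2) := by gcongr
        _ = (x : ℝ) ^ (F i).natDegree * L ^ (C1 + T + U + 3) := by ring
        _ ≤ (x : ℝ) ^ (F i).natDegree * L ^ C := by
          apply mul_le_mul_of_nonneg_left _ (by positivity)
          exact pow_le_pow_right₀ hL1 (by omega)
        _ ≤ N := (hx12 i).2
    have hval2 : ∀ i, ∀ m ∈ Icc 1 x, |(((F i).eval (m : ℤ) : ℤ) : ℝ)| ≤ N / L ^ (U + 2) := by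
      intro i m hm
      refine (hval i m hm).trans ?_
      apply div_le_div_of_nonneg_left hN0.le (by positivity)
      exact pow_le_pow_right₀ hL1 (by omega)
    have haS2 : ∀ i, (N : ℝ) / L ^ (U + 2) < a i := by
      intro i
      by_contra hcon
      push Not at hcon
      apply haS
      rw [hS0, mem_biUnion]
      exact ⟨i, mem_univ i, mem_filter.2 ⟨haS', Nat.le_floor hcon⟩⟩
    have hpos : ∀ i, ∀ m ∈ Icc 1 x, 1 ≤ (a i : ℤ) + (F i).eval (m : ℤ) := by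
      intro i m hm
      have h6 := (abs_le.1 (hval2 i m hm)).1
      have h5 := haS2 i
      have h7 : (0 : ℝ) < (((a i : ℤ) + (F i).eval (m : ℤ) : ℤ) : ℝ) := by
        push_cast
        linarith
      have h8 : (0 : ℤ) < (a i : ℤ) + (F i).eval (m : ℤ) := by exact_mod_cast h7
      omega
    refine ⟨hpos, ?_⟩
    -- the grid point
    have hxL : L ^ (U + k + 5) ≤ x := by
      by_contra hcon
      push Not at hcon
      have h1 : (x : ℝ) ^ f.natDegree < N ^ (1 / 3 : ℝ) := by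
        calc (x : ℝ) ^ f.natDegree < (L ^ (U + k + 5)) ^ f.natDegree := pow_lt_pow_left₀ hcon (by linarith) (by omega)
          _ ≤ (L ^ (U + k + 5)) ^ d := pow_le_pow_right₀ (one_le_pow₀ hL1) hf2
          _ = L ^ ((U + k + 5) * d) := by rw [← pow_mul]
          _ ≤ _ := rpow_third_ge (by positivity) (by rw [← pow_mul, mul_comm]; exact hLp)
      linarith
    have hKx : K ≤ x := by
      have h1 : (K : ℝ) ≤ x := by
        refine hK2.trans (le_trans ?_ hxL)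
        rw [pow_succ L (U + k + 4)]
        have : (1 : ℝ) ≤ L ^ (U + k + 4) := one_le_pow₀ hL1
        nlinarith
      exact_mod_cast h1
    obtain ⟨α, β, ha1', ha2', hab1, hab2, hb⟩ := grid x K (by omega) hKx
    obtain ⟨x', hx'⟩ : ∃ x', x' = α * 2 ^ β := ⟨_, rfl⟩
    rw [← hx'] at hab1 hab2
    have hxN : x ≤ N := by
      have h1 : (x : ℝ) ≤ (x : ℝ) ^ f.natDegree := le_self_pow₀ hxr (by omega)
      have h2 : (x : ℝ) ^ f.natDegree ≤ (x : ℝ) ^ f.natDegree * L ^ C := le_mul_of_one_le_right hxe.le (one_le_pow₀ hL1)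
      exact_mod_cast (h1.trans h2).trans hx2
    have hmemG : x' ∈ G := by
      rw [hGd, mem_image]
      refine ⟨(α, β), ?_, hx'.symm⟩
      rw [mem_product, mem_Icc, mem_range]
      refine ⟨⟨ha1', ha2'⟩, ?_⟩
      have := Nat.le_log_of_pow_le (by norm_num : 1 < 2) (hb.trans hxN)
      exact Nat.lt_succ_of_le this
    have h2x : x ≤ 2 * x' := by
      have h1 : (x - x') * 2 ≤ (x - x') * K := Nat.mul_le_mul_left _ hKtwo
      omega
    have h2xr : (x : ℝ) ≤ 2 * x' := by exact_mod_cast h2x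
    have hx'x : (x' : ℝ) ≤ x := by exact_mod_cast hab1
    have hc1 : ∀ i, (N : ℝ) ^ (1 / 3 : ℝ) * L ^ C1 ≤ (x' : ℝ) ^ (F i).natDegree := by
      intro i
      have h1 : (x : ℝ) ^ (F i).natDegree ≤ L * (x' : ℝ) ^ (F i).natDegree := by
        calc (x : ℝ) ^ (F i).natDegree ≤ (2 * (x' : ℝ)) ^ (F i).natDegree := pow_le_pow_left₀ (Nat.cast_nonneg _) h2xr _
          _ = 2 ^ (F i).natDegree * (x' : ℝ) ^ (F i).natDegree := mul_pow _ _ _
          _ ≤ 2 ^ d * (x' : ℝ) ^ (F i).natDegree := by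
            apply mul_le_mul_of_nonneg_right _ (by positivity)
            exact pow_le_pow_right₀ (by norm_num) (hF i).2.1
          _ ≤ _ := mul_le_mul_of_nonneg_right hL2d (by positivity)
      have h2 : (N : ℝ) ^ (1 / 3 : ℝ) * L ^ C1 * L ≤ (N : ℝ) ^ (1 / 3 : ℝ) * L ^ C := by
        rw [mul_assoc, ← pow_succ]
        apply mul_le_mul_of_nonneg_left _ (by positivity)
        exact pow_le_pow_right₀ hL1 (by omega)
      have h3 : (N : ℝ) ^ (1 / 3 : ℝ) * L ^ C1 * L ≤ (x' : ℝ) ^ (F i).natDegree * L := by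
        rw [mul_comm ((x' : ℝ) ^ (F i).natDegree) L]
        exact h2.trans ((hx12 i).1.trans h1)
      exact le_of_mul_le_mul_right h3 hL0
    have hc2 : ∀ i, (x' : ℝ) ^ (F i).natDegree * L ^ (C1 + T + 1) ≤ N := by
      intro i
      refine le_trans ?_ (hx12 i).2
      apply mul_le_mul (pow_le_pow_left₀ (Nat.cast_nonneg _) hx'x _) _ (by positivity) (by positivity)
      exact pow_le_pow_right₀ hL1 (by omega)
    have hmemQ : (F, x') ∈ Q := by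
      rw [hQ, mem_filter, mem_product, Fintype.mem_piFinset]
      exact ⟨⟨fun i => hP (F i) (hF i).2.1 (hF i).2.2, hmemG⟩, fun i => ⟨hF i, hc1 i, hc2 i⟩⟩
    have g1 : |∑ m ∈ Icc 1 x', w m * (∏ i, thp ((a i : ℤ) + (F i).eval (m : ℤ)).toNat -
        ∏ i, lamzI z ((a i : ℤ) + (F i).eval (m : ℤ)))| ≤ x' / L ^ (U + 2) := by
      by_contra hcon
      push Not at hcon
      apply haB1
      rw [mem_biUnion]
      refine ⟨(F, x'), hmemQ, ?_⟩
      rw [hB1]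
      exact mem_filter.2 ⟨haS', hcon⟩
    have hbd : ∀ i, ∀ m ∈ Icc 1 x, thp ((a i : ℤ) + (F i).eval (m : ℤ)).toNat ≤ 2 * L := by
      intro i m hm
      have h7 : |(((F i).eval (m : ℤ) : ℤ) : ℝ)| ≤ N := (hval2 i m hm).trans (div_le_self hN0.le (one_le_pow₀ hL1))
      rw [← Int.cast_abs] at h7
      have h8 : |(F i).eval (m : ℤ)| ≤ N := by exact_mod_cast h7
      have h9 := (abs_le.1 h8).2
      have h10 := ha1 i
      rw [mem_Icc] at h10
      exact (thp_le (M := 2 * N) (by omega)).trans h2L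
    apply fin_sys x x' k U w (fun m => ∏ i, thp ((a i : ℤ) + (F i).eval (m : ℤ)).toNat)
      (fun m => ∏ i, lamzI z ((a i : ℤ) + (F i).eval (m : ℤ))) L hL6 hL2k hw _ _ hab1 _ g1
    · intro m hm
      refine ⟨prod_nonneg fun _ _ => thp_nonneg _, ?_⟩
      calc ∏ i, thp ((a i : ℤ) + (F i).eval (m : ℤ)).toNat ≤ ∏ _i : Fin k, (2 * L) :=
            prod_le_prod (fun _ _ => thp_nonneg _) fun i _ => hbd i m hm
        _ = _ := by rw [prod_const, card_univ, Fintype.card_fin]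
    · intro m hm
      have h1 : ∀ i : Fin k, 0 ≤ lamzI z ((a i : ℤ) + (F i).eval (m : ℤ)) ∧ lamzI z ((a i : ℤ) + (F i).eval (m : ℤ)) ≤ 2 * L := by
        intro i
        have := lamzI_bd z L hL0.le hVz ((a i : ℤ) + (F i).eval (m : ℤ))
        exact ⟨this.1, by linarith [this.2]⟩
      refine ⟨prod_nonneg fun i _ => (h1 i).1, ?_⟩
      calc ∏ i, lamzI z ((a i : ℤ) + (F i).eval (m : ℤ)) ≤ ∏ _i : Fin k, (2 * L) :=
            prod_le_prod (fun i _ => (h1 i).1) fun i _ => (h1 i).2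
        _ = _ := by rw [prod_const, card_univ, Fintype.card_fin]
    · have h1 : (((x - x') * K : ℕ) : ℝ) ≤ x := by exact_mod_cast hab2
      rw [Nat.cast_mul, Nat.cast_sub hab1] at h1
      refine le_trans ?_ h1
      exact mul_le_mul_of_nonneg_left hK1 (by linarith)

end Pool.Agent.Run7.h18.MK
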