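import Mathlib
import Pool.Agent.Run7.h18.MK.Sys2
import Pool.Agent.Run7.h18.MK.Arb4

/-! Project MK: systems `a_i + f_i(m)`. Part 3: the singular series. -/

set_option autoImplicit false

namespace Pool.Agent.Run7.h18.MK

open Finset Filter Polynomial
open Pool.Agent.H373R2.T7 (lamz lamI lamzI Vz pz mem_pz Vz_pos Vz_le_one nuB PerB nuB_le Vz_inv_small rhoA)
open Pool.Agent.R460.SQ (thp ppw vm_split ppw_nn sum_ppw)
open Pool.Agent.Run7.h794.MK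

/-- the product of the forms -/
noncomputable def gP {k : ℕ} (F : Fin k → ℤ[X]) (a : Fin k → ℕ) : ℤ[X] := ∏ i, (C ((a i : ℕ) : ℤ) + F i)

lemma gP_eval {k : ℕ} (F : Fin k → ℤ[X]) (a : Fin k → ℕ) (m : ℤ) : (gP F a).eval m = ∏ i, (((a i : ℕ) : ℤ) + (F i).eval m) := by
  unfold gP
  rw [eval_prod]
  refine prod_congr rfl fun i _ => ?_
  rw [eval_add, eval_C]

lemma gP_deg {k : ℕ} (F : Fin k → ℤ[X]) (a : Fin k → ℕ) (d : ℕ) (hF : ∀ i, (F i).natDegree ≤ d) : (gP F a).natDegree ≤ k * d := by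
  unfold gP
  refine (natDegree_prod_le _ _).trans ?_
  have h1 : ∀ i ∈ (univ : Finset (Fin k)), (C ((a i : ℕ) : ℤ) + F i).natDegree ≤ d := by
    intro i _
    refine (natDegree_add_le _ _).trans ?_
    rw [natDegree_C]
    exact max_le (Nat.zero_le _) (hF i)
  refine (sum_le_sum h1).trans ?_
  rw [sum_const, card_univ, Fintype.card_fin, smul_eq_mul]

/-- the expected density -/
noncomputable def dens (g : ℤ[X]) (j z : ℕ) : ℝ := (Vz z)⁻¹ ^ j * ∏ p ∈ pz z, (1 - (nuB (Rt g 0) p : ℝ) / p)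

lemma dens_succ (g : ℤ[X]) (j z : ℕ) : dens g (j + 1) z = (Vz z)⁻¹ ^ j * Sg g 0 z := by
  unfold dens Sg
  rw [pow_succ]
  ring

lemma dens_low (g : ℤ[X]) (j d z : ℕ) (hj : 1 ≤ j) (hd : 1 ≤ d) (hg : g.natDegree ≤ d) (L : ℝ) (hL : 1 ≤ L)
    (hL2 : (3 * d : ℝ) ^ (3 * d) * Real.exp (2 * (d : ℝ) ^ 2) ≤ L) (hV : (Vz z)⁻¹ ≤ L)
    (hfix : ∀ p : ℕ, p.Prime → ∃ m : ℤ, ¬ (p : ℤ) ∣ g.eval m) : 1 / L ^ (d + 1) ≤ dens g j z := by
  obtain ⟨i, rfl⟩ : ∃ i, j = i + 1 := ⟨j - 1, by omega⟩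
  rw [dens_succ]
  have h1 := Sg_low g d hd hg 0 z L hL hL2 hV (fun p hp => by
    obtain ⟨m, hm⟩ := hfix p hp
    exact ⟨m, by rw [zero_add]; exact hm⟩)
  have h2 : 1 ≤ (Vz z)⁻¹ := by
    rw [one_le_inv₀ (Vz_pos z)]
    exact Vz_le_one z
  exact h1.trans (le_mul_of_one_le_left (Sg_bd g 0 z).1 (one_le_pow₀ h2))

lemma prod_lamz {k : ℕ} (F : Fin k → ℤ[X]) (a : Fin k → ℕ) (z m : ℕ)
    (h : ∀ i, 1 ≤ (a i : ℤ) + (F i).eval (m : ℤ)) :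
    ∏ i, lamzI z ((a i : ℤ) + (F i).eval (m : ℤ)) =
      open Classical in if ∀ p ∈ pz z, ¬ Rt (gP F a) 0 p m then (Vz z)⁻¹ ^ k else 0 := by
  classical
  have h1 : ∀ i ∈ (univ : Finset (Fin k)), lamzI z ((a i : ℤ) + (F i).eval (m : ℤ)) =
      if ∀ p ∈ pz z, ¬ (p : ℤ) ∣ (a i : ℤ) + (F i).eval (m : ℤ) then (Vz z)⁻¹ else 0 := by
    intro i _
    unfold lamzI lamz
    rw [if_pos (h i)]
    have h2 : (∀ p ∈ pz z, ¬ p ∣ ((a i : ℤ) + (F i).eval (m : ℤ)).toNat) ↔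
        (∀ p ∈ pz z, ¬ (p : ℤ) ∣ (a i : ℤ) + (F i).eval (m : ℤ)) := by
      have hi := h i
      refine forall₂_congr fun p _ => not_congr ?_
      constructor
      · intro h3
        have h4 := Int.natCast_dvd_natCast.2 h3
        rwa [Int.toNat_of_nonneg (by omega)] at h4
      · intro h3
        apply Int.natCast_dvd_natCast.1
        rwa [Int.toNat_of_nonneg (by omega)]
    by_cases h3 : ∀ p ∈ pz z, ¬ (p : ℤ) ∣ (a i : ℤ) + (F i).eval (m : ℤ)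
    · rw [if_pos (h2.2 h3), if_pos h3]
    · rw [if_neg (fun h4 => h3 (h2.1 h4)), if_neg h3]
  rw [prod_congr rfl h1, prod_ite_zero, prod_const, card_univ, Fintype.card_fin]
  have h5 : (∀ i ∈ (univ : Finset (Fin k)), ∀ p ∈ pz z, ¬ (p : ℤ) ∣ (a i : ℤ) + (F i).eval (m : ℤ)) ↔
      (∀ p ∈ pz z, ¬ Rt (gP F a) 0 p m) := by
    have h6 : ∀ p ∈ pz z, Rt (gP F a) 0 p m ↔ ∃ i, (p : ℤ) ∣ (a i : ℤ) + (F i).eval (m : ℤ) := by
      intro p hp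
      have hpi : Prime (p : ℤ) := Nat.prime_iff_prime_int.1 (mem_pz.1 hp).2
      unfold Rt
      rw [zero_add, gP_eval, hpi.dvd_finsetProd_iff]
      simp
    constructor
    · intro h7 p hp h8
      obtain ⟨i, hi⟩ := (h6 p hp).1 h8
      exact h7 i (mem_univ i) p hp hi
    · intro h7 i _ p hp h8
      exact h7 p hp ((h6 p hp).2 ⟨i, h8⟩)
  by_cases h6 : ∀ p ∈ pz z, ¬ Rt (gP F a) 0 p m
  · rw [if_pos (h5.2 h6), if_pos h6]
  · rw [if_neg (fun h7 => h6 (h5.1 h7)), if_neg h6]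

lemma sum_prod_lamz {k : ℕ} (F : Fin k → ℤ[X]) (a : Fin k → ℕ) (z x : ℕ) (g : ℕ → ℝ)
    (h : ∀ i, ∀ m ∈ Icc 1 x, 1 ≤ (a i : ℤ) + (F i).eval (m : ℤ)) :
    ∑ m ∈ Icc 1 x, g m * ∏ i, lamzI z ((a i : ℤ) + (F i).eval (m : ℤ)) =
      (Vz z)⁻¹ ^ k * (∑ m ∈ (open Classical in (Icc 1 x).filter (fun m : ℕ => ∀ p ∈ pz z, ¬ Rt (gP F a) 0 p m)), g m) := by
  classical
  rw [mul_sum, sum_filter]
  refine sum_congr rfl fun m hm => ?_
  rw [prod_lamz F a z m (fun i => h i m hm)]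
  by_cases h3 : ∀ p ∈ pz z, ¬ Rt (gP F a) 0 p m
  · rw [if_pos h3, if_pos h3]
    ring
  · rw [if_neg h3, if_neg h3, mul_zero]

/-- sizes -/
lemma sizes (N d U : ℕ) (L : ℝ) (hL : L = Real.log N) (hd : 1 ≤ d) (hN : 2 ≤ N) (hL1 : 1 ≤ L)
    (hL3d : (3 * d : ℝ) ^ (U + 1) ≤ L) (hL9 : 9 * (d : ℝ) ^ 2 ≤ L) (X₀ : ℕ) (hLX : 3 * d * X₀ ≤ L)
    (f : ℤ[X]) (hf1 : 1 ≤ f.natDegree) (hf2 : f.natDegree ≤ d) (x C : ℕ)
    (hx1 : (N : ℝ) ^ (1 / 3 : ℝ) * L ^ C ≤ (x : ℝ) ^ f.natDegree) (hx2 : (x : ℝ) ^ f.natDegree * L ^ C ≤ N) (E z : ℕ)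
    (hz : (z : ℝ) ≤ L ^ E) :
    1 ≤ x ∧ x ≤ N ∧ X₀ ≤ x ∧ (z : ℝ) ≤ Real.log (x : ℝ) ^ (2 * E) ∧ (x : ℝ) / Real.log (x : ℝ) ^ (U + 1) ≤ x / L ^ U ∧
      Real.log (x : ℝ) ≤ L := by
  have hL0 : 0 < L := by linarith
  have hN0 : (0 : ℝ) < N := by exact_mod_cast (by omega : 0 < N)
  have hd0 : (1 : ℝ) ≤ d := by exact_mod_cast hd
  have hxe : (0 : ℝ) < (x : ℝ) ^ f.natDegree := lt_of_lt_of_le (by positivity) hx1
  have hx : 1 ≤ x := by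
    rcases Nat.eq_zero_or_pos x with h | h
    · rw [h, Nat.cast_zero, zero_pow (by omega)] at hxe
      exact absurd hxe (lt_irrefl _)
    · exact h
  have hxr : (1 : ℝ) ≤ x := by exact_mod_cast hx
  have hx0 : (0 : ℝ) < x := by linarith
  have hcube : (N : ℝ) ^ (1 / 3 : ℝ) ≤ (x : ℝ) ^ f.natDegree := by
    refine le_trans ?_ hx1
    exact le_mul_of_one_le_right (by positivity) (one_le_pow₀ hL1)
  have hxN : x ≤ N := by
    have h1 : (x : ℝ) ≤ (x : ℝ) ^ f.natDegree := le_self_pow₀ hxr (by omega)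
    have h2 : (x : ℝ) ^ f.natDegree ≤ (x : ℝ) ^ f.natDegree * L ^ C := le_mul_of_one_le_right hxe.le (one_le_pow₀ hL1)
    exact_mod_cast (h1.trans h2).trans hx2
  have hlx := log_low N x f.natDegree d hx hf2 hd (by omega) hcube
  rw [← hL] at hlx
  have hlx0 : 0 < Real.log (x : ℝ) := lt_of_lt_of_le (by positivity) hlx
  refine ⟨hx, hxN, ?_, ?_, ?_, ?_⟩
  · have h1 : (X₀ : ℝ) ≤ x := by
      have h2 : (X₀ : ℝ) ≤ L / (3 * d) := by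
        rw [le_div_iff₀ (by positivity)]
        linarith
      have h3 : Real.log (x : ℝ) ≤ x := (Real.log_le_self (Nat.cast_nonneg _))
      linarith
    exact_mod_cast h1
  · refine hz.trans ?_
    rw [pow_mul]
    apply pow_le_pow_left₀ hL0.le
    calc L ≤ (L / (3 * d)) ^ 2 := by
          rw [div_pow, le_div_iff₀ (by positivity)]
          calc L * (3 * (d : ℝ)) ^ 2 = L * (9 * (d : ℝ) ^ 2) := by ring
            _ ≤ L * L := mul_le_mul_of_nonneg_left hL9 hL0.le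
            _ = L ^ 2 := by ring
      _ ≤ _ := pow_le_pow_left₀ (by positivity) hlx 2
  · apply div_le_div_of_nonneg_left (Nat.cast_nonneg _) (by positivity)
    calc L ^ U ≤ (L / (3 * d)) ^ (U + 1) := by
          rw [div_pow, le_div_iff₀ (by positivity), pow_succ L U]
          exact mul_le_mul_of_nonneg_left hL3d (by positivity)
      _ ≤ _ := pow_le_pow_left₀ (by positivity) hlx _
  · rw [hL]
    exact Real.log_le_log hx0 (by exact_mod_cast hxN)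

/-- **Bateman-Horn for almost all systems.** -/
theorem sys_fin (k d T U : ℕ) (hk : 1 ≤ k) (hd : 1 ≤ d) : ∃ C B : ℕ, ∀ E : ℕ, ∃ N₀ : ℕ, ∀ N : ℕ, N₀ ≤ N → ∀ z : ℕ,
    Real.log N ^ B ≤ z → (z : ℝ) ≤ Real.log N ^ E →
    ∃ Ex : Finset (Fin k → ℕ), (Ex.card : ℝ) ≤ (N : ℝ) ^ k / Real.log N ^ U ∧
    ∀ a ∈ Fintype.piFinset (fun _ : Fin k => Icc 1 N), a ∉ Ex → ∀ F : Fin k → ℤ[X],
      (∀ i, 1 ≤ (F i).natDegree ∧ (F i).natDegree ≤ d ∧ ∀ j, |(((F i).coeff j : ℤ) : ℝ)| ≤ Real.log N ^ T) →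
      ((∀ p : ℕ, p.Prime → ∃ m : ℤ, ¬ (p : ℤ) ∣ (gP F a).eval m) → 1 / Real.log N ^ (k * d + 1) ≤ dens (gP F a) k z) ∧ ∀ x : ℕ,
      (∀ i, (N : ℝ) ^ (1 / 3 : ℝ) * Real.log N ^ C ≤ (x : ℝ) ^ (F i).natDegree ∧ (x : ℝ) ^ (F i).natDegree * Real.log N ^ C ≤ N) →
      (∀ i, ∀ m ∈ Icc 1 x, 1 ≤ (a i : ℤ) + (F i).eval (m : ℤ)) ∧
      |∑ m ∈ Icc 1 x, ∏ i, thp ((a i : ℤ) + (F i).eval (m : ℤ)).toNat - x * dens (gP F a) k z| ≤ x / Real.log N ^ U := by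
  classical
  obtain ⟨C, B, h⟩ := sys_w law' k d T (U + 1) hk
  refine ⟨C, B, fun E => ?_⟩
  obtain ⟨N₁, h⟩ := h E
  have hkd : 1 ≤ k * d := Nat.mul_pos hk hd
  obtain ⟨X₀, hdet⟩ := det_poly (k * d) (2 * E) (U + k + 2 + 1) hkd
  obtain ⟨N₂, hVz⟩ := Vz_inv_small E
  obtain ⟨N₃, hev⟩ := ev 1 (9 + 3 * d * X₀ + (3 * d) ^ (U + k + 2 + 1) + 9 * d ^ 2 +
    (3 * (k * d : ℕ) : ℝ) ^ (3 * (k * d)) * Real.exp (2 * ((k * d : ℕ) : ℝ) ^ 2))
  refine ⟨N₁ + N₂ + N₃ + 3, fun N hN z hz1 hz2 => ?_⟩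
  obtain ⟨hLK, -⟩ := hev N (by omega)
  have hN2 : 2 ≤ N := by omega
  have hN0 : (0 : ℝ) < N := by exact_mod_cast (by omega : 0 < N)
  have hVz := hVz N (by omega) z
  obtain ⟨Ex, hE1, hE2⟩ := h N (by omega) z hz1 hz2 (fun _ => 1) (fun _ => by rw [abs_one])
  obtain ⟨L, hL⟩ : ∃ L, L = Real.log (N : ℝ) := ⟨_, rfl⟩
  rw [← hL] at hLK hz1 hz2 hVz hE1 hE2 ⊢
  have hd0 : (1 : ℝ) ≤ d := by exact_mod_cast hd
  have hX0 : (0 : ℝ) ≤ X₀ := Nat.cast_nonneg _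
  have q2 : (0 : ℝ) ≤ 3 * d * X₀ := by positivity
  have q3 : (0 : ℝ) ≤ (3 * d : ℝ) ^ (U + k + 2 + 1) := by positivity
  have q4 : (0 : ℝ) ≤ 9 * (d : ℝ) ^ 2 := by positivity
  have q5 : (0 : ℝ) ≤ (3 * (k * d : ℕ) : ℝ) ^ (3 * (k * d)) * Real.exp (2 * ((k * d : ℕ) : ℝ) ^ 2) := by positivity
  have hL8 : 8 ≤ L := by linarith
  have hL1 : 1 ≤ L := by linarith
  have hL0 : 0 < L := by linarith
  have hz : 1 ≤ z := by
    have h1 : (1 : ℝ) ≤ z := (one_le_pow₀ hL1).trans hz1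
    exact_mod_cast h1
  have hVz := hVz hz hz2
  refine ⟨Ex, hE1.trans ?_, fun a ha haE F hF => ⟨fun hfix => ?_, fun x hx12 => ?_⟩⟩
  · apply div_le_div_of_nonneg_left (by positivity) (by positivity)
    exact pow_le_pow_right₀ hL1 (by omega)
  · exact dens_low (gP F a) k (k * d) z hk hkd (gP_deg F a d fun i => (hF i).2.1) L hL1 (by linarith) hVz hfix
  · obtain ⟨hpos, hmain⟩ := hE2 a ha haE F hF x hx12
    refine ⟨hpos, ?_⟩
    obtain ⟨s1, s2, s3, s4, s5, s6⟩ := sizes N d (U + k + 2) L hL hd hN2 hL1 (by linarith) (by linarith) X₀ (by linarith)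
      (F ⟨0, hk⟩) (hF ⟨0, hk⟩).1 (hF ⟨0, hk⟩).2.1 x C (hx12 ⟨0, hk⟩).1 (hx12 ⟨0, hk⟩).2 E z hz2
    have g3 := hdet x s3 z hz s4 (gP F a) (gP_deg F a d fun i => (hF i).2.1) 0
    have hx0 : (0 : ℝ) < x := by exact_mod_cast s1
    rw [sum_prod_lamz F a z x (fun _ => 1) hpos] at hmain
    simp only [one_mul, sum_const, nsmul_eq_mul, mul_one] at hmain
    have t2 : |(Vz z)⁻¹ ^ k * (((Icc 1 x).filter (fun m : ℕ => ∀ p ∈ pz z, ¬ Rt (gP F a) 0 p m)).card : ℝ) - x * dens (gP F a) k z| ≤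
        x / L ^ (U + 2) := by
      unfold dens
      have e1 : (Vz z)⁻¹ ^ k * (((Icc 1 x).filter (fun m : ℕ => ∀ p ∈ pz z, ¬ Rt (gP F a) 0 p m)).card : ℝ) -
          x * ((Vz z)⁻¹ ^ k * ∏ p ∈ pz z, (1 - (nuB (Rt (gP F a) 0) p : ℝ) / p)) =
          (Vz z)⁻¹ ^ k * ((((Icc 1 x).filter (fun m : ℕ => ∀ p ∈ pz z, ¬ Rt (gP F a) 0 p m)).card : ℝ) -
            x * ∏ p ∈ pz z, (1 - (nuB (Rt (gP F a) 0) p : ℝ) / p)) := by ring
      have hV0 := inv_pos.2 (Vz_pos z)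
      rw [e1, abs_mul, abs_of_pos (by positivity)]
      have g4 : |(((Icc 1 x).filter (fun m : ℕ => ∀ p ∈ pz z, ¬ Rt (gP F a) 0 p m)).card : ℝ) -
            x * ∏ p ∈ pz z, (1 - (nuB (Rt (gP F a) 0) p : ℝ) / p)| ≤ x / L ^ (U + k + 2) := by
        refine le_trans (le_of_eq ?_) (g3.trans s5)
        congr!
      calc (Vz z)⁻¹ ^ k * |(((Icc 1 x).filter (fun m : ℕ => ∀ p ∈ pz z, ¬ Rt (gP F a) 0 p m)).card : ℝ) -
            x * ∏ p ∈ pz z, (1 - (nuB (Rt (gP F a) 0) p : ℝ) / p)| ≤ L ^ k * (x / L ^ (U + k + 2)) := by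
              apply mul_le_mul _ g4 (abs_nonneg _) (by positivity)
              exact pow_le_pow_left₀ hV0.le hVz k
        _ = _ := by
          have e2 : L ^ (U + k + 2) = L ^ k * L ^ (U + 2) := by rw [← pow_add]; congr 1; ring
          rw [e2]
          field_simp
    have e3 : (x : ℝ) / L ^ (U + 2) ≤ x / L ^ (U + 1) := by
      apply div_le_div_of_nonneg_left (Nat.cast_nonneg _) (by positivity)
      exact pow_le_pow_right₀ hL1 (by omega)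
    have e4 : 2 * ((x : ℝ) / L ^ (U + 1)) ≤ x / L ^ U := by
      have e5 : (x : ℝ) / L ^ U = L * (x / L ^ (U + 1)) := by
        rw [pow_succ]
        field_simp
      rw [e5]
      apply mul_le_mul_of_nonneg_right _ (by positivity)
      linarith
    have b1 := abs_le.1 hmain
    have b2 := abs_le.1 t2
    rw [abs_le]
    constructor <;> linarith [b1.1, b1.2, b2.1, b2.2]

end Pool.Agent.Run7.h18.MK
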