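import Mathlib
import Pool.Agent.Run7.h18.MK.Arb4

/-! Project MK: primes `a + f(q n)`, `q` in a set of primes of `(Q, 2 Q]`, `n ≤ M`. -/

set_option autoImplicit false

namespace Pool.Agent.Run7.h18.MK

open Finset Filter Polynomial
open Pool.Agent.H373R2.T7 (lamz lamI lamzI Vz pz mem_pz Vz_pos Vz_le_one nuB PerB nuB_le Vz_inv_small rhoA)
open Pool.Agent.R460.SQ (thp ppw vm_split ppw_nn sum_ppw)
open Pool.Agent.Run7.h794.MK

/-- the number of representations `m = q n` -/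
noncomputable def rq (P : Finset ℕ) (M m : ℕ) : ℝ := ∑ q ∈ P, ∑ n ∈ Icc 1 M, if q * n = m then (1 : ℝ) else 0

lemma rq_nonneg (P : Finset ℕ) (M m : ℕ) : 0 ≤ rq P M m :=
  sum_nonneg fun _ _ => sum_nonneg fun _ _ => by split_ifs <;> norm_num

lemma rq_sum (P : Finset ℕ) (M x : ℕ) (h : ∀ q ∈ P, ∀ n ∈ Icc 1 M, q * n ∈ Icc 1 x) (g : ℕ → ℝ) :
    ∑ m ∈ Icc 1 x, rq P M m * g m = ∑ q ∈ P, ∑ n ∈ Icc 1 M, g (q * n) := by
  unfold rq
  simp only [sum_mul]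
  rw [sum_comm]
  refine sum_congr rfl fun q hq => ?_
  rw [sum_comm]
  refine sum_congr rfl fun n hn => ?_
  simp only [ite_mul, one_mul, zero_mul]
  rw [sum_ite_eq, if_pos (h q hq n hn)]

lemma rq_le (P : Finset ℕ) (M m : ℕ) (hP : ∀ q ∈ P, q.Prime) (hm : 1 ≤ m) : rq P M m ≤ 2 * Real.log m := by
  have h1 : rq P M m ≤ ∑ q ∈ P, if q ∣ m then (1 : ℝ) else 0 := by
    refine sum_le_sum fun q hq => ?_
    have hq0 := (hP q hq).pos
    by_cases hd : q ∣ m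
    · rw [if_pos hd, ← sum_filter, sum_const, nsmul_eq_mul, mul_one]
      have h2 : ((Icc 1 M).filter (fun n => q * n = m)).card ≤ 1 := by
        rw [card_le_one]
        intro a ha b hb
        rw [mem_filter] at ha hb
        exact Nat.eq_of_mul_eq_mul_left hq0 (ha.2.trans hb.2.symm)
      exact_mod_cast h2
    · rw [if_neg hd]
      refine le_of_eq (sum_eq_zero fun n _ => ?_)
      rw [if_neg]
      intro h
      exact hd ⟨n, h.symm⟩
  have h2 : (∑ q ∈ P, if q ∣ m then (1 : ℝ) else 0) ≤ (m.primeFactors.card : ℝ) := by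
    rw [← sum_filter, sum_const, nsmul_eq_mul, mul_one]
    have : (P.filter (fun q => q ∣ m)) ⊆ m.primeFactors := by
      intro q hq
      rw [mem_filter] at hq
      exact Nat.mem_primeFactors.2 ⟨hP q hq.1, hq.2, by omega⟩
    exact_mod_cast card_le_card this
  have h3 : 2 ^ m.primeFactors.card ≤ m := by
    refine le_trans ?_ (Nat.le_of_dvd (by omega) (Nat.prod_primeFactors_dvd m))
    rw [← prod_const]
    exact prod_le_prod' fun p hp => (Nat.prime_of_mem_primeFactors hp).two_le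
  have h4 : (m.primeFactors.card : ℝ) * Real.log 2 ≤ Real.log m := by
    rw [← Real.log_pow]
    apply Real.log_le_log (by positivity)
    exact_mod_cast h3
  have h5 : (1 : ℝ) / 2 ≤ Real.log 2 := by linarith [Real.log_two_gt_d9]
  have h6 : (0 : ℝ) ≤ m.primeFactors.card := Nat.cast_nonneg _
  nlinarith

lemma Rt_comp (f : ℤ[X]) (a : ℤ) (q p r : ℕ) : Rt (f.comp (C (q : ℤ) * X)) a p r ↔ Rt f a p (q * r) := by
  unfold Rt
  rw [eval_comp, eval_mul, eval_C, eval_X]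
  push_cast
  rfl

lemma nuB_comp (f : ℤ[X]) (a : ℤ) (q p : ℕ) (hp : p.Prime) (hqp : q.Coprime p) :
    nuB (Rt (f.comp (C (q : ℤ) * X)) a) p = nuB (Rt f a) p := by
  classical
  unfold nuB
  apply card_bij (fun r _ => q * r % p)
  · intro r hr
    rw [mem_filter, mem_range] at hr ⊢
    refine ⟨Nat.mod_lt _ hp.pos, ?_⟩
    rw [← Rt_per]
    exact (Rt_comp f a q p r).1 hr.2
  · intro r hr s hs h
    rw [mem_filter, mem_range] at hr hs
    have h1 : q * r ≡ q * s [MOD p] := h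
    have h2 := Nat.ModEq.cancel_left_of_coprime (by rwa [Nat.gcd_comm]) h1
    exact Nat.ModEq.eq_of_lt_of_lt h2 hr.1 hs.1
  · intro b hb
    rw [mem_filter, mem_range] at hb
    obtain ⟨m, -, hm⟩ := Nat.exists_mul_mod_eq_one_of_coprime hqp hp.one_lt
    have key : q * (m * b % p) % p = b := by
      have h1 : q * (m * b % p) ≡ b [MOD p] := by
        calc q * (m * b % p) ≡ q * (m * b) [MOD p] := Nat.ModEq.mul_left _ (Nat.mod_modEq _ _)
          _ = (q * m) * b := by ring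
          _ ≡ 1 * b [MOD p] := Nat.ModEq.mul_right _ (by
              show q * m % p = 1 % p
              rw [hm, Nat.mod_eq_of_lt hp.one_lt])
          _ = b := one_mul b
      have h2 : q * (m * b % p) % p = b % p := h1
      rw [h2, Nat.mod_eq_of_lt hb.1]
    refine ⟨m * b % p, ?_, key⟩
    rw [mem_filter, mem_range]
    refine ⟨Nat.mod_lt _ hp.pos, ?_⟩
    rw [Rt_comp, Rt_per, key]
    exact hb.2

lemma rpow_ge_pow {N δ L : ℝ} (hδ : 0 < δ) (E : ℕ) (hL : 1 ≤ L) (h : L ^ ⌈(E : ℝ) / δ⌉₊ ≤ N) : L ^ E ≤ N ^ δ := by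
  have h0 : 0 ≤ L := by linarith
  calc L ^ E = L ^ ((E : ℕ) : ℝ) := (Real.rpow_natCast L E).symm
    _ ≤ L ^ ((⌈(E : ℝ) / δ⌉₊ : ℝ) * δ) := by
        apply Real.rpow_le_rpow_of_exponent_le hL
        have := Nat.le_ceil ((E : ℝ) / δ)
        rwa [div_le_iff₀ hδ] at this
    _ = (L ^ ⌈(E : ℝ) / δ⌉₊) ^ δ := by
        rw [Real.rpow_mul h0, Real.rpow_natCast]
    _ ≤ _ := Real.rpow_le_rpow (by positivity) h hδ.le

/-- **Primes `a + f(q n)`.** -/
theorem ach (d T U : ℕ) (hd : 1 ≤ d) (δ : ℝ) (hδ : 0 < δ) : ∃ C B : ℕ, ∀ E : ℕ, ∃ N₀ : ℕ, ∀ N : ℕ, N₀ ≤ N → ∀ z : ℕ,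
    Real.log N ^ B ≤ z → (z : ℝ) ≤ Real.log N ^ E → ∀ Q M : ℕ, (N : ℝ) ^ δ ≤ Q → (N : ℝ) ^ δ ≤ M →
    ∀ P : Finset ℕ, (∀ q ∈ P, q.Prime ∧ Q < q ∧ q ≤ 2 * Q) →
    ∃ Ex : Finset ℕ, (Ex.card : ℝ) ≤ N / Real.log N ^ U ∧
    ∀ a ∈ Icc 1 N, a ∉ Ex → ∀ f : ℤ[X], 1 ≤ f.natDegree → f.natDegree ≤ d →
      (∀ i, |((f.coeff i : ℤ) : ℝ)| ≤ Real.log N ^ T) →
      (N : ℝ) ^ (1 / 3 : ℝ) * Real.log N ^ C ≤ ((Q : ℝ) * M) ^ f.natDegree → ((Q : ℝ) * M) ^ f.natDegree * Real.log N ^ C ≤ N →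
      (∀ q ∈ P, ∀ n ∈ Icc 1 M, 1 ≤ (a : ℤ) + f.eval (((q * n : ℕ) : ℤ))) ∧
      ((∀ p : ℕ, p.Prime → ∃ m : ℤ, ¬ (p : ℤ) ∣ (a : ℤ) + f.eval m) → 1 / Real.log N ^ (d + 1) ≤ Sg f a z) ∧
      |∑ q ∈ P, ∑ n ∈ Icc 1 M, thp ((a : ℤ) + f.eval (((q * n : ℕ) : ℤ))).toNat - P.card * M * Sg f a z| ≤
        Q * M / Real.log N ^ U := by
  classical
  obtain ⟨C, B, h⟩ := arb_fin d T (U + 4) hd
  refine ⟨C + 1, B, fun E => ?_⟩
  obtain ⟨N₁, h⟩ := h E
  obtain ⟨X₀, hdet⟩ := det_poly d (2 * E) (U + 3) hd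
  obtain ⟨N₂, hVz⟩ := Vz_inv_small E
  obtain ⟨N₃, hev⟩ := ev (⌈((E + 1 : ℕ) : ℝ) / δ⌉₊) (9 + 2 ^ d + X₀ + (1 / δ) ^ (U + 3) + (1 / δ) ^ 2 +
    (3 * d : ℝ) ^ (3 * d) * Real.exp (2 * (d : ℝ) ^ 2))
  refine ⟨N₁ + N₂ + N₃ + 3, fun N hN z hz1 hz2 Q M hQ hM P hP => ?_⟩
  obtain ⟨hLK, hLp⟩ := hev N (by omega)
  have hN2 : 2 ≤ N := by omega
  have hN0 : (0 : ℝ) < N := by exact_mod_cast (by omega : 0 < N)
  have hVz := hVz N (by omega) z
  have h := h N (by omega) z hz1 hz2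
  obtain ⟨L, hL⟩ : ∃ L, L = Real.log (N : ℝ) := ⟨_, rfl⟩
  rw [← hL] at hLK hLp hz1 hz2 hVz h ⊢
  have q1 : (0 : ℝ) ≤ (2 : ℝ) ^ d := by positivity
  have q2 : (0 : ℝ) ≤ X₀ := Nat.cast_nonneg _
  have q3 : (0 : ℝ) ≤ (1 / δ) ^ (U + 3) := by positivity
  have q4 : (0 : ℝ) ≤ (1 / δ) ^ 2 := by positivity
  have q5 : (0 : ℝ) ≤ (3 * d : ℝ) ^ (3 * d) * Real.exp (2 * (d : ℝ) ^ 2) := by positivity
  have hL8 : 8 ≤ L := by linarith
  have hL1 : 1 ≤ L := by linarith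
  have hL0 : 0 < L := by linarith
  have hz : 1 ≤ z := by
    have h1 : (1 : ℝ) ≤ z := (one_le_pow₀ hL1).trans hz1
    exact_mod_cast h1
  have hVz := hVz hz hz2
  have hNδ : L ^ (E + 1) ≤ (N : ℝ) ^ δ := rpow_ge_pow hδ (E + 1) hL1 hLp
  have hLE : L ≤ L ^ (E + 1) := le_self_pow₀ hL1 (by omega)
  have hQL : L ^ (E + 1) ≤ Q := hNδ.trans hQ
  have hML : L ^ (E + 1) ≤ M := hNδ.trans hM
  have hQ1 : (1 : ℝ) ≤ Q := by linarith
  have hM1 : (1 : ℝ) ≤ M := by linarith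
  have hM1' : 1 ≤ M := by exact_mod_cast hM1
  have hzQ : z < Q := by
    have h1 : (z : ℝ) < Q := by
      calc (z : ℝ) ≤ L ^ E := hz2
        _ < L ^ (E + 1) := pow_lt_pow_right₀ (by linarith) (by omega)
        _ ≤ Q := hQL
    exact_mod_cast h1
  -- the logarithm of M
  have hlM : δ * L ≤ Real.log M := by
    rw [hL, ← Real.log_rpow hN0]
    exact Real.log_le_log (Real.rpow_pos_of_pos hN0 _) hM
  have hlM0 : 0 < Real.log (M : ℝ) := lt_of_lt_of_le (by positivity) hlM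
  have hMX : X₀ ≤ M := by
    have : (X₀ : ℝ) ≤ M := by linarith
    exact_mod_cast this
  have hzM : (z : ℝ) ≤ Real.log (M : ℝ) ^ (2 * E) := by
    refine hz2.trans ?_
    rw [pow_mul]
    apply pow_le_pow_left₀ hL0.le
    calc L ≤ (δ * L) ^ 2 := by
          have h1 : (1 / δ) ^ 2 ≤ L := by linarith
          have h2 : 1 = δ ^ 2 * (1 / δ) ^ 2 := by field_simp
          calc L = (δ ^ 2 * (1 / δ) ^ 2) * L := by rw [← h2, one_mul]
            _ ≤ (δ ^ 2 * L) * L := by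
                apply mul_le_mul_of_nonneg_right _ hL0.le
                exact mul_le_mul_of_nonneg_left h1 (by positivity)
            _ = _ := by ring
      _ ≤ _ := pow_le_pow_left₀ (by positivity) hlM 2
  have hMU : (M : ℝ) / Real.log (M : ℝ) ^ (U + 3) ≤ M / L ^ (U + 2) := by
    apply div_le_div_of_nonneg_left (Nat.cast_nonneg _) (by positivity)
    calc L ^ (U + 2) ≤ (δ * L) ^ (U + 3) := by
          have h1 : (1 / δ) ^ (U + 3) ≤ L := by linarith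
          have h2 : 1 = δ ^ (U + 3) * (1 / δ) ^ (U + 3) := by
            rw [← mul_pow, mul_one_div_cancel hδ.ne', one_pow]
          calc L ^ (U + 2) = (δ ^ (U + 3) * (1 / δ) ^ (U + 3)) * L ^ (U + 2) := by rw [← h2, one_mul]
            _ ≤ (δ ^ (U + 3) * L) * L ^ (U + 2) := by
                apply mul_le_mul_of_nonneg_right _ (by positivity)
                exact mul_le_mul_of_nonneg_left h1 (by positivity)
            _ = _ := by ring
      _ ≤ _ := pow_le_pow_left₀ (by positivity) hlM _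
  -- the weights
  obtain ⟨x, hx⟩ : ∃ x : ℕ, x = 2 * Q * M := ⟨_, rfl⟩
  have hxr : (x : ℝ) = 2 * (Q * M) := by rw [hx]; push_cast; ring
  have hmem : ∀ q ∈ P, ∀ n ∈ Icc 1 M, q * n ∈ Icc 1 x := by
    intro q hq n hn
    rw [mem_Icc] at hn ⊢
    obtain ⟨i1, i2, i3⟩ := hP q hq
    refine ⟨Nat.mul_pos i1.pos hn.1, ?_⟩
    rw [hx]
    exact Nat.mul_le_mul i3 hn.2
  obtain ⟨w, hwd⟩ : ∃ w : ℕ → ℝ, w = fun m => if 1 ≤ m ∧ m ≤ N then rq P M m / (2 * L) else 0 := ⟨_, rfl⟩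
  have hw : ∀ m, |w m| ≤ 1 := by
    intro m
    rw [hwd]
    simp only
    split_ifs with h
    · rw [abs_div, abs_of_nonneg (rq_nonneg _ _ _), abs_of_pos (by positivity), div_le_one (by positivity)]
      refine (rq_le P M m (fun q hq => (hP q hq).1) h.1).trans ?_
      have h2 : Real.log (m : ℝ) ≤ L := by
        rw [hL]
        exact Real.log_le_log (by exact_mod_cast h.1) (by exact_mod_cast h.2)
      linarith
    · rw [abs_zero]
      exact zero_le_one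
  obtain ⟨Ex, hE1, hE2⟩ := h w hw
  refine ⟨Ex, hE1.trans ?_, fun a ha haE f hf1 hf2 hcf hx1' hx2' => ?_⟩
  · apply div_le_div_of_nonneg_left (by positivity) (by positivity)
    exact pow_le_pow_right₀ hL1 (by omega)
  have hQM : (0 : ℝ) < (Q : ℝ) * M := by positivity
  have hx1 : (N : ℝ) ^ (1 / 3 : ℝ) * L ^ C ≤ (x : ℝ) ^ f.natDegree := by
    calc (N : ℝ) ^ (1 / 3 : ℝ) * L ^ C ≤ (N : ℝ) ^ (1 / 3 : ℝ) * L ^ (C + 1) := by
          apply mul_le_mul_of_nonneg_left _ (by positivity)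
          exact pow_le_pow_right₀ hL1 (by omega)
      _ ≤ ((Q : ℝ) * M) ^ f.natDegree := hx1'
      _ ≤ _ := by
        apply pow_le_pow_left₀ hQM.le
        rw [hxr]
        linarith
  have hx2 : (x : ℝ) ^ f.natDegree * L ^ C ≤ N := by
    refine le_trans ?_ hx2'
    rw [hxr, mul_pow]
    calc (2 : ℝ) ^ f.natDegree * ((Q : ℝ) * M) ^ f.natDegree * L ^ C ≤ L * ((Q : ℝ) * M) ^ f.natDegree * L ^ C := by
          have h1 : (2 : ℝ) ^ f.natDegree ≤ L := by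
            have : (2 : ℝ) ^ f.natDegree ≤ 2 ^ d := pow_le_pow_right₀ (by norm_num) hf2
            linarith
          gcongr
      _ = _ := by ring
  have hxe : (0 : ℝ) < (x : ℝ) := by rw [hxr]; linarith
  have hxN : x ≤ N := by
    have hx1r : (1 : ℝ) ≤ x := by
      have : (1 : ℝ) ≤ (Q : ℝ) * M := one_le_mul_of_one_le_of_one_le hQ1 hM1
      rw [hxr]
      linarith
    have h1 : (x : ℝ) ≤ (x : ℝ) ^ f.natDegree := le_self_pow₀ hx1r (by omega)
    have h2 : (x : ℝ) ^ f.natDegree ≤ (x : ℝ) ^ f.natDegree * L ^ C := le_mul_of_one_le_right (by positivity) (one_le_pow₀ hL1)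
    exact_mod_cast (h1.trans h2).trans hx2
  obtain ⟨hpos, hmain⟩ := hE2 a ha haE f hf1 hf2 hcf x hx1 hx2
  have hpos' : ∀ q ∈ P, ∀ n ∈ Icc 1 M, 1 ≤ (a : ℤ) + f.eval (((q * n : ℕ) : ℤ)) := fun q hq n hn => hpos _ (hmem q hq n hn)
  refine ⟨hpos', fun hfix => Sg_low f d hd hf2 a z L hL1 (by linarith) hVz hfix, ?_⟩
  have e0 : ∀ g : ℕ → ℝ, ∑ m ∈ Icc 1 x, w m * g m = (1 / (2 * L)) * ∑ q ∈ P, ∑ n ∈ Icc 1 M, g (q * n) := by
    intro g
    rw [← rq_sum P M x hmem g, mul_sum]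
    refine sum_congr rfl fun m hm => ?_
    rw [mem_Icc] at hm
    rw [hwd]
    simp only
    rw [if_pos ⟨hm.1, hm.2.trans hxN⟩]
    ring
  rw [e0, e0, ← mul_sub, abs_mul, abs_of_pos (by positivity)] at hmain
  have t1 : |∑ q ∈ P, ∑ n ∈ Icc 1 M, thp ((a : ℤ) + f.eval (((q * n : ℕ) : ℤ))).toNat -
      ∑ q ∈ P, ∑ n ∈ Icc 1 M, lamzI z ((a : ℤ) + f.eval (((q * n : ℕ) : ℤ)))| ≤ Q * M / L ^ (U + 1) := by
    have h1 := mul_le_mul_of_nonneg_left hmain (by positivity : (0 : ℝ) ≤ 2 * L)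
    rw [← mul_assoc, mul_one_div_cancel (by positivity), one_mul] at h1
    refine h1.trans ?_
    rw [hxr]
    have h2 : 2 * L * (2 * (Q * M) / L ^ (U + 4)) = (4 / L ^ 2) * (Q * M / L ^ (U + 1)) := by
      rw [show U + 4 = (U + 1) + 3 by ring, pow_add L (U + 1) 3]
      field_simp
      ring
    rw [h2]
    apply mul_le_of_le_one_left (by positivity)
    rw [div_le_one (by positivity)]
    nlinarith
  -- the main term
  have t2 : ∀ q ∈ P, |∑ n ∈ Icc 1 M, lamzI z ((a : ℤ) + f.eval (((q * n : ℕ) : ℤ))) - M * Sg f a z| ≤ M / L ^ (U + 1) := by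
    intro q hq
    obtain ⟨i1, i2, i3⟩ := hP q hq
    obtain ⟨g, hg⟩ : ∃ g : ℤ[X], g = f.comp (Polynomial.C (q : ℤ) * X) := ⟨_, rfl⟩
    have hgd : g.natDegree ≤ d := by
      rw [hg]
      refine natDegree_comp_le.trans ?_
      calc f.natDegree * (Polynomial.C (q : ℤ) * X).natDegree ≤ f.natDegree * 1 := by
            apply Nat.mul_le_mul_left
            refine natDegree_mul_le.trans ?_
            rw [natDegree_C, natDegree_X]
        _ ≤ d := by omega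
    have hge : ∀ n : ℕ, g.eval (n : ℤ) = f.eval (((q * n : ℕ) : ℤ)) := by
      intro n
      rw [hg, eval_comp, eval_mul, eval_C, eval_X]
      push_cast
      rfl
    have hSg : Sg g a z = Sg f a z := by
      unfold Sg
      congr 1
      refine prod_congr rfl fun p hp => ?_
      obtain ⟨j1, j2⟩ := mem_pz.1 hp
      rw [hg, nuB_comp f a q p j2]
      rw [Nat.coprime_primes i1 j2]
      omega
    have e1 : ∑ n ∈ Icc 1 M, lamzI z ((a : ℤ) + f.eval (((q * n : ℕ) : ℤ))) =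
        (Vz z)⁻¹ * (((Icc 1 M).filter (fun m : ℕ => ∀ p ∈ pz z, ¬ Rt g a p m)).card : ℝ) := by
      have h1 := lamz_sum g a M z (fun m hm => by rw [hge]; exact hpos' q hq m hm)
      simp only [hge] at h1
      refine h1.trans ?_
      congr!
    have g3 := hdet M hMX z hz hzM g hgd a
    rw [e1, ← hSg]
    unfold Sg
    have e2 : (Vz z)⁻¹ * (((Icc 1 M).filter (fun m : ℕ => ∀ p ∈ pz z, ¬ Rt g a p m)).card : ℝ) -
        M * ((Vz z)⁻¹ * ∏ p ∈ pz z, (1 - (nuB (Rt g a) p : ℝ) / p)) =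
        (Vz z)⁻¹ * ((((Icc 1 M).filter (fun m : ℕ => ∀ p ∈ pz z, ¬ Rt g a p m)).card : ℝ) -
          M * ∏ p ∈ pz z, (1 - (nuB (Rt g a) p : ℝ) / p)) := by ring
    rw [e2, abs_mul, abs_of_pos (inv_pos.2 (Vz_pos z))]
    have g4 : |(((Icc 1 M).filter (fun m : ℕ => ∀ p ∈ pz z, ¬ Rt g a p m)).card : ℝ) -
          M * ∏ p ∈ pz z, (1 - (nuB (Rt g a) p : ℝ) / p)| ≤ M / L ^ (U + 2) := by
      refine le_trans (le_of_eq ?_) (g3.trans hMU)
      congr!
    calc (Vz z)⁻¹ * |(((Icc 1 M).filter (fun m : ℕ => ∀ p ∈ pz z, ¬ Rt g a p m)).card : ℝ) -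
          M * ∏ p ∈ pz z, (1 - (nuB (Rt g a) p : ℝ) / p)| ≤ L * (M / L ^ (U + 2)) :=
            mul_le_mul hVz g4 (abs_nonneg _) hL0.le
      _ = _ := by
        rw [pow_succ L (U + 1)]
        field_simp
  have hPc : (P.card : ℝ) ≤ 2 * Q := by
    have h1 : P ⊆ Icc 1 (2 * Q) := by
      intro q hq
      obtain ⟨i1, i2, i3⟩ := hP q hq
      exact mem_Icc.2 ⟨i1.one_le, i3⟩
    have h2 := card_le_card h1
    rw [Nat.card_Icc, Nat.add_sub_cancel] at h2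
    exact_mod_cast h2
  have t3 : |∑ q ∈ P, ∑ n ∈ Icc 1 M, lamzI z ((a : ℤ) + f.eval (((q * n : ℕ) : ℤ))) - P.card * M * Sg f a z| ≤
      2 * (Q * M / L ^ (U + 1)) := by
    have e1 : (P.card : ℝ) * M * Sg f a z = ∑ _q ∈ P, M * Sg f a z := by
      rw [sum_const, nsmul_eq_mul]
      ring
    rw [e1, ← sum_sub_distrib]
    refine (abs_sum_le_sum_abs _ _).trans ((sum_le_sum t2).trans ?_)
    rw [sum_const, nsmul_eq_mul]
    calc (P.card : ℝ) * (M / L ^ (U + 1)) ≤ (2 * Q) * (M / L ^ (U + 1)) := mul_le_mul_of_nonneg_right hPc (by positivity)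
      _ = _ := by ring
  have e15 : 3 * ((Q : ℝ) * M / L ^ (U + 1)) ≤ Q * M / L ^ U := by
    have h1 : (Q : ℝ) * M / L ^ U = L * (Q * M / L ^ (U + 1)) := by
      rw [pow_succ]
      field_simp
    rw [h1]
    apply mul_le_mul_of_nonneg_right _ (by positivity)
    linarith
  have b1 := abs_le.1 t1
  have b2 := abs_le.1 t3
  rw [abs_le]
  constructor <;> linarith [b1.1, b1.2, b2.1, b2.2]

end Pool.Agent.Run7.h18.MK
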