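import Mathlib
import Pool.Agent.Run7.h18.MK.Sys3

/-! Project MK: systems `a_i + f_i(p)` at prime arguments. -/

set_option autoImplicit false

namespace Pool.Agent.Run7.h18.MK

open Finset Filter Polynomial
open Pool.Agent.H373R2.T7 (lamz lamI lamzI Vz pz mem_pz Vz_pos Vz_le_one nuB PerB nuB_le Vz_inv_small rhoA)
open Pool.Agent.R460.SQ (thp ppw vm_split ppw_nn sum_ppw)
open Pool.Agent.Run7.h794.MK

lemma X_gP_deg {k : ℕ} (F : Fin k → ℤ[X]) (a : Fin k → ℕ) (d : ℕ) (hF : ∀ i, (F i).natDegree ≤ d) :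
    (X * gP F a).natDegree ≤ k * d + 1 := by
  refine natDegree_mul_le.trans ?_
  have h1 := gP_deg F a d hF
  have h2 := natDegree_X_le (R := ℤ)
  omega

/-- the main term for prime arguments in terms of the density -/
lemma dens_prime (g : ℤ[X]) (j z : ℕ) :
    (Vz z)⁻¹ ^ j * ∏ p ∈ pz z, (1 - (rhoA (Rt g 0) p : ℝ) / (p - 1 : ℝ)) = dens (X * g) (j + 1) z := by
  have h1 := prod_two g 0 z
  rw [dens_succ]
  have h2 : X * (C (0 : ℤ) + g) = X * g := by rw [C_0, zero_add]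
  unfold Sg2 at h1
  rw [h2] at h1
  have hV := (Vz_pos z).ne'
  have h3 : ∏ p ∈ pz z, (1 - (rhoA (Rt g 0) p : ℝ) / (p - 1 : ℝ)) = Sg (X * g) 0 z := by
    have h4 : Vz z * ((Vz z)⁻¹ * ∏ p ∈ pz z, (1 - (rhoA (Rt g 0) p : ℝ) / (p - 1 : ℝ))) =
        Vz z * ((Vz z)⁻¹ * Sg (X * g) 0 z) := by rw [h1]
    rwa [← mul_assoc, ← mul_assoc, mul_inv_cancel₀ hV, one_mul, one_mul] at h4
  rw [h3]

lemma prod_thp_bd {k : ℕ} (b : Fin k → ℕ) (M : ℕ) (K : ℝ) (hM : Real.log M ≤ K) (h : ∀ i, b i ≤ M) : ∏ i, thp (b i) ≤ K ^ k := by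
  have h1 : ∏ i : Fin k, thp (b i) ≤ ∏ _i : Fin k, K :=
    prod_le_prod (fun i _ => thp_nonneg _) (fun i _ => (thp_le (h i)).trans hM)
  rwa [prod_const, card_univ, Fintype.card_fin] at h1

/-- **Bateman-Horn for almost all systems at prime arguments.** -/
theorem sysp_fin (k d T U : ℕ) (hk : 1 ≤ k) (hd : 1 ≤ d) : ∃ C B : ℕ, ∀ E : ℕ, ∃ N₀ : ℕ, ∀ N : ℕ, N₀ ≤ N → ∀ z : ℕ,
    Real.log N ^ B ≤ z → (z : ℝ) ≤ Real.log N ^ E →
    ∃ Ex : Finset (Fin k → ℕ), (Ex.card : ℝ) ≤ (N : ℝ) ^ k / Real.log N ^ U ∧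
    ∀ a ∈ Fintype.piFinset (fun _ : Fin k => Icc 1 N), a ∉ Ex → ∀ F : Fin k → ℤ[X],
      (∀ i, 1 ≤ (F i).natDegree ∧ (F i).natDegree ≤ d ∧ ∀ j, |(((F i).coeff j : ℤ) : ℝ)| ≤ Real.log N ^ T) →
      ((∀ p : ℕ, p.Prime → ∃ m : ℤ, ¬ (p : ℤ) ∣ m * (gP F a).eval m) →
        1 / Real.log N ^ (k * d + 2) ≤ dens (X * gP F a) (k + 1) z) ∧ ∀ x : ℕ,
      (∀ i, (N : ℝ) ^ (1 / 3 : ℝ) * Real.log N ^ C ≤ (x : ℝ) ^ (F i).natDegree ∧ (x : ℝ) ^ (F i).natDegree * Real.log N ^ C ≤ N) →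
      (∀ i, ∀ m ∈ Icc 1 x, 1 ≤ (a i : ℤ) + (F i).eval (m : ℤ)) ∧
      |∑ m ∈ Icc 1 x, thp m * ∏ i, thp ((a i : ℤ) + (F i).eval (m : ℤ)).toNat - x * dens (X * gP F a) (k + 1) z| ≤
        x / Real.log N ^ U := by
  classical
  obtain ⟨C, B, h⟩ := sys_w law' k d T (U + 3) hk
  refine ⟨C + T + 1, B, fun E => ?_⟩
  obtain ⟨N₁, h⟩ := h E
  have hkd : 1 ≤ k * d := Nat.mul_pos hk hd
  obtain ⟨X₀, hdet⟩ := det_prime (k * d) (2 * E) (U + k + 2 + 1) hkd
  obtain ⟨N₂, hVz⟩ := Vz_inv_small E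
  obtain ⟨N₃, hev⟩ := ev (3 * ((2 * U + 4 * k + 12) * d)) (9 + d + 2 ^ k + 3 * d * X₀ + (3 * d) ^ (U + k + 2 + 1) + 9 * d ^ 2 +
    (3 * (k * d + 1 : ℕ) : ℝ) ^ (3 * (k * d + 1)) * Real.exp (2 * ((k * d + 1 : ℕ) : ℝ) ^ 2))
  refine ⟨N₁ + N₂ + N₃ + 3, fun N hN z hz1 hz2 => ?_⟩
  obtain ⟨hLK, hLp⟩ := hev N (by omega)
  have hN2 : 2 ≤ N := by omega
  have hN0 : (0 : ℝ) < N := by exact_mod_cast (by omega : 0 < N)
  have hVz := hVz N (by omega) z
  have h := h N (by omega) z hz1 hz2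
  obtain ⟨L, hL⟩ : ∃ L, L = Real.log (N : ℝ) := ⟨_, rfl⟩
  rw [← hL] at hLK hLp hz1 hz2 hVz h ⊢
  have hd0 : (1 : ℝ) ≤ d := by exact_mod_cast hd
  have hX0 : (0 : ℝ) ≤ X₀ := Nat.cast_nonneg _
  have q1 : (0 : ℝ) ≤ (2 : ℝ) ^ k := by positivity
  have q2 : (0 : ℝ) ≤ 3 * d * X₀ := by positivity
  have q3 : (0 : ℝ) ≤ (3 * d : ℝ) ^ (U + k + 2 + 1) := by positivity
  have q4 : (0 : ℝ) ≤ 9 * (d : ℝ) ^ 2 := by positivity
  have q5 : (0 : ℝ) ≤ (3 * (k * d + 1 : ℕ) : ℝ) ^ (3 * (k * d + 1)) * Real.exp (2 * ((k * d + 1 : ℕ) : ℝ) ^ 2) := by positivity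
  have hL8 : 8 ≤ L := by linarith
  have hL1 : 1 ≤ L := by linarith
  have hL0 : 0 < L := by linarith
  have hL2k : (2 : ℝ) ^ k ≤ L := by linarith
  have hz : 1 ≤ z := by
    have h1 : (1 : ℝ) ≤ z := (one_le_pow₀ hL1).trans hz1
    exact_mod_cast h1
  have hVz := hVz hz hz2
  obtain ⟨w, hwd⟩ : ∃ w : ℕ → ℝ, w = fun m => if m ≤ N then ArithmeticFunction.vonMangoldt m / L else 0 := ⟨_, rfl⟩
  have hw : ∀ m, |w m| ≤ 1 := by
    intro m
    rw [hwd]
    simp only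
    split_ifs with h
    · rw [abs_div, abs_of_nonneg ArithmeticFunction.vonMangoldt_nonneg, abs_of_pos hL0, div_le_one hL0, hL]
      rcases Nat.eq_zero_or_pos m with h0 | h0
      · rw [h0, ArithmeticFunction.map_zero]
        exact Real.log_natCast_nonneg _
      · exact ArithmeticFunction.vonMangoldt_le_log.trans (Real.log_le_log (by exact_mod_cast h0) (by exact_mod_cast h))
    · rw [abs_zero]
      exact zero_le_one
  obtain ⟨Ex, hE1, hE2⟩ := h w hw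
  refine ⟨Ex, hE1.trans ?_, fun a ha haE F hF => ⟨fun hfix => ?_, fun x hx12' => ?_⟩⟩
  · apply div_le_div_of_nonneg_left (by positivity) (by positivity)
    exact pow_le_pow_right₀ hL1 (by omega)
  · refine dens_low (X * gP F a) (k + 1) (k * d + 1) z (by omega) (by omega) (X_gP_deg F a d fun i => (hF i).2.1) L hL1
      (by linarith) hVz (fun p hp => ?_)
    obtain ⟨m, hm⟩ := hfix p hp
    refine ⟨m, ?_⟩
    rw [eval_mul, eval_X]
    exact hm
  · have hx12 : ∀ i, (N : ℝ) ^ (1 / 3 : ℝ) * L ^ C ≤ (x : ℝ) ^ (F i).natDegree ∧ (x : ℝ) ^ (F i).natDegree * L ^ C ≤ N := by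
      intro i
      obtain ⟨i1, i2⟩ := hx12' i
      refine ⟨le_trans ?_ i1, le_trans ?_ i2⟩
      · apply mul_le_mul_of_nonneg_left _ (by positivity)
        exact pow_le_pow_right₀ hL1 (by omega)
      · apply mul_le_mul_of_nonneg_left _ (by positivity)
        exact pow_le_pow_right₀ hL1 (by omega)
    obtain ⟨hpos, hmain⟩ := hE2 a ha haE F hF x hx12
    refine ⟨hpos, ?_⟩
    obtain ⟨s1, s2, s3, s4, s5, s6⟩ := sizes N d (U + k + 2) L hL hd hN2 hL1 (by linarith) (by linarith) X₀ (by linarith)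
      (F ⟨0, hk⟩) (hF ⟨0, hk⟩).1 (hF ⟨0, hk⟩).2.1 x C (hx12 ⟨0, hk⟩).1 (hx12 ⟨0, hk⟩).2 E z hz2
    have g3 := hdet x s3 z hz s4 (gP F a) (gP_deg F a d fun i => (hF i).2.1) 0
    have hxr : (1 : ℝ) ≤ x := by exact_mod_cast s1
    have hx0 : (0 : ℝ) < x := by linarith
    have hxL : L ^ (2 * U + 4 * k + 12) ≤ x := by
      by_contra hcon
      push Not at hcon
      have h0 := (hx12 ⟨0, hk⟩).1
      have h00 := (hF ⟨0, hk⟩).1
      have h01 := (hF ⟨0, hk⟩).2.1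
      have hcube : (N : ℝ) ^ (1 / 3 : ℝ) ≤ (x : ℝ) ^ (F ⟨0, hk⟩).natDegree := by
        refine le_trans ?_ h0
        exact le_mul_of_one_le_right (by positivity) (one_le_pow₀ hL1)
      have h1 : (x : ℝ) ^ (F ⟨0, hk⟩).natDegree < N ^ (1 / 3 : ℝ) := by
        calc (x : ℝ) ^ (F ⟨0, hk⟩).natDegree < (L ^ (2 * U + 4 * k + 12)) ^ (F ⟨0, hk⟩).natDegree :=
              pow_lt_pow_left₀ hcon (by linarith) (by omega)
          _ ≤ (L ^ (2 * U + 4 * k + 12)) ^ d := pow_le_pow_right₀ (one_le_pow₀ hL1) h01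
          _ = L ^ ((2 * U + 4 * k + 12) * d) := by rw [← pow_mul]
          _ ≤ _ := rpow_third_ge (by positivity) (by rw [← pow_mul, mul_comm]; exact hLp)
      linarith
    -- the three errors
    have e0 : ∀ h : ℕ → ℝ, ∑ m ∈ Icc 1 x, w m * h m = (1 / L) * ∑ m ∈ Icc 1 x, ArithmeticFunction.vonMangoldt m * h m := by
      intro h
      rw [mul_sum]
      refine sum_congr rfl fun m hm => ?_
      rw [mem_Icc] at hm
      rw [hwd]
      simp only
      rw [if_pos (hm.2.trans s2)]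
      ring
    have t1 : |∑ m ∈ Icc 1 x, ArithmeticFunction.vonMangoldt m * ∏ i, thp ((a i : ℤ) + (F i).eval (m : ℤ)).toNat -
        ∑ m ∈ Icc 1 x, ArithmeticFunction.vonMangoldt m * ∏ i, lamzI z ((a i : ℤ) + (F i).eval (m : ℤ))| ≤ x / L ^ (U + 2) := by
      rw [e0, e0, ← mul_sub, abs_mul, abs_of_pos (by positivity)] at hmain
      have h1 := mul_le_mul_of_nonneg_left hmain hL0.le
      have h2 : L * (x / L ^ (U + 3)) = x / L ^ (U + 2) := by
        rw [pow_succ L (U + 2)]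
        field_simp
      rw [h2] at h1
      refine le_trans (le_of_eq ?_) h1
      rw [← mul_assoc, mul_one_div_cancel hL0.ne', one_mul]
    have t2 : |∑ m ∈ Icc 1 x, ArithmeticFunction.vonMangoldt m * ∏ i, lamzI z ((a i : ℤ) + (F i).eval (m : ℤ)) -
        x * dens (X * gP F a) (k + 1) z| ≤ x / L ^ (U + 2) := by
      rw [sum_prod_lamz F a z x _ hpos, ← dens_prime]
      have e1 : (Vz z)⁻¹ ^ k * (∑ m ∈ (Icc 1 x).filter (fun m : ℕ => ∀ p ∈ pz z, ¬ Rt (gP F a) 0 p m), ArithmeticFunction.vonMangoldt m) -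
          x * ((Vz z)⁻¹ ^ k * ∏ p ∈ pz z, (1 - (rhoA (Rt (gP F a) 0) p : ℝ) / (p - 1 : ℝ))) =
          (Vz z)⁻¹ ^ k * ((∑ m ∈ (Icc 1 x).filter (fun m : ℕ => ∀ p ∈ pz z, ¬ Rt (gP F a) 0 p m), ArithmeticFunction.vonMangoldt m) -
            x * ∏ p ∈ pz z, (1 - (rhoA (Rt (gP F a) 0) p : ℝ) / (p - 1 : ℝ))) := by ring
      have hV0 := inv_pos.2 (Vz_pos z)
      have g4 : |(∑ m ∈ (Icc 1 x).filter (fun m : ℕ => ∀ p ∈ pz z, ¬ Rt (gP F a) 0 p m), ArithmeticFunction.vonMangoldt m) -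
            x * ∏ p ∈ pz z, (1 - (rhoA (Rt (gP F a) 0) p : ℝ) / (p - 1 : ℝ))| ≤ x / L ^ (U + k + 2) := by
        refine le_trans (le_of_eq ?_) (g3.trans s5)
        congr!
      refine le_trans (le_of_eq (congrArg abs e1)) ?_
      rw [abs_mul, abs_of_pos (by positivity)]
      calc (Vz z)⁻¹ ^ k * |(∑ m ∈ (Icc 1 x).filter (fun m : ℕ => ∀ p ∈ pz z, ¬ Rt (gP F a) 0 p m), ArithmeticFunction.vonMangoldt m) -
            x * ∏ p ∈ pz z, (1 - (rhoA (Rt (gP F a) 0) p : ℝ) / (p - 1 : ℝ))| ≤ L ^ k * (x / L ^ (U + k + 2)) := by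
              apply mul_le_mul _ g4 (abs_nonneg _) (by positivity)
              exact pow_le_pow_left₀ hV0.le hVz k
        _ = _ := by
          have e2 : L ^ (U + k + 2) = L ^ k * L ^ (U + 2) := by rw [← pow_add]; congr 1; ring
          rw [e2]
          field_simp
    have t3 : |∑ m ∈ Icc 1 x, ArithmeticFunction.vonMangoldt m * ∏ i, thp ((a i : ℤ) + (F i).eval (m : ℤ)).toNat -
        ∑ m ∈ Icc 1 x, thp m * ∏ i, thp ((a i : ℤ) + (F i).eval (m : ℤ)).toNat| ≤ x / L ^ (U + 2) := by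
      have e1 : ∑ m ∈ Icc 1 x, ArithmeticFunction.vonMangoldt m * ∏ i, thp ((a i : ℤ) + (F i).eval (m : ℤ)).toNat -
        ∑ m ∈ Icc 1 x, thp m * ∏ i, thp ((a i : ℤ) + (F i).eval (m : ℤ)).toNat =
          ∑ m ∈ Icc 1 x, ppw m * ∏ i, thp ((a i : ℤ) + (F i).eval (m : ℤ)).toNat := by
        rw [← sum_sub_distrib]
        refine sum_congr rfl fun m _ => ?_
        rw [vm_split]
        ring
      rw [e1, abs_of_nonneg (sum_nonneg fun _ _ => mul_nonneg (ppw_nn _) (prod_nonneg fun _ _ => thp_nonneg _))]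
      have hle : ∀ m ∈ Icc 1 x, ∏ i, thp ((a i : ℤ) + (F i).eval (m : ℤ)).toNat ≤ (2 * L) ^ k := by
        intro m hm
        apply prod_thp_bd _ (2 * N) (2 * L) (by rw [hL]; exact log_two_N N hN2)
        intro i
        have h6 := eval_le (F i) d (hF i).2.1 (L ^ T) (hF i).2.2 x m hm
        have h7 : |(((F i).eval (m : ℤ) : ℤ) : ℝ)| ≤ N := by
          refine h6.trans (le_trans ?_ (hx12' i).2)
          calc ((d : ℝ) + 1) * L ^ T * (x : ℝ) ^ (F i).natDegree ≤ L * L ^ T * (x : ℝ) ^ (F i).natDegree := by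
                have : (d : ℝ) + 1 ≤ L := by linarith
                gcongr
            _ = (x : ℝ) ^ (F i).natDegree * L ^ (T + 1) := by ring
            _ ≤ _ := by
                apply mul_le_mul_of_nonneg_left _ (by positivity)
                exact pow_le_pow_right₀ hL1 (by omega)
        rw [← Int.cast_abs] at h7
        have h8 : |(F i).eval (m : ℤ)| ≤ N := by exact_mod_cast h7
        have h9 := (abs_le.1 h8).2
        have h10 := hpos i m hm
        have h11 := Fintype.mem_piFinset.1 ha i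
        rw [mem_Icc] at h11
        omega
      calc ∑ m ∈ Icc 1 x, ppw m * ∏ i, thp ((a i : ℤ) + (F i).eval (m : ℤ)).toNat ≤ ∑ m ∈ Icc 1 x, ppw m * (2 * L) ^ k :=
            sum_le_sum fun m hm => mul_le_mul_of_nonneg_left (hle m hm) (ppw_nn _)
        _ = (∑ m ∈ Icc 1 x, ppw m) * (2 * L) ^ k := by rw [sum_mul]
        _ ≤ (2 * Real.sqrt x * Real.log x) * (2 * L) ^ k := mul_le_mul_of_nonneg_right (sum_ppw s1) (by positivity)
        _ ≤ (2 * Real.sqrt x * L) * (2 * L) ^ k := by gcongr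
        _ ≤ x / L ^ (U + 2) := by
          rw [le_div_iff₀ (by positivity)]
          have e2 : L ^ (U + 2 * k + 6) ≤ Real.sqrt x := by
            apply Real.le_sqrt_of_sq_le
            rw [← pow_mul]
            refine le_trans (le_of_eq ?_) hxL
            congr 1
            ring
          have e3 : Real.sqrt x * Real.sqrt x = x := Real.mul_self_sqrt hx0.le
          calc 2 * Real.sqrt x * L * (2 * L) ^ k * L ^ (U + 2) = Real.sqrt x * (2 * 2 ^ k * L ^ (U + k + 3)) := by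
                rw [mul_pow]
                ring
            _ ≤ Real.sqrt x * (L * L * L ^ (U + k + 3)) := by
              apply mul_le_mul_of_nonneg_left _ (Real.sqrt_nonneg _)
              apply mul_le_mul_of_nonneg_right _ (by positivity)
              exact mul_le_mul (by linarith) hL2k (by positivity) hL0.le
            _ = Real.sqrt x * L ^ (U + k + 5) := by ring
            _ ≤ Real.sqrt x * L ^ (U + 2 * k + 6) := by
              apply mul_le_mul_of_nonneg_left _ (Real.sqrt_nonneg _)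
              exact pow_le_pow_right₀ hL1 (by omega)
            _ ≤ Real.sqrt x * Real.sqrt x := mul_le_mul_of_nonneg_left e2 (Real.sqrt_nonneg _)
            _ = x := e3
    have e15 : 3 * ((x : ℝ) / L ^ (U + 2)) ≤ x / L ^ U := by
      rw [← mul_div_assoc, div_le_div_iff₀ (by positivity) (by positivity), pow_add]
      have a2 : 3 ≤ L ^ 2 := by nlinarith
      calc 3 * (x : ℝ) * L ^ U = (x * L ^ U) * 3 := by ring
        _ ≤ (x * L ^ U) * L ^ 2 := mul_le_mul_of_nonneg_left a2 (by positivity)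
        _ = _ := by ring
    have b1 := abs_le.1 t1
    have b2 := abs_le.1 t2
    have b3 := abs_le.1 t3
    rw [abs_le]
    constructor <;> linarith [b1.1, b1.2, b2.1, b2.2, b3.1, b3.2]

end Pool.Agent.Run7.h18.MK
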