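import Mathlib
import Pool.Agent.Run7.h18.MK.Poly2

/-! Project MK: sifted counts of very short length, shifts of the argument. -/

set_option autoImplicit false

namespace Pool.Agent.Run7.h18.MK

open Finset Filter Polynomial
open Pool.Agent.H373R2.T7 (lamz lamI lamzI Vz pz mem_pz Vz_pos nuB PerB nuB_le sys_count sieve_gen' count_sys es es_le card_small card_pz_le sum_pz_le)

set_option maxHeartbeats 1000000 in
open Classical in
/-- sifted counts of length `exp (K (log L)^2)` -/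
theorem sys_count2 (c E U : ℕ) (hc : 1 ≤ c) : ∃ K L₀ : ℕ, ∀ L : ℝ, (L₀ : ℝ) ≤ L → ∀ N : ℕ, Real.exp (K * Real.log L ^ 2) ≤ N →
    ∀ z : ℕ, 1 ≤ z → (z : ℝ) ≤ L ^ E → ∀ Q : ℕ → ℕ → Prop, PerB Q c →
    |((((Icc 1 N).filter (fun n : ℕ => ∀ p ∈ pz z, ¬ Q p n)).card : ℕ) : ℝ) -
      N * ∏ p ∈ pz z, (1 - (nuB Q p : ℝ) / p)| ≤ N / L ^ U := by
  obtain ⟨K1, hK1⟩ : ∃ K1 : ℕ, K1 = 3 * c + 3 * c * E + (U + 2) + 1 := ⟨_, rfl⟩
  refine ⟨K1 * (2 * c + E) + (U + 2), 3, fun L hL3 N hN z hz hzE Q hQ => ?_⟩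
  have hL3 : (3 : ℝ) ≤ L := by exact_mod_cast hL3
  have hL0 : 0 < L := by linarith
  have hL1 : 1 ≤ L := by linarith
  obtain ⟨l, hl⟩ : ∃ l, l = Real.log L := ⟨_, rfl⟩
  rw [← hl] at hN
  have hl1 : 1 ≤ l := by
    rw [hl, Real.le_log_iff_exp_le hL0]
    have := Real.exp_one_lt_d9
    linarith
  have hl0 : 0 < l := by linarith
  have hexpl : Real.exp l = L := by rw [hl, Real.exp_log hL0]
  have hN0 : (0 : ℝ) < N := lt_of_lt_of_le (Real.exp_pos _) hN
  have hcr : (1 : ℝ) ≤ c := by exact_mod_cast hc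
  have hz0 : (0 : ℝ) < z := by exact_mod_cast hz
  have hlz : Real.log z ≤ E * l := by
    have h1 := Real.log_le_log hz0 hzE
    rwa [Real.log_pow, ← hl] at h1
  have hlz0 : 0 ≤ Real.log (z : ℝ) := Real.log_natCast_nonneg _
  obtain ⟨r, hr⟩ : ∃ r : ℕ, r = ⌈3 * (c * (1 + Real.log z)) + (U + 2 : ℕ) * l⌉₊ := ⟨_, rfl⟩
  have hr1 : 3 * (c * (1 + Real.log z)) + (U + 2 : ℕ) * l ≤ r := by rw [hr]; exact Nat.le_ceil _
  have hr2 : (r : ℝ) ≤ K1 * l := by
    have h1 : (r : ℝ) < 3 * (c * (1 + Real.log z)) + (U + 2 : ℕ) * l + 1 := by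
      rw [hr]; exact Nat.ceil_lt_add_one (by positivity)
    have h2 : 3 * (c * (1 + Real.log z)) ≤ 3 * (c * (l + E * l)) := by gcongr
    rw [hK1]
    push_cast at h1 ⊢
    nlinarith
  have hes : Real.exp (3 * (c * (1 + Real.log z)) - r) ≤ 1 / L ^ (U + 2) := by
    calc Real.exp (3 * (c * (1 + Real.log z)) - r) ≤ Real.exp (-((U + 2 : ℕ) * l)) := by
          apply Real.exp_le_exp.2
          linarith
      _ = 1 / L ^ (U + 2) := by
          rw [Real.exp_neg, Real.exp_nat_mul, hexpl, one_div]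
  have hbig : ((z : ℝ) + 1) ^ r * (c : ℝ) ^ r * L ^ (U + 2) ≤ N := by
    refine le_trans ?_ hN
    have h1 : ((z : ℝ) + 1) * c ≤ Real.exp ((2 * c + E) * l) := by
      have h2 : (z : ℝ) + 1 ≤ 2 * L ^ E := by
        have : (1 : ℝ) ≤ z := by exact_mod_cast hz
        linarith
      have h3 : 2 * (c : ℝ) ≤ Real.exp (2 * c * l) := by
        have h4 := Real.add_one_le_exp (2 * (c : ℝ) * l)
        have h5 : 2 * (c : ℝ) ≤ 2 * c * l := by nlinarith
        linarith
      have h4 : Real.exp ((2 * c + E) * l) = Real.exp (2 * c * l) * L ^ E := by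
        rw [add_mul, Real.exp_add, Real.exp_nat_mul, hexpl]
      rw [h4]
      calc ((z : ℝ) + 1) * c ≤ (2 * L ^ E) * c := by gcongr
        _ = (2 * c) * L ^ E := by ring
        _ ≤ _ := mul_le_mul_of_nonneg_right h3 (by positivity)
    calc ((z : ℝ) + 1) ^ r * (c : ℝ) ^ r * L ^ (U + 2) = (((z : ℝ) + 1) * c) ^ r * L ^ (U + 2) := by rw [mul_pow]
      _ ≤ (Real.exp ((2 * c + E) * l)) ^ r * L ^ (U + 2) := by gcongr
      _ = Real.exp (r * ((2 * c + E) * l)) * Real.exp ((U + 2 : ℕ) * l) := by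
          rw [← Real.exp_nat_mul, Real.exp_nat_mul l, hexpl]
      _ = Real.exp (r * ((2 * c + E) * l) + (U + 2 : ℕ) * l) := by rw [Real.exp_add]
      _ ≤ _ := by
          apply Real.exp_le_exp.2
          have h2 : (r : ℝ) * ((2 * c + E) * l) ≤ (K1 * l) * ((2 * c + E) * l) := by gcongr
          have h3 : ((U + 2 : ℕ) : ℝ) * l ≤ ((U + 2 : ℕ) : ℝ) * l ^ 2 := by
            apply mul_le_mul_of_nonneg_left _ (Nat.cast_nonneg _)
            nlinarith
          push_cast at h2 h3 ⊢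
          nlinarith
  have key := sieve_gen' (Icc 1 N) (fun _ => (1 : ℝ)) (fun _ _ => zero_le_one) (fun p n => Q p n) (pz z)
    (fun p => (nuB Q p : ℝ) / p) (fun p hp => by
      have hp0 : (0 : ℝ) < p := by exact_mod_cast (mem_pz.1 hp).2.pos
      constructor
      · positivity
      · rw [div_le_one hp0]
        exact_mod_cast nuB_le Q p) (N : ℝ) hN0.le (fun _ => (c : ℝ) ^ r) r (by
      intro S hS hr
      have hSp : ∀ p ∈ S, p.Prime := fun p hp => (mem_pz.1 (hS hp)).2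
      have h3 := count_sys (fun p a => Q p a) N S hSp 1 le_rfl (fun p hp hd => (hSp p hp).one_lt.ne' (Nat.dvd_one.1 hd)) 0
      have e1 : ∑ i ∈ (Icc 1 N).filter (fun i => ∀ p ∈ S, Q p i), (1 : ℝ) =
          (((Icc 1 N).filter (fun n => n ≡ 0 [MOD 1] ∧ ∀ p ∈ S, Q p (n % p))).card : ℝ) := by
        rw [sum_const, nsmul_eq_mul, mul_one]
        congr 2
        apply filter_congr
        intro n _
        constructor
        · intro h
          exact ⟨Nat.modEq_one, fun p hp => (hQ.per p n).1 (h p hp)⟩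
        · rintro ⟨_, h⟩ p hp
          exact (hQ.per p n).2 (h p hp)
      rw [e1]
      have e2 : (N : ℝ) * ∏ p ∈ S, ((nuB Q p : ℝ) / p) = (N : ℝ) / ((1 : ℕ) : ℝ) * ∏ p ∈ S, ((((range p).filter (fun a => Q p a)).card : ℝ) / p) := by
        rw [Nat.cast_one, div_one]
        congr 1
      rw [e2]
      refine h3.trans ?_
      calc ∏ p ∈ S, (((range p).filter (fun a => Q p a)).card : ℝ) ≤ ∏ _p ∈ S, (c : ℝ) := by
            apply prod_le_prod (fun _ _ => Nat.cast_nonneg _)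
            intro p hp
            exact_mod_cast hQ.few p (hSp p hp)
        _ = (c : ℝ) ^ S.card := by rw [prod_const]
        _ ≤ (c : ℝ) ^ r := pow_le_pow_right₀ hcr hr)
  have e0 : ∑ i ∈ (Icc 1 N).filter (fun i => ∀ p ∈ pz z, ¬ Q p i), (1 : ℝ) =
      ((((Icc 1 N).filter (fun n : ℕ => ∀ p ∈ pz z, ¬ Q p n)).card : ℕ) : ℝ) := by
    rw [sum_const, nsmul_eq_mul, mul_one]
  rw [e0] at key
  refine key.trans ?_
  have e1 : ∑ j ∈ range (r + 1), ∑ _S ∈ (pz z).powersetCard j, (c : ℝ) ^ r =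
      ((∑ j ∈ range (r + 1), ((pz z).powersetCard j).card : ℕ) : ℝ) * (c : ℝ) ^ r := by
    push_cast
    rw [sum_mul]
    apply sum_congr rfl
    intro j _
    rw [sum_const, nsmul_eq_mul]
  rw [e1]
  have h3 := card_small (pz z) r
  have h4 : (((pz z).card : ℝ) + 1) ^ r ≤ ((z : ℝ) + 1) ^ r := by
    have : ((pz z).card : ℝ) ≤ z := by exact_mod_cast card_pz_le z
    gcongr
  have h5 : es (fun p => (nuB Q p : ℝ) / p) (pz z) r ≤ 1 / L ^ (U + 2) := by
    refine (es_le (fun p _ => by positivity) r).trans (le_trans ?_ hes)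
    apply Real.exp_le_exp.2
    have h6 : ∑ p ∈ pz z, (nuB Q p : ℝ) / p ≤ c * (1 + Real.log z) := by
      have h7 : ∀ p ∈ pz z, (nuB Q p : ℝ) / p ≤ c * (1 / (p : ℝ)) := by
        intro p hp
        rw [mul_one_div]
        apply div_le_div_of_nonneg_right _ (Nat.cast_nonneg _)
        exact_mod_cast hQ.few p (mem_pz.1 hp).2
      refine (sum_le_sum h7).trans ?_
      rw [← mul_sum]
      exact mul_le_mul_of_nonneg_left (sum_pz_le z) (Nat.cast_nonneg _)
    linarith
  obtain ⟨T, hT⟩ : ∃ T : ℝ, T = N / L ^ (U + 2) := ⟨_, rfl⟩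
  have hT0 : 0 < T := by rw [hT]; positivity
  have g1 : ((∑ j ∈ range (r + 1), ((pz z).powersetCard j).card : ℕ) : ℝ) * (c : ℝ) ^ r ≤ T := by
    rw [hT, le_div_iff₀ (by positivity)]
    refine le_trans ?_ hbig
    apply mul_le_mul_of_nonneg_right _ (by positivity)
    exact mul_le_mul_of_nonneg_right (h3.trans h4) (by positivity)
  have g2 : 2 * (N : ℝ) * es (fun p => (nuB Q p : ℝ) / p) (pz z) r ≤ 2 * T := by
    calc 2 * (N : ℝ) * es (fun p => (nuB Q p : ℝ) / p) (pz z) r ≤ 2 * (N : ℝ) * (1 / L ^ (U + 2)) :=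
          mul_le_mul_of_nonneg_left h5 (by positivity)
      _ = 2 * T := by rw [hT]; ring
  calc _ ≤ T + 2 * T := add_le_add g1 g2
    _ = (3 / L ^ 2) * (N / L ^ U) := by
        rw [hT, pow_add L U 2]
        field_simp
        ring
    _ ≤ 1 * (N / L ^ U) := by
        apply mul_le_mul_of_nonneg_right _ (by positivity)
        rw [div_le_one (by positivity)]
        nlinarith
    _ = _ := one_mul _

open Classical in
theorem det_poly2 (d E U : ℕ) (hd : 1 ≤ d) : ∃ K L₀ : ℕ, ∀ L : ℝ, (L₀ : ℝ) ≤ L → ∀ x : ℕ, Real.exp (K * Real.log L ^ 2) ≤ x →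
    ∀ z : ℕ, 1 ≤ z → (z : ℝ) ≤ L ^ E → ∀ f : ℤ[X], f.natDegree ≤ d → ∀ n : ℤ,
    |(((Icc 1 x).filter (fun m : ℕ => ∀ p ∈ pz z, ¬ Rt f n p m)).card : ℝ) -
      x * ∏ p ∈ pz z, (1 - (nuB (Rt f n) p : ℝ) / p)| ≤ x / L ^ U := by
  obtain ⟨K, L₀, h0⟩ := sys_count2 d E U hd
  refine ⟨K, L₀ + 1, fun L hL x hx z hz hzE f hf n => ?_⟩
  push_cast at hL
  have hL00 : (0 : ℝ) ≤ L₀ := Nat.cast_nonneg _
  have hL0 : 0 < L := by linarith
  by_cases hex : ∃ p ∈ pz z, nuB (Rt f n) p = p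
  · obtain ⟨p, hp, hpe⟩ := hex
    have hpp := (mem_pz.1 hp).2
    have hp0 : (p : ℝ) ≠ 0 := by exact_mod_cast hpp.ne_zero
    have h1 : ∏ p ∈ pz z, (1 - (nuB (Rt f n) p : ℝ) / p) = 0 := by
      apply prod_eq_zero hp
      rw [hpe, div_self hp0, sub_self]
    have h2 : (Icc 1 x).filter (fun m : ℕ => ∀ p ∈ pz z, ¬ Rt f n p m) = ∅ := by
      apply filter_eq_empty_iff.2
      intro m _ hcon
      apply hcon p hp
      rw [Rt_per]
      have h3 : (range p).filter (fun r => Rt f n p r) = range p := by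
        apply eq_of_subset_of_card_le (filter_subset _ _)
        have h4 : ((range p).filter (fun r => Rt f n p r)).card = p := by
          have h5 := hpe
          unfold nuB at h5
          convert h5
        rw [h4, card_range]
      have h4 : m % p ∈ (range p).filter (fun r => Rt f n p r) := by
        rw [h3, mem_range]
        exact Nat.mod_lt _ hpp.pos
      exact (mem_filter.1 h4).2
    rw [h1, h2, card_empty, Nat.cast_zero, mul_zero, sub_zero, abs_zero]
    positivity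
  · push Not at hex
    obtain ⟨Q, hQ⟩ : ∃ Q : ℕ → ℕ → Prop, Q = fun p m => p ≤ z ∧ Rt f n p m := ⟨_, rfl⟩
    have hnu : ∀ p ∈ pz z, nuB Q p = nuB (Rt f n) p := by
      intro p hp
      have hpz := (mem_pz.1 hp).1
      unfold nuB
      congr 1
      ext r
      rw [mem_filter, mem_filter, hQ]
      simp only [hpz, true_and]
    have hPer : PerB Q d := by
      constructor
      · intro p m
        rw [hQ]
        simp only
        rw [Rt_per f n p m]
      · intro p hp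
        by_cases hpz : p ≤ z
        · have hpm : p ∈ pz z := mem_pz.2 ⟨hpz, hp⟩
          rw [hnu p hpm]
          rcases nuB_or f n p hp with h | h
          · exact absurd h (hex p hpm)
          · exact h.trans hf
        · have h3 : nuB Q p = 0 := by
            unfold nuB
            rw [card_eq_zero, filter_eq_empty_iff]
            intro r _ hcon
            rw [hQ] at hcon
            exact hpz hcon.1
          omega
    have h4 := h0 L (by linarith) x hx z hz hzE Q hPer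
    have h5 : ∏ p ∈ pz z, (1 - (nuB Q p : ℝ) / p) = ∏ p ∈ pz z, (1 - (nuB (Rt f n) p : ℝ) / p) :=
      prod_congr rfl fun p hp => by rw [hnu p hp]
    have h6 : (Icc 1 x).filter (fun m : ℕ => ∀ p ∈ pz z, ¬ Q p m) =
        (Icc 1 x).filter (fun m : ℕ => ∀ p ∈ pz z, ¬ Rt f n p m) := by
      apply filter_congr
      intro m _
      rw [hQ]
      constructor
      · intro h p hp hc
        exact h p hp ⟨(mem_pz.1 hp).1, hc⟩
      · intro h p hp hc
        exact h p hp hc.2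
    rw [h5] at h4
    rw [← h6]
    convert h4

/-- the number of roots does not change under shifts of the variable -/
lemma nuB_shift (g : ℤ[X]) (n : ℤ) (s p : ℕ) (hp : 1 ≤ p) :
    nuB (Rt (g.comp (X - C (s : ℤ))) n) p = nuB (Rt g n) p := by
  classical
  have hmod : ∀ (r : ℕ) (t : ℤ), t ≡ (r : ℤ) [ZMOD p] → (Rt g n p r ↔ (p : ℤ) ∣ n + g.eval t) := by
    intro r t ht
    unfold Rt
    apply dvd_iff_dvd_of_dvd_sub
    have h1 : ((r : ℤ) - t) ∣ g.eval (r : ℤ) - g.eval t := sub_dvd_eval_sub _ _ _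
    have h2 : (p : ℤ) ∣ (r : ℤ) - t := (Int.modEq_iff_dvd).1 ht
    have h3 : n + g.eval (r : ℤ) - (n + g.eval t) = g.eval (r : ℤ) - g.eval t := by ring
    rw [h3]
    exact h2.trans h1
  have hc : ∀ r : ℕ, Rt (g.comp (X - C (s : ℤ))) n p r ↔ (p : ℤ) ∣ n + g.eval ((r : ℤ) - s) := by
    intro r
    unfold Rt
    rw [eval_comp, eval_sub, eval_X, eval_C]
  have key : ∀ r : ℕ, Rt (g.comp (X - C (s : ℤ))) n p r ↔ Rt g n p ((r + (p - 1) * s) % p) := by
    intro r
    rw [hc, ← hmod ((r + (p - 1) * s) % p) ((r : ℤ) - s)]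
    apply Int.ModEq.symm
    have h1 : (((r + (p - 1) * s) % p : ℕ) : ℤ) ≡ ((r + (p - 1) * s : ℕ) : ℤ) [ZMOD p] := by
      push_cast
      exact Int.mod_modEq _ _
    refine h1.trans ?_
    apply (Int.modEq_iff_dvd).2
    refine ⟨-(s : ℤ), ?_⟩
    have h2 : ((p - 1 : ℕ) : ℤ) = (p : ℤ) - 1 := by
      rw [Nat.cast_sub hp, Nat.cast_one]
    push_cast [h2]
    ring
  unfold nuB
  apply card_bij (fun r _ => (r + (p - 1) * s) % p)
  · intro r hr
    rw [mem_filter, mem_range] at hr ⊢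
    exact ⟨Nat.mod_lt _ hp, (key r).1 hr.2⟩
  · intro r hr t ht h
    rw [mem_filter, mem_range] at hr ht
    have h1 : r + (p - 1) * s ≡ t + (p - 1) * s [MOD p] := h
    exact Nat.ModEq.eq_of_lt_of_lt (Nat.ModEq.add_right_cancel' _ h1) hr.1 ht.1
  · intro b hb
    rw [mem_filter, mem_range] at hb
    have h2 : ((b + s) % p + (p - 1) * s) % p = b := by
      have h1 : (b + s) % p + (p - 1) * s ≡ b [MOD p] := by
        calc (b + s) % p + (p - 1) * s ≡ (b + s) + (p - 1) * s [MOD p] := Nat.ModEq.add_right _ (Nat.mod_modEq _ _)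
          _ = b + p * s := by
              obtain ⟨p', rfl⟩ : ∃ p', p = p' + 1 := ⟨p - 1, by omega⟩
              rw [Nat.add_sub_cancel]
              ring
          _ ≡ b [MOD p] := by
              show (b + p * s) % p = b % p
              rw [Nat.add_mul_mod_self_left]
      have h3 : ((b + s) % p + (p - 1) * s) % p = b % p := h1
      rw [h3, Nat.mod_eq_of_lt hb.1]
    refine ⟨(b + s) % p, ?_, h2⟩
    rw [mem_filter, mem_range]
    refine ⟨Nat.mod_lt _ hp, ?_⟩
    rw [key, h2]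
    exact hb.2

end Pool.Agent.Run7.h18.MK
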