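import Mathlib
import Pool.Agent.Run7.h18.MK.Sys3
import Pool.Agent.Run7.h18.MK.Cls1
import Pool.Agent.N792.Lsc

/-! Project MK: simultaneous primes in almost all classes of the argument (Barban-Davenport-Halberstam). -/

set_option autoImplicit false

namespace Pool.Agent.Run7.h18.MK

open Finset Filter Polynomial
open Pool.Agent.H373R2.T7 (lamz lamI lamzI Vz pz mem_pz Vz_pos Vz_le_one nuB PerB nuB_le Vz_inv_small rhoA)
open Pool.Agent.R460.SQ (thp ppw vm_split ppw_nn sum_ppw)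
open Pool.Agent.Run7.h794.MK

/-- the polynomial along a class -/
noncomputable def gc (g : ℤ[X]) (q b : ℕ) : ℤ[X] := g.comp (C (q : ℤ) * X + C (b : ℤ))

lemma gc_eval (g : ℤ[X]) (q b : ℕ) (t : ℤ) : (gc g q b).eval t = g.eval ((q : ℤ) * t + b) := by
  unfold gc
  rw [eval_comp, eval_add, eval_mul, eval_C, eval_X, eval_C]

lemma gc_deg (g : ℤ[X]) (q b d : ℕ) (hg : g.natDegree ≤ d) : (gc g q b).natDegree ≤ d := by
  unfold gc
  refine natDegree_comp_le.trans ?_
  have h1 : (C (q : ℤ) * X + C (b : ℤ)).natDegree ≤ 1 := by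
    refine (natDegree_add_le _ _).trans ?_
    rw [natDegree_C]
    apply max_le _ (Nat.zero_le _)
    refine natDegree_mul_le.trans ?_
    rw [natDegree_C, natDegree_X]
  calc g.natDegree * (C (q : ℤ) * X + C (b : ℤ)).natDegree ≤ d * 1 := Nat.mul_le_mul hg h1
    _ = d := mul_one d

/-- the elements of a class -/
lemma class_bij (x q b : ℕ) (hq : 1 ≤ q) (hb : b < q) (P : ℕ → Prop) [DecidablePred P] :
    ((Icc 1 x).filter (fun m => m % q = b ∧ P m)).card =
      ((Icc 1 ((x + (q - b) % q) / q)).filter (fun t => P (q * t - (q - b) % q))).card := by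
  classical
  obtain ⟨c, hc⟩ : ∃ c, c = (q - b) % q := ⟨_, rfl⟩
  rw [← hc]
  have hcq : c < q := by rw [hc]; exact Nat.mod_lt _ hq
  have hcb : (b = 0 ∧ c = 0) ∨ (1 ≤ b ∧ c = q - b) := by
    rcases Nat.eq_zero_or_pos b with h | h
    · left
      refine ⟨h, ?_⟩
      rw [hc, h, Nat.sub_zero, Nat.mod_self]
    · right
      refine ⟨h, ?_⟩
      rw [hc, Nat.mod_eq_of_lt (by omega)]
  symm
  apply card_bij (fun t _ => q * t - c)
  · intro t ht
    rw [mem_filter, mem_Icc] at ht ⊢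
    obtain ⟨⟨h1, h2⟩, h3⟩ := ht
    have h4 : q * t ≤ x + c := by
      rw [Nat.le_div_iff_mul_le hq] at h2
      rw [mul_comm]
      exact h2
    have h5 : q ≤ q * t := Nat.le_mul_of_pos_right q h1
    refine ⟨⟨by omega, by omega⟩, ?_, h3⟩
    rcases hcb with ⟨hb0, hc0⟩ | ⟨hb1, hc1⟩
    · rw [hc0, hb0, Nat.sub_zero, Nat.mul_mod_right]
    · have h6 : q * t - c = q * (t - 1) + b := by
        obtain ⟨s, rfl⟩ : ∃ s, t = s + 1 := ⟨t - 1, by omega⟩
        rw [Nat.add_sub_cancel, mul_add, mul_one]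
        omega
      rw [h6, Nat.mul_add_mod, Nat.mod_eq_of_lt hb]
  · intro t ht s hs h
    rw [mem_filter, mem_Icc] at ht hs
    have h5 : q ≤ q * t := Nat.le_mul_of_pos_right q ht.1.1
    have h6 : q ≤ q * s := Nat.le_mul_of_pos_right q hs.1.1
    have h7 : q * t = q * s := by omega
    exact Nat.eq_of_mul_eq_mul_left hq h7
  · intro m hm
    rw [mem_filter, mem_Icc] at hm
    obtain ⟨⟨h1, h2⟩, h3, h4⟩ := hm
    have h5 := Nat.div_add_mod m q
    rw [h3] at h5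
    rcases hcb with ⟨hb0, hc0⟩ | ⟨hb1, hc1⟩
    · have h6 : q * (m / q) = m := by omega
      refine ⟨m / q, ?_, by omega⟩
      rw [mem_filter, mem_Icc]
      refine ⟨⟨?_, ?_⟩, ?_⟩
      · rcases Nat.eq_zero_or_pos (m / q) with h | h
        · rw [h, mul_zero] at h6
          omega
        · exact h
      · apply Nat.div_le_div_right
        omega
      · have h7 : q * (m / q) - c = m := by omega
        rw [h7]
        exact h4
    · have h6 : q * (m / q + 1) - c = m := by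
        rw [mul_add, mul_one]
        omega
      refine ⟨m / q + 1, ?_, h6⟩
      rw [mem_filter, mem_Icc]
      refine ⟨⟨Nat.le_add_left 1 _, ?_⟩, ?_⟩
      · rw [Nat.le_div_iff_mul_le hq, mul_comm, mul_add, mul_one]
        rw [mul_add, mul_one] at h6
        omega
      · rw [h6]
        exact h4

/-- the sifted count in a class -/
lemma class_count (K d U : ℕ) (L : ℝ) (hL : 1 ≤ L) (g : ℤ[X]) (hg : g.natDegree ≤ d) (z : ℕ)
    (hdet : ∀ x : ℕ, Real.exp (K * Real.log L ^ 2) ≤ x → ∀ f : ℤ[X], f.natDegree ≤ d → ∀ n : ℤ,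
      |((open Classical in (Icc 1 x).filter (fun m : ℕ => ∀ p ∈ pz z, ¬ Rt f n p m)).card : ℝ) -
      x * ∏ p ∈ pz z, (1 - (nuB (Rt f n) p : ℝ) / p)| ≤ x / L ^ U)
    (x q b : ℕ) (hq : 1 ≤ q) (hb : b < q) (hx : 2 * (q : ℝ) * Real.exp (K * Real.log L ^ 2) ≤ x) :
    |((open Classical in (Icc 1 x).filter (fun m : ℕ => m % q = b ∧ ∀ p ∈ pz z, ¬ Rt g 0 p m)).card : ℝ) -
      (x / q : ℝ) * ∏ p ∈ pz z, (1 - (nuB (Rt (gc g q b) 0) p : ℝ) / p)| ≤ 2 * (x / q) / L ^ U + 1 := by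
  classical
  obtain ⟨c, hc⟩ : ∃ c, c = (q - b) % q := ⟨_, rfl⟩
  have hcq : c < q := by rw [hc]; exact Nat.mod_lt _ hq
  obtain ⟨s, hs⟩ : ∃ s : ℕ, s = if b = 0 then 0 else 1 := ⟨_, rfl⟩
  have hcb : c = q * s - b ∧ b ≤ q * s := by
    rw [hs, hc]
    rcases Nat.eq_zero_or_pos b with h | h
    · rw [if_pos h, h, Nat.sub_zero, Nat.mod_self, mul_zero]
      exact ⟨rfl, le_rfl⟩
    · rw [if_neg (by omega), Nat.mod_eq_of_lt (by omega), mul_one]
      exact ⟨rfl, by omega⟩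
  obtain ⟨M, hM⟩ : ∃ M, M = (x + c) / q := ⟨_, rfl⟩
  have hq0 : (0 : ℝ) < q := by exact_mod_cast hq
  have hM1 : (x : ℝ) / q - 1 ≤ M := by
    have h1 : x < q * (M + 1) := by
      have h2 := Nat.lt_mul_div_succ (x + c) hq
      rw [← hM] at h2
      have h3 : x ≤ x + c := Nat.le_add_right _ _
      exact lt_of_le_of_lt h3 h2
    have h2 : (x : ℝ) < q * (M + 1) := by exact_mod_cast h1
    rw [sub_le_iff_le_add, div_le_iff₀ hq0]
    linarith
  have hM2 : (M : ℝ) ≤ x / q + 1 := by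
    have h1 : q * M ≤ x + c := by rw [hM]; exact Nat.mul_div_le _ _
    have h2 : (q : ℝ) * M ≤ x + c := by exact_mod_cast h1
    have h3 : (c : ℝ) ≤ q := by exact_mod_cast hcq.le
    rw [← sub_le_iff_le_add, le_div_iff₀ hq0]
    linarith
  have he1 : 1 ≤ Real.exp (K * Real.log L ^ 2) := Real.one_le_exp (by positivity)
  have hxq : 2 * Real.exp (K * Real.log L ^ 2) ≤ x / q := by
    rw [le_div_iff₀ hq0]
    linarith
  have hMe : Real.exp (K * Real.log L ^ 2) ≤ M := by linarith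
  have h0 := hdet M hMe (g.comp (C (q : ℤ) * X - C (c : ℤ))) (by
    refine natDegree_comp_le.trans ?_
    have h1 : (C (q : ℤ) * X - C (c : ℤ)).natDegree ≤ 1 := by
      refine (natDegree_sub_le _ _).trans ?_
      rw [natDegree_C]
      apply max_le _ (Nat.zero_le _)
      refine natDegree_mul_le.trans ?_
      rw [natDegree_C, natDegree_X]
    calc g.natDegree * (C (q : ℤ) * X - C (c : ℤ)).natDegree ≤ d * 1 := Nat.mul_le_mul hg h1
      _ = d := mul_one d) 0
  have e1 : g.comp (C (q : ℤ) * X - C (c : ℤ)) = (gc g q b).comp (X - C (s : ℤ)) := by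
    unfold gc
    rw [comp_assoc]
    congr 1
    rw [add_comp, mul_comp, C_comp, X_comp, C_comp]
    have h1 : (c : ℤ) = q * s - b := by
      rw [hcb.1, Nat.cast_sub hcb.2]
      push_cast
      ring
    rw [h1, C_sub, C_mul]
    ring
  have e2 : ∏ p ∈ pz z, (1 - (nuB (Rt (g.comp (C (q : ℤ) * X - C (c : ℤ))) 0) p : ℝ) / p) =
      ∏ p ∈ pz z, (1 - (nuB (Rt (gc g q b) 0) p : ℝ) / p) := by
    refine prod_congr rfl fun p hp => ?_
    rw [e1, nuB_shift _ _ _ _ (mem_pz.1 hp).2.one_le]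
  have e3 : ((Icc 1 x).filter (fun m : ℕ => m % q = b ∧ ∀ p ∈ pz z, ¬ Rt g 0 p m)).card =
      ((Icc 1 M).filter (fun t : ℕ => ∀ p ∈ pz z, ¬ Rt (g.comp (C (q : ℤ) * X - C (c : ℤ))) 0 p t)).card := by
    rw [class_bij x q b hq hb (fun m => ∀ p ∈ pz z, ¬ Rt g 0 p m), ← hc, ← hM]
    congr 1
    apply filter_congr
    intro t ht
    rw [mem_Icc] at ht
    have h5 : q ≤ q * t := Nat.le_mul_of_pos_right q ht.1
    have h6 : (((q * t - c : ℕ)) : ℤ) = q * t - c := by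
      rw [Nat.cast_sub (by omega)]
      push_cast
      ring
    refine forall₂_congr fun p _ => not_congr ?_
    unfold Rt
    rw [h6, eval_comp, eval_sub, eval_mul, eval_C, eval_X, eval_C]
  obtain ⟨Pr, hPi⟩ : ∃ Pr : ℝ, Pr = ∏ p ∈ pz z, (1 - (nuB (Rt (gc g q b) 0) p : ℝ) / p) := ⟨_, rfl⟩
  have hP01 : 0 ≤ Pr ∧ Pr ≤ 1 := by rw [hPi]; exact prod_bd (gc g q b) 0 z
  rw [e2, ← hPi] at h0
  rw [e3, ← hPi]
  have h1 : |((Icc 1 M).filter (fun t : ℕ => ∀ p ∈ pz z, ¬ Rt (g.comp (C (q : ℤ) * X - C (c : ℤ))) 0 p t)).card - (M : ℝ) * Pr| ≤ M / L ^ U := by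
    refine le_trans (le_of_eq ?_) h0
    congr!
  have h2 : |(M : ℝ) * Pr - (x / q) * Pr| ≤ 1 := by
    rw [← sub_mul, abs_mul, abs_of_nonneg hP01.1]
    have h3 : |(M : ℝ) - x / q| ≤ 1 := by
      rw [abs_le]
      constructor <;> linarith
    calc |(M : ℝ) - x / q| * Pr ≤ 1 * 1 := mul_le_mul h3 hP01.2 hP01.1 zero_le_one
      _ = 1 := one_mul 1
  have h3 : (M : ℝ) / L ^ U ≤ 2 * (x / q) / L ^ U := by
    apply div_le_div_of_nonneg_right _ (by positivity)
    linarith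
  have b1 := abs_le.1 h1
  have b2 := abs_le.1 h2
  rw [abs_le]
  constructor <;> linarith [b1.1, b1.2, b2.1, b2.2]

end Pool.Agent.Run7.h18.MK
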