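import Mathlib
import Pool.Agent.Run7.h18.MK.Cls2
import Pool.Agent.Run7.h18.MK.Sys4

/-! Project MK: simultaneous primes in almost all classes of the argument (Barban-Davenport-Halberstam). -/

set_option autoImplicit false

namespace Pool.Agent.Run7.h18.MK

open Finset Filter Polynomial
open Pool.Agent.H373R2.T7 (lamz lamI lamzI Vz pz mem_pz Vz_pos Vz_le_one nuB PerB nuB_le Vz_inv_small rhoA)
open Pool.Agent.R460.SQ (thp ppw vm_split ppw_nn sum_ppw)
open Pool.Agent.Run7.h794.MK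

lemma harm (Q : ℕ) : ∑ q ∈ Icc 1 Q, 1 / (q : ℝ) ≤ 1 + Real.log Q := by
  have h2 : ∑ n ∈ Icc 1 Q, 1 / (n : ℝ) = ((harmonic Q : ℚ) : ℝ) := by
    rw [harmonic_eq_sum_Icc]
    push_cast
    simp
  rw [h2]
  exact harmonic_le_one_add_log Q

/-- the difference of the weights and the model -/
noncomputable def bet {k : ℕ} (F : Fin k → ℤ[X]) (a : Fin k → ℕ) (z m : ℕ) : ℝ :=
  ∏ i, thp ((a i : ℤ) + (F i).eval (m : ℤ)).toNat - ∏ i, lamzI z ((a i : ℤ) + (F i).eval (m : ℤ))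

open Classical in
/-- the expected weight of a class in terms of sifted arguments -/
noncomputable def sft {k : ℕ} (F : Fin k → ℤ[X]) (a : Fin k → ℕ) (z x q b : ℕ) : ℝ :=
  (Vz z)⁻¹ ^ k * (((Icc 1 x).filter (fun m : ℕ => m % q = b ∧ ∀ p ∈ pz z, ¬ Rt (gP F a) 0 p m)).card : ℝ)

lemma bet_class {k : ℕ} (F : Fin k → ℤ[X]) (a : Fin k → ℕ) (z x q b : ℕ)
    (h : ∀ i, ∀ m ∈ Icc 1 x, 1 ≤ (a i : ℤ) + (F i).eval (m : ℤ)) :
    ∑ m ∈ (Icc 1 x).filter (fun m => m % q = b), ∏ i, thp ((a i : ℤ) + (F i).eval (m : ℤ)).toNat - sft F a z x q b =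
      ∑ m ∈ (Icc 1 x).filter (fun m => m % q = b), bet F a z m := by
  classical
  unfold bet sft
  rw [sum_sub_distrib]
  congr 1
  have h1 : ∀ m ∈ (Icc 1 x).filter (fun m => m % q = b), ∏ i, lamzI z ((a i : ℤ) + (F i).eval (m : ℤ)) =
      if ∀ p ∈ pz z, ¬ Rt (gP F a) 0 p m then (Vz z)⁻¹ ^ k else 0 := by
    intro m hm
    rw [mem_filter] at hm
    rw [prod_lamz F a z m (fun i => h i m hm.1)]
  rw [sum_congr rfl h1, ← sum_filter, sum_const, nsmul_eq_mul, mul_comm, filter_filter]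

lemma bet_bd {k : ℕ} (F : Fin k → ℤ[X]) (a : Fin k → ℕ) (z m N : ℕ) (L : ℝ) (hL : L = Real.log N) (hN : 2 ≤ N) (hL1 : 1 ≤ L)
    (hVz : (Vz z)⁻¹ ≤ L) (h : ∀ i, ((a i : ℤ) + (F i).eval (m : ℤ)).toNat ≤ 2 * N) : |bet F a z m| ≤ (2 * L) ^ k := by
  unfold bet
  have h1 : ∏ i, thp ((a i : ℤ) + (F i).eval (m : ℤ)).toNat ≤ (2 * L) ^ k := by
    apply prod_thp_bd _ (2 * N) (2 * L) (by rw [hL]; exact log_two_N N hN)
    exact h
  have h2 : 0 ≤ ∏ i, thp ((a i : ℤ) + (F i).eval (m : ℤ)).toNat := prod_nonneg fun _ _ => thp_nonneg _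
  have h3 : 0 ≤ ∏ i, lamzI z ((a i : ℤ) + (F i).eval (m : ℤ)) :=
    prod_nonneg fun i _ => (lamzI_bd z L (by linarith) hVz _).1
  have h4 : ∏ i, lamzI z ((a i : ℤ) + (F i).eval (m : ℤ)) ≤ (2 * L) ^ k := by
    have h5 : ∏ i, lamzI z ((a i : ℤ) + (F i).eval (m : ℤ)) ≤ ∏ _i : Fin k, (2 * L) :=
      prod_le_prod (fun i _ => (lamzI_bd z L (by linarith) hVz _).1)
        (fun i _ => (lamzI_bd z L (by linarith) hVz _).2.trans (by linarith))
    rwa [prod_const, card_univ, Fintype.card_fin] at h5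
  rw [abs_le]
  constructor <;> linarith

set_option maxHeartbeats 1000000 in
/-- **Bateman-Horn for almost all systems in almost all classes.** -/
theorem cls_sys (k d T U : ℕ) (hk : 1 ≤ k) (hd : 1 ≤ d) : ∃ C B : ℕ, ∀ E : ℕ, ∃ K N₀ : ℕ, ∀ N : ℕ, N₀ ≤ N → ∀ z : ℕ,
    Real.log N ^ B ≤ z → (z : ℝ) ≤ Real.log N ^ E →
    ∃ Ex : Finset (Fin k → ℕ), (Ex.card : ℝ) ≤ (N : ℝ) ^ k / Real.log N ^ U ∧
    ∀ a ∈ Fintype.piFinset (fun _ : Fin k => Icc 1 N), a ∉ Ex → ∀ F : Fin k → ℤ[X],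
      (∀ i, 1 ≤ (F i).natDegree ∧ (F i).natDegree ≤ d ∧ ∀ j, |(((F i).coeff j : ℤ) : ℝ)| ≤ Real.log N ^ T) →
      (∀ q b : ℕ, (∀ p : ℕ, p.Prime → ∃ m : ℤ, ¬ (p : ℤ) ∣ (gc (gP F a) q b).eval m) →
        1 / Real.log N ^ (k * d + 1) ≤ dens (gc (gP F a) q b) k z) ∧ ∀ x : ℕ,
      (∀ i, (N : ℝ) ^ (1 / 3 : ℝ) * Real.log N ^ C ≤ (x : ℝ) ^ (F i).natDegree ∧ (x : ℝ) ^ (F i).natDegree * Real.log N ^ C ≤ N) →
      (∀ i, ∀ m ∈ Icc 1 x, 1 ≤ (a i : ℤ) + (F i).eval (m : ℤ)) ∧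
      ∀ Q : ℕ,
        ((Q : ℝ) * Real.log N ^ C ≤ x → ∑ q ∈ Icc 1 Q, ∑ b ∈ range q,
          (∑ m ∈ (Icc 1 x).filter (fun m => m % q = b), ∏ i, thp ((a i : ℤ) + (F i).eval (m : ℤ)).toNat - sft F a z x q b) ^ 2 ≤
            (x : ℝ) ^ 2 / Real.log N ^ U) ∧
        ((Q : ℝ) * Real.exp (K * Real.log (Real.log N) ^ 2) ≤ x → ∑ q ∈ Icc 1 Q, ∑ b ∈ range q,
          (∑ m ∈ (Icc 1 x).filter (fun m => m % q = b), ∏ i, thp ((a i : ℤ) + (F i).eval (m : ℤ)).toNat -
            (x / q) * dens (gc (gP F a) q b) k z) ^ 2 ≤ (x : ℝ) ^ 2 / Real.log N ^ U) := by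
  classical
  obtain ⟨V, hV⟩ : ∃ V : ℕ, V = U + 2 * k + 6 := ⟨_, rfl⟩
  obtain ⟨W, hW⟩ : ∃ W : ℕ, W = 2 * V + U + 4 := ⟨_, rfl⟩
  obtain ⟨C, B, h⟩ := sys_w law' k d T W hk
  refine ⟨C + T + V + 1, B, fun E => ?_⟩
  obtain ⟨N₁, h⟩ := h E
  have hkd : 1 ≤ k * d := Nat.mul_pos hk hd
  obtain ⟨K', L₀, hdet⟩ := det_poly2 (k * d) E (U + k + 2) hkd
  obtain ⟨N₂, hVz⟩ := Vz_inv_small E
  obtain ⟨N₃, hev⟩ := ev (3 * ((2 * V + 1) * d)) (1000 + d + 4 ^ k + L₀ +
    (3 * (k * d : ℕ) : ℝ) ^ (3 * (k * d)) * Real.exp (2 * ((k * d : ℕ) : ℝ) ^ 2))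
  refine ⟨K' + (C + T + V + 1) + (U + k + 2) + 1, N₁ + N₂ + N₃ + 3, fun N hN z hz1 hz2 => ?_⟩
  obtain ⟨hLK, hLp⟩ := hev N (by omega)
  have hN2 : 2 ≤ N := by omega
  have hN0 : (0 : ℝ) < N := by exact_mod_cast (by omega : 0 < N)
  have hVz := hVz N (by omega) z
  have h := h N (by omega) z hz1 hz2
  obtain ⟨L, hL⟩ : ∃ L, L = Real.log (N : ℝ) := ⟨_, rfl⟩
  rw [← hL] at hLK hLp hz1 hz2 hVz h ⊢
  have q1 : (0 : ℝ) ≤ (4 : ℝ) ^ k := by positivity
  have q2 : (0 : ℝ) ≤ L₀ := Nat.cast_nonneg _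
  have q3 : (0 : ℝ) ≤ (3 * (k * d : ℕ) : ℝ) ^ (3 * (k * d)) * Real.exp (2 * ((k * d : ℕ) : ℝ) ^ 2) := by positivity
  have q4 : (0 : ℝ) ≤ d := Nat.cast_nonneg _
  have hL8 : 1000 ≤ L := by linarith
  have hL1 : 1 ≤ L := by linarith
  have hL0 : 0 < L := by linarith
  have hL4k : (4 : ℝ) ^ k ≤ L := by linarith
  have hLd : (d : ℝ) + 1 ≤ L := by linarith
  have hLL0 : (L₀ : ℝ) ≤ L := by linarith
  have hz : 1 ≤ z := by
    have h1 : (1 : ℝ) ≤ z := (one_le_pow₀ hL1).trans hz1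
    exact_mod_cast h1
  have hVz := hVz hz hz2
  have hV0 := inv_pos.2 (Vz_pos z)
  have hdet := fun x hx => hdet L hLL0 x hx z hz hz2
  obtain ⟨l, hl⟩ : ∃ l, l = Real.log L := ⟨_, rfl⟩
  have hl1 : 1 ≤ l := by
    rw [hl, Real.le_log_iff_exp_le hL0]
    have := Real.exp_one_lt_d9
    linarith
  have hexpl : Real.exp l = L := by rw [hl, Real.exp_log hL0]
  -- the exceptional set
  obtain ⟨Q0, hQ0⟩ : ∃ Q0 : ℕ, Q0 = ⌈L ^ V⌉₊ := ⟨_, rfl⟩
  have hQ01 : L ^ V ≤ Q0 := by rw [hQ0]; exact Nat.le_ceil _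
  have hLV1 : 1 ≤ L ^ V := one_le_pow₀ hL1
  have hQ02 : (Q0 : ℝ) ≤ 2 * L ^ V := by
    have h1 : (Q0 : ℝ) < L ^ V + 1 := by rw [hQ0]; exact Nat.ceil_lt_add_one (by positivity)
    linarith
  have hQ0p : 1 ≤ Q0 := by
    have : (1 : ℝ) ≤ Q0 := by linarith
    exact_mod_cast this
  have hwt : ∀ q b m : ℕ, |(if m % q = b then (1 : ℝ) else 0)| ≤ 1 := by
    intro q b m
    split_ifs <;> norm_num
  choose ES hES1 hES2 using fun q b : ℕ => h (fun m => if m % q = b then 1 else 0) (hwt q b)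
  refine ⟨(Icc 1 Q0 ×ˢ range Q0).biUnion (fun qb => ES qb.1 qb.2), ?_, fun a ha haE F hF => ⟨fun q b hfix => ?_, fun x hx12' => ?_⟩⟩
  · have h1 := union_bd' (Icc 1 Q0 ×ˢ range Q0) (fun qb => ES qb.1 qb.2) ((N : ℝ) ^ k / L ^ W) (fun qb _ => hES1 qb.1 qb.2)
    refine h1.trans ?_
    rw [card_product, Nat.card_Icc, card_range, Nat.add_sub_cancel]
    push_cast
    calc (Q0 : ℝ) * Q0 * ((N : ℝ) ^ k / L ^ W) ≤ (2 * L ^ V) * (2 * L ^ V) * ((N : ℝ) ^ k / L ^ W) := by gcongr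
      _ = (4 / L ^ 4) * ((N : ℝ) ^ k / L ^ U) := by
          rw [hW, show 2 * V + U + 4 = V + V + U + 4 by ring, pow_add, pow_add, pow_add]
          field_simp
          ring
      _ ≤ 1 * ((N : ℝ) ^ k / L ^ U) := by
          apply mul_le_mul_of_nonneg_right _ (by positivity)
          rw [div_le_one (by positivity)]
          have : L ≤ L ^ 4 := le_self_pow₀ hL1 (by norm_num)
          linarith
      _ = _ := one_mul _
  · exact dens_low _ k (k * d) z hk hkd (gc_deg _ q b _ (gP_deg F a d fun i => (hF i).2.1)) L hL1 (by linarith) hVz hfix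
  have hx12 : ∀ i, (N : ℝ) ^ (1 / 3 : ℝ) * L ^ C ≤ (x : ℝ) ^ (F i).natDegree ∧ (x : ℝ) ^ (F i).natDegree * L ^ C ≤ N := by
    intro i
    obtain ⟨i1, i2⟩ := hx12' i
    refine ⟨le_trans ?_ i1, le_trans ?_ i2⟩
    · apply mul_le_mul_of_nonneg_left _ (by positivity)
      exact pow_le_pow_right₀ hL1 (by omega)
    · apply mul_le_mul_of_nonneg_left _ (by positivity)
      exact pow_le_pow_right₀ hL1 (by omega)
  have haE' : ∀ q b : ℕ, q ∈ Icc 1 Q0 → b ∈ range Q0 → a ∉ ES q b := by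
    intro q b hq hb hc
    apply haE
    rw [mem_biUnion]
    exact ⟨(q, b), mem_product.2 ⟨hq, hb⟩, hc⟩
  have hpos : ∀ i, ∀ m ∈ Icc 1 x, 1 ≤ (a i : ℤ) + (F i).eval (m : ℤ) :=
    (hES2 1 0 a ha (haE' 1 0 (mem_Icc.2 ⟨le_rfl, hQ0p⟩) (mem_range.2 hQ0p)) F hF x hx12).1
  refine ⟨hpos, ?_⟩
  have hx1 : 1 ≤ x := by
    rcases Nat.eq_zero_or_pos x with h0 | h0
    · exfalso
      have h1 := (hx12 ⟨0, hk⟩).1
      rw [h0, Nat.cast_zero, zero_pow (by have := (hF ⟨0, hk⟩).1; omega)] at h1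
      have h2 : (0 : ℝ) < (N : ℝ) ^ (1 / 3 : ℝ) * L ^ C := by positivity
      linarith
    · exact h0
  have hx0 : (0 : ℝ) < x := by exact_mod_cast hx1
  have hxL : L ^ (2 * V + 1) ≤ x := by
    by_contra hcon
    push Not at hcon
    have h0 := (hx12 ⟨0, hk⟩).1
    have h00 := (hF ⟨0, hk⟩).1
    have h01 := (hF ⟨0, hk⟩).2.1
    have hcube : (N : ℝ) ^ (1 / 3 : ℝ) ≤ (x : ℝ) ^ (F ⟨0, hk⟩).natDegree := by
      refine le_trans ?_ h0
      exact le_mul_of_one_le_right (by positivity) (one_le_pow₀ hL1)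
    have h1 : (x : ℝ) ^ (F ⟨0, hk⟩).natDegree < N ^ (1 / 3 : ℝ) := by
      calc (x : ℝ) ^ (F ⟨0, hk⟩).natDegree < (L ^ (2 * V + 1)) ^ (F ⟨0, hk⟩).natDegree :=
            pow_lt_pow_left₀ hcon (by linarith) (by omega)
        _ ≤ (L ^ (2 * V + 1)) ^ d := pow_le_pow_right₀ (one_le_pow₀ hL1) h01
        _ = L ^ ((2 * V + 1) * d) := by rw [← pow_mul]
        _ ≤ _ := rpow_third_ge (by positivity) (by rw [← pow_mul, mul_comm]; exact hLp)
    linarith
  have hxN : x ≤ N := by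
    have h0 := (hx12 ⟨0, hk⟩).2
    have h00 := (hF ⟨0, hk⟩).1
    have hxr : (1 : ℝ) ≤ x := by exact_mod_cast hx1
    have h1 : (x : ℝ) ≤ (x : ℝ) ^ (F ⟨0, hk⟩).natDegree := le_self_pow₀ hxr (by omega)
    have h2 : (x : ℝ) ^ (F ⟨0, hk⟩).natDegree ≤ (x : ℝ) ^ (F ⟨0, hk⟩).natDegree * L ^ C :=
      le_mul_of_one_le_right (by positivity) (one_le_pow₀ hL1)
    exact_mod_cast (h1.trans h2).trans h0
  have hval : ∀ i, ∀ m ∈ Icc 1 x, ((a i : ℤ) + (F i).eval (m : ℤ)).toNat ≤ 2 * N := by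
    intro i m hm
    have h6 := eval_le (F i) d (hF i).2.1 (L ^ T) (hF i).2.2 x m hm
    have h7 : |(((F i).eval (m : ℤ) : ℤ) : ℝ)| ≤ N := by
      refine h6.trans (le_trans ?_ (hx12' i).2)
      calc ((d : ℝ) + 1) * L ^ T * (x : ℝ) ^ (F i).natDegree ≤ L * L ^ T * (x : ℝ) ^ (F i).natDegree := by gcongr
        _ = (x : ℝ) ^ (F i).natDegree * L ^ (T + 1) := by ring
        _ ≤ _ := by
            apply mul_le_mul_of_nonneg_left _ (by positivity)
            exact pow_le_pow_right₀ hL1 (by omega)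
    rw [← Int.cast_abs] at h7
    have h8 : |(F i).eval (m : ℤ)| ≤ N := by exact_mod_cast h7
    have h9 := (abs_le.1 h8).2
    have h10 := hpos i m hm
    have h11 := Fintype.mem_piFinset.1 ha i
    rw [mem_Icc] at h11
    omega
  -- the mean square over the classes
  obtain ⟨β, hβ⟩ : ∃ β : ℕ → ℝ, β = fun m => if m ∈ Icc 1 x then bet F a z m else 0 := ⟨_, rfl⟩
  have hβ1 : ∀ m, |β m| ≤ (2 * L) ^ k := by
    intro m
    rw [hβ]
    simp only
    split_ifs with hm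
    · exact bet_bd F a z m N L hL hN2 hL1 hVz (fun i => hval i m hm)
    · rw [abs_zero]
      positivity
  have hβ2 : ∀ q ∈ Icc 1 Q0, ∀ r : ℕ, |∑ m ∈ (Icc 1 x).filter (fun m => m ≡ r [MOD q]), β m| ≤ x / L ^ W := by
    intro q hq r
    have hq' := mem_Icc.1 hq
    have h1 := (hES2 q (r % q) a ha (haE' q (r % q) hq (mem_range.2 ((Nat.mod_lt _ hq'.1).trans_le hq'.2))) F hF x hx12).2
    refine le_trans (le_of_eq ?_) h1
    rw [← sum_sub_distrib, sum_filter]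
    congr 1
    refine sum_congr rfl fun m hm => ?_
    rw [hβ]
    simp only
    rw [if_pos hm]
    by_cases h2 : m % q = r % q
    · rw [if_pos (show m ≡ r [MOD q] from h2), if_pos h2]
      unfold bet
      ring
    · rw [if_neg (fun h3 : m ≡ r [MOD q] => h2 h3), if_neg h2]
      ring
  have hQ0x : (Q0 : ℝ) * L ^ V ≤ x := by
    calc (Q0 : ℝ) * L ^ V ≤ (2 * L ^ V) * L ^ V := by gcongr
      _ ≤ (L * L ^ V) * L ^ V := by gcongr; linarith
      _ = L ^ (2 * V + 1) := by ring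
      _ ≤ x := hxL
  have mainI : ∀ Q : ℕ, (Q : ℝ) * L ^ V ≤ x → ∑ q ∈ Icc 1 Q, ∑ b ∈ range q,
      (∑ m ∈ (Icc 1 x).filter (fun m => m % q = b), ∏ i, thp ((a i : ℤ) + (F i).eval (m : ℤ)).toNat - sft F a z x q b) ^ 2 ≤
        (x : ℝ) ^ 2 / L ^ U / 4 := by
    intro Q hQ
    obtain ⟨R, hR⟩ : ∃ R, R = max Q Q0 := ⟨_, rfl⟩
    have hRx : (R : ℝ) * L ^ V ≤ x := by
      rw [hR, Nat.cast_max]
      rcases le_total (Q : ℝ) Q0 with h1 | h1
      · rw [max_eq_right h1]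
        exact hQ0x
      · rw [max_eq_left h1]
        exact hQ
    have hRx1 : (R : ℝ) ≤ x := (le_mul_of_one_le_right (Nat.cast_nonneg _) hLV1).trans hRx
    have hR0 : Q0 ≤ R := by rw [hR]; exact le_max_right _ _
    have h1 := Pool.Agent.N792.ls_classes x R Q0 β (x / L ^ W) ((2 * L) ^ k) hQ0p hR0
      (by exact_mod_cast hRx1) hβ1 hβ2
    have h2 : ∑ q ∈ Icc 1 Q, ∑ b ∈ range q,
      (∑ m ∈ (Icc 1 x).filter (fun m => m % q = b), ∏ i, thp ((a i : ℤ) + (F i).eval (m : ℤ)).toNat - sft F a z x q b) ^ 2 ≤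
        ∑ q ∈ Icc 1 R, ∑ r ∈ range q, (∑ m ∈ (Icc 1 x).filter (fun m => m ≡ r [MOD q]), β m) ^ 2 := by
      have hsub : Icc 1 Q ⊆ Icc 1 R := Icc_subset_Icc le_rfl (by rw [hR]; exact le_max_left _ _)
      refine le_trans (le_of_eq ?_) (sum_le_sum_of_subset_of_nonneg
        (f := fun q => ∑ r ∈ range q, (∑ m ∈ (Icc 1 x).filter (fun m => m ≡ r [MOD q]), β m) ^ 2) hsub
        (fun _ _ _ => sum_nonneg fun _ _ => sq_nonneg _))
      refine sum_congr rfl fun q hq => sum_congr rfl fun r hr => ?_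
      rw [mem_range] at hr
      rw [bet_class F a z x q r hpos]
      congr 1
      rw [sum_filter, sum_filter]
      refine sum_congr rfl fun m hm => ?_
      rw [hβ]
      simp only
      rw [if_pos hm]
      have h3 : m % q = r ↔ m ≡ r [MOD q] := by
        unfold Nat.ModEq
        rw [Nat.mod_eq_of_lt hr]
      by_cases h4 : m % q = r
      · rw [if_pos h4, if_pos (h3.1 h4)]
      · rw [if_neg h4, if_neg (fun h5 => h4 (h3.2 h5))]
    refine h2.trans (h1.trans ?_)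
    have hlR : Real.log R ≤ L := by
      rw [hL]
      apply Real.log_le_log
      · have : 1 ≤ R := hQ0p.trans hR0
        exact_mod_cast this
      · exact hRx1.trans (by exact_mod_cast hxN)
    have hQ0r : (0 : ℝ) < Q0 := by linarith
    have e1 : (Q0 : ℝ) ^ 2 * (x / L ^ W) ^ 2 ≤ (4 * (x : ℝ) ^ 2) / L ^ (U + 4) := by
      calc (Q0 : ℝ) ^ 2 * (x / L ^ W) ^ 2 ≤ (2 * L ^ V) ^ 2 * (x / L ^ W) ^ 2 := by gcongr
        _ = (4 * (x : ℝ) ^ 2) / L ^ (U + 4) / L ^ W := by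
            have : L ^ W = L ^ V * L ^ V * L ^ (U + 4) := by rw [hW, ← pow_add, ← pow_add]; congr 1; ring
            rw [this]
            field_simp
            ring
        _ ≤ _ := div_le_self (by positivity) (one_le_pow₀ hL1)
    have e2 : ((2 * L) ^ k) ^ 2 ≤ L ^ (2 * k + 1) := by
      calc ((2 * L) ^ k) ^ 2 = 4 ^ k * L ^ (2 * k) := by
            rw [← pow_mul, mul_comm k 2, mul_pow, pow_mul 2 2 k]
            norm_num
        _ ≤ L * L ^ (2 * k) := by gcongr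
        _ = _ := by ring
    have e3 : (x : ℝ) / Q0 + R ≤ 2 * (x / L ^ V) := by
      have h3 : (x : ℝ) / Q0 ≤ x / L ^ V := div_le_div_of_nonneg_left hx0.le (by positivity) hQ01
      have h4 : (R : ℝ) ≤ x / L ^ V := by
        rw [le_div_iff₀ (by positivity)]
        exact hRx
      linarith
    have e4 : ((2 * L) ^ k) ^ 2 * x * ((x : ℝ) / Q0 + R) ≤ (2 * (x : ℝ) ^ 2) / L ^ (U + 4) := by
      calc ((2 * L) ^ k) ^ 2 * x * ((x : ℝ) / Q0 + R) ≤ L ^ (2 * k + 1) * x * (2 * (x / L ^ V)) := by gcongr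
        _ = (2 * (x : ℝ) ^ 2) / L ^ (U + 4) / L := by
            have : L ^ V = L ^ (2 * k + 1) * L ^ (U + 4) * L := by rw [hV, ← pow_add, ← pow_succ]; congr 1; ring
            rw [this]
            field_simp
        _ ≤ _ := div_le_self (by positivity) hL1
    calc 100 * (1 + Real.log R) * ((Q0 : ℝ) ^ 2 * (x / L ^ W) ^ 2 + ((2 * L) ^ k) ^ 2 * x * ((x : ℝ) / Q0 + R)) ≤
          100 * (1 + L) * ((4 * (x : ℝ) ^ 2) / L ^ (U + 4) + (2 * (x : ℝ) ^ 2) / L ^ (U + 4)) := by gcongr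
      _ = (2400 * (1 + L) / L ^ 4) * ((x : ℝ) ^ 2 / L ^ U / 4) := by
          rw [pow_add L U 4]
          field_simp
          ring
      _ ≤ 1 * ((x : ℝ) ^ 2 / L ^ U / 4) := by
          apply mul_le_mul_of_nonneg_right _ (by positivity)
          rw [div_le_one (by positivity)]
          have i1 : 1000 * L ≤ L * L := mul_le_mul_of_nonneg_right hL8 hL0.le
          have i2 : (1000 : ℝ) ≤ L * L := by linarith
          have i3 : 1000 * (L * L) ≤ (L * L) * (L * L) := mul_le_mul_of_nonneg_right i2 (by positivity)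
          calc 2400 * (1 + L) ≤ L * L * (L * L) := by linarith
            _ = L ^ 4 := by ring
      _ = _ := one_mul _
  intro Q
  refine ⟨fun hQ => ?_, fun hQ => ?_⟩
  · refine (mainI Q (le_trans ?_ hQ)).trans ?_
    · apply mul_le_mul_of_nonneg_left _ (Nat.cast_nonneg _)
      exact pow_le_pow_right₀ hL1 (by omega)
    · have : 0 ≤ (x : ℝ) ^ 2 / L ^ U := by positivity
      linarith
  · rw [← hl] at hQ
    rcases Nat.eq_zero_or_pos Q with hQ00 | hQ00
    · rw [hQ00]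
      simp only [Icc_eq_empty_of_lt (show (0 : ℕ) < 1 by norm_num), sum_empty]
      positivity
    have hll : l ≤ l ^ 2 := by nlinarith
    have hexp : ∀ j : ℕ, j ≤ K' + (C + T + V + 1) + (U + k + 2) + 1 →
        L ^ j ≤ Real.exp ((K' + (C + T + V + 1) + (U + k + 2) + 1 : ℕ) * l ^ 2) := by
      intro j hj
      rw [← hexpl, ← Real.exp_nat_mul]
      apply Real.exp_le_exp.2
      calc (j : ℝ) * l ≤ (j : ℝ) * l ^ 2 := mul_le_mul_of_nonneg_left hll (Nat.cast_nonneg _)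
        _ ≤ _ := by
          apply mul_le_mul_of_nonneg_right _ (by positivity)
          exact_mod_cast hj
    have hm1 := mainI Q (by
      refine le_trans ?_ hQ
      apply mul_le_mul_of_nonneg_left _ (Nat.cast_nonneg _)
      exact hexp V (by omega))
    -- the sieve
    have hQx : (Q : ℝ) ≤ x := by
      refine le_trans ?_ hQ
      apply le_mul_of_one_le_right (Nat.cast_nonneg _)
      exact Real.one_le_exp (by positivity)
    have hcls : ∀ q ∈ Icc 1 Q, ∀ b ∈ range q, (sft F a z x q b - (x / q) * dens (gc (gP F a) q b) k z) ^ 2 ≤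
        9 * (x : ℝ) ^ 2 / L ^ (2 * U + 4) * (1 / (q : ℝ) ^ 2) := by
      intro q hq b hb
      rw [mem_Icc] at hq
      rw [mem_range] at hb
      have hq0 : (0 : ℝ) < q := by exact_mod_cast hq.1
      have hqQ : (q : ℝ) ≤ Q := by exact_mod_cast hq.2
      have hqx : (q : ℝ) * Real.exp ((K' + (C + T + V + 1) + (U + k + 2) + 1 : ℕ) * l ^ 2) ≤ x := by
        refine le_trans ?_ hQ
        gcongr
      have h1 := class_count K' (k * d) (U + k + 2) L hL1 (gP F a) (gP_deg F a d fun i => (hF i).2.1) z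
        (fun x hx f hf n => by
          refine le_trans (le_of_eq ?_) (hdet x hx f hf n)
          congr!) x q b hq.1 hb (by
          rw [← hl]
          refine le_trans ?_ hqx
          have h2 : 2 * Real.exp (K' * l ^ 2) ≤ Real.exp ((K' + (C + T + V + 1) + (U + k + 2) + 1 : ℕ) * l ^ 2) := by
            have h3 : (2 : ℝ) ≤ Real.exp (l ^ 2) := by
              have h4 := Real.add_one_le_exp (l ^ 2)
              have h5 : 1 ≤ l ^ 2 := one_le_pow₀ hl1
              linarith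
            calc 2 * Real.exp (K' * l ^ 2) ≤ Real.exp (l ^ 2) * Real.exp (K' * l ^ 2) := by gcongr
              _ = Real.exp (l ^ 2 + K' * l ^ 2) := by rw [Real.exp_add]
              _ ≤ _ := by
                apply Real.exp_le_exp.2
                push_cast
                nlinarith [sq_nonneg l, (Nat.cast_nonneg C : (0 : ℝ) ≤ C), (Nat.cast_nonneg T : (0 : ℝ) ≤ T),
                  (Nat.cast_nonneg V : (0 : ℝ) ≤ V), (Nat.cast_nonneg U : (0 : ℝ) ≤ U), (Nat.cast_nonneg k : (0 : ℝ) ≤ k),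
                  mul_nonneg (Nat.cast_nonneg C : (0 : ℝ) ≤ C) (sq_nonneg l), mul_nonneg (Nat.cast_nonneg T : (0 : ℝ) ≤ T) (sq_nonneg l),
                  mul_nonneg (Nat.cast_nonneg V : (0 : ℝ) ≤ V) (sq_nonneg l), mul_nonneg (Nat.cast_nonneg U : (0 : ℝ) ≤ U) (sq_nonneg l),
                  mul_nonneg (Nat.cast_nonneg k : (0 : ℝ) ≤ k) (sq_nonneg l)]
          calc 2 * (q : ℝ) * Real.exp (K' * l ^ 2) = q * (2 * Real.exp (K' * l ^ 2)) := by ring
            _ ≤ _ := mul_le_mul_of_nonneg_left h2 hq0.le)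
      have h2 : (1 : ℝ) ≤ (x / q) / L ^ (U + k + 2) := by
        rw [le_div_iff₀ (by positivity), one_mul, le_div_iff₀ hq0, mul_comm]
        refine le_trans ?_ hqx
        exact mul_le_mul_of_nonneg_left (hexp _ (by omega)) hq0.le
      have h3 : |sft F a z x q b - (x / q) * dens (gc (gP F a) q b) k z| ≤ 3 * (x / q) / L ^ (U + 2) := by
        unfold sft dens
        have e1 : (Vz z)⁻¹ ^ k * (((Icc 1 x).filter (fun m : ℕ => m % q = b ∧ ∀ p ∈ pz z, ¬ Rt (gP F a) 0 p m)).card : ℝ) -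
            (x / q) * ((Vz z)⁻¹ ^ k * ∏ p ∈ pz z, (1 - (nuB (Rt (gc (gP F a) q b) 0) p : ℝ) / p)) =
            (Vz z)⁻¹ ^ k * ((((Icc 1 x).filter (fun m : ℕ => m % q = b ∧ ∀ p ∈ pz z, ¬ Rt (gP F a) 0 p m)).card : ℝ) -
              (x / q) * ∏ p ∈ pz z, (1 - (nuB (Rt (gc (gP F a) q b) 0) p : ℝ) / p)) := by ring
        rw [e1, abs_mul, abs_of_pos (by positivity)]
        have h4 : |(((Icc 1 x).filter (fun m : ℕ => m % q = b ∧ ∀ p ∈ pz z, ¬ Rt (gP F a) 0 p m)).card : ℝ) -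
              (x / q) * ∏ p ∈ pz z, (1 - (nuB (Rt (gc (gP F a) q b) 0) p : ℝ) / p)| ≤ 3 * ((x / q) / L ^ (U + k + 2)) := by
          refine le_trans (le_of_eq ?_) (h1.trans ?_)
          · congr!
          · have : 2 * ((x : ℝ) / q) / L ^ (U + k + 2) = 2 * ((x / q) / L ^ (U + k + 2)) := by ring
            rw [this]
            linarith
        calc (Vz z)⁻¹ ^ k * |(((Icc 1 x).filter (fun m : ℕ => m % q = b ∧ ∀ p ∈ pz z, ¬ Rt (gP F a) 0 p m)).card : ℝ) -
              (x / q) * ∏ p ∈ pz z, (1 - (nuB (Rt (gc (gP F a) q b) 0) p : ℝ) / p)| ≤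
              L ^ k * (3 * ((x / q) / L ^ (U + k + 2))) := by
                apply mul_le_mul _ h4 (abs_nonneg _) (by positivity)
                exact pow_le_pow_left₀ hV0.le hVz k
          _ = _ := by
            have e2 : L ^ (U + k + 2) = L ^ k * L ^ (U + 2) := by rw [← pow_add]; congr 1; ring
            rw [e2]
            field_simp
      calc (sft F a z x q b - (x / q) * dens (gc (gP F a) q b) k z) ^ 2 =
            |sft F a z x q b - (x / q) * dens (gc (gP F a) q b) k z| ^ 2 := (sq_abs _).symm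
        _ ≤ (3 * (x / q) / L ^ (U + 2)) ^ 2 := pow_le_pow_left₀ (abs_nonneg _) h3 2
        _ = _ := by
          have : L ^ (2 * U + 4) = (L ^ (U + 2)) ^ 2 := by rw [← pow_mul]; congr 1; ring
          rw [this]
          field_simp
          ring
    have hm2 : ∑ q ∈ Icc 1 Q, ∑ b ∈ range q, (sft F a z x q b - (x / q) * dens (gc (gP F a) q b) k z) ^ 2 ≤
        (x : ℝ) ^ 2 / L ^ U / 4 := by
      calc ∑ q ∈ Icc 1 Q, ∑ b ∈ range q, (sft F a z x q b - (x / q) * dens (gc (gP F a) q b) k z) ^ 2 ≤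
            ∑ q ∈ Icc 1 Q, 9 * (x : ℝ) ^ 2 / L ^ (2 * U + 4) * (1 / (q : ℝ)) := by
              refine sum_le_sum fun q hq => ?_
              refine (sum_le_card_nsmul _ _ _ (hcls q hq)).trans (le_of_eq ?_)
              rw [card_range, nsmul_eq_mul]
              have hq0 : (q : ℝ) ≠ 0 := by
                rw [mem_Icc] at hq
                exact_mod_cast (by omega : q ≠ 0)
              field_simp
        _ = 9 * (x : ℝ) ^ 2 / L ^ (2 * U + 4) * ∑ q ∈ Icc 1 Q, 1 / (q : ℝ) := by rw [mul_sum]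
        _ ≤ 9 * (x : ℝ) ^ 2 / L ^ (2 * U + 4) * (2 * L) := by
              apply mul_le_mul_of_nonneg_left _ (by positivity)
              refine (harm Q).trans ?_
              have : Real.log Q ≤ L := by
                rw [hL]
                apply Real.log_le_log (by exact_mod_cast hQ00)
                exact hQx.trans (by exact_mod_cast hxN)
              linarith
        _ = (72 / L ^ 3 / L ^ U) * ((x : ℝ) ^ 2 / L ^ U / 4) := by
              have : L ^ (2 * U + 4) = L ^ U * L ^ U * L ^ 3 * L := by ring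
              rw [this]
              field_simp
              ring
        _ ≤ 1 * ((x : ℝ) ^ 2 / L ^ U / 4) := by
              apply mul_le_mul_of_nonneg_right _ (by positivity)
              have h5 : 72 / L ^ 3 / L ^ U ≤ 72 / L ^ 3 := div_le_self (by positivity) (one_le_pow₀ hL1)
              have h6 : 72 / L ^ 3 ≤ 1 := by
                rw [div_le_one (by positivity)]
                have : L ≤ L ^ 3 := le_self_pow₀ hL1 (by norm_num)
                linarith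
              linarith
        _ = _ := one_mul _
    calc ∑ q ∈ Icc 1 Q, ∑ b ∈ range q,
          (∑ m ∈ (Icc 1 x).filter (fun m => m % q = b), ∏ i, thp ((a i : ℤ) + (F i).eval (m : ℤ)).toNat -
            (x / q) * dens (gc (gP F a) q b) k z) ^ 2 ≤
          ∑ q ∈ Icc 1 Q, ∑ b ∈ range q, (2 * (∑ m ∈ (Icc 1 x).filter (fun m => m % q = b),
            ∏ i, thp ((a i : ℤ) + (F i).eval (m : ℤ)).toNat - sft F a z x q b) ^ 2 +
            2 * (sft F a z x q b - (x / q) * dens (gc (gP F a) q b) k z) ^ 2) := by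
            refine sum_le_sum fun q _ => sum_le_sum fun b _ => ?_
            nlinarith [sq_nonneg ((∑ m ∈ (Icc 1 x).filter (fun m => m % q = b),
              ∏ i, thp ((a i : ℤ) + (F i).eval (m : ℤ)).toNat - sft F a z x q b) -
              (sft F a z x q b - (x / q) * dens (gc (gP F a) q b) k z))]
      _ = 2 * (∑ q ∈ Icc 1 Q, ∑ b ∈ range q, (∑ m ∈ (Icc 1 x).filter (fun m => m % q = b),
            ∏ i, thp ((a i : ℤ) + (F i).eval (m : ℤ)).toNat - sft F a z x q b) ^ 2) +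
          2 * (∑ q ∈ Icc 1 Q, ∑ b ∈ range q, (sft F a z x q b - (x / q) * dens (gc (gP F a) q b) k z) ^ 2) := by
            simp only [sum_add_distrib, mul_sum]
      _ ≤ _ := by linarith

end Pool.Agent.Run7.h18.MK
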