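import Mathlib
import Pool.Agent.Run7.h18.MK.Hyb1

/-! Project MK: mixed systems (primes and Liouville signs) along all polynomials at once. -/

set_option autoImplicit false

namespace Pool.Agent.Run7.h18.MK

open Finset Filter Polynomial
open Pool.Agent.H373R2.T7 (lamz lamI lamzI Vz pz Vz_pos Vz_inv_small lamz_nonneg)
open Pool.Agent.R460.SQ (thp ppw vm_split ppw_nn)
open Pool.Agent.Run7.h794.MK
open Pool.Agent.Run7.h27.MK (gI)

/-- **The mean square over the vectors of constant terms, general functions.** -/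
theorem ms_sys2 (N x U : ℕ) (L : ℝ) (hL : 1 ≤ L) (P : ℤ[X] → Prop) (k : ℕ) : ∀ (u v : Fin k → ℤ → ℝ),
    (∀ i, ∀ f : ℤ[X], P f → ∀ (K : ℝ) (w : ℕ → ℝ), 0 ≤ K → (∀ m ∈ Icc 1 x, |w m| ≤ K) →
      ∑ n ∈ Icc 1 N, (∑ m ∈ Icc 1 x, w m * (u i ((n : ℤ) + f.eval (m : ℤ)) - v i ((n : ℤ) + f.eval (m : ℤ)))) ^ 2 ≤
        K ^ 2 * ((x : ℝ) ^ 2 * (N / L ^ U))) →
    (∀ i, ∀ f : ℤ[X], P f → ∀ n ∈ Icc 1 N, ∀ m ∈ Icc 1 x,
      (0 ≤ u i ((n : ℤ) + f.eval (m : ℤ)) ∧ u i ((n : ℤ) + f.eval (m : ℤ)) ≤ 2 * L) ∧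
      (0 ≤ v i ((n : ℤ) + f.eval (m : ℤ)) ∧ v i ((n : ℤ) + f.eval (m : ℤ)) ≤ 2 * L)) →
    ∀ (F : Fin k → ℤ[X]), (∀ i, P (F i)) → ∀ (K : ℝ) (w : ℕ → ℝ), 0 ≤ K → (∀ m ∈ Icc 1 x, |w m| ≤ K) →
      ∑ a ∈ Fintype.piFinset (fun _ : Fin k => Icc 1 N),
        (∑ m ∈ Icc 1 x, w m * (∏ i, u i ((a i : ℤ) + (F i).eval (m : ℤ)) - ∏ i, v i ((a i : ℤ) + (F i).eval (m : ℤ)))) ^ 2 ≤
      K ^ 2 * (4 * L) ^ (2 * k) * ((x : ℝ) ^ 2 * ((N : ℝ) ^ k / L ^ U)) := by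
  induction k with
  | zero =>
    intro u v _ _ F _ K w hK _
    have e1 : ∀ a ∈ Fintype.piFinset (fun _ : Fin 0 => Icc 1 N),
        (∑ m ∈ Icc 1 x, w m * (∏ i, u i ((a i : ℤ) + (F i).eval (m : ℤ)) - ∏ i, v i ((a i : ℤ) + (F i).eval (m : ℤ)))) ^ 2 = 0 := by
      intro a _
      simp
    rw [sum_congr rfl e1, sum_const_zero]
    positivity
  | succ k ih =>
    intro u v hms ht F hF K w hK hw
    rw [sum_pi_succ]
    obtain ⟨R, hR⟩ : ∃ R : ℝ, R = (x : ℝ) ^ 2 * (N / L ^ U) := ⟨_, rfl⟩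
    have hR0 : 0 ≤ R := by rw [hR]; positivity
    -- the two parts
    obtain ⟨A, hA⟩ : ∃ A : ℕ → (Fin k → ℕ) → ℝ, A = fun (b : ℕ) (a : Fin k → ℕ) => ∑ m ∈ Icc 1 x,
      (w m * ∏ i : Fin k, u i.succ ((a i : ℤ) + (F i.succ).eval (m : ℤ))) *
        (u 0 ((b : ℤ) + (F 0).eval (m : ℤ)) - v 0 ((b : ℤ) + (F 0).eval (m : ℤ))) := ⟨_, rfl⟩
    obtain ⟨Bb, hBb⟩ : ∃ Bb : ℕ → (Fin k → ℕ) → ℝ, Bb = fun (b : ℕ) (a : Fin k → ℕ) => ∑ m ∈ Icc 1 x,
      (w m * v 0 ((b : ℤ) + (F 0).eval (m : ℤ))) * (∏ i : Fin k, u i.succ ((a i : ℤ) + (F i.succ).eval (m : ℤ)) -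
        ∏ i : Fin k, v i.succ ((a i : ℤ) + (F i.succ).eval (m : ℤ))) := ⟨_, rfl⟩
    have hsp : ∀ b ∈ Icc 1 N, ∀ a ∈ Fintype.piFinset (fun _ : Fin k => Icc 1 N),
        (∑ m ∈ Icc 1 x, w m * (∏ i, u i ((((Fin.cons b a : Fin (k + 1) → ℕ) i : ℕ) : ℤ) + (F i).eval (m : ℤ)) -
          ∏ i, v i ((((Fin.cons b a : Fin (k + 1) → ℕ) i : ℕ) : ℤ) + (F i).eval (m : ℤ)))) ^ 2 ≤
        2 * A b a ^ 2 + 2 * Bb b a ^ 2 := by
      intro b _ a _
      have e1 : ∑ m ∈ Icc 1 x, w m * (∏ i, u i ((((Fin.cons b a : Fin (k + 1) → ℕ) i : ℕ) : ℤ) + (F i).eval (m : ℤ)) -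
          ∏ i, v i ((((Fin.cons b a : Fin (k + 1) → ℕ) i : ℕ) : ℤ) + (F i).eval (m : ℤ))) = A b a + Bb b a := by
        rw [hA, hBb]
        simp only
        rw [← sum_add_distrib]
        refine sum_congr rfl fun m _ => ?_
        rw [Fin.prod_univ_succ, Fin.prod_univ_succ]
        simp only [Fin.cons_zero, Fin.cons_succ]
        ring
      rw [e1]
      nlinarith [sq_nonneg (A b a - Bb b a)]
    refine (sum_le_sum fun b hb => sum_le_sum fun a ha => hsp b hb a ha).trans ?_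
    have e2 : ∑ b ∈ Icc 1 N, ∑ a ∈ Fintype.piFinset (fun _ : Fin k => Icc 1 N), (2 * A b a ^ 2 + 2 * Bb b a ^ 2) =
        2 * ∑ a ∈ Fintype.piFinset (fun _ : Fin k => Icc 1 N), ∑ b ∈ Icc 1 N, A b a ^ 2 +
        2 * ∑ b ∈ Icc 1 N, ∑ a ∈ Fintype.piFinset (fun _ : Fin k => Icc 1 N), Bb b a ^ 2 := by
      simp only [sum_add_distrib, ← mul_sum]
      rw [sum_comm]
    rw [e2]
    have hcard : ((Fintype.piFinset (fun _ : Fin k => Icc 1 N)).card : ℝ) = (N : ℝ) ^ k := by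
      rw [Fintype.card_piFinset, prod_const, card_univ, Fintype.card_fin, Nat.card_Icc, Nat.add_sub_cancel, Nat.cast_pow]
    have h1 : ∑ a ∈ Fintype.piFinset (fun _ : Fin k => Icc 1 N), ∑ b ∈ Icc 1 N, A b a ^ 2 ≤
        (N : ℝ) ^ k * ((K * (2 * L) ^ k) ^ 2 * R) := by
      calc ∑ a ∈ Fintype.piFinset (fun _ : Fin k => Icc 1 N), ∑ b ∈ Icc 1 N, A b a ^ 2 ≤
          ∑ _a ∈ Fintype.piFinset (fun _ : Fin k => Icc 1 N), (K * (2 * L) ^ k) ^ 2 * R := by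
            refine sum_le_sum fun a ha => ?_
            rw [hA, hR]
            simp only
            apply hms 0 (F 0) (hF 0) (K * (2 * L) ^ k) _ (by positivity)
            intro m hm
            rw [Fintype.mem_piFinset] at ha
            rw [abs_mul]
            apply mul_le_mul (hw m hm) _ (abs_nonneg _) hK
            have ht' := fun i : Fin k => (ht i.succ (F i.succ) (hF _) (a i) (ha i) m hm).1
            rw [abs_of_nonneg (prod_nonneg fun i _ => (ht' i).1)]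
            calc ∏ i : Fin k, u i.succ ((a i : ℤ) + (F i.succ).eval (m : ℤ)) ≤ ∏ _i : Fin k, (2 * L) :=
                  prod_le_prod (fun i _ => (ht' i).1) fun i _ => (ht' i).2
              _ = _ := by rw [prod_const, card_univ, Fintype.card_fin]
        _ = _ := by rw [sum_const, nsmul_eq_mul, hcard]
    have h2 : ∑ b ∈ Icc 1 N, ∑ a ∈ Fintype.piFinset (fun _ : Fin k => Icc 1 N), Bb b a ^ 2 ≤
        N * ((K * (2 * L)) ^ 2 * (4 * L) ^ (2 * k) * ((x : ℝ) ^ 2 * ((N : ℝ) ^ k / L ^ U))) := by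
      calc ∑ b ∈ Icc 1 N, ∑ a ∈ Fintype.piFinset (fun _ : Fin k => Icc 1 N), Bb b a ^ 2 ≤
          ∑ _b ∈ Icc 1 N, (K * (2 * L)) ^ 2 * (4 * L) ^ (2 * k) * ((x : ℝ) ^ 2 * ((N : ℝ) ^ k / L ^ U)) := by
            refine sum_le_sum fun b hb => ?_
            rw [hBb]
            simp only
            apply ih (fun i => u i.succ) (fun i => v i.succ) (fun i => hms i.succ) (fun i => ht i.succ)
              (fun i => F i.succ) (fun i => hF _) (K * (2 * L)) _ (by positivity)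
            intro m hm
            have ht' := (ht 0 (F 0) (hF 0) b hb m hm).2
            rw [abs_mul, abs_of_nonneg ht'.1]
            exact mul_le_mul (hw m hm) ht'.2 ht'.1 hK
        _ = _ := by rw [sum_const, Nat.card_Icc, nsmul_eq_mul, Nat.add_sub_cancel]
    have hX : (x : ℝ) ^ 2 * ((N : ℝ) ^ (k + 1) / L ^ U) = (N : ℝ) ^ k * R := by
      rw [hR, pow_succ]
      ring
    have hY : (N : ℝ) * ((K * (2 * L)) ^ 2 * (4 * L) ^ (2 * k) * ((x : ℝ) ^ 2 * ((N : ℝ) ^ k / L ^ U))) =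
        K ^ 2 * (4 * L ^ 2 * (4 * L) ^ (2 * k)) * ((N : ℝ) ^ k * R) := by
      rw [hR]
      ring
    rw [hX]
    rw [hY] at h2
    have hZ : (N : ℝ) ^ k * ((K * (2 * L) ^ k) ^ 2 * R) = K ^ 2 * ((2 * L) ^ k) ^ 2 * ((N : ℝ) ^ k * R) := by ring
    rw [hZ] at h1
    have hNR : 0 ≤ (N : ℝ) ^ k * R := by positivity
    have hfin : 2 * ((2 * L) ^ k) ^ 2 + 2 * (4 * L ^ 2 * (4 * L) ^ (2 * k)) ≤ (4 * L) ^ (2 * (k + 1)) := by
      have g1 : ((2 * L) ^ k) ^ 2 ≤ (4 * L) ^ (2 * k) := by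
        rw [← pow_mul, mul_comm k 2]
        exact pow_le_pow_left₀ (by positivity) (by linarith) _
      have g2 : (4 * L) ^ (2 * (k + 1)) = (4 * L) ^ (2 * k) * (16 * L ^ 2) := by
        rw [mul_add, pow_add]
        ring
      rw [g2]
      have g3 : 0 ≤ (4 * L) ^ (2 * k) := by positivity
      have g4 : 1 ≤ L ^ 2 := one_le_pow₀ hL
      nlinarith
    calc _ ≤ 2 * (K ^ 2 * ((2 * L) ^ k) ^ 2 * ((N : ℝ) ^ k * R)) + 2 * (K ^ 2 * (4 * L ^ 2 * (4 * L) ^ (2 * k)) * ((N : ℝ) ^ k * R)) := by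
          linarith
      _ = K ^ 2 * (2 * ((2 * L) ^ k) ^ 2 + 2 * (4 * L ^ 2 * (4 * L) ^ (2 * k))) * ((N : ℝ) ^ k * R) := by ring
      _ ≤ _ := by
          apply mul_le_mul_of_nonneg_right _ hNR
          exact mul_le_mul_of_nonneg_left hfin (by positivity)

/-- **All systems of polynomials and all lengths at once, arbitrary weights, general functions.** -/
theorem sys_det (k d T U C1 N : ℕ) (hk : 1 ≤ k) (hN2 : 2 ≤ N) (L : ℝ) (hL : L = Real.log N) (hL6 : 6 ≤ L)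
    (hLd : (d : ℝ) + 1 ≤ L) (hLk1 : (k : ℝ) + 1 ≤ L) (hL2d : (2 : ℝ) ^ d ≤ L) (hL2k : (2 : ℝ) ^ k ≤ L)
    (hLp : L ^ (3 * ((U + k + 5) * d)) ≤ N)
    (u v : Fin k → ℤ → ℝ)
    (hms : ∀ i, ∀ (f : ℤ[X]) (x : ℕ), Adm N d T C1 f x → ∀ (K : ℝ) (w : ℕ → ℝ), 0 ≤ K → (∀ m ∈ Icc 1 x, |w m| ≤ K) →
      ∑ n ∈ Icc 1 N, (∑ m ∈ Icc 1 x, w m * (u i ((n : ℤ) + f.eval (m : ℤ)) - v i ((n : ℤ) + f.eval (m : ℤ)))) ^ 2 ≤
        K ^ 2 * ((x : ℝ) ^ 2 * (N / L ^ (4 * k + ((T + 1) * (d + 1) * k + (U + k + 7)) + 2 * (U + 2) + (U + 2)))))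
    (hbnd : ∀ i, ∀ n : ℤ, n ≤ 2 * N → (0 ≤ u i n ∧ u i n ≤ 2 * L) ∧ (0 ≤ v i n ∧ v i n ≤ 2 * L))
    (w : ℕ → ℝ) (hw : ∀ m, |w m| ≤ 1) :
    ∃ Ex : Finset (Fin k → ℕ), (Ex.card : ℝ) ≤ (N : ℝ) ^ k / L ^ U ∧
    ∀ a ∈ Fintype.piFinset (fun _ : Fin k => Icc 1 N), a ∉ Ex → ∀ F : Fin k → ℤ[X],
      (∀ i, 1 ≤ (F i).natDegree ∧ (F i).natDegree ≤ d ∧ ∀ j, |(((F i).coeff j : ℤ) : ℝ)| ≤ L ^ T) → ∀ x : ℕ,
      (∀ i, (N : ℝ) ^ (1 / 3 : ℝ) * L ^ (C1 + T + U + 6) ≤ (x : ℝ) ^ (F i).natDegree ∧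
        (x : ℝ) ^ (F i).natDegree * L ^ (C1 + T + U + 6) ≤ N) →
      (∀ i, ∀ m ∈ Icc 1 x, 1 ≤ (a i : ℤ) + (F i).eval (m : ℤ)) ∧
      |∑ m ∈ Icc 1 x, w m * ∏ i, u i ((a i : ℤ) + (F i).eval (m : ℤ)) -
        ∑ m ∈ Icc 1 x, w m * ∏ i, v i ((a i : ℤ) + (F i).eval (m : ℤ))| ≤ x / L ^ U := by
  classical
  obtain ⟨W, hW⟩ : ∃ W, W = (T + 1) * (d + 1) * k + (U + k + 7) := ⟨_, rfl⟩
  obtain ⟨U1, hU1⟩ : ∃ U1, U1 = 4 * k + W + 2 * (U + 2) + (U + 2) := ⟨_, rfl⟩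
  obtain ⟨C, hC⟩ : ∃ C, C = C1 + T + U + 6 := ⟨_, rfl⟩
  rw [← hW, ← hU1] at hms
  rw [← hC]
  have hN0 : (0 : ℝ) < N := by exact_mod_cast (by omega : 0 < N)
  have hL1 : 1 ≤ L := by linarith
  have hL0 : 0 < L := by linarith
  have hT1 : (1 : ℝ) ≤ L ^ T := one_le_pow₀ hL1
  -- the grid
  obtain ⟨K, hKd⟩ : ∃ K : ℕ, K = ⌈L ^ (U + k + 4)⌉₊ := ⟨_, rfl⟩
  have hK1 : L ^ (U + k + 4) ≤ K := by rw [hKd]; exact Nat.le_ceil _
  have hK2 : (K : ℝ) ≤ L ^ (U + k + 4) + 1 := by rw [hKd]; exact (Nat.ceil_lt_add_one (by positivity)).le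
  have hKtwo : 2 ≤ K := by
    have h1 : L ≤ L ^ (U + k + 4) := le_self_pow₀ hL1 (by omega)
    have : (2 : ℝ) ≤ K := by linarith
    exact_mod_cast this
  obtain ⟨G, hGd⟩ : ∃ G : Finset ℕ, G = ((Icc K (2 * K)) ×ˢ range (Nat.log 2 N + 1)).image (fun ab : ℕ × ℕ => ab.1 * 2 ^ ab.2) :=
    ⟨_, rfl⟩
  have hGc : (G.card : ℝ) ≤ L ^ (U + k + 7) := by rw [hGd]; exact grid_card N K (U + k) L hL hL6 (by omega) hK2
  obtain ⟨P, hPc, hP⟩ := polys d (L ^ T) hT1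
  have hPc2 : (P.card : ℝ) ≤ L ^ ((T + 1) * (d + 1)) := by
    refine hPc.trans ?_
    rw [pow_mul]
    apply pow_le_pow_left₀ (by positivity)
    rw [pow_succ, mul_comm]
    exact mul_le_mul_of_nonneg_left (by linarith) (by positivity)
  obtain ⟨Q, hQ⟩ : ∃ Q : Finset ((Fin k → ℤ[X]) × ℕ), Q = ((Fintype.piFinset (fun _ : Fin k => P)) ×ˢ G).filter (fun fx =>
    ∀ i, (1 ≤ (fx.1 i).natDegree ∧ (fx.1 i).natDegree ≤ d ∧ (∀ j, |(((fx.1 i).coeff j : ℤ) : ℝ)| ≤ L ^ T)) ∧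
      (N : ℝ) ^ (1 / 3 : ℝ) * L ^ C1 ≤ (fx.2 : ℝ) ^ (fx.1 i).natDegree ∧
      (fx.2 : ℝ) ^ (fx.1 i).natDegree * L ^ (C1 + T + 1) ≤ N) := ⟨_, rfl⟩
  have hQc : (Q.card : ℝ) ≤ L ^ W := by
    have h1 : Q.card ≤ P.card ^ k * G.card := by
      rw [hQ]
      refine (card_filter_le _ _).trans ?_
      rw [card_product, Fintype.card_piFinset, prod_const, card_univ, Fintype.card_fin]
    calc (Q.card : ℝ) ≤ (P.card : ℝ) ^ k * G.card := by exact_mod_cast h1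
      _ ≤ (L ^ ((T + 1) * (d + 1))) ^ k * L ^ (U + k + 7) :=
          mul_le_mul (pow_le_pow_left₀ (Nat.cast_nonneg _) hPc2 k) hGc (Nat.cast_nonneg _) (by positivity)
      _ = L ^ W := by rw [← pow_mul, ← pow_add, hW]
  have hQx : ∀ fx ∈ Q, 0 < (fx.2 : ℝ) := by
    intro fx hfx
    rw [hQ, mem_filter] at hfx
    obtain ⟨⟨h1, -, -⟩, h2, -⟩ := hfx.2 ⟨0, hk⟩
    have h3 : (0 : ℝ) < (fx.2 : ℝ) ^ (fx.1 ⟨0, hk⟩).natDegree := lt_of_lt_of_le (by positivity) h2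
    rcases Nat.eq_zero_or_pos fx.2 with h | h
    · rw [h, Nat.cast_zero, zero_pow (by omega)] at h3
      exact absurd h3 (lt_irrefl _)
    · exact_mod_cast h
  have hadm : ∀ fx ∈ Q, ∀ i, Adm N d T C1 (fx.1 i) fx.2 := by
    intro fx hfx i
    rw [hQ, mem_filter] at hfx
    obtain ⟨⟨h1, h2, h3⟩, h4, h5⟩ := hfx.2 i
    unfold Adm
    rw [← hL]
    refine ⟨h1, h2, h3 _, h4, (le_mul_of_one_le_right (by positivity) (one_le_pow₀ hL1)).trans h5, fun m hm => ?_⟩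
    have h6 := eval_le (fx.1 i) d h2 (L ^ T) h3 fx.2 m hm
    refine le_trans ?_ h5
    calc |(((fx.1 i).eval (m : ℤ) : ℤ) : ℝ)| * L ^ C1 ≤ ((d + 1) * L ^ T * (fx.2 : ℝ) ^ (fx.1 i).natDegree) * L ^ C1 := by gcongr
      _ ≤ (L * L ^ T * (fx.2 : ℝ) ^ (fx.1 i).natDegree) * L ^ C1 := by gcongr
      _ = _ := by ring
  have hbig : ∀ x : ℕ, ∀ i, ∀ f : ℤ[X], Adm N d T C1 f x → ∀ n ∈ Icc 1 N, ∀ m ∈ Icc 1 x,
      (0 ≤ u i ((n : ℤ) + f.eval (m : ℤ)) ∧ u i ((n : ℤ) + f.eval (m : ℤ)) ≤ 2 * L) ∧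
      (0 ≤ v i ((n : ℤ) + f.eval (m : ℤ)) ∧ v i ((n : ℤ) + f.eval (m : ℤ)) ≤ 2 * L) := by
    intro x i f hf n hn m hm
    obtain ⟨-, -, -, -, -, h6⟩ := hf
    rw [mem_Icc] at hn
    rw [← hL] at h6
    have h7 : |((f.eval (m : ℤ) : ℤ) : ℝ)| ≤ N :=
      (le_mul_of_one_le_right (abs_nonneg _) (one_le_pow₀ hL1)).trans (h6 m hm)
    rw [← Int.cast_abs] at h7
    have h8 : |f.eval (m : ℤ)| ≤ N := by exact_mod_cast h7
    have h9 := (abs_le.1 h8).2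
    exact hbnd i _ (by omega)
  obtain ⟨S, hSd⟩ : ∃ S : Finset (Fin k → ℕ), S = Fintype.piFinset (fun _ : Fin k => Icc 1 N) := ⟨_, rfl⟩
  obtain ⟨B1, hB1⟩ : ∃ B1 : (Fin k → ℤ[X]) × ℕ → Finset (Fin k → ℕ), B1 = fun fx => S.filter (fun a =>
    (fx.2 : ℝ) / L ^ (U + 2) < |∑ m ∈ Icc 1 fx.2, w m * (∏ i, u i ((a i : ℤ) + (fx.1 i).eval (m : ℤ)) -
      ∏ i, v i ((a i : ℤ) + (fx.1 i).eval (m : ℤ)))|) := ⟨_, rfl⟩
  have hb1 : ∀ fx ∈ Q, ((B1 fx).card : ℝ) ≤ (N : ℝ) ^ k / L ^ (W + (U + 2)) := by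
    intro fx hfx
    have hx0 := hQx fx hfx
    have h6 := ms_sys2 N fx.2 U1 L hL1 (fun f => Adm N d T C1 f fx.2) k u v (fun i f hf K w hK hw => hms i f fx.2 hf K w hK hw)
      (fun i f hf n hn m hm => hbig fx.2 i f hf n hn m hm) fx.1 (hadm fx hfx) 1 w zero_le_one (fun m _ => hw m)
    rw [← hSd] at h6
    have h7 := cheb S (fun a : Fin k → ℕ => ∑ m ∈ Icc 1 fx.2, w m * (∏ i, u i ((a i : ℤ) + (fx.1 i).eval (m : ℤ)) -
      ∏ i, v i ((a i : ℤ) + (fx.1 i).eval (m : ℤ)))) _ ((fx.2 : ℝ) / L ^ (U + 2)) (by positivity) h6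
    rw [hB1]
    refine h7.trans ?_
    have e0 : (4 * L) ^ (2 * k) ≤ L ^ (4 * k) := by
      calc (4 * L) ^ (2 * k) ≤ (L ^ 2) ^ (2 * k) := pow_le_pow_left₀ (by positivity) (by nlinarith) _
        _ = L ^ (4 * k) := by rw [← pow_mul]; congr 1; ring
    rw [one_pow, one_mul, div_le_div_iff₀ (by positivity) (by positivity)]
    have e1 : L ^ U1 = L ^ (4 * k) * L ^ (W + (U + 2)) * (L ^ (U + 2)) ^ 2 := by
      rw [← pow_mul, ← pow_add, ← pow_add, hU1]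
      congr 1
      ring
    calc (4 * L) ^ (2 * k) * ((fx.2 : ℝ) ^ 2 * ((N : ℝ) ^ k / L ^ U1)) * L ^ (W + (U + 2)) ≤
        L ^ (4 * k) * ((fx.2 : ℝ) ^ 2 * ((N : ℝ) ^ k / L ^ U1)) * L ^ (W + (U + 2)) := by gcongr
      _ = (N : ℝ) ^ k * ((fx.2 : ℝ) / L ^ (U + 2)) ^ 2 := by
        rw [e1]
        field_simp
  obtain ⟨S0, hS0⟩ : ∃ S0 : Finset (Fin k → ℕ), S0 = (univ : Finset (Fin k)).biUnion
    (fun i => S.filter (fun a => a i ≤ ⌊(N : ℝ) / L ^ (U + 2)⌋₊)) := ⟨_, rfl⟩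
  have hNk : (N : ℝ) * (N : ℝ) ^ (k - 1) = (N : ℝ) ^ k := by
    rw [← pow_succ']
    congr 1
    omega
  have hS0c : (S0.card : ℝ) ≤ k * ((N : ℝ) ^ k / L ^ (U + 2)) := by
    rw [hS0]
    refine (union_bd' univ _ ((N : ℝ) ^ k / L ^ (U + 2)) (fun i _ => ?_)).trans (by rw [card_univ, Fintype.card_fin])
    rw [hSd]
    refine (small_coord k N _ i).trans ?_
    calc (⌊(N : ℝ) / L ^ (U + 2)⌋₊ : ℝ) * (N : ℝ) ^ (k - 1) ≤ (N : ℝ) / L ^ (U + 2) * (N : ℝ) ^ (k - 1) := by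
          apply mul_le_mul_of_nonneg_right (Nat.floor_le (by positivity)) (by positivity)
      _ = _ := by
        rw [← hNk]
        ring
  refine ⟨S0 ∪ Q.biUnion B1, ?_, ?_⟩
  · have h1 := card_union_le S0 (Q.biUnion B1)
    have h3 := union_bd' Q B1 _ hb1
    have h5 : (Q.card : ℝ) * ((N : ℝ) ^ k / L ^ (W + (U + 2))) ≤ (N : ℝ) ^ k / L ^ (U + 2) := by
      rw [pow_add L W]
      calc (Q.card : ℝ) * ((N : ℝ) ^ k / (L ^ W * L ^ (U + 2))) ≤ L ^ W * ((N : ℝ) ^ k / (L ^ W * L ^ (U + 2))) := by gcongr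
        _ = _ := by field_simp
    have h6 : ((S0 ∪ Q.biUnion B1).card : ℝ) ≤ S0.card + (Q.biUnion B1).card := by exact_mod_cast h1
    have h7 : (k + 1) * ((N : ℝ) ^ k / L ^ (U + 2)) ≤ (N : ℝ) ^ k / L ^ U := by
      rw [← mul_div_assoc, div_le_div_iff₀ (by positivity) (by positivity), pow_add]
      have a2 : (k : ℝ) + 1 ≤ L ^ 2 := by nlinarith
      calc ((k : ℝ) + 1) * (N : ℝ) ^ k * L ^ U = ((N : ℝ) ^ k * L ^ U) * (k + 1) := by ring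
        _ ≤ ((N : ℝ) ^ k * L ^ U) * L ^ 2 := mul_le_mul_of_nonneg_left a2 (by positivity)
        _ = _ := by ring
    linarith
  · intro a ha haE F hF x hx12
    rw [mem_union, not_or] at haE
    obtain ⟨haS, haB1⟩ := haE
    have haS' : a ∈ S := by rw [hSd]; exact ha
    have ha1 := ha
    rw [Fintype.mem_piFinset] at ha1
    have hf1 := (hF ⟨0, hk⟩).1
    have hf2 := (hF ⟨0, hk⟩).2.1
    obtain ⟨hx1, hx2⟩ := hx12 ⟨0, hk⟩
    obtain ⟨f, hfd⟩ : ∃ f, f = F ⟨0, hk⟩ := ⟨_, rfl⟩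
    rw [← hfd] at hf1 hf2 hx1 hx2
    have hxe : (0 : ℝ) < (x : ℝ) ^ f.natDegree := lt_of_lt_of_le (by positivity) hx1
    have hx : 1 ≤ x := by
      rcases Nat.eq_zero_or_pos x with h | h
      · rw [h, Nat.cast_zero, zero_pow (by omega)] at hxe
        exact absurd hxe (lt_irrefl _)
      · exact h
    have hxr : (1 : ℝ) ≤ x := by exact_mod_cast hx
    have hcube : (N : ℝ) ^ (1 / 3 : ℝ) ≤ (x : ℝ) ^ f.natDegree := by
      refine le_trans ?_ hx1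
      exact le_mul_of_one_le_right (by positivity) (one_le_pow₀ hL1)
    -- the values
    have hval : ∀ i, ∀ m ∈ Icc 1 x, |(((F i).eval (m : ℤ) : ℤ) : ℝ)| ≤ N / L ^ (C1 + U + 2) := by
      intro i m hm
      obtain ⟨g1, g2, g3⟩ := hF i
      have h6 := eval_le (F i) d g2 (L ^ T) g3 x m hm
      rw [le_div_iff₀ (by positivity)]
      calc |(((F i).eval (m : ℤ) : ℤ) : ℝ)| * L ^ (C1 + U + 2) ≤
          ((d : ℝ) + 1) * L ^ T * (x : ℝ) ^ (F i).natDegree * L ^ (C1 + U + 2) := by gcongr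
        _ ≤ L * L ^ T * (x : ℝ) ^ (F i).natDegree * L ^ (C1 + U + 2) := by gcongr
        _ = (x : ℝ) ^ (F i).natDegree * L ^ (C1 + T + U + 3) := by ring
        _ ≤ (x : ℝ) ^ (F i).natDegree * L ^ C := by
          apply mul_le_mul_of_nonneg_left _ (by positivity)
          exact pow_le_pow_right₀ hL1 (by omega)
        _ ≤ N := (hx12 i).2
    have hval2 : ∀ i, ∀ m ∈ Icc 1 x, |(((F i).eval (m : ℤ) : ℤ) : ℝ)| ≤ N / L ^ (U + 2) := by
      intro i m hm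
      refine (hval i m hm).trans ?_
      apply div_le_div_of_nonneg_left hN0.le (by positivity)
      exact pow_le_pow_right₀ hL1 (by omega)
    have haS2 : ∀ i, (N : ℝ) / L ^ (U + 2) < a i := by
      intro i
      by_contra hcon
      push Not at hcon
      apply haS
      rw [hS0, mem_biUnion]
      exact ⟨i, mem_univ i, mem_filter.2 ⟨haS', Nat.le_floor hcon⟩⟩
    have hpos : ∀ i, ∀ m ∈ Icc 1 x, 1 ≤ (a i : ℤ) + (F i).eval (m : ℤ) := by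
      intro i m hm
      have h6 := (abs_le.1 (hval2 i m hm)).1
      have h5 := haS2 i
      have h7 : (0 : ℝ) < (((a i : ℤ) + (F i).eval (m : ℤ) : ℤ) : ℝ) := by
        push_cast
        linarith
      have h8 : (0 : ℤ) < (a i : ℤ) + (F i).eval (m : ℤ) := by exact_mod_cast h7
      omega
    refine ⟨hpos, ?_⟩
    -- the grid point
    have hxL : L ^ (U + k + 5) ≤ x := by
      by_contra hcon
      push Not at hcon
      have h1 : (x : ℝ) ^ f.natDegree < N ^ (1 / 3 : ℝ) := by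
        calc (x : ℝ) ^ f.natDegree < (L ^ (U + k + 5)) ^ f.natDegree := pow_lt_pow_left₀ hcon (by linarith) (by omega)
          _ ≤ (L ^ (U + k + 5)) ^ d := pow_le_pow_right₀ (one_le_pow₀ hL1) hf2
          _ = L ^ ((U + k + 5) * d) := by rw [← pow_mul]
          _ ≤ _ := rpow_third_ge (by positivity) (by rw [← pow_mul, mul_comm]; exact hLp)
      linarith
    have hKx : K ≤ x := by
      have h1 : (K : ℝ) ≤ x := by
        refine hK2.trans (le_trans ?_ hxL)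
        rw [pow_succ L (U + k + 4)]
        have : (1 : ℝ) ≤ L ^ (U + k + 4) := one_le_pow₀ hL1
        nlinarith
      exact_mod_cast h1
    obtain ⟨α, β, ha1', ha2', hab1, hab2, hb⟩ := grid x K (by omega) hKx
    obtain ⟨x', hx'⟩ : ∃ x', x' = α * 2 ^ β := ⟨_, rfl⟩
    rw [← hx'] at hab1 hab2
    have hxN : x ≤ N := by
      have h1 : (x : ℝ) ≤ (x : ℝ) ^ f.natDegree := le_self_pow₀ hxr (by omega)
      have h2 : (x : ℝ) ^ f.natDegree ≤ (x : ℝ) ^ f.natDegree * L ^ C := le_mul_of_one_le_right hxe.le (one_le_pow₀ hL1)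
      exact_mod_cast (h1.trans h2).trans hx2
    have hmemG : x' ∈ G := by
      rw [hGd, mem_image]
      refine ⟨(α, β), ?_, hx'.symm⟩
      rw [mem_product, mem_Icc, mem_range]
      refine ⟨⟨ha1', ha2'⟩, ?_⟩
      have := Nat.le_log_of_pow_le (by norm_num : 1 < 2) (hb.trans hxN)
      exact Nat.lt_succ_of_le this
    have h2x : x ≤ 2 * x' := by
      have h1 : (x - x') * 2 ≤ (x - x') * K := Nat.mul_le_mul_left _ hKtwo
      omega
    have h2xr : (x : ℝ) ≤ 2 * x' := by exact_mod_cast h2x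
    have hx'x : (x' : ℝ) ≤ x := by exact_mod_cast hab1
    have hc1 : ∀ i, (N : ℝ) ^ (1 / 3 : ℝ) * L ^ C1 ≤ (x' : ℝ) ^ (F i).natDegree := by
      intro i
      have h1 : (x : ℝ) ^ (F i).natDegree ≤ L * (x' : ℝ) ^ (F i).natDegree := by
        calc (x : ℝ) ^ (F i).natDegree ≤ (2 * (x' : ℝ)) ^ (F i).natDegree := pow_le_pow_left₀ (Nat.cast_nonneg _) h2xr _
          _ = 2 ^ (F i).natDegree * (x' : ℝ) ^ (F i).natDegree := mul_pow _ _ _
          _ ≤ 2 ^ d * (x' : ℝ) ^ (F i).natDegree := by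
            apply mul_le_mul_of_nonneg_right _ (by positivity)
            exact pow_le_pow_right₀ (by norm_num) (hF i).2.1
          _ ≤ _ := mul_le_mul_of_nonneg_right hL2d (by positivity)
      have h2 : (N : ℝ) ^ (1 / 3 : ℝ) * L ^ C1 * L ≤ (N : ℝ) ^ (1 / 3 : ℝ) * L ^ C := by
        rw [mul_assoc, ← pow_succ]
        apply mul_le_mul_of_nonneg_left _ (by positivity)
        exact pow_le_pow_right₀ hL1 (by omega)
      have h3 : (N : ℝ) ^ (1 / 3 : ℝ) * L ^ C1 * L ≤ (x' : ℝ) ^ (F i).natDegree * L := by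
        rw [mul_comm ((x' : ℝ) ^ (F i).natDegree) L]
        exact h2.trans ((hx12 i).1.trans h1)
      exact le_of_mul_le_mul_right h3 hL0
    have hc2 : ∀ i, (x' : ℝ) ^ (F i).natDegree * L ^ (C1 + T + 1) ≤ N := by
      intro i
      refine le_trans ?_ (hx12 i).2
      apply mul_le_mul (pow_le_pow_left₀ (Nat.cast_nonneg _) hx'x _) _ (by positivity) (by positivity)
      exact pow_le_pow_right₀ hL1 (by omega)
    have hmemQ : (F, x') ∈ Q := by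
      rw [hQ, mem_filter, mem_product, Fintype.mem_piFinset]
      exact ⟨⟨fun i => hP (F i) (hF i).2.1 (hF i).2.2, hmemG⟩, fun i => ⟨hF i, hc1 i, hc2 i⟩⟩
    have g1 : |∑ m ∈ Icc 1 x', w m * (∏ i, u i ((a i : ℤ) + (F i).eval (m : ℤ)) -
        ∏ i, v i ((a i : ℤ) + (F i).eval (m : ℤ)))| ≤ x' / L ^ (U + 2) := by
      by_contra hcon
      push Not at hcon
      apply haB1
      rw [mem_biUnion]
      refine ⟨(F, x'), hmemQ, ?_⟩
      rw [hB1]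
      exact mem_filter.2 ⟨haS', hcon⟩
    have hbd : ∀ i, ∀ m ∈ Icc 1 x, (0 ≤ u i ((a i : ℤ) + (F i).eval (m : ℤ)) ∧ u i ((a i : ℤ) + (F i).eval (m : ℤ)) ≤ 2 * L) ∧
        (0 ≤ v i ((a i : ℤ) + (F i).eval (m : ℤ)) ∧ v i ((a i : ℤ) + (F i).eval (m : ℤ)) ≤ 2 * L) := by
      intro i m hm
      have h7 : |(((F i).eval (m : ℤ) : ℤ) : ℝ)| ≤ N := (hval2 i m hm).trans (div_le_self hN0.le (one_le_pow₀ hL1))
      rw [← Int.cast_abs] at h7
      have h8 : |(F i).eval (m : ℤ)| ≤ N := by exact_mod_cast h7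
      have h9 := (abs_le.1 h8).2
      have h10 := ha1 i
      rw [mem_Icc] at h10
      exact hbnd i _ (by omega)
    apply fin_sys x x' k U w (fun m => ∏ i, u i ((a i : ℤ) + (F i).eval (m : ℤ)))
      (fun m => ∏ i, v i ((a i : ℤ) + (F i).eval (m : ℤ))) L hL6 hL2k hw _ _ hab1 _ g1
    · intro m hm
      refine ⟨prod_nonneg fun i _ => (hbd i m hm).1.1, ?_⟩
      calc ∏ i, u i ((a i : ℤ) + (F i).eval (m : ℤ)) ≤ ∏ _i : Fin k, (2 * L) :=
            prod_le_prod (fun i _ => (hbd i m hm).1.1) fun i _ => (hbd i m hm).1.2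
        _ = _ := by rw [prod_const, card_univ, Fintype.card_fin]
    · intro m hm
      refine ⟨prod_nonneg fun i _ => (hbd i m hm).2.1, ?_⟩
      calc ∏ i, v i ((a i : ℤ) + (F i).eval (m : ℤ)) ≤ ∏ _i : Fin k, (2 * L) :=
            prod_le_prod (fun i _ => (hbd i m hm).2.1) fun i _ => (hbd i m hm).2.2
        _ = _ := by rw [prod_const, card_univ, Fintype.card_fin]
    · have h1 : (((x - x') * K : ℕ) : ℝ) ≤ x := by exact_mod_cast hab2
      rw [Nat.cast_mul, Nat.cast_sub hab1] at h1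
      refine le_trans ?_ h1
      exact mul_le_mul_of_nonneg_left hK1 (by linarith)

lemma Adm_mono {N d T C C' : ℕ} (h : C ≤ C') (hL : 1 ≤ Real.log N) {f : ℤ[X]} {x : ℕ} (hA : Adm N d T C' f x) : Adm N d T C f x := by
  obtain ⟨h1, h2, h3, h4, h5, h6⟩ := hA
  refine ⟨h1, h2, h3, le_trans ?_ h4, h5, fun m hm => le_trans ?_ (h6 m hm)⟩
  · apply mul_le_mul_of_nonneg_left _ (by positivity)
    exact pow_le_pow_right₀ hL h
  · apply mul_le_mul_of_nonneg_left _ (abs_nonneg _)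
    exact pow_le_pow_right₀ hL h

/-- the functions: primes, Liouville sign `1`, Liouville sign `-1` -/
noncomputable def uu (t : Fin 3) (n : ℤ) : ℝ :=
  if t = 0 then thp n.toNat else if t = 1 then (1 + gI lio n) / 2 else (1 - gI lio n) / 2

/-- the models -/
noncomputable def vv (z : ℕ) (t : Fin 3) (n : ℤ) : ℝ := if t = 0 then lamzI z n else 1 / 2

lemma gI_lio_le (n : ℤ) : |gI lio n| ≤ 1 := by
  unfold gI
  split_ifs
  · exact Pool.Agent.Run7.h458.MK.abs_lio_le _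
  · rw [abs_zero]
    exact zero_le_one

/-- **Mixed systems.** -/
theorem sys_mix (k d T U : ℕ) (hk : 1 ≤ k) : ∃ C B : ℕ, ∀ E : ℕ, ∃ N₀ : ℕ, ∀ N : ℕ, N₀ ≤ N → ∀ z : ℕ,
    Real.log N ^ B ≤ z → (z : ℝ) ≤ Real.log N ^ E → ∀ t : Fin k → Fin 3, ∀ w : ℕ → ℝ, (∀ m, |w m| ≤ 1) →
    ∃ Ex : Finset (Fin k → ℕ), (Ex.card : ℝ) ≤ (N : ℝ) ^ k / Real.log N ^ U ∧
    ∀ a ∈ Fintype.piFinset (fun _ : Fin k => Icc 1 N), a ∉ Ex → ∀ F : Fin k → ℤ[X],
      (∀ i, 1 ≤ (F i).natDegree ∧ (F i).natDegree ≤ d ∧ ∀ j, |(((F i).coeff j : ℤ) : ℝ)| ≤ Real.log N ^ T) → ∀ x : ℕ,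
      (∀ i, (N : ℝ) ^ (1 / 3 : ℝ) * Real.log N ^ C ≤ (x : ℝ) ^ (F i).natDegree ∧
        (x : ℝ) ^ (F i).natDegree * Real.log N ^ C ≤ N) →
      (∀ i, ∀ m ∈ Icc 1 x, 1 ≤ (a i : ℤ) + (F i).eval (m : ℤ)) ∧
      |∑ m ∈ Icc 1 x, w m * ∏ i, uu (t i) ((a i : ℤ) + (F i).eval (m : ℤ)) -
        ∑ m ∈ Icc 1 x, w m * ∏ i, vv z (t i) ((a i : ℤ) + (F i).eval (m : ℤ))| ≤ x / Real.log N ^ U := by
  obtain ⟨U1, hU1⟩ : ∃ U1, U1 = 4 * k + ((T + 1) * (d + 1) * k + (U + k + 7)) + 2 * (U + 2) + (U + 2) := ⟨_, rfl⟩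
  obtain ⟨Ca, B, hms⟩ := ms_wt law' d T U1
  obtain ⟨Cb, N₄, hgw⟩ := ms_gw Pool.Agent.Run7.h458.MK.abs_lio_le law_lio d T U1
  refine ⟨(Ca + Cb) + T + U + 6, B, fun E => ?_⟩
  obtain ⟨N₁, hms⟩ := hms E
  obtain ⟨N₂, hVz⟩ := Vz_inv_small E
  obtain ⟨N₃, hev⟩ := ev (3 * ((U + k + 5) * d)) (9 + d + 2 ^ d + 2 ^ k + k)
  refine ⟨N₁ + N₂ + N₃ + N₄ + 3, fun N hN z hz1 hz2 t w hw => ?_⟩
  have hms := hms N (by omega) z hz1 hz2
  have hgw := hgw N (by omega)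
  obtain ⟨hLK, hLp⟩ := hev N (by omega)
  have hN2 : 2 ≤ N := by omega
  have hVz := hVz N (by omega)
  obtain ⟨L, hL⟩ : ∃ L, L = Real.log (N : ℝ) := ⟨_, rfl⟩
  rw [← hL] at hms hgw hLK hLp hz1 hz2 hVz ⊢
  have hd0 : (0 : ℝ) ≤ d := Nat.cast_nonneg _
  have hk0 : (0 : ℝ) ≤ k := Nat.cast_nonneg _
  have q1 : (0 : ℝ) ≤ (2 : ℝ) ^ d := by positivity
  have q2 : (0 : ℝ) ≤ (2 : ℝ) ^ k := by positivity
  have hL6 : 6 ≤ L := by linarith
  have hL1 : 1 ≤ L := by linarith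
  have hL0 : 0 < L := by linarith
  have hz : 1 ≤ z := by
    have h1 : (1 : ℝ) ≤ z := (one_le_pow₀ hL1).trans hz1
    exact_mod_cast h1
  have hVz := hVz z hz hz2
  have h2L : Real.log ((2 * N : ℕ) : ℝ) ≤ 2 * L := by
    rw [hL]
    exact log_two_N N hN2
  refine sys_det k d T U (Ca + Cb) N hk hN2 L hL hL6 (by linarith) (by linarith) (by linarith) (by linarith) hLp
    (fun i => uu (t i)) (fun i => vv z (t i)) ?_ ?_ w hw
  · intro i f x hadm K w hK hw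
    rw [← hU1]
    have hA : Adm N d T Ca f x := Adm_mono (by omega) (by rw [← hL]; exact hL1) hadm
    have hB : Adm N d T Cb f x := Adm_mono (by omega) (by rw [← hL]; exact hL1) hadm
    by_cases h0 : t i = 0
    · have h1 := hms f x hA K w hK hw
      refine le_trans (le_of_eq ?_) h1
      refine sum_congr rfl fun n _ => ?_
      congr 1
      refine sum_congr rfl fun m _ => ?_
      unfold uu vv Dt
      rw [if_pos h0, if_pos h0]
    · by_cases h1 : t i = 1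
      · have h2 := hgw f x hB K (fun m => w m / 2) hK (fun m hm => by
          rw [abs_div, abs_two]
          have := hw m hm
          linarith [abs_nonneg (w m)])
        refine le_trans (le_of_eq ?_) h2
        refine sum_congr rfl fun n _ => ?_
        congr 1
        refine sum_congr rfl fun m _ => ?_
        unfold uu vv
        rw [if_neg h0, if_pos h1, if_neg h0]
        ring
      · have h2 := hgw f x hB K (fun m => -w m / 2) hK (fun m hm => by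
          rw [abs_div, abs_two, abs_neg]
          have := hw m hm
          linarith [abs_nonneg (w m)])
        refine le_trans (le_of_eq ?_) h2
        refine sum_congr rfl fun n _ => ?_
        congr 1
        refine sum_congr rfl fun m _ => ?_
        unfold uu vv
        rw [if_neg h0, if_neg h1, if_neg h0]
        ring
  · intro i n hn
    have hg := abs_le.1 (gI_lio_le n)
    by_cases h0 : t i = 0
    · unfold uu vv
      rw [if_pos h0, if_pos h0]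
      refine ⟨⟨thp_nonneg _, (thp_le (M := 2 * N) (by omega)).trans h2L⟩, ?_⟩
      have := lamzI_bd z L hL0.le hVz n
      exact ⟨this.1, by linarith [this.2]⟩
    · unfold uu vv
      rw [if_neg h0, if_neg h0]
      split_ifs
      · refine ⟨⟨by linarith [hg.1], by linarith [hg.2]⟩, by norm_num, by linarith⟩
      · refine ⟨⟨by linarith [hg.2], by linarith [hg.1]⟩, by norm_num, by linarith⟩

end Pool.Agent.Run7.h18.MK
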