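import Mathlib
import Pool.Agent.Run7.h18.MK.Hyb2

/-! Project MK: mixed systems (primes and parities of Omega) along all polynomials at once. The main term. -/

set_option autoImplicit false

namespace Pool.Agent.Run7.h18.MK

open Finset Filter Polynomial
open Pool.Agent.H373R2.T7 (lamz lamI lamzI Vz pz mem_pz Vz_pos Vz_le_one nuB PerB nuB_le Vz_inv_small rhoA)
open Pool.Agent.R460.SQ (thp ppw vm_split ppw_nn sum_ppw)
open Pool.Agent.Run7.h794.MK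

/-- the product of some of the forms -/
noncomputable def gS {k : ℕ} (I : Finset (Fin k)) (F : Fin k → ℤ[X]) (a : Fin k → ℕ) : ℤ[X] :=
  ∏ i ∈ I, (C ((a i : ℕ) : ℤ) + F i)

lemma gS_eval {k : ℕ} (I : Finset (Fin k)) (F : Fin k → ℤ[X]) (a : Fin k → ℕ) (m : ℤ) :
    (gS I F a).eval m = ∏ i ∈ I, (((a i : ℕ) : ℤ) + (F i).eval m) := by
  unfold gS
  rw [eval_prod]
  refine prod_congr rfl fun i _ => ?_
  rw [eval_add, eval_C]

lemma gS_deg {k : ℕ} (I : Finset (Fin k)) (F : Fin k → ℤ[X]) (a : Fin k → ℕ) (d : ℕ) (hF : ∀ i, (F i).natDegree ≤ d) :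
    (gS I F a).natDegree ≤ k * d := by
  unfold gS
  refine (natDegree_prod_le _ _).trans ?_
  have h1 : ∀ i ∈ I, (C ((a i : ℕ) : ℤ) + F i).natDegree ≤ d := by
    intro i _
    refine (natDegree_add_le _ _).trans ?_
    rw [natDegree_C]
    exact max_le (Nat.zero_le _) (hF i)
  refine (sum_le_sum h1).trans ?_
  rw [sum_const, smul_eq_mul]
  apply Nat.mul_le_mul_right
  have := card_le_univ I
  rwa [Fintype.card_fin] at this

lemma prod_lamz_I {k : ℕ} (I : Finset (Fin k)) (F : Fin k → ℤ[X]) (a : Fin k → ℕ) (z m : ℕ)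
    (h : ∀ i, 1 ≤ (a i : ℤ) + (F i).eval (m : ℤ)) :
    ∏ i ∈ I, lamzI z ((a i : ℤ) + (F i).eval (m : ℤ)) =
      open Classical in if ∀ p ∈ pz z, ¬ Rt (gS I F a) 0 p m then (Vz z)⁻¹ ^ I.card else 0 := by
  classical
  have h1 : ∀ i ∈ I, lamzI z ((a i : ℤ) + (F i).eval (m : ℤ)) =
      if ∀ p ∈ pz z, ¬ (p : ℤ) ∣ (a i : ℤ) + (F i).eval (m : ℤ) then (Vz z)⁻¹ else 0 := by
    intro i _
    unfold lamzI lamz
    rw [if_pos (h i)]
    have h2 : (∀ p ∈ pz z, ¬ p ∣ ((a i : ℤ) + (F i).eval (m : ℤ)).toNat) ↔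
        (∀ p ∈ pz z, ¬ (p : ℤ) ∣ (a i : ℤ) + (F i).eval (m : ℤ)) := by
      have hi := h i
      refine forall₂_congr fun p _ => not_congr ?_
      constructor
      · intro h3
        have h4 := Int.natCast_dvd_natCast.2 h3
        rwa [Int.toNat_of_nonneg (by omega)] at h4
      · intro h3
        apply Int.natCast_dvd_natCast.1
        rwa [Int.toNat_of_nonneg (by omega)]
    by_cases h3 : ∀ p ∈ pz z, ¬ (p : ℤ) ∣ (a i : ℤ) + (F i).eval (m : ℤ)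
    · rw [if_pos (h2.2 h3), if_pos h3]
    · rw [if_neg (fun h4 => h3 (h2.1 h4)), if_neg h3]
  rw [prod_congr rfl h1, prod_ite_zero, prod_const]
  have h5 : (∀ i ∈ I, ∀ p ∈ pz z, ¬ (p : ℤ) ∣ (a i : ℤ) + (F i).eval (m : ℤ)) ↔
      (∀ p ∈ pz z, ¬ Rt (gS I F a) 0 p m) := by
    have h6 : ∀ p ∈ pz z, Rt (gS I F a) 0 p m ↔ ∃ i ∈ I, (p : ℤ) ∣ (a i : ℤ) + (F i).eval (m : ℤ) := by
      intro p hp
      have hpi : Prime (p : ℤ) := Nat.prime_iff_prime_int.1 (mem_pz.1 hp).2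
      unfold Rt
      rw [zero_add, gS_eval, hpi.dvd_finsetProd_iff]
    constructor
    · intro h7 p hp h8
      obtain ⟨i, hi1, hi⟩ := (h6 p hp).1 h8
      exact h7 i hi1 p hp hi
    · intro h7 i hi p hp h8
      exact h7 p hp ((h6 p hp).2 ⟨i, hi, h8⟩)
  by_cases h6 : ∀ p ∈ pz z, ¬ Rt (gS I F a) 0 p m
  · rw [if_pos (h5.2 h6), if_pos h6]
  · rw [if_neg (fun h7 => h6 (h5.1 h7)), if_neg h6]

/-- the coordinates asked to be primes -/
def It {k : ℕ} (t : Fin k → Fin 3) : Finset (Fin k) := univ.filter (fun i => t i = 0)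

/-- the expected density of a mixed system -/
noncomputable def densT {k : ℕ} (t : Fin k → Fin 3) (g : ℤ[X]) (z : ℕ) : ℝ :=
  (1 / 2) ^ (univ.filter (fun i => ¬ t i = 0)).card * dens g (It t).card z

lemma prod_vv {k : ℕ} (t : Fin k → Fin 3) (F : Fin k → ℤ[X]) (a : Fin k → ℕ) (z m : ℕ)
    (h : ∀ i, 1 ≤ (a i : ℤ) + (F i).eval (m : ℤ)) :
    ∏ i, vv z (t i) ((a i : ℤ) + (F i).eval (m : ℤ)) =
      open Classical in if ∀ p ∈ pz z, ¬ Rt (gS (It t) F a) 0 p m then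
        (1 / 2) ^ (univ.filter (fun i => ¬ t i = 0)).card * (Vz z)⁻¹ ^ (It t).card else 0 := by
  classical
  unfold vv
  rw [prod_ite, prod_const]
  have h1 := prod_lamz_I (It t) F a z m h
  unfold It at h1 ⊢
  rw [h1]
  split_ifs
  · ring
  · ring

lemma sum_prod_vv {k : ℕ} (t : Fin k → Fin 3) (F : Fin k → ℤ[X]) (a : Fin k → ℕ) (z x : ℕ)
    (h : ∀ i, ∀ m ∈ Icc 1 x, 1 ≤ (a i : ℤ) + (F i).eval (m : ℤ)) :
    ∑ m ∈ Icc 1 x, ∏ i, vv z (t i) ((a i : ℤ) + (F i).eval (m : ℤ)) =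
      (1 / 2) ^ (univ.filter (fun i => ¬ t i = 0)).card * (Vz z)⁻¹ ^ (It t).card *
        (((open Classical in (Icc 1 x).filter (fun m : ℕ => ∀ p ∈ pz z, ¬ Rt (gS (It t) F a) 0 p m)).card : ℕ) : ℝ) := by
  classical
  rw [← nsmul_eq_mul', ← sum_const, sum_filter]
  refine sum_congr rfl fun m hm => ?_
  rw [prod_vv t F a z m (fun i => h i m hm)]

lemma dens_zero (z : ℕ) : dens (1 : ℤ[X]) 0 z = 1 := by
  classical
  unfold dens
  rw [pow_zero, one_mul]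
  apply prod_eq_one
  intro p hp
  have h1 : nuB (Rt (1 : ℤ[X]) 0) p = 0 := by
    unfold nuB
    rw [card_eq_zero, filter_eq_empty_iff]
    intro r _ hr
    unfold Rt at hr
    rw [eval_one, zero_add] at hr
    have h2 : (p : ℤ) ≤ 1 := Int.le_of_dvd one_pos hr
    have h3 := (mem_pz.1 hp).2.two_le
    omega
  rw [h1, Nat.cast_zero, zero_div, sub_zero]

lemma densT_low {k : ℕ} (t : Fin k → Fin 3) (F : Fin k → ℤ[X]) (a : Fin k → ℕ) (d z : ℕ) (hk : 1 ≤ k) (hd : 1 ≤ d)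
    (hF : ∀ i, (F i).natDegree ≤ d) (L : ℝ) (hL : 1 ≤ L)
    (hL2 : (3 * (k * d : ℕ) : ℝ) ^ (3 * (k * d)) * Real.exp (2 * ((k * d : ℕ) : ℝ) ^ 2) ≤ L) (hLk : (2 : ℝ) ^ k ≤ L) (hV : (Vz z)⁻¹ ≤ L)
    (hfix : ∀ p : ℕ, p.Prime → ∃ m : ℤ, ¬ (p : ℤ) ∣ (gS (It t) F a).eval m) :
    1 / L ^ (k * d + 2) ≤ densT t (gS (It t) F a) z := by
  classical
  have hL0 : 0 < L := by linarith
  have h1 : 1 / L ^ (k * d + 1) ≤ dens (gS (It t) F a) (It t).card z := by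
    rcases Nat.eq_zero_or_pos (It t).card with h0 | h0
    · have e1 : It t = ∅ := card_eq_zero.1 h0
      have e2 : gS (It t) F a = 1 := by
        rw [e1]
        unfold gS
        rw [prod_empty]
      rw [e2, h0, dens_zero, div_le_one (by positivity)]
      exact one_le_pow₀ hL
    · exact dens_low (gS (It t) F a) (It t).card (k * d) z h0 (Nat.mul_pos hk hd) (gS_deg _ F a d hF) L hL hL2 hV hfix
  have h2 : 1 / L ≤ (1 / 2 : ℝ) ^ (univ.filter (fun i => ¬ t i = 0)).card := by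
    have h3 : (univ.filter (fun i => ¬ t i = 0)).card ≤ k := by
      have := card_le_univ (univ.filter (fun i => ¬ t i = 0))
      rwa [Fintype.card_fin] at this
    rw [one_div_pow]
    apply one_div_le_one_div_of_le (by positivity)
    exact (pow_le_pow_right₀ (by norm_num) h3).trans hLk
  unfold densT
  calc 1 / L ^ (k * d + 2) = 1 / L * (1 / L ^ (k * d + 1)) := by
        rw [one_div_mul_one_div, ← pow_succ']
    _ ≤ _ := mul_le_mul h2 h1 (by positivity) (by positivity)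

/-- **The hybrid Bateman-Horn-Chowla law for almost all constant terms and all systems at once.** -/
theorem sys_hyb (k d T U : ℕ) (hk : 1 ≤ k) (hd : 1 ≤ d) : ∃ C B : ℕ, ∀ E : ℕ, ∃ N₀ : ℕ, ∀ N : ℕ, N₀ ≤ N → ∀ z : ℕ,
    Real.log N ^ B ≤ z → (z : ℝ) ≤ Real.log N ^ E →
    ∃ Ex : Finset (Fin k → ℕ), (Ex.card : ℝ) ≤ (N : ℝ) ^ k / Real.log N ^ U ∧
    ∀ a ∈ Fintype.piFinset (fun _ : Fin k => Icc 1 N), a ∉ Ex → ∀ F : Fin k → ℤ[X],
      (∀ i, 1 ≤ (F i).natDegree ∧ (F i).natDegree ≤ d ∧ ∀ j, |(((F i).coeff j : ℤ) : ℝ)| ≤ Real.log N ^ T) → ∀ t : Fin k → Fin 3,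
      ((∀ p : ℕ, p.Prime → ∃ m : ℤ, ¬ (p : ℤ) ∣ (gS (It t) F a).eval m) →
        1 / Real.log N ^ (k * d + 2) ≤ densT t (gS (It t) F a) z) ∧ ∀ x : ℕ,
      (∀ i, (N : ℝ) ^ (1 / 3 : ℝ) * Real.log N ^ C ≤ (x : ℝ) ^ (F i).natDegree ∧ (x : ℝ) ^ (F i).natDegree * Real.log N ^ C ≤ N) →
      (∀ i, ∀ m ∈ Icc 1 x, 1 ≤ (a i : ℤ) + (F i).eval (m : ℤ)) ∧
      |∑ m ∈ Icc 1 x, ∏ i, uu (t i) ((a i : ℤ) + (F i).eval (m : ℤ)) - x * densT t (gS (It t) F a) z| ≤ x / Real.log N ^ U := by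
  classical
  obtain ⟨C, B, h⟩ := sys_mix k d T (U + 1) hk
  refine ⟨C, B, fun E => ?_⟩
  obtain ⟨N₁, h⟩ := h E
  have hkd : 1 ≤ k * d := Nat.mul_pos hk hd
  obtain ⟨X₀, hdet⟩ := det_poly (k * d) (2 * E) (U + k + 2 + 1) hkd
  obtain ⟨N₂, hVz⟩ := Vz_inv_small E
  obtain ⟨N₃, hev⟩ := ev 1 (9 + 3 * d * X₀ + (3 * d) ^ (U + k + 2 + 1) + 9 * d ^ 2 +
    (3 * (k * d : ℕ) : ℝ) ^ (3 * (k * d)) * Real.exp (2 * ((k * d : ℕ) : ℝ) ^ 2) + 3 ^ k)
  refine ⟨N₁ + N₂ + N₃ + 3, fun N hN z hz1 hz2 => ?_⟩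
  obtain ⟨hLK, -⟩ := hev N (by omega)
  have hN2 : 2 ≤ N := by omega
  have hN0 : (0 : ℝ) < N := by exact_mod_cast (by omega : 0 < N)
  have hVz := hVz N (by omega) z
  have hh := fun t => h N (by omega) z hz1 hz2 t (fun _ => 1) (fun _ => by rw [abs_one])
  choose Ex hE1 hE2 using hh
  obtain ⟨L, hL⟩ : ∃ L, L = Real.log (N : ℝ) := ⟨_, rfl⟩
  rw [← hL] at hLK hz1 hz2 hVz hE1 hE2 ⊢
  have hd0 : (1 : ℝ) ≤ d := by exact_mod_cast hd
  have hX0 : (0 : ℝ) ≤ X₀ := Nat.cast_nonneg _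
  have q2 : (0 : ℝ) ≤ 3 * d * X₀ := by positivity
  have q3 : (0 : ℝ) ≤ (3 * d : ℝ) ^ (U + k + 2 + 1) := by positivity
  have q4 : (0 : ℝ) ≤ 9 * (d : ℝ) ^ 2 := by positivity
  have q5 : (0 : ℝ) ≤ (3 * (k * d : ℕ) : ℝ) ^ (3 * (k * d)) * Real.exp (2 * ((k * d : ℕ) : ℝ) ^ 2) := by positivity
  have q6 : (0 : ℝ) ≤ (3 : ℝ) ^ k := by positivity
  have q7 : (2 : ℝ) ^ k ≤ 3 ^ k := pow_le_pow_left₀ (by norm_num) (by norm_num) k
  have hL8 : 8 ≤ L := by linarith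
  have hL1 : 1 ≤ L := by linarith
  have hL0 : 0 < L := by linarith
  have hz : 1 ≤ z := by
    have h1 : (1 : ℝ) ≤ z := (one_le_pow₀ hL1).trans hz1
    exact_mod_cast h1
  have hVz := hVz hz hz2
  refine ⟨univ.biUnion Ex, ?_, fun a ha haE F hF t => ⟨fun hfix => ?_, fun x hx12 => ?_⟩⟩
  · calc (((univ : Finset (Fin k → Fin 3)).biUnion Ex).card : ℝ) ≤ ∑ t : Fin k → Fin 3, ((Ex t).card : ℝ) := by
          exact_mod_cast card_biUnion_le
      _ ≤ ∑ _t : Fin k → Fin 3, (N : ℝ) ^ k / L ^ (U + 1) := sum_le_sum fun t _ => hE1 t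
      _ = 3 ^ k * ((N : ℝ) ^ k / L ^ (U + 1)) := by
          rw [sum_const, card_univ, Fintype.card_fun, Fintype.card_fin, Fintype.card_fin, nsmul_eq_mul, Nat.cast_pow]
          norm_num
      _ ≤ L * ((N : ℝ) ^ k / L ^ (U + 1)) := mul_le_mul_of_nonneg_right (by linarith) (by positivity)
      _ = _ := by
          rw [pow_succ]
          field_simp
  · exact densT_low t F a d z hk hd (fun i => (hF i).2.1) L hL1 (by linarith) (by linarith) hVz hfix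
  · have haE' : a ∉ Ex t := fun hc => haE (mem_biUnion.2 ⟨t, mem_univ t, hc⟩)
    obtain ⟨hpos, hmain⟩ := hE2 t a ha haE' F hF x hx12
    refine ⟨hpos, ?_⟩
    obtain ⟨s1, s2, s3, s4, s5, s6⟩ := sizes N d (U + k + 2) L hL hd hN2 hL1 (by linarith) (by linarith) X₀ (by linarith)
      (F ⟨0, hk⟩) (hF ⟨0, hk⟩).1 (hF ⟨0, hk⟩).2.1 x C (hx12 ⟨0, hk⟩).1 (hx12 ⟨0, hk⟩).2 E z hz2
    have g3 := hdet x s3 z hz s4 (gS (It t) F a) (gS_deg (It t) F a d fun i => (hF i).2.1) 0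
    have hx0 : (0 : ℝ) < x := by exact_mod_cast s1
    simp only [one_mul] at hmain
    rw [sum_prod_vv t F a z x hpos] at hmain
    have hV0 := inv_pos.2 (Vz_pos z)
    have hcard : (It t).card ≤ k := by
      have := card_le_univ (It t)
      rwa [Fintype.card_fin] at this
    have t2 : |(1 / 2) ^ (univ.filter (fun i => ¬ t i = 0)).card * (Vz z)⁻¹ ^ (It t).card *
        (((Icc 1 x).filter (fun m : ℕ => ∀ p ∈ pz z, ¬ Rt (gS (It t) F a) 0 p m)).card : ℝ) - x * densT t (gS (It t) F a) z| ≤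
        x / L ^ (U + 2) := by
      unfold densT dens
      have e1 : (1 / 2) ^ (univ.filter (fun i => ¬ t i = 0)).card * (Vz z)⁻¹ ^ (It t).card *
          (((Icc 1 x).filter (fun m : ℕ => ∀ p ∈ pz z, ¬ Rt (gS (It t) F a) 0 p m)).card : ℝ) -
          x * ((1 / 2) ^ (univ.filter (fun i => ¬ t i = 0)).card *
            ((Vz z)⁻¹ ^ (It t).card * ∏ p ∈ pz z, (1 - (nuB (Rt (gS (It t) F a) 0) p : ℝ) / p))) =
          (1 / 2) ^ (univ.filter (fun i => ¬ t i = 0)).card * (Vz z)⁻¹ ^ (It t).card *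
          ((((Icc 1 x).filter (fun m : ℕ => ∀ p ∈ pz z, ¬ Rt (gS (It t) F a) 0 p m)).card : ℝ) -
            x * ∏ p ∈ pz z, (1 - (nuB (Rt (gS (It t) F a) 0) p : ℝ) / p)) := by ring
      rw [e1, abs_mul, abs_of_pos (by positivity)]
      have g4 : |(((Icc 1 x).filter (fun m : ℕ => ∀ p ∈ pz z, ¬ Rt (gS (It t) F a) 0 p m)).card : ℝ) -
            x * ∏ p ∈ pz z, (1 - (nuB (Rt (gS (It t) F a) 0) p : ℝ) / p)| ≤ x / L ^ (U + k + 2) := by
        refine le_trans (le_of_eq ?_) (g3.trans s5)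
        congr!
      have g5 : (1 / 2 : ℝ) ^ (univ.filter (fun i => ¬ t i = 0)).card * (Vz z)⁻¹ ^ (It t).card ≤ L ^ k := by
        calc (1 / 2 : ℝ) ^ (univ.filter (fun i => ¬ t i = 0)).card * (Vz z)⁻¹ ^ (It t).card ≤ 1 * L ^ (It t).card := by
              apply mul_le_mul (pow_le_one₀ (by norm_num) (by norm_num)) (pow_le_pow_left₀ hV0.le hVz _) (by positivity) zero_le_one
          _ = L ^ (It t).card := one_mul _
          _ ≤ _ := pow_le_pow_right₀ hL1 hcard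
      calc (1 / 2) ^ (univ.filter (fun i => ¬ t i = 0)).card * (Vz z)⁻¹ ^ (It t).card *
            |(((Icc 1 x).filter (fun m : ℕ => ∀ p ∈ pz z, ¬ Rt (gS (It t) F a) 0 p m)).card : ℝ) -
            x * ∏ p ∈ pz z, (1 - (nuB (Rt (gS (It t) F a) 0) p : ℝ) / p)| ≤ L ^ k * (x / L ^ (U + k + 2)) :=
              mul_le_mul g5 g4 (abs_nonneg _) (by positivity)
        _ = _ := by
          have e2 : L ^ (U + k + 2) = L ^ k * L ^ (U + 2) := by rw [← pow_add]; congr 1; ring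
          rw [e2]
          field_simp
    have e3 : (x : ℝ) / L ^ (U + 2) ≤ x / L ^ (U + 1) := by
      apply div_le_div_of_nonneg_left (Nat.cast_nonneg _) (by positivity)
      exact pow_le_pow_right₀ hL1 (by omega)
    have e4 : 2 * ((x : ℝ) / L ^ (U + 1)) ≤ x / L ^ U := by
      have e5 : (x : ℝ) / L ^ U = L * (x / L ^ (U + 1)) := by
        rw [pow_succ]
        field_simp
      rw [e5]
      apply mul_le_mul_of_nonneg_right _ (by positivity)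
      linarith
    have b1 := abs_le.1 hmain
    have b2 := abs_le.1 t2
    rw [abs_le]
    constructor <;> linarith [b1.1, b1.2, b2.1, b2.2]

end Pool.Agent.Run7.h18.MK
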